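import Pool.Agent.CAB.Mlt

/-!
# Extending derivations; the expansion of the function field
-/

namespace Pool.Agent.CAB

open Polynomial

variable {S T K L : Type*} [CommRing S] [CommRing T] [Field K] [Field L] {a b : ℕ}

/-- Coefficientwise derivation of polynomials. -/
noncomputable def pder (D : Der S) : Der S[X] where
  toFun p := p.sum fun n s => monomial n (D s)
  map_zero' := by simp
  map_add' p q := by
    rw [Polynomial.sum_add_index]
    · intro i; simp
    · intro i s t; simp
  leib' p q := by
    have key : ∀ (r : S[X]) (n : ℕ), (r.sum fun n s => monomial n (D s)).coeff n =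
        D (r.coeff n) := by
      intro r n
      rw [Polynomial.sum_def, Polynomial.finsetSum_coeff]
      simp only [Polynomial.coeff_monomial]
      rw [Finset.sum_ite_eq']
      split_ifs with h
      · rfl
      · rw [Polynomial.notMem_support_iff.1 h, map_zero]
    ext n
    rw [key, Polynomial.coeff_mul, Polynomial.coeff_add, Polynomial.coeff_mul,
      mul_comm q, Polynomial.coeff_mul, map_sum, ← Finset.sum_add_distrib]
    refine Finset.sum_congr rfl fun x _ => ?_
    rw [Der.leib, key, key]
    ring

@[simp] lemma coeff_pder (D : Der S) (p : S[X]) (n : ℕ) :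
    (pder D p).coeff n = D (p.coeff n) := by
  show (p.sum fun n s => monomial n (D s)).coeff n = _
  rw [Polynomial.sum_def, Polynomial.finsetSum_coeff]
  simp only [Polynomial.coeff_monomial]
  rw [Finset.sum_ite_eq']
  split_ifs with h
  · rfl
  · rw [Polynomial.notMem_support_iff.1 h, map_zero]

lemma der_pow_zero {R : Type*} [CommRing R] (D : Der R) {y : R} (h : D y = 0) (n : ℕ) :
    D (y ^ n) = 0 := by
  have hy : y ∈ D.consts := h
  exact D.consts.pow_mem hy n

/-- Derivations and evaluation. -/
lemma der_eval₂ {R A : Type*} [CommRing R] [CommRing A] {f : R →+* A} {dR : Der R} {dA : Der A}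
    (h : Der.Ext dR dA f) {y : A} (hy : dA y = 0) (p : R[X]) :
    dA (p.eval₂ f y) = (pder dR p).eval₂ f y := by
  induction p using Polynomial.induction_on' with
  | add p q hp hq => rw [eval₂_add, map_add, hp, hq, map_add, eval₂_add]
  | monomial n r =>
    have h1 : pder dR (monomial n r) = monomial n (dR r) := by
      ext m
      rw [coeff_pder, coeff_monomial, coeff_monomial]
      split_ifs <;> simp
    rw [h1, eval₂_monomial, eval₂_monomial, Der.leib, der_pow_zero dA hy, h r]
    ring

/-- The derivative of polynomials. -/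
noncomputable def dpoly (S : Type*) [CommRing S] : Der S[X] where
  toFun p := derivative p
  map_zero' := by simp
  map_add' p q := by simp
  leib' p q := by rw [derivative_mul]; ring

lemma dpoly_apply (p : S[X]) : dpoly S p = derivative p := rfl

lemma dX_eq (P : S[X][X]) : dX P = pder (dpoly S) P := rfl

lemma lder_ev_mk {D : Der S} {C : Crv a b S} (hc : Cst D C) (Q : S[X][X]) :
    lder D (C.ev (AdjoinRoot.mk C.P Q)) = C.ev (AdjoinRoot.mk C.P (pder (pder D) Q)) := by
  have h0 : Der.Ext D (lder D) HahnSeries.C := by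
    intro s
    ext n
    rw [coeff_lder, HahnSeries.C_apply, HahnSeries.C_apply, HahnSeries.coeff_single,
      HahnSeries.coeff_single]
    split_ifs <;> simp
  have h1 : Der.Ext (pder D) (lder D) (eval₂RingHom HahnSeries.C C.x) := by
    intro p
    exact der_eval₂ h0 hc.x p
  have h2 := der_eval₂ h1 hc.y Q
  simpa [Crv.ev] using h2

/-- A derivation of the polynomial ring preserving the ideal of `P` descends. -/
lemma exists_quot_der {A : Type*} [CommRing A] {P : A[X]} (d : Der A[X]) (h : P ∣ d P) :
    ∃ d' : Der (AdjoinRoot P), ∀ q, d' (AdjoinRoot.mk P q) = AdjoinRoot.mk P (d q) := by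
  have hs := AdjoinRoot.mk_surjective (g := P)
  have key : ∀ p q : A[X], AdjoinRoot.mk P p = AdjoinRoot.mk P q →
      AdjoinRoot.mk P (d p) = AdjoinRoot.mk P (d q) := by
    intro p q hpq
    obtain ⟨w, hw⟩ := AdjoinRoot.mk_eq_mk.1 hpq
    apply AdjoinRoot.mk_eq_mk.2
    rw [← map_sub, hw, Der.leib]
    exact dvd_add (dvd_mul_right _ _) (h.mul_left w)
  have key2 : ∀ q : A[X], AdjoinRoot.mk P (d (Function.surjInv hs (AdjoinRoot.mk P q))) =
      AdjoinRoot.mk P (d q) := fun q => key _ _ (Function.surjInv_eq hs _)
  refine ⟨{ toFun := fun z => AdjoinRoot.mk P (d (Function.surjInv hs z))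
            map_zero' := ?_
            map_add' := ?_
            leib' := ?_ }, fun q => key2 q⟩
  · rw [← map_zero (AdjoinRoot.mk P), key2, map_zero, map_zero]
  · intro z w
    obtain ⟨p, rfl⟩ := hs z
    obtain ⟨q, rfl⟩ := hs w
    rw [← map_add (AdjoinRoot.mk P), key2, key2, key2, map_add, map_add]
  · intro z w
    obtain ⟨p, rfl⟩ := hs z
    obtain ⟨q, rfl⟩ := hs w
    show AdjoinRoot.mk P (d (Function.surjInv hs (AdjoinRoot.mk P p * AdjoinRoot.mk P q))) =
      AdjoinRoot.mk P p * AdjoinRoot.mk P (d (Function.surjInv hs (AdjoinRoot.mk P q))) +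
      AdjoinRoot.mk P q * AdjoinRoot.mk P (d (Function.surjInv hs (AdjoinRoot.mk P p)))
    rw [← map_mul (AdjoinRoot.mk P), key2, key2, key2, Der.leib, map_add, map_mul, map_mul]

lemma aff_ind {P : S[X][X]} {p : Aff P → Prop}
    (hc : ∀ s, p (AdjoinRoot.of P (C s))) (hx : p (AdjoinRoot.of P X)) (hy : p (AdjoinRoot.root P))
    (hadd : ∀ z w, p z → p w → p (z + w)) (hmul : ∀ z w, p z → p w → p (z * w)) (z : Aff P) :
    p z := by
  have hpow : ∀ z, p z → ∀ n : ℕ, p (z ^ n) := by
    intro z hz n
    induction n with
    | zero =>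
      have := hc 1
      rwa [map_one, map_one, ← pow_zero z] at this
    | succ n ih => rw [pow_succ]; exact hmul _ _ ih hz
  have h1 : ∀ q : S[X], p (AdjoinRoot.of P q) := by
    intro q
    induction q using Polynomial.induction_on' with
    | add q r hq hr => rw [map_add]; exact hadd _ _ hq hr
    | monomial n s =>
      rw [← C_mul_X_pow_eq_monomial, map_mul, map_pow]
      exact hmul _ _ (hc s) (hpow _ hx n)
  obtain ⟨q, rfl⟩ := AdjoinRoot.mk_surjective z
  induction q using Polynomial.induction_on' with
  | add q r hq hr => rw [map_add]; exact hadd _ _ hq hr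
  | monomial n s =>
    rw [← C_mul_X_pow_eq_monomial, map_mul, map_pow]
    exact hmul _ _ (by simpa using h1 s) (hpow _ (by simpa using hy) n)

/-- `L` is the fraction field of `R` through `i`. -/
structure Frc {R : Type*} [CommRing R] (i : R →+* L) : Prop where
  inj : Function.Injective i
  frac : ∀ z : L, ∃ p q : R, q ≠ 0 ∧ z * i q = i p

lemma natDegree_pder_lt {D : Der S} {P : S[X][X]} (hP : P.Monic) [Nontrivial S] :
    (pder (pder D) P).degree < P.degree := by
  rw [Polynomial.degree_eq_natDegree hP.ne_zero, Polynomial.degree_lt_iff_coeff_zero]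
  intro m hm
  rw [coeff_pder]
  rcases (Nat.lt_or_ge P.natDegree m) with h | h
  · rw [Polynomial.coeff_eq_zero_of_natDegree_lt h, map_zero]
  · have : m = P.natDegree := le_antisymm h hm
    rw [this, hP.coeff_natDegree, Der.map_one]

/-- A derivation killing the coefficients of the expansions kills the coefficients of the
equation. Proof: apply `lder D` to `P(x, y) = 0`; the result is `Q(x, y) = 0` where `Q` is `P`
with `D` applied to the coefficients, of `y`-degree `< a` (`P` is monic), so its class in the
affine ring is zero by injectivity of `ev`, hence `Q = 0`. -/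
theorem Cst.coeff (hn : Num a b) {D : Der S} {C : Crv a b S} [Nontrivial S] (hc : Cst D C)
    (i j : ℕ) : D ((C.P.coeff j).coeff i) = 0 := by
  have h1 := lder_ev_mk hc C.P
  rw [AdjoinRoot.mk_self, map_zero, map_zero] at h1
  have h2 : AdjoinRoot.mk C.P (pder (pder D) C.P) = 0 := by
    apply C.ev_injective hn.co (by have := hn.ha; omega)
    rw [← h1, map_zero]
  have h3 : pder (pder D) C.P = 0 := by
    by_contra hne
    exact C.cab.monic.not_dvd_of_degree_lt hne (natDegree_pder_lt C.cab.monic)
      (AdjoinRoot.mk_eq_zero.1 h2)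
  have h4 : ((pder (pder D) C.P).coeff j).coeff i = 0 := by rw [h3]; simp
  simpa using h4

/-- The coefficientwise derivation of the affine ring. -/
theorem exists_aD (hn : Num a b) {D : Der S} {C : Crv a b S} (hc : Cst D C) :
    ∃ d : Der (Aff C.P), (∀ z, C.ev (d z) = lder D (C.ev z)) ∧ (∀ s, d (C.cc s) = C.cc (D s)) ∧
      d C.gx = 0 ∧ d C.gy = 0 := by
  have hinj := C.ev_injective hn.co (by have := hn.ha; omega)
  choose d hd using hc.lder_ev
  refine ⟨{ toFun := d
            map_zero' := ?_
            map_add' := ?_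
            leib' := ?_ }, hd, ?_, ?_, ?_⟩
  · apply hinj
    rw [hd, map_zero, map_zero]
  · intro z w
    apply hinj
    rw [hd, map_add, map_add, map_add, hd, hd]
  · intro z w
    apply hinj
    show C.ev (d (z * w)) = C.ev (z * d w + w * d z)
    rw [hd, map_mul, Der.leib, map_add, map_mul, map_mul, hd, hd]
  · intro s
    apply hinj
    show C.ev (d (C.cc s)) = _
    rw [hd, C.ev_cc, C.ev_cc]
    ext n
    rw [coeff_lder, HahnSeries.C_apply, HahnSeries.C_apply, HahnSeries.coeff_single,
      HahnSeries.coeff_single]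
    split_ifs <;> simp
  · apply hinj
    show C.ev (d C.gx) = _
    rw [hd, C.ev_gx, hc.x, map_zero]
  · apply hinj
    show C.ev (d C.gy) = _
    rw [hd, C.ev_gy, hc.y, map_zero]

/-- The derivation `f ↦ P_y f_x - P_x f_y` of the affine ring, killing constants. Proof: on
`S[x][y]` the map `Q ↦ P_y Q_x - P_x Q_y` is a derivation killing `P`. -/
theorem exists_tangent (C : Crv a b S) :
    ∃ d : Der (Aff C.P), (∀ s, d (C.cc s) = 0) ∧
      d C.gx = AdjoinRoot.mk C.P (derivative C.P) ∧ d C.gy = - AdjoinRoot.mk C.P (dX C.P) := by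
  let e : Der (S[X][X]) :=
    { toFun := fun Q => derivative C.P * dX Q - dX C.P * derivative Q
      map_zero' := by simp [dX]
      map_add' := by
        intro p q
        simp only [dX_eq, map_add]
        ring
      leib' := by
        intro p q
        simp only [dX_eq, Der.leib, derivative_mul]
        ring }
  have he : ∀ Q, e Q = derivative C.P * dX Q - dX C.P * derivative Q := fun Q => rfl
  have h0 : C.P ∣ e C.P := by
    rw [he]
    have : derivative C.P * dX C.P - dX C.P * derivative C.P = 0 := by ring
    rw [this]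
    exact dvd_zero _
  obtain ⟨d, hd⟩ := exists_quot_der e h0
  have hX : dX (Polynomial.C (X : S[X])) = 1 := by
    rw [dX_eq]
    ext i j
    rw [coeff_pder, Polynomial.coeff_C]
    split_ifs with h
    · rw [dpoly_apply, derivative_X, h, Polynomial.coeff_one_zero]
    · rw [map_zero, Polynomial.coeff_one, if_neg h]
  have hXX : dX (X : S[X][X]) = 0 := by
    rw [dX_eq]
    ext i j
    rw [coeff_pder, Polynomial.coeff_X]
    split_ifs <;> simp [dpoly_apply]
  have hCC : ∀ s : S, dX (Polynomial.C (Polynomial.C s)) = 0 := by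
    intro s
    rw [dX_eq]
    ext i j
    rw [coeff_pder, Polynomial.coeff_C]
    split_ifs <;> simp [dpoly_apply]
  refine ⟨d, ?_, ?_, ?_⟩
  · intro s
    have := hd (Polynomial.C (Polynomial.C s))
    rw [he, hCC, derivative_C, mul_zero, mul_zero, sub_zero, map_zero] at this
    exact this
  · have := hd (Polynomial.C X)
    rw [he, hX, derivative_C, mul_one, mul_zero, sub_zero] at this
    exact this
  · have := hd X
    rw [he, hXX, derivative_X, mul_one, mul_zero, zero_sub, map_neg] at this
    rw [← this]
    rfl

/-- Extension of a derivation to the fraction field. -/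
theorem exists_frac_der {R : Type*} [CommRing R] {i : R →+* L} (hi : Frc i) (d : Der R) :
    ∃ D : Der L, Der.Ext d D i := by
  have hne : ∀ q : R, q ≠ 0 → i q ≠ 0 := fun q hq h0 => hq (hi.inj (by rw [h0, map_zero]))
  have key : ∀ z : L, ∃ u : L, ∀ p q : R, q ≠ 0 → z * i q = i p → u * i q = i (d p) - z * i (d q) := by
    intro z
    obtain ⟨p, q, hq, hz⟩ := hi.frac z
    refine ⟨(i (d p) - z * i (d q)) / i q, fun p' q' hq' hz' => ?_⟩
    have h1 : p * q' = p' * q := by
      apply hi.inj
      rw [map_mul, map_mul, ← hz, ← hz']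
      ring
    have h2 := congrArg d h1
    rw [Der.leib, Der.leib] at h2
    have h3 := congrArg i h2
    simp only [map_add, map_mul] at h3
    rw [← hz, ← hz'] at h3
    rw [div_mul_eq_mul_div, div_eq_iff (hne q hq)]
    linear_combination h3
  choose D hD using key
  have huniq : ∀ (z u : L) (p q : R), q ≠ 0 → z * i q = i p → u * i q = i (d p) - z * i (d q) →
      D z = u := by
    intro z u p q hq hz hu
    have := hD z p q hq hz
    exact mul_right_cancel₀ (hne q hq) (this.trans hu.symm)
  have hmul0 : ∀ p q : R, p ≠ 0 → q ≠ 0 → p * q ≠ 0 := by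
    intro p q hp hq h0
    have := congrArg i h0
    rw [map_mul, map_zero] at this
    rcases mul_eq_zero.1 this with h | h
    · exact hne p hp h
    · exact hne q hq h
  have h1ne : (1 : R) ≠ 0 := by
    intro h0
    have := congrArg i h0
    rw [map_one, map_zero] at this
    exact one_ne_zero this
  refine ⟨{ toFun := D
            map_zero' := ?_
            map_add' := ?_
            leib' := ?_ }, ?_⟩
  · apply huniq 0 0 0 1 h1ne
    · simp
    · simp
  · intro z w
    obtain ⟨p, q, hq, hz⟩ := hi.frac z
    obtain ⟨p', q', hq', hw⟩ := hi.frac w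
    apply huniq (z + w) (D z + D w) (p * q' + p' * q) (q * q') (hmul0 _ _ hq hq')
    · simp only [map_add, map_mul]
      rw [← hz, ← hw]
      ring
    · have e1 := hD z p q hq hz
      have e2 := hD w p' q' hq' hw
      simp only [map_add, map_mul, Der.leib]
      rw [← hz, ← hw]
      linear_combination i q' * e1 + i q * e2
  · intro z w
    obtain ⟨p, q, hq, hz⟩ := hi.frac z
    obtain ⟨p', q', hq', hw⟩ := hi.frac w
    apply huniq (z * w) (z * D w + w * D z) (p * p') (q * q') (hmul0 _ _ hq hq')
    · simp only [map_mul]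
      rw [← hz, ← hw]
      ring
    · have e1 := hD z p q hq hz
      have e2 := hD w p' q' hq' hw
      simp only [map_add, map_mul, Der.leib]
      rw [← hz, ← hw]
      linear_combination (w * i q') * e1 + (z * i q) * e2
  · intro r
    apply huniq (i r) (i (d r)) r 1 h1ne
    · simp
    · simp

/-- Two derivations of the fraction field agreeing on the ring are equal. -/
theorem der_frac_ext {R : Type*} [CommRing R] {i : R →+* L} (hi : Frc i) {D D' : Der L}
    (h : ∀ r, D (i r) = D' (i r)) : D = D' := by
  ext z
  obtain ⟨p, q, hq, hz⟩ := hi.frac z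
  have hne : i q ≠ 0 := fun h0 => hq (hi.inj (by rw [h0, map_zero]))
  have e1 := congrArg D hz
  have e2 := congrArg D' hz
  rw [Der.leib] at e1 e2
  rw [h] at e1
  rw [h] at e1
  apply mul_left_cancel₀ hne
  linear_combination e1 - e2

/-- Restriction of a derivation to a ring between `R` and its fraction field of the form of a
localisation. -/
theorem exists_loc_der {R O : Type*} [CommRing R] [CommRing O] {t : R →+* O} {j : O →+* L}
    (hj : Function.Injective j) {D : Der L} (hD : ∀ r, ∃ w, D (j (t r)) = j (t w))
    (hloc : ∀ o : O, ∃ p q : R, IsUnit (t q) ∧ o * t q = t p) : ∃ DO : Der O, Der.Ext DO D j := by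
  have key : ∀ o : O, ∃ w : O, j w = D (j o) := by
    intro o
    obtain ⟨p, q, hq, ho⟩ := hloc o
    obtain ⟨v, hv⟩ := hq.exists_right_inv
    obtain ⟨p', hp'⟩ := hD p
    obtain ⟨q', hq'⟩ := hD q
    refine ⟨v * (t p' - o * t q'), ?_⟩
    have h1 := congrArg (fun x => D (j x)) ho
    simp only [map_mul, Der.leib] at h1
    rw [hp', hq'] at h1
    have h2 := congrArg j hv
    rw [map_mul, map_one] at h2
    rw [map_mul, map_sub, map_mul, ← h1]
    linear_combination D (j o) * h2
  choose d hd using key
  refine ⟨{ toFun := d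
            map_zero' := ?_
            map_add' := ?_
            leib' := ?_ }, fun s => (hd s).symm⟩
  · apply hj
    rw [hd, map_zero, map_zero]
  · intro z w
    apply hj
    rw [hd, map_add, map_add, map_add, hd, hd]
  · intro z w
    apply hj
    show j (d (z * w)) = j (z * d w + w * d z)
    rw [hd, map_mul, Der.leib, map_add, map_mul, map_mul, hd, hd]

/-- `D` is the extension of `δ` to the function field `L` of the curve `C` over `K` with
`D x = D y = 0`. -/
structure Lift (δ : Der K) (D : Der L) (C : Crv a b K) (i : Aff C.P →+* L) : Prop where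
  cc : ∀ c, D (i (C.cc c)) = i (C.cc (δ c))
  x : D (i C.gx) = 0
  y : D (i C.gy) = 0

theorem exists_lift (hn : Num a b) {δ : Der K} {C : Crv a b K} (hc : Cst δ C)
    {i : Aff C.P →+* L} (hi : Frc i) : ∃ D : Der L, Lift δ D C i := by
  obtain ⟨d, -, h1, h2, h3⟩ := exists_aD hn hc
  obtain ⟨D, hD⟩ := exists_frac_der hi d
  refine ⟨D, ?_, ?_, ?_⟩
  · intro c
    rw [hD, h1]
  · rw [hD, h2, map_zero]
  · rw [hD, h3, map_zero]

/-- A lift preserves the affine ring. -/
theorem Lift.stable (hn : Num a b) {δ : Der K} {D : Der L} {C : Crv a b K} {i : Aff C.P →+* L}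
    (h : Lift δ D C i) (hc : Cst δ C) (z : Aff C.P) :
    ∃ w, D (i z) = i w ∧ C.ev w = lder δ (C.ev z) := by
  obtain ⟨d, h0, h1, h2, h3⟩ := exists_aD hn hc
  refine ⟨d z, ?_, h0 z⟩
  induction z using aff_ind with
  | hc s =>
    have := h.cc s
    rw [← h1] at this
    exact this
  | hx =>
    have := h.x
    have e : d C.gx = d (AdjoinRoot.of C.P X) := rfl
    rw [← e, h2, map_zero]
    exact this
  | hy =>
    have := h.y
    have e : d C.gy = d (AdjoinRoot.root C.P) := rfl
    rw [← e, h3, map_zero]
    exact this
  | hadd z w hz hw => rw [map_add, map_add, hz, hw, map_add, map_add]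
  | hmul z w hz hw => rw [map_mul, Der.leib, hz, hw, Der.leib, map_add, map_mul, map_mul]

/-- The expansion extends to the function field. -/
theorem exists_eps (hn : Num a b) (C : Crv a b K) {i : Aff C.P →+* L} (hi : Frc i) :
    ∃ ε : L →+* LaurentSeries K, ∀ z, ε (i z) = C.ev z := by
  have hinj := C.ev_injective hn.co (by have := hn.ha; omega)
  have : IsDomain (Aff C.P) := hi.inj.isDomain
  let _ : Algebra (Aff C.P) L := i.toAlgebra
  have halg : ∀ z, algebraMap (Aff C.P) L z = i z := fun z => rfl
  have : IsFractionRing (Aff C.P) L := by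
    refine ⟨?_, ?_, ?_⟩
    · rintro ⟨y, hy⟩
      have hy0 : y ≠ 0 := nonZeroDivisors.ne_zero hy
      exact IsUnit.mk0 _ (fun h0 => hy0 (hi.inj (by rw [← halg, h0, map_zero])))
    · intro z
      obtain ⟨p, q, hq, hz⟩ := hi.frac z
      exact ⟨(p, ⟨q, mem_nonZeroDivisors_of_ne_zero hq⟩), hz⟩
    · intro x y hxy
      exact ⟨1, by rw [hi.inj hxy]⟩
  refine ⟨IsFractionRing.lift (A := Aff C.P) (K := L) hinj, fun z => ?_⟩
  exact IsFractionRing.lift_algebraMap hinj z

theorem Lift.eps (hn : Num a b) {δ : Der K} {D : Der L} {C : Crv a b K} {i : Aff C.P →+* L}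
    (hi : Frc i) (h : Lift δ D C i) (hc : Cst δ C) {ε : L →+* LaurentSeries K}
    (hε : ∀ z, ε (i z) = C.ev z) (f : L) : ε (D f) = lder δ (ε f) := by
  obtain ⟨p, q, hq, hf⟩ := hi.frac f
  have hne : C.ev q ≠ 0 := by
    rw [← hε]
    intro h0
    apply hq
    apply hi.inj
    rw [map_zero]
    exact (map_eq_zero ε).1 h0
  obtain ⟨p', hp1, hp2⟩ := h.stable hn hc p
  obtain ⟨q', hq1, hq2⟩ := h.stable hn hc q
  have e1 := congrArg (fun x => ε (D x)) hf
  simp only [Der.leib, hp1, hq1, map_add, map_mul, hε, hp2, hq2] at e1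
  have e2 := congrArg (fun x => lder δ (ε x)) hf
  simp only [map_mul, hε, Der.leib] at e2
  apply mul_left_cancel₀ hne
  linear_combination e1 - e2

/-- The series `τ df/dτ`. -/
noncomputable def eulf (f : LaurentSeries S) : LaurentSeries S :=
  ⟨fun n => (n : S) * f.coeff n, f.isPWO_support.mono (by
    intro n hn
    rw [Function.mem_support] at hn
    rw [HahnSeries.mem_support]
    intro h0
    exact hn (by rw [h0, mul_zero]))⟩

lemma eulf_support (f : LaurentSeries S) : (eulf f).support ⊆ f.support := by
  intro n hn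
  rw [HahnSeries.mem_support] at hn ⊢
  intro h0
  exact hn (by show (n : S) * f.coeff n = 0; rw [h0, mul_zero])

/-- The derivation `τ d/dτ` of Laurent series. -/
noncomputable def eul (S : Type*) [CommRing S] : Der (LaurentSeries S) where
  toFun f := eulf f
  map_zero' := by
    ext n
    show (n : S) * (0 : LaurentSeries S).coeff n = 0
    rw [HahnSeries.coeff_zero, mul_zero]
  map_add' f g := by
    ext n
    show (n : S) * (f + g).coeff n = (n : S) * f.coeff n + (n : S) * g.coeff n
    rw [HahnSeries.coeff_add, mul_add]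
  leib' f g := by
    have hf : (eulf f).support ⊆ f.support := eulf_support f
    have hg : (eulf g).support ⊆ g.support := eulf_support g
    ext n
    change (n : S) * (f * g).coeff n = (f * eulf g + g * eulf f).coeff n
    rw [HahnSeries.coeff_add, mul_comm g, HahnSeries.coeff_mul,
      HahnSeries.coeff_mul_right' g.isPWO_support hg, HahnSeries.coeff_mul_left' f.isPWO_support hf,
      Finset.mul_sum, ← Finset.sum_add_distrib]
    refine Finset.sum_congr rfl fun ij hij => ?_
    have h1 : ij.1 + ij.2 = n := (Finset.mem_antidiagonal.1 hij).2.2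
    change _ = f.coeff ij.1 * ((ij.2 : S) * g.coeff ij.2) +
      ((ij.1 : S) * f.coeff ij.1) * g.coeff ij.2
    rw [← h1]
    push_cast
    ring

@[simp] lemma coeff_eul (f : LaurentSeries S) (n : ℤ) :
    (eul S f).coeff n = (n : S) * f.coeff n := rfl

theorem mk_derivative_ne_zero [CharZero K] (hn : Num a b) (C : Crv a b K) :
    AdjoinRoot.mk C.P (derivative C.P) ≠ 0 := by
  intro h0
  have h1 := AdjoinRoot.mk_eq_zero.1 h0
  have hd : (derivative C.P).coeff (a - 1) = (a : K[X]) := by
    rw [coeff_derivative]
    have h2 := hn.ha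
    have h3 : a - 1 + 1 = a := by omega
    rw [h3]
    have h4 : C.P.coeff a = 1 := by
      have := C.cab.monic.coeff_natDegree
      rwa [C.cab.deg] at this
    rw [h4, one_mul]
    have : ((a - 1 : ℕ) : K[X]) + 1 = ((a - 1 + 1 : ℕ) : K[X]) := by push_cast; ring
    rw [this, h3]
  have hne : derivative C.P ≠ 0 := by
    intro h
    rw [h, coeff_zero] at hd
    have h2 := hn.ha
    have : (a : K[X]) ≠ 0 := Nat.cast_ne_zero.2 (by omega)
    exact this hd.symm
  exact C.cab.monic.not_dvd_of_degree_lt hne (degree_derivative_lt C.cab.monic.ne_zero) h1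

lemma eul_C (s : S) : eul S (HahnSeries.C s) = 0 := by
  ext n
  rw [coeff_eul, HahnSeries.C_apply, HahnSeries.coeff_single]
  split_ifs with h
  · rw [h, Int.cast_zero, zero_mul, HahnSeries.coeff_zero]
  · rw [mul_zero, HahnSeries.coeff_zero]

/-- Chain rule for evaluation. -/
lemma der_eval₂' {R A : Type*} [CommRing R] [CommRing A] {f : R →+* A} {dR : Der R} {dA : Der A}
    {c : A} (h : ∀ r, dA (f r) = f (dR r) * c) (y : A) (p : R[X]) :
    dA (p.eval₂ f y) = (pder dR p).eval₂ f y * c + (derivative p).eval₂ f y * dA y := by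
  induction p using Polynomial.induction_on' with
  | add p q hp hq =>
    rw [eval₂_add, map_add, hp, hq, map_add, eval₂_add, derivative_add, eval₂_add]
    ring
  | monomial n r =>
    have h1 : pder dR (monomial n r) = monomial n (dR r) := by
      ext m
      rw [coeff_pder, coeff_monomial, coeff_monomial]
      split_ifs <;> simp
    rw [h1, eval₂_monomial, eval₂_monomial, Der.leib, h r, derivative_monomial, eval₂_monomial]
    cases n with
    | zero => simp
    | succ n =>
      rw [Der.map_pow, map_mul, map_natCast, Nat.add_sub_cancel]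
      push_cast
      ring

/-- The relation between the differentials of `x` and `y`. -/
lemma tangent_rel (C : Crv a b S) :
    C.ev (AdjoinRoot.mk C.P (dX C.P)) * eul S C.x +
      C.ev (AdjoinRoot.mk C.P (derivative C.P)) * eul S C.y = 0 := by
  have h1 : ∀ r : S[X], eul S (eval₂RingHom HahnSeries.C C.x r) =
      eval₂RingHom HahnSeries.C C.x (dpoly S r) * eul S C.x := by
    intro r
    have h := der_eval₂' (f := (HahnSeries.C : S →+* LaurentSeries S)) (dR := (⟨0, by simp⟩ : Der S))
      (dA := eul S) (c := 0) (by intro s; rw [eul_C, mul_zero]) C.x r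
    rw [mul_zero, zero_add] at h
    exact h
  have h2 := der_eval₂' h1 C.y C.P
  rw [C.root, map_zero] at h2
  rw [dX_eq]
  simpa [Crv.ev] using h2.symm

/-- The constants of the tangent derivation in the function field of a curve in characteristic
zero are the constants. Proof: `ε (∂ f) = W * (ε f)'`, where `'` is the derivative of Laurent
series (`LaurentSeries.derivative` / coefficients `n * f_n`), `W = ε(P_y) / x'`: both sides are
derivations of `L` into `K((τ))` killing `K`, they agree on `x` by definition and on `y` because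
`P_x(x, y) x' + P_y(x, y) y' = 0`. `W ≠ 0` since `P_y ≠ 0` in the affine ring (degree `a - 1` in
`y`, leading coefficient `a ≠ 0`). So `∂ f = 0` implies `(ε f)' = 0`, hence `ε f ∈ K`
(characteristic zero), so `ε f = ε (i (cc c))`. -/
theorem tangent_consts [CharZero K] (hn : Num a b) {C : Crv a b K} {i : Aff C.P →+* L}
    (hi : Frc i) {D : Der L} (h0 : ∀ c, D (i (C.cc c)) = 0)
    (hx : D (i C.gx) = i (AdjoinRoot.mk C.P (derivative C.P)))
    (hy : D (i C.gy) = - i (AdjoinRoot.mk C.P (dX C.P))) {f : L} (hf : D f = 0) :
    ∃ c, i (C.cc c) = f := by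
  obtain ⟨ε, hε⟩ := exists_eps hn C hi
  have hinj := C.ev_injective hn.co (by have := hn.ha; omega)
  set A := C.ev (AdjoinRoot.mk C.P (derivative C.P)) with hA
  have hA0 : A ≠ 0 := by
    intro h
    apply mk_derivative_ne_zero hn C
    apply hinj
    rw [← hA, h, map_zero]
  have key : ∀ z : Aff C.P, ε (D (i z)) * eul K C.x = A * eul K (ε (i z)) := by
    intro z
    induction z using aff_ind with
    | hc s =>
      have e1 : D (i (AdjoinRoot.of C.P (Polynomial.C s))) = 0 := h0 s
      have e2 : ε (i (AdjoinRoot.of C.P (Polynomial.C s))) = HahnSeries.C s := by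
        rw [hε]; exact C.ev_cc s
      rw [e1, e2, eul_C, map_zero, zero_mul, mul_zero]
    | hx =>
      have e1 : D (i (AdjoinRoot.of C.P X)) = i (AdjoinRoot.mk C.P (derivative C.P)) := hx
      have e2 : ε (i (AdjoinRoot.of C.P X)) = C.x := by
        rw [hε]; exact C.ev_gx
      rw [e1, e2, hε]
    | hy =>
      have e1 : D (i (AdjoinRoot.root C.P)) = - i (AdjoinRoot.mk C.P (dX C.P)) := hy
      have e2 : ε (i (AdjoinRoot.root C.P)) = C.y := by
        rw [hε]; exact C.ev_gy
      rw [e1, e2, map_neg, hε]
      have h := tangent_rel C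
      rw [← hA] at h
      linear_combination -h
    | hadd z w hz hw =>
      simp only [map_add]
      linear_combination hz + hw
    | hmul z w hz hw =>
      simp only [map_mul, Der.leib, map_add]
      linear_combination ε (i z) * hw + ε (i w) * hz
  have key2 : ε (D f) * eul K C.x = A * eul K (ε f) := by
    obtain ⟨p, q, hq, hfq⟩ := hi.frac f
    have hne : ε (i q) ≠ 0 := by
      intro h
      apply hq
      apply hi.inj
      rw [map_zero]
      exact (map_eq_zero ε).1 h
    have e1 := congrArg (fun x => ε (D x) * eul K C.x) hfq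
    simp only [Der.leib, map_add, map_mul] at e1
    have e2 := congrArg (fun x => eul K (ε x)) hfq
    simp only [map_mul, Der.leib] at e2
    apply mul_left_cancel₀ hne
    linear_combination e1 + key p - ε f * key q - A * e2
  rw [hf, map_zero, zero_mul] at key2
  have h3 : eul K (ε f) = 0 := by
    rcases mul_eq_zero.1 key2.symm with h | h
    · exact absurd h hA0
    · exact h
  refine ⟨(ε f).coeff 0, ?_⟩
  apply ε.injective
  rw [hε, C.ev_cc]
  ext n
  rw [HahnSeries.C_apply, HahnSeries.coeff_single]
  split_ifs with h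
  · rw [h]
  · have h4 : (eul K (ε f)).coeff n = 0 := by rw [h3]; rfl
    rw [coeff_eul] at h4
    rcases mul_eq_zero.1 h4 with h5 | h5
    · exact absurd (Int.cast_eq_zero.1 h5) h
    · exact h5.symm

end Pool.Agent.CAB
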