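import Pool.Agent.CAB.Pts

/-!
# Independence of the classes `T_s` over the function field

`C` is a smooth curve over `k` (characteristic zero), `L` its function field (through `i`),
`x₁ = i(x) ∈ L`, `CL` the base change of `C` to `L`, `P(x₁, Y) = ∏ h_s` over `L` with pairwise
coprime `h_s`.

Paper proof of `indep`. Let `∂` be the derivation of `L` extending the tangent derivation
(`exists_tangent`, `exists_frac_der`); it kills `k`, so `Cst ∂ CL`, and `∂ x₁ = i(P_y) ≠ 0`
(`mk_derivative_ne_zero`). The derivative of an extended class along `∂` is trivial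
(`theta_ext` with the zero derivation of `k`, whose `theta` is trivial as `F = 0` is a
multiplier). Choose `e_s ∈ L[Y]` of degree `< a` with `h_s ∣ e_s - 1`, `∏_{t ≠ s} h_t ∣ e_s`
(Chinese remainder theorem, reduce modulo `P(x₁, Y)`). By `mlt_idT` and `theta_cl` the derivative of
`cl T_s` is `crd(- ∂x₁ e_s(y) / (x - x₁))`. With `g = ∑ n_s e_s` the hypothesis gives
`crd(- ∂x₁ g(y) / (x - x₁)) = 0`, and `deg_of_crd_eq_zero` applies. Finally `h_s ∣ g - n_s`.
-/

namespace Pool.Agent.CAB

open Polynomial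

variable {k L : Type*} [Field k] [Field L] {a b : ℕ}

namespace IndepAux

/-- The zero derivation. -/
def zeroDer (R : Type*) [CommRing R] : Der R where
  toFun _ := 0
  map_zero' := rfl
  map_add' _ _ := by simp
  leib' _ _ := by simp

lemma zeroDer_apply {R : Type*} [CommRing R] (r : R) : zeroDer R r = 0 := rfl

lemma cst_zero (C : Crv a b k) : Cst (zeroDer k) C where
  x := by ext n; rw [coeff_lder, zeroDer_apply, HahnSeries.coeff_zero]
  y := by ext n; rw [coeff_lder, zeroDer_apply, HahnSeries.coeff_zero]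

lemma theta_zero (hn : Num a b) {C : Crv a b k} [IsDedekindDomain (Aff C.P)]
    (hc : Cst (zeroDer k) C) (c : ClassGroup (Aff C.P)) : theta hn hc c = 1 := by
  obtain ⟨I, hI, rfl⟩ := exists_cl c
  rw [theta_cl hn hc hI (F := 0)]
  · rw [map_zero]
    rfl
  · intro z hz
    refine ⟨0, I.zero_mem, ?_⟩
    rw [map_zero, zero_mul, sub_zero]
    ext n
    rw [coeff_lder, zeroDer_apply, HahnSeries.coeff_zero]

/-- The idempotents. -/
lemma exists_e {ι : Type*} [Fintype ι] [DecidableEq ι] {h : ι → L[X]} {Q : L[X]} (hQm : Q.Monic)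
    (hQd : 1 ≤ Q.natDegree)
    (hco : ∀ s t, s ≠ t → IsCoprime (h s) (h t)) (hprod : ∏ s, h s = Q) (s : ι) :
    ∃ e : L[X], e.natDegree < Q.natDegree ∧ h s ∣ e - 1 ∧
      (∏ t ∈ Finset.univ.erase s, h t) ∣ e := by
  have hc : IsCoprime (h s) (∏ t ∈ Finset.univ.erase s, h t) := by
    refine IsCoprime.prod_right fun t ht => hco s t ?_
    exact (Finset.ne_of_mem_erase ht).symm
  have hQ : h s * ∏ t ∈ Finset.univ.erase s, h t = Q := by
    rw [← hprod]
    exact Finset.mul_prod_erase _ _ (Finset.mem_univ s)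
  obtain ⟨u, v, huv⟩ := hc
  have hdiv := modByMonic_add_div (v * ∏ t ∈ Finset.univ.erase s, h t) Q
  refine ⟨(v * ∏ t ∈ Finset.univ.erase s, h t) %ₘ Q, ?_, ?_, ?_⟩
  · refine natDegree_modByMonic_lt _ hQm ?_
    rintro rfl
    simp at hQd
  · have h1 : (v * ∏ t ∈ Finset.univ.erase s, h t) %ₘ Q - 1 =
        h s * (-u - (∏ t ∈ Finset.univ.erase s, h t) *
          ((v * ∏ t ∈ Finset.univ.erase s, h t) /ₘ Q)) := by
      linear_combination hdiv + huv +
        ((v * ∏ t ∈ Finset.univ.erase s, h t) /ₘ Q) * hQ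
    rw [h1]
    exact Dvd.intro _ rfl
  · have h1 : (v * ∏ t ∈ Finset.univ.erase s, h t) %ₘ Q =
        (∏ t ∈ Finset.univ.erase s, h t) * (v - h s *
          ((v * ∏ t ∈ Finset.univ.erase s, h t) /ₘ Q)) := by
      linear_combination hdiv + ((v * ∏ t ∈ Finset.univ.erase s, h t) /ₘ Q) * hQ
    rw [h1]
    exact Dvd.intro _ rfl

end IndepAux

open IndepAux in
theorem indep [CharZero k] (hn : Num a b) {C : Crv a b k} {i : Aff C.P →+* L} (hi : Frc i)
    {CL : Crv a b L} (hL : Rel C CL (i.comp C.cc)) [IsDedekindDomain (Aff C.P)]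
    [IsDedekindDomain (Aff CL.P)] (hinj : Function.Injective hL.aff) {ι : Type*} [Fintype ι]
    {h : ι → L[X]} (hco : ∀ s t, s ≠ t → IsCoprime (h s) (h t))
    (hprod : ∏ s, h s = fib CL.P (i C.gx)) (c : ClassGroup (Aff C.P)) (n : ι → ℤ)
    (h0 : extCl hL.aff hinj c *
      ∏ s, (cl (idT CL (i C.gx) (h s)) (idT_ne_bot hn CL _ _)) ^ (n s) = 1) :
    ∃ g : L[X], b * g.natDegree ≤ a ∧ ∀ s, h s ∣ g - Polynomial.C (n s : L) := by
  classical
  obtain ⟨d, hd1, hd2, -⟩ := exists_tangent C
  obtain ⟨D, hD⟩ := exists_frac_der hi d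
  have hDφ : Der.Ext (zeroDer k) D (i.comp C.cc) := by
    intro s
    rw [RingHom.comp_apply, hD, hd1, map_zero, zeroDer_apply, map_zero]
  have hc' : Cst D CL := Cst.map hDφ hL (cst_zero C)
  have hDx : D (i C.gx) ≠ 0 := by
    rw [hD, hd2]
    intro h1
    rw [← map_zero i] at h1
    exact mk_derivative_ne_zero hn C (hi.inj h1)
  have hQm := fib_monic CL (i C.gx)
  have hQd := fib_natDegree CL (i C.gx)
  have ha : 1 ≤ a := le_trans (by norm_num) hn.ha
  choose e he1 he2 he3 using exists_e hQm (by rw [hQd]; exact ha) hco hprod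
  have hmlt : ∀ s, Mlt D CL (idT CL (i C.gx) (h s))
      (-(HahnSeries.C (D (i C.gx)) * CL.ev ((e s).eval₂ CL.cc CL.gy)) /
        CL.ev (CL.gx - CL.cc (i C.gx))) := by
    intro s
    refine mlt_idT hn hc' (h' := ∏ t ∈ Finset.univ.erase s, h t) ?_ (he2 s) (he3 s)
    rw [← hprod]
    exact Finset.mul_prod_erase _ _ (Finset.mem_univ s)
  -- the derivative of the extended class is trivial
  have hext : theta hn hc' (extCl hL.aff hinj c) = 1 := by
    have h1 : ∀ l, Multiplicative.toAdd (theta hn hc' (extCl hL.aff hinj c)) l = 0 := by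
      intro l
      rw [theta_ext hn (cst_zero C) hDφ hL hc' hinj c l, theta_zero hn (cst_zero C) c]
      simp
    have h2 : Multiplicative.toAdd (theta hn hc' (extCl hL.aff hinj c)) = 0 := funext h1
    exact h2
  have h1 := congrArg (theta hn hc') h0
  rw [map_mul, hext, one_mul, map_prod, map_one] at h1
  simp only [map_zpow, theta_cl hn hc' (idT_ne_bot hn CL _ _) (hmlt _)] at h1
  set g : L[X] := ∑ s, (n s) • e s with hg
  have h2 : CL.crd hn (∑ s, (n s) • (-(HahnSeries.C (D (i C.gx)) *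
      CL.ev ((e s).eval₂ CL.cc CL.gy)) / CL.ev (CL.gx - CL.cc (i C.gx)))) = 0 := by
    rw [map_sum]
    have h3 : (∏ s, Multiplicative.ofAdd (CL.crd hn (-(HahnSeries.C (D (i C.gx)) *
      CL.ev ((e s).eval₂ CL.cc CL.gy)) / CL.ev (CL.gx - CL.cc (i C.gx)))) ^ (n s)) =
      Multiplicative.ofAdd (∑ s, CL.crd hn ((n s) • (-(HahnSeries.C (D (i C.gx)) *
      CL.ev ((e s).eval₂ CL.cc CL.gy)) / CL.ev (CL.gx - CL.cc (i C.gx))))) := by
      rw [ofAdd_sum]
      refine Finset.prod_congr rfl fun s _ => ?_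
      rw [map_zsmul, ofAdd_zsmul]
    rw [h3] at h1
    exact h1
  have h4 : (∑ s, (n s) • (-(HahnSeries.C (D (i C.gx)) *
      CL.ev ((e s).eval₂ CL.cc CL.gy)) / CL.ev (CL.gx - CL.cc (i C.gx)))) =
      (HahnSeries.C (-D (i C.gx)) * CL.ev (g.eval₂ CL.cc CL.gy)) /
        CL.ev (CL.gx - CL.cc (i C.gx)) := by
    rw [hg, eval₂_finsetSum, map_sum, Finset.mul_sum, Finset.sum_div]
    refine Finset.sum_congr rfl fun s _ => ?_
    have h5 : ((n s) • e s).eval₂ CL.cc CL.gy = (n s) • (e s).eval₂ CL.cc CL.gy := by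
      rw [← coe_eval₂RingHom, map_zsmul]
    rw [h5, map_zsmul, map_neg, zsmul_eq_mul, zsmul_eq_mul]
    ring
  rw [h4] at h2
  have hgd : g.natDegree < a := by
    rw [hg]
    have h6 : (∑ s, (n s) • e s).natDegree ≤ a - 1 := by
      refine natDegree_sum_le_of_forall_le _ _ fun s _ => ?_
      refine (natDegree_smul_le _ _).trans ?_
      have := he1 s
      rw [hQd] at this
      omega
    omega
  refine ⟨g, deg_of_crd_eq_zero hn CL (neg_ne_zero.2 hDx) hgd h2, ?_⟩
  intro s
  have h7 : g - Polynomial.C (n s : L) = (n s) • (e s - 1) +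
      ∑ t ∈ Finset.univ.erase s, (n t) • e t := by
    rw [hg, ← Finset.add_sum_erase _ _ (Finset.mem_univ s), smul_sub]
    have h8 : Polynomial.C (n s : L) = (n s) • (1 : L[X]) := by
      rw [zsmul_eq_mul, mul_one]
      simp
    rw [h8]
    ring
  rw [h7]
  refine dvd_add ?_ (Finset.dvd_sum fun t ht => ?_)
  · rw [zsmul_eq_mul]
    exact Dvd.dvd.mul_left (he2 s) _
  · rw [zsmul_eq_mul]
    refine Dvd.dvd.mul_left (dvd_trans ?_ (he3 t)) _
    exact Finset.dvd_prod_of_mem h (Finset.mem_erase.2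
      ⟨(Finset.ne_of_mem_erase ht).symm, Finset.mem_univ s⟩)

/-- The generic fibre of `x` is separable: `P` is irreducible over `k(x)` (the affine ring is
a domain and `P` is monic), `k(x)` has characteristic zero, and `k(x) → L`. -/
theorem fib_separable [CharZero k] (hn : Num a b) {C : Crv a b k} {i : Aff C.P →+* L}
    (hi : Frc i) {CL : Crv a b L} (hL : Rel C CL (i.comp C.cc)) :
    (fib CL.P (i C.gx)).Separable := by
  have ha : 1 ≤ a := le_trans (by norm_num) hn.ha
  have hdom : IsDomain (Aff C.P) := C.isDomain hn.co ha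
  have hψ : Function.Injective (i.comp (AdjoinRoot.of C.P)) := by
    refine hi.inj.comp ?_
    apply AdjoinRoot.of.injective_of_degree_ne_zero
    rw [Polynomial.degree_eq_natDegree C.cab.monic.ne_zero, C.cab.deg]
    intro h
    have : a = 0 := by exact_mod_cast h
    omega
  have hfib : fib CL.P (i C.gx) = C.P.map (i.comp (AdjoinRoot.of C.P)) := by
    rw [fib, hL.P, mapP, Polynomial.map_map]
    congr 1
    apply Polynomial.ringHom_ext
    · intro c
      simp [Crv.cc]
    · simp [Crv.gx]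
  have hprime : Prime C.P := by
    rw [← Ideal.span_singleton_prime C.cab.monic.ne_zero]
    exact (Ideal.Quotient.isDomain_iff_prime _).1 hdom
  have hirr : Irreducible (C.P.map (algebraMap k[X] (FractionRing k[X]))) :=
    (C.cab.monic.irreducible_iff_irreducible_map_fraction_map).1 hprime.irreducible
  have hsep : (C.P.map (algebraMap k[X] (FractionRing k[X]))).Separable := hirr.separable
  have h1 := hsep.map (f := IsFractionRing.lift (K := FractionRing k[X]) hψ)
  rw [Polynomial.map_map] at h1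
  have h2 : (IsFractionRing.lift (K := FractionRing k[X]) hψ).comp
      (algebraMap k[X] (FractionRing k[X])) = i.comp (AdjoinRoot.of C.P) := by
    refine RingHom.ext fun z => ?_
    exact IsFractionRing.lift_algebraMap hψ z
  rw [h2] at h1
  rw [hfib]
  exact h1

end Pool.Agent.CAB
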