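import Pool.Agent.CAB.Coord

/-!
# Smooth affine curves over a field have Dedekind affine rings

Paper proof. `R = K[x, y] / P` is a noetherian domain (`isDomain`), an integral extension of
`K[x]` (`P` is monic in `y`), hence of dimension at most one (every nonzero prime is maximal), and
not a field. Let `𝔪` be a maximal ideal of `R`, `M` its preimage in `A = K[x][y]`. `M` is
generated by two elements: `M ∩ K[x] = (p)` with `p` irreducible (it contains the norm of any
element of `𝔪`, e.g. by integrality), `A / p = (K[x]/p)[y]` is a principal ideal domain, so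
`M = (p, q)`. `P ∉ M ^ 2`: otherwise `P = ∑ g_i h_i` with `g_i, h_i ∈ M` and by the Leibniz rule
`∂P/∂x, ∂P/∂y ∈ M`, contradicting `u P + v P_y + w P_x = 1`. The cotangent space `𝔪 / 𝔪²` is a
quotient of `M / M²` (at most two dimensional over `A/M = R/𝔪`) by the nonzero class of `P`,
hence at most one dimensional, so the localisation at `𝔪` is a discrete valuation ring (its
maximal ideal is principal by Nakayama). A noetherian domain whose localisations at all nonzero
(maximal) primes are discrete valuation rings is Dedekind (`IsDedekindDomainDvr`).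
-/

namespace Pool.Agent.CAB

open Polynomial

variable {K : Type*} [Field K] {a b : ℕ}

theorem dX_add (P Q : K[X][X]) : dX (P + Q) = dX P + dX Q := by
  ext1 n
  rw [coeff_dX, coeff_add, coeff_add, coeff_dX, coeff_dX, derivative_add]

theorem dX_mul (P Q : K[X][X]) : dX (P * Q) = dX P * Q + P * dX Q := by
  ext1 n
  rw [coeff_dX, coeff_add, coeff_mul, coeff_mul, coeff_mul, map_sum, ← Finset.sum_add_distrib]
  apply Finset.sum_congr rfl
  intro p _
  rw [derivative_mul, coeff_dX, coeff_dX]

/-- In the localization at a nonzero prime, the maximal ideal is principal. -/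
theorem ded_two (hn : Num a b) (C : Crv a b K) (𝔪 : Ideal (Aff C.P)) [h𝔪 : 𝔪.IsPrime]
    (hne : 𝔪 ≠ ⊥) : ∃ p q : K[X][X], AdjoinRoot.mk C.P p ∈ 𝔪 ∧ AdjoinRoot.mk C.P q ∈ 𝔪 ∧
      ∀ z : K[X][X], AdjoinRoot.mk C.P z ∈ 𝔪 → ∃ c d, z = c * p + d * q := by
  classical
  have : IsDomain (Aff C.P) := C.isDomain hn.co (by have := hn.ha; omega)
  have : Module.Finite K[X] (AdjoinRoot C.P) := C.cab.monic.finite_adjoinRoot
  set N : Ideal K[X] := 𝔪.comap (algebraMap K[X] (AdjoinRoot C.P)) with hN
  have hN0 : N ≠ ⊥ := by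
    intro h
    exact hne (Ideal.eq_bot_of_comap_eq_bot h)
  have hNp : N.IsPrime := Ideal.comap_isPrime _ _
  have hNm : N.IsMaximal := hNp.isMaximal hN0
  let : Field (K[X] ⧸ N) := Ideal.Quotient.field N
  set p₀ := Submodule.IsPrincipal.generator N with hp₀
  have hspan : Ideal.span {p₀} = N := Ideal.span_singleton_generator N
  set θ : K[X][X] →+* (K[X] ⧸ N)[X] := mapRingHom (Ideal.Quotient.mk N) with hθ
  have hθs : Function.Surjective θ := Polynomial.map_surjective _ Ideal.Quotient.mk_surjective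
  have hker : ∀ z : K[X][X], θ z = 0 → ∃ c, z = c * Polynomial.C p₀ := by
    intro z hz
    have h1 : z ∈ RingHom.ker θ := hz
    rw [hθ, Polynomial.ker_mapRingHom, Ideal.mk_ker, ← hspan, Ideal.map_span,
      Set.image_singleton, Ideal.mem_span_singleton'] at h1
    obtain ⟨c, hc⟩ := h1
    exact ⟨c, hc.symm⟩
  set M : Ideal K[X][X] := 𝔪.comap (AdjoinRoot.mk C.P) with hM
  have hpM : Polynomial.C p₀ ∈ M := by
    have : p₀ ∈ N := Submodule.IsPrincipal.generator_mem N
    exact this
  set M' : Ideal (K[X] ⧸ N)[X] := M.map θ with hM'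
  obtain ⟨q', hq'⟩ : ∃ q', q' = Submodule.IsPrincipal.generator M' := ⟨_, rfl⟩
  have hq'M : q' ∈ M' := by rw [hq']; exact Submodule.IsPrincipal.generator_mem M'
  obtain ⟨q, hqM, hq⟩ := (Ideal.mem_map_iff_of_surjective θ hθs).1 hq'M
  refine ⟨Polynomial.C p₀, q, hpM, hqM, ?_⟩
  intro z hz
  have hzM : θ z ∈ M' := Ideal.mem_map_of_mem θ hz
  have h2 : M' = Ideal.span {q'} := by rw [hq']; exact (Ideal.span_singleton_generator M').symm
  rw [h2, Ideal.mem_span_singleton'] at hzM
  obtain ⟨d', hd'⟩ := hzM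
  obtain ⟨d, rfl⟩ := hθs d'
  have h3 : θ (z - d * q) = 0 := by
    rw [map_sub, map_mul, hq, hd', sub_self]
  obtain ⟨c, hc⟩ := hker _ h3
  exact ⟨c, d, by rw [← hc]; ring⟩

theorem isDedekind (hn : Num a b) (C : Crv a b K) (hs : Smooth C.P) :
    IsDedekindDomain (Aff C.P) := by
  classical
  have : IsDomain (Aff C.P) := C.isDomain hn.co (by have := hn.ha; omega)
  have hnoeth : IsNoetherianRing (Aff C.P) :=
    isNoetherianRing_of_surjective K[X][X] (Aff C.P) (AdjoinRoot.mk C.P)
      AdjoinRoot.mk_surjective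
  have hdvr : IsDedekindDomainDvr (Aff C.P) := by
    refine { toIsNoetherian := hnoeth, is_dvr_at_nonzero_prime := ?_ }
    intro 𝔪 hne h𝔪
    have hnf := IsLocalization.AtPrime.not_isField (Aff C.P) hne (Localization.AtPrime 𝔪)
    have : IsNoetherianRing (Localization.AtPrime 𝔪) :=
      IsLocalization.isNoetherianRing 𝔪.primeCompl _ hnoeth
    refine ((IsDiscreteValuationRing.TFAE (Localization.AtPrime 𝔪) hnf).out 0 4).2 ?_
    obtain ⟨p, q, hp, hq, hgen⟩ := ded_two hn C 𝔪 hne
    obtain ⟨α, β, hαβ⟩ := hgen C.P (by rw [AdjoinRoot.mk_self]; exact zero_mem _)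
    -- not both in `𝔪`
    have hnot : ¬ (AdjoinRoot.mk C.P α ∈ 𝔪 ∧ AdjoinRoot.mk C.P β ∈ 𝔪) := by
      rintro ⟨hα, hβ⟩
      obtain ⟨u, v, w, huvw⟩ := hs
      have h1 : AdjoinRoot.mk C.P (derivative C.P) ∈ 𝔪 := by
        have e : derivative C.P
            = derivative α * p + α * derivative p + (derivative β * q + β * derivative q) := by
          conv_lhs => rw [hαβ]
          rw [derivative_add, derivative_mul, derivative_mul]
        rw [e]
        simp only [map_add, map_mul]
        exact add_mem (add_mem (Ideal.mul_mem_left _ _ hp) (Ideal.mul_mem_right _ _ hα))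
          (add_mem (Ideal.mul_mem_left _ _ hq) (Ideal.mul_mem_right _ _ hβ))
      have h2 : AdjoinRoot.mk C.P (dX C.P) ∈ 𝔪 := by
        have e : dX C.P = dX α * p + α * dX p + (dX β * q + β * dX q) := by
          conv_lhs => rw [hαβ]
          rw [dX_add, dX_mul, dX_mul]
        rw [e]
        simp only [map_add, map_mul]
        exact add_mem (add_mem (Ideal.mul_mem_left _ _ hp) (Ideal.mul_mem_right _ _ hα))
          (add_mem (Ideal.mul_mem_left _ _ hq) (Ideal.mul_mem_right _ _ hβ))
      have h3 : AdjoinRoot.mk C.P 1 ∈ 𝔪 := by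
        rw [← huvw]
        simp only [map_add, map_mul]
        rw [AdjoinRoot.mk_self, mul_zero, zero_add]
        exact add_mem (Ideal.mul_mem_left _ _ h1) (Ideal.mul_mem_left _ _ h2)
      rw [map_one] at h3
      exact h𝔪.ne_top ((Ideal.eq_top_iff_one _).2 h3)
    have hrel : AdjoinRoot.mk C.P α * AdjoinRoot.mk C.P p
        + AdjoinRoot.mk C.P β * AdjoinRoot.mk C.P q = 0 := by
      rw [← map_mul, ← map_mul, ← map_add, ← hαβ, AdjoinRoot.mk_self]
    set L := Localization.AtPrime 𝔪 with hL
    have hmax : IsLocalRing.maximalIdeal L = 𝔪.map (algebraMap (Aff C.P) L) :=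
      (Localization.AtPrime.map_eq_maximalIdeal).symm
    -- general principle
    have key : ∀ s t α' β' : Aff C.P, s ∈ 𝔪 → t ∈ 𝔪 → (∀ z ∈ 𝔪, ∃ c d, z = c * s + d * t) →
        α' * s + β' * t = 0 → α' ∉ 𝔪 → (IsLocalRing.maximalIdeal L).IsPrincipal := by
      intro s t α' β' hs ht hg h0 hα
      refine ⟨⟨algebraMap (Aff C.P) L t, ?_⟩⟩
      rw [← Ideal.span, hmax]
      have hu : IsUnit (algebraMap (Aff C.P) L α') :=
        IsLocalization.map_units L (⟨α', hα⟩ : 𝔪.primeCompl)
      obtain ⟨u, hu⟩ := hu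
      apply le_antisymm
      · rw [Ideal.map_le_iff_le_comap]
        intro z hz
        obtain ⟨c, d, rfl⟩ := hg z hz
        rw [Ideal.mem_comap, Ideal.mem_span_singleton']
        have e1 : algebraMap (Aff C.P) L s
            = - ((u⁻¹ : Lˣ) : L) * algebraMap (Aff C.P) L β' * algebraMap (Aff C.P) L t := by
          have e2 : (u : L) * algebraMap (Aff C.P) L s
              = - (algebraMap (Aff C.P) L β' * algebraMap (Aff C.P) L t) := by
            rw [hu, ← map_mul, ← map_mul, ← map_neg]
            congr 1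
            linear_combination h0
          calc algebraMap (Aff C.P) L s = ((u⁻¹ : Lˣ) : L) * ((u : L) * algebraMap (Aff C.P) L s) := by
                rw [← mul_assoc, Units.inv_mul, one_mul]
            _ = _ := by rw [e2]; ring
        refine ⟨algebraMap (Aff C.P) L c * (- ((u⁻¹ : Lˣ) : L) * algebraMap (Aff C.P) L β')
          + algebraMap (Aff C.P) L d, ?_⟩
        rw [map_add, map_mul, map_mul, e1]
        ring
      · rw [Ideal.span_singleton_le_iff_mem]
        exact Ideal.mem_map_of_mem _ ht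
    have hgen' : ∀ z ∈ 𝔪, ∃ c d, z = c * AdjoinRoot.mk C.P p + d * AdjoinRoot.mk C.P q := by
      intro z hz
      obtain ⟨z, rfl⟩ := AdjoinRoot.mk_surjective z
      obtain ⟨c, d, rfl⟩ := hgen z hz
      exact ⟨AdjoinRoot.mk C.P c, AdjoinRoot.mk C.P d, by rw [map_add, map_mul, map_mul]⟩
    by_cases hα : AdjoinRoot.mk C.P α ∈ 𝔪
    · have hβ : AdjoinRoot.mk C.P β ∉ 𝔪 := fun h => hnot ⟨hα, h⟩
      refine key (AdjoinRoot.mk C.P q) (AdjoinRoot.mk C.P p) (AdjoinRoot.mk C.P β)
        (AdjoinRoot.mk C.P α) hq hp ?_ (by rw [add_comm]; exact hrel) hβ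
      intro z hz
      obtain ⟨c, d, h⟩ := hgen' z hz
      exact ⟨d, c, by rw [h, add_comm]⟩
    · exact key _ _ _ _ hp hq hgen' hrel hα
  infer_instance

theorem not_isField (hn : Num a b) (C : Crv a b K) : ¬ IsField (Aff C.P) := by
  intro h
  have ha := hn.ha
  have : IsDomain (Aff C.P) := C.isDomain hn.co (by omega)
  have : Module.Finite K[X] (AdjoinRoot C.P) := C.cab.monic.finite_adjoinRoot
  have hinj : Function.Injective (algebraMap K[X] (AdjoinRoot C.P)) := by
    apply AdjoinRoot.of.injective_of_degree_ne_zero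
    rw [Polynomial.degree_eq_natDegree C.cab.monic.ne_zero, C.cab.deg]
    intro h
    have : a = 0 := by exact_mod_cast h
    omega
  exact Polynomial.not_isField K (isField_of_isIntegral_of_isField hinj h)

end Pool.Agent.CAB
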