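import Pool.Agent.CAB.Mlt
import Pool.Agent.CAB.Ded

/-!
# Extension of ideal classes to a bigger field is injective

Paper proof. Let `J ≠ 0` be an ideal of `R(k)` with `J R(L) = (g)` (`cl_eq_one_iff`). Choose
`0 ≠ h ∈ J` whose order `-e` is maximal among the nonzero elements of `J` (`exists_lead_ev`).
Every element of `J R(L)` is a finite sum `∑ λ_s h_s` with `h_s ∈ J` and `λ_s ∈ L` which may be
taken linearly independent over `k` (the affine ring over `L` is spanned over `L` by the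
image of the affine ring over `k`: `exists_repr`), so its order is the minimum of the orders of the
`h_s`, at most `-e`; and if it is `-e` then all `h_s` have order `-e` (no element of `J` has
order above `-e`), so they are `k`-multiples of `h` and the element is an `L`-multiple of `h`.
Since the order of `g r` is at most that of `g`, and equal only for constant `r`, the order of `g` is
the maximal order, `-e`, and `g = λ h`, so `J R(L) = h R(L)`. Hence `J = h R(k)`: if `z ∈ J` then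
`z = h w`, `w ∈ R(L)`, and `ev w = ev z / ev h ∈ k((τ))`, so `w ∈ R(k)` (`exists_aff_eq`).

(In Lean: instead of linearly independent `λ_s` apply `k`-linear functionals `L → k`
coefficientwise.)
-/

namespace Pool.Agent.CAB

variable {k L : Type*} [Field k] [Field L] {a b : ℕ}

/-- There are enough `k`-linear functionals on `L`. -/
lemma exists_functional (φ : k →+* L) {v : L} (hv : v ≠ 0) :
    ∃ ℓ : L →+ k, (∀ c x, ℓ (φ c * x) = c * ℓ x) ∧ ℓ v ≠ 0 := by
  let _ := φ.toAlgebra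
  by_contra hcon
  push Not at hcon
  apply hv
  rw [← Module.forall_dual_apply_eq_zero_iff k v]
  intro f
  refine hcon f.toAddMonoidHom ?_
  intro c x
  have h1 := f.map_smul c x
  rw [Algebra.smul_def] at h1
  exact h1

/-- Apply a functional coefficientwise. -/
noncomputable def fmap (ℓ : L →+ k) (F : LaurentSeries L) : LaurentSeries k := F.map ℓ

@[simp] lemma coeff_fmap (ℓ : L →+ k) (F : LaurentSeries L) (n : ℤ) :
    (fmap ℓ F).coeff n = ℓ (F.coeff n) := rfl

lemma fmap_lmap_mul (φ : k →+* L) (ℓ : L →+ k) (hℓ : ∀ c x, ℓ (φ c * x) = c * ℓ x)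
    (f : LaurentSeries k) (F : LaurentSeries L) :
    fmap ℓ (lmap φ f * F) = f * fmap ℓ F := by
  have hf : (lmap φ f).support ⊆ f.support := by
    intro n hn hn0
    exact hn (by rw [coeff_lmap, hn0, map_zero])
  have hF : (fmap ℓ F).support ⊆ F.support := by
    intro n hn hn0
    exact hn (by rw [coeff_fmap, hn0, map_zero])
  ext n
  rw [coeff_fmap, HahnSeries.coeff_mul_left' f.isPWO_support hf,
    HahnSeries.coeff_mul_right' F.isPWO_support hF, map_sum]
  refine Finset.sum_congr rfl fun ij _ => ?_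
  rw [coeff_lmap, hℓ, coeff_fmap]

lemma fmap_C_mul (ℓ : L →+ k) (s : L) (F : LaurentSeries L) :
    fmap ℓ (HahnSeries.C s * F) = fmap (ℓ.comp (AddMonoidHom.mulLeft s)) F := by
  ext n
  rw [coeff_fmap, coeff_fmap, HahnSeries.C_mul_eq_smul, HahnSeries.coeff_smul]
  rfl

lemma exists_coord {φ : k →+* L} {C : Crv a b k} {C' : Crv a b L} (hn : Num a b)
    (h : Rel C C' φ) {J : Ideal (Aff C.P)} {w : Aff C'.P} (hw : w ∈ J.map h.aff) :
    ∀ ℓ : L →+ k, (∀ c x, ℓ (φ c * x) = c * ℓ x) → ∃ z ∈ J, C.ev z = fmap ℓ (C'.ev w) := by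
  have ha : 1 ≤ a := le_trans (by norm_num) hn.ha
  unfold Ideal.map at hw
  refine Submodule.span_induction (p := fun w _ => ∀ ℓ : L →+ k,
    (∀ c x, ℓ (φ c * x) = c * ℓ x) → ∃ z ∈ J, C.ev z = fmap ℓ (C'.ev w)) ?_ ?_ ?_ ?_ hw
  · rintro _ ⟨z, hz, rfl⟩ ℓ hℓ
    refine ⟨C.cc (ℓ 1) * z, J.mul_mem_left _ hz, ?_⟩
    ext n
    rw [map_mul, C.ev_cc, h.ev_aff, coeff_fmap, coeff_lmap, HahnSeries.C_mul_eq_smul,
      HahnSeries.coeff_smul, smul_eq_mul]
    have h1 := hℓ ((C.ev z).coeff n) 1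
    rw [mul_one] at h1
    rw [h1, mul_comm]
  · intro ℓ _
    refine ⟨0, J.zero_mem, ?_⟩
    ext n
    simp
  · intro x y _ _ hx hy ℓ hℓ
    obtain ⟨z1, hz1, h1⟩ := hx ℓ hℓ
    obtain ⟨z2, hz2, h2⟩ := hy ℓ hℓ
    refine ⟨z1 + z2, J.add_mem hz1 hz2, ?_⟩
    ext n
    rw [map_add, h1, h2, map_add]
    simp
  · intro r x _ hx ℓ hℓ
    obtain ⟨c, -, hr⟩ := C'.exists_repr hn.co ha r
    have hmon : ∀ (n : ℕ) (s : L), ∃ z ∈ J, C.ev z = fmap ℓ (C'.ev (C'.cc s * C'.em n * x)) := by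
      intro n s
      obtain ⟨z, hz, h1⟩ := hx (ℓ.comp (AddMonoidHom.mulLeft s)) (by
        intro c x
        show ℓ (s * (φ c * x)) = c * ℓ (s * x)
        rw [mul_left_comm, hℓ])
      refine ⟨C.em n * z, J.mul_mem_left _ hz, ?_⟩
      have e1 : C'.ev (C'.cc s * C'.em n * x)
          = HahnSeries.C s * (lmap φ (C.ev (C.em n)) * C'.ev x) := by
        rw [map_mul, map_mul, C'.ev_cc, ← h.aff_em, h.ev_aff, mul_assoc]
      rw [e1, fmap_C_mul, fmap_lmap_mul φ, map_mul, h1]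
      intro c x
      show ℓ (s * (φ c * x)) = c * ℓ (s * x)
      rw [mul_left_comm, hℓ]
    have hsum : r • x = c.sum fun n s => C'.cc s * C'.em n * x := by
      rw [smul_eq_mul, hr, Finsupp.sum_mul]
    rw [hsum]
    classical
    unfold Finsupp.sum
    induction c.support using Finset.induction_on with
    | empty =>
      refine ⟨0, J.zero_mem, ?_⟩
      ext n
      simp
    | insert i t hi ih =>
      obtain ⟨z1, hz1, h1⟩ := ih
      obtain ⟨z2, hz2, h2⟩ := hmon i (c i)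
      refine ⟨z2 + z1, J.add_mem hz2 hz1, ?_⟩
      rw [Finset.sum_insert hi, map_add, h1, h2, map_add]
      ext n
      simp

theorem extCl_injective (hn : Num a b) {φ : k →+* L} {C : Crv a b k} {C' : Crv a b L}
    (h : Rel C C' φ) [IsDedekindDomain (Aff C.P)] [IsDedekindDomain (Aff C'.P)]
    (hinj : Function.Injective h.aff) : Function.Injective (extCl h.aff hinj) := by
  have ha : 1 ≤ a := le_trans (by norm_num) hn.ha
  rw [injective_iff_map_eq_one]
  intro c hc
  obtain ⟨J, hJ, rfl⟩ := exists_cl c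
  rw [extCl_cl, cl_eq_one_iff] at hc
  obtain ⟨g, hg⟩ := hc
  rw [cl_eq_one_iff]
  -- an element of minimal weight
  have hex : ∃ m : ℕ, ∃ z ∈ J, z ≠ 0 ∧ OrdGe (-(m : ℤ)) (C.ev z) ∧
      (C.ev z).coeff (-(m : ℤ)) ≠ 0 := by
    obtain ⟨z, hz, hz0⟩ := Submodule.exists_mem_ne_zero_of_ne_bot hJ
    obtain ⟨m, -, h1, h2⟩ := C.exists_lead_ev hn.co ha hz0
    exact ⟨m, z, hz, hz0, h1, h2⟩
  classical
  obtain ⟨z₀, hz₀J, hz₀, hz₀o, hz₀c⟩ := Nat.find_spec hex
  set e := Nat.find hex with he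
  have hmin : ∀ z ∈ J, z ≠ 0 → ¬ (∀ n : ℤ, n ≤ -(e : ℤ) → (C.ev z).coeff n = 0) := by
    intro z hz hz0 hall
    obtain ⟨m, -, h1, h2⟩ := C.exists_lead_ev hn.co ha hz0
    have hm : e ≤ m := Nat.find_min' hex ⟨z, hz, hz0, h1, h2⟩
    exact h2 (hall _ (by omega))
  -- elements of the big ideal
  have hbig : ∀ w ∈ J.map h.aff, w ≠ 0 → ¬ (∀ n : ℤ, n ≤ -(e : ℤ) → (C'.ev w).coeff n = 0) := by
    intro w hw hw0 hall
    apply hw0
    apply C'.ev_injective hn.co ha
    rw [map_zero]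
    by_contra hne
    obtain ⟨n, -, hn1⟩ := exists_lead hne
    obtain ⟨ℓ, hℓ, hℓn⟩ := exists_functional φ hn1
    obtain ⟨z, hz, hzw⟩ := exists_coord hn h hw ℓ hℓ
    have hz0 : z ≠ 0 := by
      rintro rfl
      rw [map_zero] at hzw
      apply hℓn
      rw [← coeff_fmap, ← hzw]
      rfl
    refine hmin z hz hz0 fun n hnn => ?_
    rw [hzw, coeff_fmap, hall n hnn, map_zero]
  -- `g` is a constant multiple of `z₀`
  have hz₀' : h.aff z₀ ∈ J.map h.aff := Ideal.mem_map_of_mem _ hz₀J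
  have hgmem : g ∈ J.map h.aff := by rw [hg]; exact Ideal.mem_span_singleton_self g
  have hz₀a : h.aff z₀ ≠ 0 := fun h0 => hz₀ (hinj (by rw [h0, map_zero]))
  have hg0 : g ≠ 0 := by
    rintro rfl
    rw [hg] at hz₀'
    exact hz₀a (by simpa using hz₀')
  obtain ⟨r, hr⟩ := Ideal.mem_span_singleton.1 (hg ▸ hz₀')
  have hr0 : r ≠ 0 := by
    rintro rfl
    rw [mul_zero] at hr
    exact hz₀a hr
  obtain ⟨m, -, hgo, hgc⟩ := C'.exists_lead_ev hn.co ha hg0
  obtain ⟨m', -, hro, hrc⟩ := C'.exists_lead_ev hn.co ha hr0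
  have hme : e ≤ m := by
    by_contra hlt
    refine hbig g hgmem hg0 fun n hnn => hgo n (by omega)
  have hm' : m' = 0 := by
    have h1 : (C'.ev g * C'.ev r).coeff (-(m : ℤ) + -(m' : ℤ))
        = (C'.ev g).coeff (-(m : ℤ)) * (C'.ev r).coeff (-(m' : ℤ)) := coeff_mul_lead hgo hro
    rw [← map_mul, ← hr, h.ev_aff, coeff_lmap] at h1
    by_contra hm0
    have h2 : (C.ev z₀).coeff (-(m : ℤ) + -(m' : ℤ)) = 0 := hz₀o _ (by omega)
    rw [h2, map_zero] at h1
    exact mul_ne_zero hgc hrc h1.symm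
  obtain ⟨s, hs⟩ := C'.exists_cc_of_nonneg hn.co ha (z := r) (by
    intro n hn0
    exact hro n (by rw [hm']; simpa using hn0))
  have hs0 : s ≠ 0 := by
    rintro rfl
    rw [map_zero] at hs
    exact hr0 hs
  have hg' : g = h.aff z₀ * C'.cc s⁻¹ := by
    rw [hr, hs, mul_assoc, ← map_mul, mul_inv_cancel₀ hs0, map_one, mul_one]
  refine ⟨z₀, le_antisymm ?_ ?_⟩
  · intro z hz
    have hz1 : h.aff z ∈ J.map h.aff := Ideal.mem_map_of_mem _ hz
    rw [hg] at hz1
    obtain ⟨w, hw⟩ := Ideal.mem_span_singleton.1 hz1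
    rw [hg', mul_assoc] at hw
    set w' := C'.cc s⁻¹ * w with hw'
    have hev : C'.ev w' = lmap φ (C.ev z / C.ev z₀) := by
      have h1 := congrArg C'.ev hw
      rw [map_mul, h.ev_aff, h.ev_aff] at h1
      have h2 : lmap φ (C.ev z₀) ≠ 0 := by
        intro h0
        apply hz₀a
        apply C'.ev_injective hn.co ha
        rw [h.ev_aff, h0, map_zero]
      rw [map_div₀, eq_div_iff h2, h1, mul_comm]
    obtain ⟨w₀, hw₀⟩ := h.exists_aff_eq hn.co ha φ.injective hev
    rw [← hw₀, ← map_mul] at hw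
    rw [hinj hw]
    exact Ideal.mem_span_singleton.2 (dvd_mul_right _ _)
  · rw [Ideal.span_singleton_le_iff_mem]
    exact hz₀J

end Pool.Agent.CAB
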