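import Pool.Agent.CAB.Rigid
import Pool.Agent.CAB.Inj
import Pool.Agent.CAB.Indep

/-!
# The induction step: one more marked point

Notation: `C₀` is a smooth curve over `K₀` (characteristic zero), `φ : K₀ → K`.

* `GoodCurve C₀ N`: over the function field `E` of `C₀` (with the point `x₁ = i(x)`) the fibre
  `P(x₁, Y)` has `N` irreducible factors `h_s`, every ideal of the affine ring becomes principal
  after inverting `x - x₁`, and the independence condition holds for the factors.
* `GoodField C₀ φ M`: the constants of the derivations of `K` killing `K₀` are exactly `K₀`, and the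
  class group of the curve over `K` is free of rank `M`.

Paper proof of `good_step` (`C` the curve over `K`, `L` its function field through `i`).
Derivations: let `f ∈ L` be killed by all derivations of `L` killing `K₀`. For `δ ∈ Der(K)`
killing `K₀` every lift `D` of `δ` kills `K₀`, so `D f = 0`, and `consts_frac` (with
`Δ = {δ : δ kills K₀}`, `E = FractionRing (Aff C₀.P)`, `m : E → L` induced by `aff`) gives
`f = m(e)`. The derivation `∂` of `L` extending the tangent derivation of `Aff C.P`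
kills `K ⊇ K₀`; `∂ (m e) = m(∂₀ e)` where `∂₀` is the tangent derivation of `E`
(both sides agree on `Aff C₀.P`), so `∂₀ e = 0` and `e ∈ K₀` by `tangent_consts`.
Class group: let `C'` be the curve over `L`, `CE` the curve over `E`.
The map `Ψ : Cl(C) × ℤ^N → Cl(C')`, `(c, n) ↦ ext c * ∏ (cl T_s)^{n_s}`, `T_s` the ideals
`idT C' x₁ (m h_s) = ` extensions of `idT CE x₁ h_s` (`map_idT`).
Surjective: `rigid`, and `Cl(CE)` is generated by the `cl T_s` (`nagata`, `prime_eq_idT`).
Kernel: if `Ψ(c, n) = 1` then `indep` and the independence condition give that `n` is constant;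
`∏ T_s = (x - x₁)` (`prod_idT`; the `h_s` are pairwise coprime since `P(x₁, Y)` is separable,
`fib_separable`), so `∏ (cl T_s)^{n_s} = 1`, `ext c = 1`, `c = 1` (`extCl_injective`).
Hence `Ψ` restricted to `n_{s₀} = 0` is an isomorphism `Cl(C) × ℤ^{N-1} ≃ Cl(C')` (here `N ≥ 1`
because `P(x₁, Y)` has degree `a ≥ 2`).
-/

namespace Pool.Agent.CAB

open Polynomial

variable {K₀ : Type} [Field K₀] {a b : ℕ}

/-- The properties of the generic member used in the induction. -/
structure GoodCurve (C₀ : Crv a b K₀) (N : ℕ) : Prop where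
  smooth : Smooth C₀.P
  fac : ∀ (E : Type) [Field E] (i₀ : Aff C₀.P →+* E), Frc i₀ → ∀ CE : Crv a b E,
    Rel C₀ CE (i₀.comp C₀.cc) → ∃ h : Fin N → E[X], (∀ s, Irreducible (h s)) ∧
      ∏ s, h s = fib CE.P (i₀ C₀.gx) ∧
      (∀ I : Ideal (Aff CE.P), I ≠ ⊥ → ∃ z ∈ I, z ≠ 0 ∧ ∃ M : ℕ, ∀ w ∈ I,
        (CE.gx - CE.cc (i₀ C₀.gx)) ^ M * w ∈ Ideal.span {z}) ∧
      ∀ (L : Type) [Field L] (m : E →+* L) (g : L[X]) (n : Fin N → ℤ), b * g.natDegree ≤ a →
        (∀ s, (h s).map m ∣ g - C (n s : L)) → ∀ s t, n s = n t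

/-- The properties of the fields in the tower. -/
structure GoodField (C₀ : Crv a b K₀) {K : Type} [Field K] (φ : K₀ →+* K) (M : ℕ) : Prop where
  cst : ∀ z : K, (∀ δ : Der K, (∀ c, δ (φ c) = 0) → δ z = 0) → ∃ c, φ c = z
  clg : ∀ C : Crv a b K, Rel C₀ C φ → ∃ _ : IsDedekindDomain (Aff C.P),
    Nonempty (ClassGroup (Aff C.P) ≃* Multiplicative (Fin M → ℤ))

section aux

variable {K L : Type*} [Field K] [Field L]

/-- Two additive maps with the Leibniz rule along `f` agreeing on the generators are equal. -/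
theorem leib_ext {S : Type*} [CommRing S] {C : Crv a b S} {B : Type*} [CommRing B]
    {f : Aff C.P →+* B} {D₁ D₂ : Aff C.P →+ B}
    (h1 : ∀ x y, D₁ (x * y) = f x * D₁ y + f y * D₁ x)
    (h2 : ∀ x y, D₂ (x * y) = f x * D₂ y + f y * D₂ x)
    (hc : ∀ s, D₁ (C.cc s) = D₂ (C.cc s)) (hx : D₁ C.gx = D₂ C.gx) (hy : D₁ C.gy = D₂ C.gy)
    (w : Aff C.P) : D₁ w = D₂ w := by
  have hpow : ∀ z, D₁ z = D₂ z → ∀ n : ℕ, D₁ (z ^ n) = D₂ (z ^ n) := by
    intro z hz n
    induction n with
    | zero =>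
      have e1 := h1 1 1
      have e2 := h2 1 1
      simp only [one_mul, map_one] at e1 e2
      rw [pow_zero]
      have e1' : D₁ 1 = 0 := by linear_combination -e1
      have e2' : D₂ 1 = 0 := by linear_combination -e2
      rw [e1', e2']
    | succ n ih => rw [pow_succ, h1, h2, ih, hz]
  obtain ⟨q, rfl⟩ := AdjoinRoot.mk_surjective w
  induction q using Polynomial.induction_on' with
  | add p q hp hq => rw [map_add, map_add, map_add, hp, hq]
  | monomial n c =>
    have e : AdjoinRoot.mk C.P (monomial n c) = AdjoinRoot.of C.P c * C.gy ^ n := by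
      rw [← Polynomial.C_mul_X_pow_eq_monomial, map_mul, map_pow]
      rfl
    rw [e, h1, h2, hpow _ hy]
    have e2 : D₁ (AdjoinRoot.of C.P c) = D₂ (AdjoinRoot.of C.P c) := by
      induction c using Polynomial.induction_on' with
      | add p q hp hq =>
        rw [map_add, map_add, map_add, hp (by
          rw [← Polynomial.C_mul_X_pow_eq_monomial, map_mul, map_pow]
          rfl), hq (by
          rw [← Polynomial.C_mul_X_pow_eq_monomial, map_mul, map_pow]
          rfl)]
      | monomial m s =>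
        have e3 : AdjoinRoot.of C.P (monomial m s) = C.cc s * C.gx ^ m := by
          rw [← Polynomial.C_mul_X_pow_eq_monomial, map_mul, map_pow]
          rfl
        rw [e3, h1, h2, hpow _ hx, hc]
    rw [e2]

theorem aff_mk {S T : Type*} [CommRing S] [CommRing T] {C : Crv a b S} {C' : Crv a b T}
    {φ : S →+* T} (h : Rel C C' φ) (q : S[X][X]) :
    h.aff (AdjoinRoot.mk C.P q) = AdjoinRoot.mk C'.P (mapP φ q) := by
  rw [Rel.aff, AdjoinRoot.lift_mk, mapP, ← Polynomial.eval₂_map, ← AdjoinRoot.aeval_eq]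
  rfl

theorem coeff_dX' {S : Type*} [CommRing S] (q : S[X][X]) (j : ℕ) :
    (dX q).coeff j = derivative (q.coeff j) := by
  rw [dX, Polynomial.sum_def, Polynomial.finsetSum_coeff]
  simp only [Polynomial.coeff_monomial]
  rw [Finset.sum_ite_eq']
  split_ifs with h
  · rfl
  · rw [Polynomial.notMem_support_iff.1 h, derivative_zero]

theorem dX_mapP {S T : Type*} [CommRing S] [CommRing T] (φ : S →+* T) (q : S[X][X]) :
    dX (mapP φ q) = mapP φ (dX q) := by
  ext j : 1
  rw [coeff_dX', mapP, mapP, Polynomial.coeff_map, Polynomial.coeff_map, coeff_dX',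
    Polynomial.coe_mapRingHom, Polynomial.derivative_map]

theorem fib_mapP {φ : K →+* L} {P : K[X][X]} {x : K} :
    fib (mapP φ P) (φ x) = (fib P x).map φ := by
  ext j
  simp [fib, mapP, Polynomial.eval_map, Polynomial.eval₂_at_apply]

/-- The tangent derivations are compatible with base change. -/
theorem tangent_aff {S T : Type*} [CommRing S] [CommRing T] {C : Crv a b S} {C' : Crv a b T}
    {φ : S →+* T} (h : Rel C C' φ) {d : Der (Aff C.P)} {d' : Der (Aff C'.P)}
    (h1 : ∀ s, d (C.cc s) = 0) (h2 : d C.gx = AdjoinRoot.mk C.P (derivative C.P))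
    (h3 : d C.gy = - AdjoinRoot.mk C.P (dX C.P)) (h1' : ∀ s, d' (C'.cc s) = 0)
    (h2' : d' C'.gx = AdjoinRoot.mk C'.P (derivative C'.P))
    (h3' : d' C'.gy = - AdjoinRoot.mk C'.P (dX C'.P)) (w : Aff C.P) :
    d' (h.aff w) = h.aff (d w) := by
  refine leib_ext (C := C) (f := h.aff) (D₁ := d'.toAddMonoidHom.comp h.aff.toAddMonoidHom)
    (D₂ := h.aff.toAddMonoidHom.comp d.toAddMonoidHom) ?_ ?_ ?_ ?_ ?_ w
  · intro x y
    show d' (h.aff (x * y)) = h.aff x * d' (h.aff y) + h.aff y * d' (h.aff x)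
    rw [map_mul, d'.leib]
  · intro x y
    show h.aff (d (x * y)) = h.aff x * h.aff (d y) + h.aff y * h.aff (d x)
    rw [d.leib, map_add, map_mul, map_mul]
  · intro s
    show d' (h.aff (C.cc s)) = h.aff (d (C.cc s))
    rw [h.aff_cc, h1', h1, map_zero]
  · show d' (h.aff C.gx) = h.aff (d C.gx)
    rw [h.aff_gx, h2', h2, aff_mk h]
    congr 1
    rw [mapP, ← Polynomial.derivative_map, ← mapP, ← h.P]
  · show d' (h.aff C.gy) = h.aff (d C.gy)
    rw [h.aff_gy, h3', h3, map_neg, aff_mk h]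
    congr 2
    rw [← dX_mapP, ← h.P]

end aux

/-- The derivation part of the induction step. -/
theorem good_step_cst [CharZero K₀] (hn : Num a b) {C₀ : Crv a b K₀} {K : Type} [Field K]
    {φ : K₀ →+* K}
    (hcst : ∀ z : K, (∀ δ : Der K, (∀ c, δ (φ c) = 0) → δ z = 0) → ∃ c, φ c = z)
    {C : Crv a b K} (hC : Rel C₀ C φ) {L : Type} [Field L] {i : Aff C.P →+* L} (hi : Frc i)
    {E : Type} [Field E] {i₀ : Aff C₀.P →+* E} (hi₀ : Frc i₀) {m : E →+* L}
    (hm : ∀ z, m (i₀ z) = i (hC.aff z)) (z : L)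
    (hz : ∀ δ : Der L, (∀ c, δ (((i.comp C.cc).comp φ) c) = 0) → δ z = 0) :
    ∃ c, ((i.comp C.cc).comp φ) c = z := by
  obtain ⟨e, rfl⟩ := consts_frac hn (φ := φ) (Δ := {δ : Der K | ∀ c, δ (φ c) = 0})
    (fun c hc => hcst c fun δ hδ => hc δ hδ) (fun δ hδ => hδ) hC hi₀ hi hm (f := z) (by
      intro δ hδ D hD
      refine hz D fun c => ?_
      show D (i (C.cc (φ c))) = 0
      rw [hD.cc, hδ c, map_zero, map_zero])
  obtain ⟨d, hd1, hd2, hd3⟩ := exists_tangent C
  obtain ⟨d₀, hd1', hd2', hd3'⟩ := exists_tangent C₀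
  obtain ⟨D, hD⟩ := exists_frac_der hi d
  obtain ⟨D₀, hD₀⟩ := exists_frac_der hi₀ d₀
  have hcomp : ∀ w, D (m (i₀ w)) = m (D₀ (i₀ w)) := by
    intro w
    rw [hm, hD, hD₀, hm, tangent_aff hC hd1' hd2' hd3' hd1 hd2 hd3]
  have hcomp' : D (m e) = m (D₀ e) := by
    obtain ⟨p, q, hq, hpq⟩ := hi₀.frac e
    have hq' : i₀ q ≠ 0 := fun h => hq (hi₀.inj (by rw [h, map_zero]))
    have h1 : D (m (e * i₀ q)) = m (D₀ (e * i₀ q)) := by rw [hpq, hcomp]
    rw [map_mul, D.leib, D₀.leib, map_add, map_mul, map_mul, hcomp] at h1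
    have h2 : m (i₀ q) * D (m e) = m (i₀ q) * m (D₀ e) := add_left_cancel h1
    exact mul_left_cancel₀ ((map_ne_zero m).2 hq') h2
  have h0 : D (m e) = 0 := by
    refine hz D fun c => ?_
    show D (i (C.cc (φ c))) = 0
    rw [hD, hd1, map_zero]
  rw [hcomp'] at h0
  have h0' : D₀ e = 0 := (map_eq_zero m).1 h0
  obtain ⟨c, rfl⟩ := tangent_consts hn hi₀ (D := D₀) (fun c => by rw [hD₀, hd1', map_zero])
    (by rw [hD₀, hd2']) (by rw [hD₀, hd3', map_neg]) h0'
  refine ⟨c, ?_⟩
  show i (C.cc (φ c)) = _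
  rw [hm, hC.aff_cc]

/-- Products of integer powers of the elements of a finite family in the closure. -/
theorem exists_prod_zpow {G : Type*} [CommGroup G] {N : ℕ} (t : Fin N → G) {c : G}
    (hc : c ∈ Subgroup.closure (Set.range t)) : ∃ n : Fin N → ℤ, c = ∏ s, t s ^ n s := by
  induction hc using Subgroup.closure_induction with
  | mem x hx =>
    obtain ⟨s, rfl⟩ := hx
    refine ⟨Pi.single s 1, ?_⟩
    rw [Finset.prod_eq_single s]
    · simp
    · intro u _ hu
      rw [Pi.single_eq_of_ne hu, zpow_zero]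
    · intro h
      exact absurd (Finset.mem_univ s) h
  | one => exact ⟨0, by simp⟩
  | mul x y _ _ hx hy =>
    obtain ⟨n, rfl⟩ := hx
    obtain ⟨n', rfl⟩ := hy
    exact ⟨n + n', by simp [zpow_add, Finset.prod_mul_distrib]⟩
  | inv x _ hx =>
    obtain ⟨n, rfl⟩ := hx
    exact ⟨-n, by simp⟩

/-- Abstract group theory of the induction step. -/
theorem group_step {A G : Type*} [CommGroup A] [CommGroup G] {N : ℕ} (hN : 1 ≤ N) (f : A →* G)
    (hf : Function.Injective f) (t : Fin N → G) (hprod : ∏ s, t s = 1)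
    (hgen : ∀ c : G, ∃ (x : A) (n : Fin N → ℤ), c = f x * ∏ s, t s ^ n s)
    (hind : ∀ (x : A) (n : Fin N → ℤ), f x * ∏ s, t s ^ n s = 1 → ∀ s u, n s = n u) {M : ℕ}
    (e : A ≃* Multiplicative (Fin M → ℤ)) :
    Nonempty (G ≃* Multiplicative (Fin (M + (N - 1)) → ℤ)) := by
  obtain ⟨N', rfl⟩ : ∃ N', N = N' + 1 := ⟨N - 1, by omega⟩
  let Ψ : A × Multiplicative (Fin N' → ℤ) →* G :=
    { toFun := fun p => f p.1 * ∏ s : Fin N', t s.succ ^ (Multiplicative.toAdd p.2 s)
      map_one' := by simp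
      map_mul' := by
        intro p q
        simp only [Prod.fst_mul, Prod.snd_mul, map_mul, toAdd_mul, Pi.add_apply, zpow_add,
          Finset.prod_mul_distrib]
        exact mul_mul_mul_comm _ _ _ _ }
  have hΨ : Function.Bijective Ψ := by
    constructor
    · rw [injective_iff_map_eq_one]
      rintro ⟨x, n⟩ h
      have h' : f x * ∏ s : Fin N', t s.succ ^ (Multiplicative.toAdd n s) = 1 := h
      have h1 : f x * ∏ s, t s ^ (Fin.cons 0 (Multiplicative.toAdd n) : Fin (N' + 1) → ℤ) s = 1 := by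
        rw [Fin.prod_univ_succ]
        simpa using h'
      have h2 := hind x _ h1
      have h3 : n = 1 := by
        apply Multiplicative.toAdd.injective
        funext s
        have := h2 s.succ 0
        simpa using this
      subst h3
      have h4 : f x = 1 := by simpa using h'
      have h5 : x = 1 := hf (by rw [h4, map_one])
      rw [h5]
      rfl
    · intro c
      obtain ⟨x, n, rfl⟩ := hgen c
      refine ⟨(x, Multiplicative.ofAdd fun s : Fin N' => n s.succ - n 0), ?_⟩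
      show f x * ∏ s : Fin N', t s.succ ^ (n s.succ - n 0) = _
      have h1 : (∏ s : Fin (N' + 1), t s ^ n 0) = 1 := by
        rw [Finset.prod_zpow, hprod, one_zpow]
      have h2 : ∏ s : Fin (N' + 1), t s ^ n s = ∏ s : Fin (N' + 1), t s ^ (n s - n 0) := by
        have : ∏ s : Fin (N' + 1), t s ^ n s =
            (∏ s : Fin (N' + 1), t s ^ (n s - n 0)) * ∏ s : Fin (N' + 1), t s ^ n 0 := by
          rw [← Finset.prod_mul_distrib]
          exact Finset.prod_congr rfl fun s _ => by rw [← zpow_add, sub_add_cancel]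
        rw [this, h1, mul_one]
      rw [h2, Fin.prod_univ_succ, sub_self, zpow_zero, one_mul]
  let e1 : G ≃* A × Multiplicative (Fin N' → ℤ) := (MulEquiv.ofBijective Ψ hΨ).symm
  let e2 : (Fin (M + N') → ℤ) ≃ₗ[ℤ] (Fin M → ℤ) × (Fin N' → ℤ) :=
    (LinearEquiv.funCongrLeft ℤ ℤ finSumFinEquiv).trans
      (LinearEquiv.sumArrowLequivProdArrow (Fin M) (Fin N') ℤ ℤ)
  let e3 : Multiplicative (Fin M → ℤ) × Multiplicative (Fin N' → ℤ) ≃*
      Multiplicative (Fin (M + N') → ℤ) :=
    (MulEquiv.prodMultiplicative (Fin M → ℤ) (Fin N' → ℤ)).symm.trans (AddEquiv.toMultiplicative e2.symm.toAddEquiv)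
  exact ⟨e1.trans ((MulEquiv.prodCongr e (MulEquiv.refl _)).trans e3)⟩

theorem good_step [CharZero K₀] (hn : Num a b) {C₀ : Crv a b K₀} {N : ℕ}
    (hg : GoodCurve C₀ N) {K : Type} [Field K] {φ : K₀ →+* K} {M : ℕ} (hK : GoodField C₀ φ M)
    {C : Crv a b K} (hC : Rel C₀ C φ) {L : Type} [Field L] {i : Aff C.P →+* L} (hi : Frc i) :
    GoodField C₀ ((i.comp C.cc).comp φ) (M + (N - 1)) := by
  have ha1 : 1 ≤ a := by have := hn.ha; omega
  have : IsDomain (Aff C₀.P) := C₀.isDomain hn.co ha1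
  have : CharZero K := charZero_of_injective_ringHom φ.injective
  obtain ⟨hDed, ⟨eC⟩⟩ := hK.clg C hC
  set E := FractionRing (Aff C₀.P) with hE
  set i₀ : Aff C₀.P →+* E := algebraMap _ _ with hi₀def
  have hi₀ : Frc i₀ := by
    refine ⟨IsFractionRing.injective _ _, fun z => ?_⟩
    obtain ⟨⟨p, q⟩, hpq⟩ := IsLocalization.surj (nonZeroDivisors (Aff C₀.P)) z
    exact ⟨p, q, nonZeroDivisors.ne_zero q.2, hpq⟩
  have hinj0 : Function.Injective (i.comp hC.aff) :=
    hi.inj.comp (hC.aff_injective hn.co ha1 φ.injective)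
  set m : E →+* L := IsFractionRing.lift hinj0 with hmdef
  have hm : ∀ z, m (i₀ z) = i (hC.aff z) := fun z => IsFractionRing.lift_algebraMap hinj0 z
  refine ⟨good_step_cst hn hK.cst hC hi hi₀ hm, ?_⟩
  intro CL hCL
  set CE : Crv a b E := C₀.map (i₀.comp C₀.cc) with hCE
  have hCE0 : Rel C₀ CE (i₀.comp C₀.cc) := C₀.rel_map _
  have hL : Rel C CL (i.comp C.cc) := Rel.of_comp hC hCL
  have hEL : Rel CE CL m := by
    refine Rel.of_comp hCE0 ?_
    have : m.comp (i₀.comp C₀.cc) = (i.comp C.cc).comp φ := by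
      ext c
      show m (i₀ (C₀.cc c)) = i (C.cc (φ c))
      rw [hm, hC.aff_cc]
    rw [this]
    exact hCL
  have hsC : Smooth C.P := by rw [hC.P]; exact hg.smooth.map φ
  have hsCE : Smooth CE.P := by rw [hCE0.P]; exact hg.smooth.map _
  have hsCL : Smooth CL.P := by rw [hCL.P]; exact hg.smooth.map _
  have : IsDedekindDomain (Aff CE.P) := isDedekind hn CE hsCE
  have hDL : IsDedekindDomain (Aff CL.P) := isDedekind hn CL hsCL
  refine ⟨hDL, ?_⟩
  have hinj : Function.Injective hL.aff := hL.aff_injective hn.co ha1 (RingHom.injective _)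
  have hinjE : Function.Injective hEL.aff := hEL.aff_injective hn.co ha1 m.injective
  obtain ⟨h, hirr, hprod, hnag, hindep⟩ := hg.fac E i₀ hi₀ CE hCE0
  have hx : m (i₀ C₀.gx) = i C.gx := by rw [hm, hC.aff_gx]
  have hprodL : ∏ s, (h s).map m = fib CL.P (i C.gx) := by
    rw [← Polynomial.map_prod, hprod, ← fib_mapP, ← hEL.P, hx]
  have hsep := fib_separable hn hi hL
  have hco : ∀ s t, s ≠ t → IsCoprime ((h s).map m) ((h t).map m) := by
    intro s t hst
    apply Polynomial.Separable.isCoprime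
    refine hsep.of_dvd ?_
    rw [← hprodL, ← Finset.mul_prod_erase _ _ (Finset.mem_univ s)]
    refine mul_dvd_mul_left _ (Finset.dvd_prod_of_mem _ ?_)
    exact Finset.mem_erase.2 ⟨hst.symm, Finset.mem_univ t⟩
  have hN : 1 ≤ N := by
    rcases Nat.eq_zero_or_pos N with rfl | h'
    · exfalso
      have h1 := fib_natDegree CE (i₀ C₀.gx)
      rw [← hprod] at h1
      simp at h1
      have := hn.ha
      omega
    · exact h'
  let t : Fin N → ClassGroup (Aff CL.P) := fun s =>
    cl (idT CL (i C.gx) ((h s).map m)) (idT_ne_bot hn CL _ _)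
  refine group_step hN (extCl hL.aff hinj) (extCl_injective hn hL hinj) t ?_ ?_ ?_ eC
  · -- the product of all classes is trivial
    have hb : ∏ s, idT CL (i C.gx) ((h s).map m) ≠ ⊥ := by
      rw [← Ideal.zero_eq_bot, Finset.prod_ne_zero_iff]
      intro s _
      rw [Ideal.zero_eq_bot]
      exact idT_ne_bot hn CL _ _
    have h1 := cl_prod Finset.univ (fun s => idT CL (i C.gx) ((h s).map m))
      (fun s => idT_ne_bot hn CL _ _) hb
    show ∏ s, cl (idT CL (i C.gx) ((h s).map m)) _ = 1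
    rw [← h1, cl_eq_one_iff]
    exact ⟨_, prod_idT CL (i C.gx) hco hprodL⟩
  · intro c
    obtain ⟨c₁, c₂, rfl⟩ := rigid hn (φ := φ) (Δ := {δ : Der K | ∀ c, δ (φ c) = 0})
      (fun c hc => hK.cst c fun δ hδ => hc δ hδ) (fun δ hδ => hδ) hg.smooth hC hi₀ hi hm hCE0 hL
      hEL hinj hinjE c
    have hs0 : CE.gx - CE.cc (i₀ C₀.gx) ≠ 0 := by
      intro h0
      have h1 := congrArg CE.ev h0
      rw [map_sub, CE.ev_gx, CE.ev_cc, map_zero] at h1
      have h2 := congrArg (fun f => HahnSeries.coeff f (-(a : ℤ))) h1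
      have h3 : (HahnSeries.C (i₀ C₀.gx) : LaurentSeries E).coeff (-(a : ℤ)) = 0 := by
        rw [HahnSeries.C_apply, HahnSeries.coeff_single, if_neg]
        omega
      simp only [HahnSeries.coeff_sub, HahnSeries.coeff_zero, h3, CE.x_lead.1, sub_zero] at h2
      exact one_ne_zero h2
    have hgen := nagata hs0 hnag
    let tE : Fin N → ClassGroup (Aff CE.P) := fun s =>
      cl (idT CE (i₀ C₀.gx) (h s)) (idT_ne_bot hn CE _ _)
    have hc₂ : c₂ ∈ Subgroup.closure (Set.range tE) := by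
      have : c₂ ∈ (⊤ : Subgroup (ClassGroup (Aff CE.P))) := Subgroup.mem_top _
      rw [← hgen] at this
      refine Subgroup.closure_mono ?_ this
      rintro c ⟨p, hp, hprime, hmem, rfl⟩
      obtain ⟨s, hs⟩ := prime_eq_idT CE (i₀ C₀.gx) hirr hprod p hmem
      refine ⟨s, ?_⟩
      subst hs
      rfl
    obtain ⟨n, hn'⟩ := exists_prod_zpow tE hc₂
    refine ⟨c₁, n, ?_⟩
    rw [hn', map_prod]
    congr 1
    refine Finset.prod_congr rfl fun s _ => ?_
    rw [map_zpow]
    congr 1
    show extCl hEL.aff hinjE (cl (idT CE (i₀ C₀.gx) (h s)) _) = _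
    rw [extCl_cl]
    have h2 := map_idT hEL (i₀ C₀.gx) (h s)
    rw [hx] at h2
    simp only [h2]
    rfl
  · intro c n h0
    obtain ⟨g, hg1, hg2⟩ := indep hn hi hL hinj hco hprodL c n h0
    exact hindep L m g n hg1 hg2

end Pool.Agent.CAB
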