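import Pool.Agent.CAB.H2

/-!
# CAB: the general family with at least four free parameters, and the base `ℤ[1/N][t_1, ..., t_l]`
-/

namespace Pool.Agent.CAB

open Polynomial Finset Pool.Agent.Hhelper85 Pool.Agent.HypTate

section general

variable {R₀ : Type} [CommRing R₀] [Algebra.FiniteType ℤ R₀] {P₀ : R₀[X][X]} {k : ℕ}
  {Δ : MvPolynomial (Fin k) R₀} {r : ℕ} {M : ℝ} (hM : MomHyp P₀ Δ r M) {d : ℝ}
  (hd : ∀ σ : ℝ, d < σ → Summable fun x : Nat.Primes × ℕ => (hN R₀ x : ℝ) * pr σ x)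
include hM hd

lemma exp_LD (hd0 : 0 ≤ d) {s : ℂ} (hs : d < s.re) {z w : ℂ}
    (hz : HasProd (fun m : MaximalSpectrum R₀ => (1 - (qy m : ℂ) ^ (-s))⁻¹) z)
    (hw : HasProd (fun m : MaximalSpectrum (RZ P₀) => (1 - (qy m : ℂ) ^ (-(s + 2)))⁻¹) w) :
    Complex.exp (LD P₀ (s + 2)) = w / z := by
  have h1 := hasProd_LZ' (R := R₀) (s := s) (by linarith) (hd _ hs)
  have hs2 : d + 2 < (s + 2).re := by
    simp only [Complex.add_re, Complex.re_ofNat]
    linarith
  have h2 := hasProd_LZ' (R := RZ P₀) (s := s + 2) (by linarith) (summable_RZ hM hd hs2)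
  rw [hz.unique h1, hw.unique h2, LD_eq hM hd hs2, ← Complex.exp_sub]
  congr 3
  ring

/-- The factorisation of the Euler product. -/
theorem cab_factor (hd0 : 0 ≤ d) :
    ∃ H : ℂ → ℂ, DifferentiableOn ℂ H {s : ℂ | d + r + k - 1 / 4 < s.re} ∧
      ∀ s : ℂ, d + r + k + 1 / 2 < s.re →
        HasProd (fun m : MaximalSpectrum ((family P₀ k Δ).power r).R =>
          localFactor ((family P₀ k Δ).power r).P m s)
          (Complex.exp (H s) * (((∏' m : MaximalSpectrum (RZ P₀),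
            (1 - (qy m : ℂ) ^ (-(s - (r + k) + 2)))⁻¹) /
            ∏' m : MaximalSpectrum R₀, (1 - (qy m : ℂ) ^ (-(s - (r + k))))⁻¹) ^ r)⁻¹) := by
  refine ⟨HP P₀ Δ r, differentiableOn_HP hM hd, ?_⟩
  intro s hs
  apply hasProd_factor hM hd hs
  have hr' : d < (s - ((r : ℂ) + k)).re := by
    simp only [Complex.sub_re, Complex.add_re, Complex.natCast_re]
    linarith
  have hs2 : d + 2 < (s - (r + k) + 2).re := by
    simp only [Complex.sub_re, Complex.add_re, Complex.natCast_re, Complex.re_ofNat]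
    linarith
  have h1 := hasProd_LZ' (R := R₀) (s := s - (r + k)) (by linarith) (hd _ hr')
  have h2 := hasProd_LZ' (R := RZ P₀) (s := s - (r + k) + 2) (by linarith)
    (summable_RZ hM hd hs2)
  exact (exp_LD hM hd hd0 hr' h1.multipliable.hasProd h2.multipliable.hasProd).symm

/-- The continuation of the Euler product. -/
theorem cab_cont (hd0 : 0 ≤ d) {ε : ℝ} (hε : 0 < ε) (hε1 : ε ≤ 1 / 4) {W : ℂ → ℂ}
    (hWm : MeromorphicOn W {s : ℂ | d - ε < s.re})
    (hW : ∀ s : ℂ, d < s.re → ∀ z w : ℂ,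
      HasProd (fun m : MaximalSpectrum R₀ => (1 - (qy m : ℂ) ^ (-s))⁻¹) z →
      HasProd (fun m : MaximalSpectrum (RZ P₀) => (1 - (qy m : ℂ) ^ (-(s + 2)))⁻¹) w →
      W s = w / z) :
    ∃ Φ : ℂ → ℂ, MeromorphicOn Φ {s : ℂ | d + r + k - ε < s.re} ∧
      (∀ s : ℂ, d + r + k + 1 / 2 < s.re →
        HasProd (fun m : MaximalSpectrum ((family P₀ k Δ).power r).R =>
          localFactor ((family P₀ k Δ).power r).P m s) (Φ s)) ∧
      meromorphicOrderAt Φ ((d : ℂ) + r + k) = -(r * meromorphicOrderAt W (d : ℂ)) := by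
  refine rel_cont hM hd hε hε1 hWm ?_
  intro s hs
  have hs2 : d + 2 < (s + 2).re := by
    simp only [Complex.add_re, Complex.re_ofNat]
    linarith
  have h1 := hasProd_LZ' (R := R₀) (s := s) (by linarith) (hd _ hs)
  have h2 := hasProd_LZ' (R := RZ P₀) (s := s + 2) (by linarith) (summable_RZ hM hd hs2)
  rw [hW s hs _ _ h1 h2]
  exact (exp_LD hM hd hd0 hs h1 h2).symm

end general

section ZN

variable {N : ℕ} [NeZero N]

/-- The families `P₁ + t y + ∑ u_i x^i` over `ℤ[1/N][t_1, ..., t_l]`, unconditionally. -/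
theorem addTY_ZN {l : ℕ} {P₁ : (PolyZN N l)[X][X]} {k : ℕ}
    {Δ : MvPolynomial (Fin k) (PolyZN N l)[X]} {r : ℕ} {M : ℝ}
    (hM : MomHyp (addTY P₁) Δ r M) :
    ∃ Φ : ℂ → ℂ, MeromorphicOn Φ {s : ℂ | (l : ℝ) + 1 + 1 + r + k - 1 / 4 < s.re} ∧
      (∀ s : ℂ, (l : ℝ) + 1 + 1 + r + k + 1 / 2 < s.re →
        HasProd (fun m : MaximalSpectrum ((family (addTY P₁) k Δ).power r).R =>
          localFactor ((family (addTY P₁) k Δ).power r).P m s) (Φ s)) ∧
      meromorphicOrderAt Φ ((l : ℂ) + 1 + 1 + r + k) = ((r : ℕ) : ℤ) := by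
  have hd : ∀ σ : ℝ, (l : ℝ) + 1 < σ →
      Summable fun x : Nat.Primes × ℕ => (hN (PolyZN N l) x : ℝ) * pr σ x :=
    fun σ hσ => Pool.Agent.HypJac.hzn_summable N l hσ
  have hZ : ∀ s : ℂ, (l : ℝ) + 1 < s.re →
      HasProd (fun m : MaximalSpectrum (PolyZN N l) => (1 - (qy m : ℂ) ^ (-s))⁻¹)
        (riemannZeta (s - l) * PN N (s - l)) := by
    intro s hs
    have h1 := hasProd_LZ' (R := PolyZN N l) (s := s)
      (by have : (0 : ℝ) ≤ l := Nat.cast_nonneg l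
          linarith) (hd _ hs)
    have h2 : Complex.exp (LZ (PolyZN N l) s) = riemannZeta (s - l) * PN N (s - l) := by
      rw [Pool.Agent.HypJac.hzn_LZ, exp_LZ_ZN (NeZero.ne N) (by
        simp only [Complex.sub_re, Complex.natCast_re]; linarith)]
    rw [h2] at h1
    exact h1
  obtain ⟨Φ, h1, h2, h3⟩ := addTY_cont hM hd
    (by positivity : (0 : ℝ) ≤ (l : ℝ) + 1) (ε := 1 / 4) (by norm_num) le_rfl
    (fun s _ => Pool.Agent.HypJac.hzn_mero N (l : ℂ) s) hZ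
  refine ⟨Φ, h1, h2, ?_⟩
  have e : (((l : ℝ) + 1 : ℝ) : ℂ) = (l : ℂ) + 1 := by push_cast; ring
  rw [e] at h3
  rw [h3, Pool.Agent.HypJac.hzn_order N (l : ℂ)]
  norm_cast
  simp

end ZN

end Pool.Agent.CAB
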