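import Mathlib

/-!
# The independence condition for superelliptic curves

Paper proof of `cyc_indep`. Put `G(T) = g(y₁ T)`, of degree `≤ m / n ≤ m / 2`, and `h⁰_s ∣ G - n_s`.
Let `Ω` be an algebraic closure of `L`, `ζ` a primitive `m`-th root of unity. For `t ∈ ZMod m`
let `ν_t = n_s` if `ζ^t` is a root of `h⁰_s` (every `ζ^t` is a root of some `h⁰_s` as
`∏ h⁰_s = T^m - 1`). So `G(ζ^t) = ν_t`. By orthogonality the coefficient of `T^j` (`0 ≤ j < m`) in
`G` is `G_j = (1/m) ∑_t ν_t ζ^{-jt}`. If `G_j = 0` then the integral relation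
`∑_t ν_t ζ^{-jt} = 0` implies `∑_t ν_t ζ^{jt} = 0` (the polynomial `∑_t ν_t T^{(-jt mod m)}` with
integer coefficients vanishes at `ζ`, so it is divisible by the cyclotomic polynomial and vanishes at
`ζ⁻¹`), so `G_{m-j} = 0`. For `0 < j < m`: one of `j`, `m - j` is `> m / n`, unless `n = 2` and
`j = m / 2`, excluded since then `m` is odd. So `G_j = 0` for all `0 < j < m`, `G` is
constant, `G = ν_t` for all `t`, and every `h⁰_s` has a root `ζ^t`, so all `n_s` are equal.
-/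

namespace Pool.Agent.CAB

open Polynomial

section aux

variable {K : Type*} [Field K] [CharZero K]

omit [CharZero K] in
lemma ci_geom {m : ℕ} {ζ : K} (hζ : IsPrimitiveRoot ζ m) {i j : ℕ} (hi : i < m) (hj : j < m) :
    ∑ t ∈ Finset.range m, (ζ ^ t) ^ i * (ζ ^ (m - j)) ^ t = if i = j then (m : K) else 0 := by
  have h1 : ∀ t, (ζ ^ t) ^ i * (ζ ^ (m - j)) ^ t = (ζ ^ (i + (m - j))) ^ t := by
    intro t
    rw [← pow_mul, ← pow_mul, ← pow_add, ← pow_mul]
    congr 1
    ring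
  simp only [h1]
  split_ifs with hij
  · subst hij
    have h2 : i + (m - i) = m := by omega
    rw [h2, hζ.pow_eq_one]
    simp
  · have h2 : ζ ^ (i + (m - j)) ≠ 1 := by
      intro h
      have h3 := hζ.dvd_of_pow_eq_one _ h
      obtain ⟨c, hc⟩ := h3
      rcases c with _ | _ | c
      · omega
      · omega
      · have : m * (c + 1 + 1) = m * c + m + m := by ring
        omega
    have h3 := geom_sum_mul (ζ ^ (i + (m - j))) m
    rw [← pow_mul, mul_comm _ m, pow_mul, hζ.pow_eq_one, one_pow, sub_self] at h3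
    exact (mul_eq_zero.1 h3).resolve_right (sub_ne_zero.2 h2)

omit [CharZero K] in
lemma ci_coeff {m : ℕ} {ζ : K} (hζ : IsPrimitiveRoot ζ m) {P : K[X]} (hP : P.natDegree < m)
    {ν : ℕ → ℤ} (hν : ∀ t, P.eval (ζ ^ t) = ν t) {j : ℕ} (hj : j < m) :
    aeval (ζ ^ (m - j)) (∑ t ∈ Finset.range m, C (ν t) * X ^ t : ℤ[X]) = m * P.coeff j := by
  rw [map_sum]
  have h1 : ∀ t ∈ Finset.range m, aeval (ζ ^ (m - j)) (C (ν t) * X ^ t : ℤ[X]) =
      ∑ i ∈ Finset.range m, P.coeff i * ((ζ ^ t) ^ i * (ζ ^ (m - j)) ^ t) := by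
    intro t _
    rw [map_mul, map_pow, aeval_X, aeval_C, eq_intCast, ← hν, eval_eq_sum_range' hP,
      Finset.sum_mul]
    exact Finset.sum_congr rfl (fun i _ => by ring)
  rw [Finset.sum_congr rfl h1, Finset.sum_comm]
  simp only [← Finset.mul_sum]
  have h2 : ∀ i ∈ Finset.range m, P.coeff i *
      ∑ t ∈ Finset.range m, (ζ ^ t) ^ i * (ζ ^ (m - j)) ^ t = if i = j then m * P.coeff j else 0 := by
    intro i hi
    rw [ci_geom hζ (Finset.mem_range.1 hi) hj]
    split_ifs with h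
    · rw [h]; ring
    · rw [mul_zero]
  rw [Finset.sum_congr rfl h2, Finset.sum_ite_eq' (Finset.range m) j, if_pos (Finset.mem_range.2 hj)]

lemma ci_conj {m : ℕ} (hm : 0 < m) {ζ : K} (hζ : IsPrimitiveRoot ζ m) {j : ℕ} (hj : j < m)
    {N : ℤ[X]} (h : aeval (ζ ^ j) N = 0) : aeval (ζ ^ (m - j)) N = 0 := by
  have hinv : ζ ^ (m - j) = (ζ ^ j)⁻¹ := by
    apply eq_inv_of_mul_eq_one_left
    rw [← pow_add, Nat.sub_add_cancel hj.le, hζ.pow_eq_one]
  have hk : 0 < orderOf (ζ ^ j) := by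
    rw [orderOf_pos_iff, isOfFinOrder_iff_pow_eq_one]
    refine ⟨m, hm, ?_⟩
    rw [← pow_mul, mul_comm, pow_mul, hζ.pow_eq_one, one_pow]
  have h1 : IsPrimitiveRoot (ζ ^ j) (orderOf (ζ ^ j)) := IsPrimitiveRoot.orderOf _
  have h2 : IsPrimitiveRoot (ζ ^ j)⁻¹ (orderOf (ζ ^ j)) := h1.inv
  have h3 := cyclotomic_eq_minpoly h1 hk
  have h4 := cyclotomic_eq_minpoly h2 hk
  have h5 : minpoly ℤ (ζ ^ j) ∣ N :=
    minpoly.isIntegrallyClosed_dvd (h1.isIntegral hk) h
  rw [← h3, h4] at h5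
  rw [hinv]
  exact aeval_eq_zero_of_dvd_aeval_eq_zero h5 (minpoly.aeval _ _)

lemma ci_main {m n : ℕ} (hm : 2 ≤ m) (hn : 2 ≤ n) (hco : Nat.Coprime m n) {ζ : K}
    (hζ : IsPrimitiveRoot ζ m) {P : K[X]} (hP : n * P.natDegree ≤ m)
    {ν : ℕ → ℤ} (hν : ∀ t, P.eval (ζ ^ t) = ν t) {j : ℕ} (hj0 : 0 < j) : P.coeff j = 0 := by
  have hm0 : (m : K) ≠ 0 := by exact_mod_cast (by omega : m ≠ 0)
  by_cases h1 : m < n * j
  · apply coeff_eq_zero_of_natDegree_lt
    by_contra h2
    have := Nat.mul_le_mul_left n (not_lt.1 h2)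
    omega
  have hjm : j < m := by nlinarith
  have hPm : P.natDegree < m := by
    by_contra h2
    nlinarith [not_lt.1 h2]
  have h2 : P.coeff (m - j) = 0 := by
    apply coeff_eq_zero_of_natDegree_lt
    by_contra h2
    have h3 := Nat.mul_le_mul_left n (not_lt.1 h2)
    have h4 : n * (m - j) + n * j = n * m := by
      rw [← mul_add, Nat.sub_add_cancel hjm.le]
    have h5 : n * m ≤ 2 * m := by omega
    have h6 : n = 2 := by
      have := Nat.le_of_mul_le_mul_right h5 (by omega)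
      omega
    subst h6
    have h7 : m = 2 * j := by omega
    rw [h7] at hco
    have := Nat.Coprime.eq_one_of_dvd hco.symm (Dvd.intro _ rfl)
    omega
  have h3 := ci_coeff hζ hPm hν (j := m - j) (by omega)
  rw [h2, mul_zero] at h3
  have h4 : m - (m - j) = j := by omega
  rw [h4] at h3
  have h5 := ci_conj (by omega) hζ hjm h3
  rw [ci_coeff hζ hPm hν hjm] at h5
  exact (mul_eq_zero.1 h5).resolve_left hm0

end aux

theorem cyc_indep {L : Type*} [Field L] [CharZero L] {m n : ℕ} (hm : 2 ≤ m) (hn : 2 ≤ n)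
    (hco : Nat.Coprime m n) {ι : Type*} [Fintype ι] {h : ι → L[X]}
    (hirr : ∀ s, 0 < (h s).natDegree) (hprod : ∏ s, h s = X ^ m - 1) {y₁ : L} (hy : y₁ ≠ 0)
    {g : L[X]} (hg : n * g.natDegree ≤ m) {ν : ι → ℤ}
    (hdvd : ∀ s, (h s).comp (C y₁⁻¹ * X) ∣ g - C (ν s : L)) : ∀ s t, ν s = ν t := by
  classical
  have hmL : NeZero ((m : ℕ) : AlgebraicClosure L) := ⟨by exact_mod_cast (by omega : m ≠ 0)⟩
  obtain ⟨ζ, hζ⟩ := HasEnoughRootsOfUnity.exists_primitiveRoot (AlgebraicClosure L) m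
  set G : L[X] := g.comp (C y₁ * X) with hG
  have hGdvd : ∀ s, h s ∣ G - C (ν s : L) := by
    intro s
    obtain ⟨q, hq⟩ := hdvd s
    have h1 := congrArg (fun p => p.comp (C y₁ * X)) hq
    simp only [sub_comp, C_comp, mul_comp, comp_assoc, X_comp] at h1
    have h2 : (C y₁⁻¹ * (C y₁ * X) : L[X]) = X := by
      rw [← mul_assoc, ← C_mul, inv_mul_cancel₀ hy, C_1, one_mul]
    rw [h2, comp_X] at h1
    exact ⟨_, h1⟩
  have hGdeg : G.natDegree ≤ g.natDegree := by
    rw [hG]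
    refine natDegree_comp_le.trans ?_
    have : (C y₁ * X : L[X]).natDegree ≤ 1 := (natDegree_C_mul_le _ _).trans natDegree_X_le
    nlinarith
  have hval : ∀ t : ℕ, ∃ k : ℤ,
      (G.map (algebraMap L (AlgebraicClosure L))).eval (ζ ^ t) = (k : AlgebraicClosure L) := by
    intro t
    have h1 : (ζ ^ t) ^ m = 1 := by rw [← pow_mul, mul_comm, pow_mul, hζ.pow_eq_one, one_pow]
    have h2 : eval (ζ ^ t) ((∏ s, h s).map (algebraMap L (AlgebraicClosure L))) = 0 := by
      rw [hprod]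
      simp [h1]
    rw [Polynomial.map_prod, eval_prod, Finset.prod_eq_zero_iff] at h2
    obtain ⟨s, -, hs⟩ := h2
    obtain ⟨q, hq⟩ := hGdvd s
    refine ⟨ν s, ?_⟩
    have h3 := congrArg (fun p => eval (ζ ^ t) (p.map (algebraMap L (AlgebraicClosure L)))) hq
    have h4 : eval (ζ ^ t) ((C (ν s : L)).map (algebraMap L (AlgebraicClosure L))) =
        (ν s : AlgebraicClosure L) := by
      rw [Polynomial.map_C, eval_C, map_intCast]
    rw [Polynomial.map_sub, Polynomial.map_mul, eval_sub, eval_mul, hs, zero_mul, h4] at h3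
    exact sub_eq_zero.1 h3
  choose k hk using hval
  have hcoef : ∀ j, 0 < j → G.coeff j = 0 := by
    intro j hj
    have h1 : n * (G.map (algebraMap L (AlgebraicClosure L))).natDegree ≤ m := by
      rw [natDegree_map]
      exact (Nat.mul_le_mul_left n hGdeg).trans hg
    have h2 := ci_main hm hn hco hζ h1 hk hj
    rw [coeff_map] at h2
    exact (map_eq_zero _).1 h2
  have hGC : G = C (G.coeff 0) := by
    ext j
    rcases j with _ | j
    · simp
    · rw [hcoef (j + 1) (by omega), coeff_C, if_neg (by omega)]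
  have hs : ∀ s, G.coeff 0 = (ν s : L) := by
    intro s
    have h1 := hGdvd s
    rw [hGC, ← C_sub] at h1
    by_contra hne
    have h2 := natDegree_le_of_dvd h1 (by rw [Ne, C_eq_zero]; exact sub_ne_zero.2 hne)
    rw [natDegree_C] at h2
    have := hirr s
    omega
  intro s t
  have := (hs s).symm.trans (hs t)
  exact_mod_cast this

end Pool.Agent.CAB
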