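import Mathlib

/-!
# Definitions: families of plane curves, fibre powers, Euler products

* `PolyRing`: a commutative ring `R` with a polynomial `P(x, y)` over `R`, i.e. the affine plane
  curve `P = 0` over `Spec R` (`P : R[X][X]`, the outer variable is `y`, the inner one is `x`).
* `PolyRing.adjoin`: the same curve over its own coordinate ring `R[x, y] / (P)`; the `r`-th
  iterate is the curve over the `r`-fold fibre power (`r` marked points).
* `localFactor`: `P_{y,1}(q_y ^ (-s))⁻¹ = exp (∑_{j ≥ 1} a_j q_y ^ (-js) / j)`, where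
  `a_j = q_y ^ j - N_j` and `N_j` is the number of solutions of `P = 0` with coordinates in the
  extension of degree `j` of the residue field (one point at infinity: `N_j + 1 = q_y^j + 1 - a_j`).
-/

namespace Pool.Agent.CAB

open Polynomial

section Euler

variable {R : Type*} [CommRing R]

/-- `q_y`: the number of elements of the residue field at the closed point `m` of `Spec R`. -/
noncomputable def qy (m : MaximalSpectrum R) : ℕ := Nat.card (R ⧸ m.asIdeal)

/-- The number of solutions of `P(x, y) = 0` with coordinates in the extension of degree `j` of the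
residue field `k` of `m`, i.e. with `x, y ∈ k̄` fixed by the `j`-th power of the Frobenius. -/
noncomputable def Nj (P : R[X][X]) (m : MaximalSpectrum R) (j : ℕ) : ℕ :=
  letI := Ideal.Quotient.field m.asIdeal
  Nat.card {z : AlgebraicClosure (R ⧸ m.asIdeal) × AlgebraicClosure (R ⧸ m.asIdeal) //
    z.1 ^ (qy m ^ j) = z.1 ∧ z.2 ^ (qy m ^ j) = z.2 ∧
      (P.map (mapRingHom ((algebraMap (R ⧸ m.asIdeal) (AlgebraicClosure (R ⧸ m.asIdeal))).comp
        (Ideal.Quotient.mk m.asIdeal)))).evalEval z.1 z.2 = 0}

/-- The trace of the `j`-th power of the Frobenius at `m`. -/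
noncomputable def trj (P : R[X][X]) (m : MaximalSpectrum R) (j : ℕ) : ℤ :=
  (qy m : ℤ) ^ j - Nj P m j

/-- The local factor `P_{y,1}(q_y^{-s})⁻¹ = exp (∑_{j ≥ 1} a_j q_y^{-js} / j)`. -/
noncomputable def localFactor (P : R[X][X]) (m : MaximalSpectrum R) (s : ℂ) : ℂ :=
  Complex.exp (∑' j : ℕ, (trj P m (j + 1) : ℂ) * ((qy m : ℂ) ^ (-s)) ^ (j + 1) / (j + 1))

end Euler

/-- A commutative ring with a polynomial `P(x, y)`: an affine plane curve over `Spec R`. -/
structure PolyRing where
  /-- the ring -/
  R : Type
  /-- its ring structure -/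
  [ring : CommRing R]
  /-- the polynomial -/
  P : R[X][X]

attribute [instance] PolyRing.ring

/-- The structure map from a ring to the coordinate ring of a plane curve over it. -/
noncomputable def PolyRing.up (S : PolyRing) : S.R →+* AdjoinRoot S.P := (AdjoinRoot.of S.P).comp C

/-- Adjoin a point of the curve: the curve over its coordinate ring `S.R[x, y] / (P)`. -/
noncomputable def PolyRing.adjoin (S : PolyRing) : PolyRing where
  R := AdjoinRoot S.P
  P := S.P.map (mapRingHom S.up)

/-- The curve over the `r`-fold fibre power of the affine curve (`r` marked points). -/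
noncomputable def PolyRing.power (S : PolyRing) (r : ℕ) : PolyRing := PolyRing.adjoin^[r] S

/-- The polynomial `P₀(x, y) + u_0 + u_1 x + ... + u_{k-1} x^{k-1}` over `R₀[u_0, ..., u_{k-1}]`. -/
noncomputable def famP {R₀ : Type} [CommRing R₀] (P₀ : R₀[X][X]) (k : ℕ) :
    (MvPolynomial (Fin k) R₀)[X][X] :=
  P₀.map (mapRingHom MvPolynomial.C) + C (∑ i : Fin k, C (MvPolynomial.X i) * X ^ (i : ℕ))

/-- The family of curves `P₀(x, y) + u_0 + u_1 x + ... + u_{k-1} x^{k-1} = 0` over
`R₀[u_0, ..., u_{k-1}, 1/Δ]`. -/
noncomputable def family {R₀ : Type} [CommRing R₀] (P₀ : R₀[X][X]) (k : ℕ)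
    (Δ : MvPolynomial (Fin k) R₀) : PolyRing where
  R := Localization.Away Δ
  P := (famP P₀ k).map (mapRingHom (algebraMap (MvPolynomial (Fin k) R₀) (Localization.Away Δ)))

end Pool.Agent.CAB
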