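import Pool.Agent.CAB.Gen

/-!
# Irreducible factors over purely transcendental extensions
-/

namespace Pool.Agent.CAB

open Polynomial

/-- Gauss: a monic prime polynomial over an integrally closed domain stays irreducible over the
fraction field. -/
theorem fact_aux {F A E : Type*} [Field F] [CommRing A] [IsDomain A] [IsIntegrallyClosed A]
    [Field E] {ι : F →+* A} {f : A →+* E} (hf : Frc f) {q : F[X]} (hq0 : q ≠ 0)
    (hq : Prime (q.map ι)) : Irreducible (q.map (f.comp ι)) := by
  let _inst : Algebra A E := f.toAlgebra
  have hmap : ∀ a, algebraMap A E a = f a := fun a => rfl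
  have _inst2 : IsFractionRing A E := by
    refine (isLocalization_iff (M := nonZeroDivisors A) (S := E)).2 ⟨?_, ?_, ?_⟩
    · rintro ⟨y, hy⟩
      rw [isUnit_iff_ne_zero]
      intro h0
      apply nonZeroDivisors.ne_zero hy
      apply hf.inj
      rw [map_zero]
      exact h0
    · intro z
      obtain ⟨p, q, hq, h⟩ := hf.frac z
      exact ⟨(p, ⟨q, mem_nonZeroDivisors_of_ne_zero hq⟩), h⟩
    · intro x y h
      exact ⟨1, by rw [hf.inj h]⟩
  have hlc : q.leadingCoeff ≠ 0 := leadingCoeff_ne_zero.2 hq0
  set q' := q * C q.leadingCoeff⁻¹ with hq'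
  have hmon : q'.Monic := monic_mul_leadingCoeff_inv hq0
  have hu : IsUnit (C q.leadingCoeff⁻¹ : F[X]) := isUnit_C.2 (isUnit_iff_ne_zero.2 (inv_ne_zero hlc))
  have h1 : Prime (q'.map ι) := by
    have h2 : Associated (q.map ι) (q'.map ι) := by
      rw [hq', Polynomial.map_mul]
      exact associated_mul_unit_right _ _ (hu.map (mapRingHom ι))
    exact h2.prime hq
  have h3 : Irreducible ((q'.map ι).map (algebraMap A E)) :=
    ((hmon.map ι).irreducible_iff_irreducible_map_fraction_map (K := E)).1 h1.irreducible
  have h4 : (q'.map ι).map (algebraMap A E) = q'.map (f.comp ι) := by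
    rw [Polynomial.map_map]
    rfl
  rw [h4] at h3
  have h5 : Associated (q.map (f.comp ι)) (q'.map (f.comp ι)) := by
    rw [hq', Polynomial.map_mul]
    exact associated_mul_unit_right _ _ (hu.map (mapRingHom (f.comp ι)))
  exact h5.symm.irreducible h3

theorem prime_map_C {R : Type*} [CommRing R] {p : R[X]} (hp : Prime p) :
    Prime (p.map (C : R →+* R[X])) := by
  have h1 : Prime (Bivariate.swap (p.map (C : R →+* R[X]))) := by
    rw [Bivariate.swap_map_C]
    exact Polynomial.prime_C_iff.2 hp
  exact (MulEquiv.prime_iff (Bivariate.swap (R := R)).toMulEquiv).1 h1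

/-- An irreducible polynomial over a field `F` stays irreducible over `F(t)`: `f : F[X] → E` with
`E` the fraction field of `F[X]`. Proof: let `q ∈ F[Y]` be irreducible (monic without loss of
generality). `F[t][Y] / (q) = (F[Y]/q)[t]` is a domain, so `q` is prime in `F[t][Y]`; by Gauss's
lemma (`Polynomial.Monic.irreducible_iff_irreducible_map_fraction_map`) it is irreducible over
the fraction field. -/
theorem irreducible_map_of_frac {F E : Type*} [Field F] [Field E] {f : F[X] →+* E} (hf : Frc f)
    {q : F[X]} (hq : Irreducible q) : Irreducible (q.map (f.comp C)) :=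
  fact_aux hf hq.ne_zero (prime_map_C hq.prime)

/-- Same with two steps: `E` is the fraction field of `F[X][X]`. -/
theorem irreducible_map_of_frac2 {F E : Type*} [Field F] [Field E] {f : F[X][X] →+* E}
    (hf : Frc f) {q : F[X]} (hq : Irreducible q) : Irreducible (q.map (f.comp (C.comp C))) := by
  apply fact_aux hf hq.ne_zero
  rw [← Polynomial.map_map]
  exact prime_map_C (prime_map_C hq.prime)

/-- Same for several variables: `E` is the fraction field of `F[t_i]`. -/
theorem irreducible_map_of_frac_mv {F E : Type*} [Field F] [Field E] {σ : Type*}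
    {f : MvPolynomial σ F →+* E} (hf : Frc f) {q : F[X]} (hq : Irreducible q) :
    Irreducible (q.map (f.comp MvPolynomial.C)) := by
  apply fact_aux hf hq.ne_zero
  set e : (MvPolynomial σ F)[X] ≃ₐ[F] MvPolynomial σ F[X] :=
    (MvPolynomial.optionEquivLeft F σ).symm.trans (MvPolynomial.optionEquivRight F σ) with he
  have h1 : e (q.map (MvPolynomial.C : F →+* MvPolynomial σ F)) = MvPolynomial.C q := by
    have h2 : (e : (MvPolynomial σ F)[X] →+* MvPolynomial σ F[X]).comp
        (mapRingHom (MvPolynomial.C : F →+* MvPolynomial σ F)) =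
        (MvPolynomial.C : F[X] →+* MvPolynomial σ F[X]) := by
      apply Polynomial.ringHom_ext
      · intro a
        have h3 : (mapRingHom (MvPolynomial.C : F →+* MvPolynomial σ F)) (C a) =
            C (MvPolynomial.C a) := by simp
        rw [RingHom.comp_apply, h3]
        show (MvPolynomial.optionEquivRight F σ) ((MvPolynomial.optionEquivLeft F σ).symm
          (C (MvPolynomial.C a))) = _
        rw [← MvPolynomial.optionEquivLeft_C, AlgEquiv.symm_apply_apply,
          MvPolynomial.optionEquivRight_C]
      · have h3 : (mapRingHom (MvPolynomial.C : F →+* MvPolynomial σ F)) X = X := by simp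
        rw [RingHom.comp_apply, h3]
        show (MvPolynomial.optionEquivRight F σ) ((MvPolynomial.optionEquivLeft F σ).symm X) = _
        rw [← MvPolynomial.optionEquivLeft_X_none, AlgEquiv.symm_apply_apply,
          MvPolynomial.optionEquivRight_X_none]
    exact RingHom.congr_fun h2 q
  have h4 : Prime (e (q.map (MvPolynomial.C : F →+* MvPolynomial σ F))) := by
    rw [h1]
    exact (MvPolynomial.prime_C_iff _).2 hq.prime
  exact (MulEquiv.prime_iff e.toMulEquiv).1 h4

end Pool.Agent.CAB
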