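import Pool.Agent.CAB.Step
import Pool.Agent.CAB.Fact
import Pool.Agent.CAB.CycIndep
import Pool.Agent.CAB.Defs

/-!
# The algebraic theorem for the tower of fibre powers

`algebra_main`: `S` is a domain of characteristic zero with a `C_ab` polynomial, smooth over `S`,
`K₀` its fraction field and the curve over `K₀` is a `GoodCurve`. Then the coordinate rings of the
fibre powers are domains and the class group over the function field of the `r`-fold fibre
power is free of rank `r (N - 1)`.

Paper proof. Induction on `r`, for all fraction fields `K` of `R_r = (S.power r).R` through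
`κ : R_r → K`, with the statement: `R_r` is a domain of characteristic zero, the polynomial of
`S.power r` is a `C_ab` polynomial, and `GoodField C₀ φ (r (N - 1))`, `φ : K₀ → K` the map with
`φ ∘ κ₀ = κ ∘ (S.R → R_r)`, and the curve over `K` has polynomial `mapP κ (S.power r).P`.
`r = 0`: `K ≅ K₀`; derivations killing `K₀` are zero; the class group is trivial by
hypothesis. `r → r + 1`: `R_{r+1} = AdjoinRoot P_r` embeds into `Aff C.P` (`C` the curve
over `K`, an expansion exists because it is the base change of `C₀`), and a fraction field `L` of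
`R_{r+1}` is a fraction field of `Aff C.P` (extend `R_{r+1} → L` to `Aff C.P → L`: the elements of
`R_r ∖ 0` become invertible; injective because every element of `Aff C.P` times an element of
`R_r ∖ 0` comes from `R_{r+1}`). Use `good_step`.
-/

namespace Pool.Agent.CAB

open Polynomial

/-- The structure map of the fibre powers. -/
noncomputable def PolyRing.toPower (S : PolyRing) : (r : ℕ) → S.R →+* (S.power r).R
  | 0 => RingHom.id _
  | r + 1 => by
      have h : (S.power (r + 1)) = (S.power r).adjoin := Function.iterate_succ_apply' _ _ _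
      rw [h]
      exact (S.power r).up.comp (S.toPower r)

section aux

/-- The map of coordinate rings induced by a map of coefficients. -/
noncomputable def adjMap {R T : Type*} [CommRing R] [CommRing T] (κ : R →+* T) (P : R[X][X]) :
    AdjoinRoot P →+* AdjoinRoot (mapP κ P) :=
  AdjoinRoot.lift ((AdjoinRoot.of (mapP κ P)).comp (mapRingHom κ)) (AdjoinRoot.root (mapP κ P)) (by
    rw [← Polynomial.eval₂_map]
    exact AdjoinRoot.eval₂_root (mapP κ P))

lemma adjMap_mk {R T : Type*} [CommRing R] [CommRing T] (κ : R →+* T) (P q : R[X][X]) :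
    adjMap κ P (AdjoinRoot.mk P q) = AdjoinRoot.mk (mapP κ P) (mapP κ q) := by
  rw [adjMap, AdjoinRoot.lift_mk, ← Polynomial.eval₂_map, ← AdjoinRoot.aeval_eq,
    Polynomial.aeval_def]
  rfl

lemma mapP_injective {R T : Type*} [CommRing R] [CommRing T] {κ : R →+* T}
    (hκ : Function.Injective κ) : Function.Injective (mapP κ) := by
  apply Polynomial.map_injective
  exact Polynomial.map_injective _ hκ

lemma adjMap_injective {R T : Type*} [CommRing R] [CommRing T] {κ : R →+* T}
    (hκ : Function.Injective κ) {P : R[X][X]} (hP : P.Monic) :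
    Function.Injective (adjMap κ P) := by
  rw [injective_iff_map_eq_zero]
  intro z hz
  obtain ⟨q, rfl⟩ := AdjoinRoot.mk_surjective z
  rw [adjMap_mk, AdjoinRoot.mk_eq_zero] at hz
  rw [AdjoinRoot.mk_eq_zero]
  exact (Polynomial.map_dvd_map (mapRingHom κ) (Polynomial.map_injective _ hκ) hP).1 hz

/-- common denominators for polynomials -/
lemma exists_den1 {R T : Type*} [CommRing R] [IsDomain R] [Field T] {κ : R →+* T}
    (hκ : Frc κ) (q : T[X]) : ∃ (r : R) (p : R[X]), r ≠ 0 ∧ C (κ r) * q = p.map κ := by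
  induction q using Polynomial.induction_on' with
  | add p q hp hq =>
    obtain ⟨r, p', hr, hp⟩ := hp
    obtain ⟨s, q', hs, hq⟩ := hq
    refine ⟨r * s, C s * p' + C r * q', mul_ne_zero hr hs, ?_⟩
    rw [Polynomial.map_add, Polynomial.map_mul, Polynomial.map_mul, Polynomial.map_C,
      Polynomial.map_C, ← hp, ← hq, map_mul, map_mul]
    ring
  | monomial n c =>
    obtain ⟨p, q, hq, h⟩ := hκ.frac c
    refine ⟨q, monomial n p, hq, ?_⟩
    rw [Polynomial.map_monomial, ← h, Polynomial.C_mul_monomial, mul_comm]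

lemma exists_den2 {R T : Type*} [CommRing R] [IsDomain R] [Field T] {κ : R →+* T}
    (hκ : Frc κ) (q : T[X][X]) :
    ∃ (r : R) (p : R[X][X]), r ≠ 0 ∧ C (C (κ r)) * q = mapP κ p := by
  induction q using Polynomial.induction_on' with
  | add p q hp hq =>
    obtain ⟨r, p', hr, hp⟩ := hp
    obtain ⟨s, q', hs, hq⟩ := hq
    refine ⟨r * s, C (C s) * p' + C (C r) * q', mul_ne_zero hr hs, ?_⟩
    rw [mapP, Polynomial.map_add, Polynomial.map_mul, Polynomial.map_mul, Polynomial.map_C,
      Polynomial.map_C, coe_mapRingHom, Polynomial.map_C, Polynomial.map_C]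
    rw [mapP] at hp hq
    rw [← hp, ← hq, map_mul, map_mul, map_mul]
    ring
  | monomial n c =>
    obtain ⟨r, p, hr, h⟩ := exists_den1 hκ c
    refine ⟨r, monomial n p, hr, ?_⟩
    rw [mapP, Polynomial.map_monomial, Polynomial.C_mul_monomial, h]
    rfl

/-- Every element of the coordinate ring over the fraction field has a denominator. -/
lemma exists_den {R T : Type*} [CommRing R] [IsDomain R] [Field T] {κ : R →+* T}
    (hκ : Frc κ) (P : R[X][X]) (z : AdjoinRoot (mapP κ P)) :
    ∃ (r : R) (w : AdjoinRoot P), r ≠ 0 ∧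
      AdjoinRoot.of (mapP κ P) (C (κ r)) * z = adjMap κ P w := by
  obtain ⟨q, rfl⟩ := AdjoinRoot.mk_surjective z
  obtain ⟨r, p, hr, h⟩ := exists_den2 hκ q
  refine ⟨r, AdjoinRoot.mk P p, hr, ?_⟩
  rw [adjMap_mk, ← h, map_mul]
  rfl

/-- Extension of an injective homomorphism to the fraction field. -/
lemma Frc.exists_lift {R T L : Type*} [CommRing R] [IsDomain R] [Field T] [Field L] {κ : R →+* T}
    (hκ : Frc κ) {g : R →+* L} (hg : Function.Injective g) : ∃ ψ : T →+* L, ∀ r, ψ (κ r) = g r := by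
  let alg : Algebra R T := κ.toAlgebra
  have hfr : IsFractionRing R T := by
    refine (isLocalization_iff _ _).2 ⟨?_, ?_, ?_⟩
    · rintro ⟨r, hr⟩
      have hr0 : r ≠ 0 := nonZeroDivisors.ne_zero hr
      have : κ r ≠ 0 := fun h => hr0 (hκ.inj (by rw [h, map_zero]))
      exact IsUnit.mk0 _ this
    · intro z
      obtain ⟨p, q, hq, h⟩ := hκ.frac z
      exact ⟨(p, ⟨q, mem_nonZeroDivisors_of_ne_zero hq⟩), h⟩
    · intro x y hxy
      exact ⟨1, by rw [hκ.inj hxy]⟩
  exact ⟨IsFractionRing.lift hg, fun r => IsFractionRing.lift_algebraMap hg r⟩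

/-- A fraction field of the coordinate ring over `R` is a fraction field of the coordinate ring
over the fraction field of `R`. -/
lemma exists_ext {R T L : Type*} [CommRing R] [IsDomain R] [Field T] [Field L] {κ : R →+* T}
    (hκ : Frc κ) {P : R[X][X]} (hP : P.Monic) [IsDomain (AdjoinRoot (mapP κ P))]
    {l : AdjoinRoot P →+* L} (hl : Frc l)
    (hup : Function.Injective ((AdjoinRoot.of P).comp (C : R →+* R[X]))) :
    ∃ i : AdjoinRoot (mapP κ P) →+* L, Frc i ∧ ∀ w, i (adjMap κ P w) = l w := by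
  classical
  -- the map `T → L`
  have hinj : Function.Injective (l.comp ((AdjoinRoot.of P).comp (C : R →+* R[X]))) := by
    rw [RingHom.coe_comp]
    exact hl.inj.comp hup
  obtain ⟨ψ, hψ0⟩ := hκ.exists_lift hinj
  have hψ : ∀ r, ψ (κ r) = l (AdjoinRoot.of P (C r)) := fun r => hψ0 r
  have hroot : (mapP κ P).eval₂ (eval₂RingHom ψ (l (AdjoinRoot.of P X)))
      (l (AdjoinRoot.root P)) = 0 := by
    rw [mapP, Polynomial.eval₂_map]
    have h1 : (eval₂RingHom ψ (l (AdjoinRoot.of P X))).comp (mapRingHom κ) =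
        l.comp (AdjoinRoot.of P) := by
      ext r
      · simp [hψ]
      · simp
    rw [h1, ← Polynomial.hom_eval₂, AdjoinRoot.eval₂_root, map_zero]
  let i : AdjoinRoot (mapP κ P) →+* L := AdjoinRoot.lift _ _ hroot
  have hi : ∀ w, i (adjMap κ P w) = l w := by
    have : i.comp (adjMap κ P) = l := by
      refine AdjoinRoot.ringHom_ext ?_ ?_
      · ext r
        · simp [i, adjMap, hψ]
        · simp [i, adjMap]
      · simp [i, adjMap]
    exact fun w => RingHom.congr_fun this w
  refine ⟨i, ⟨?_, ?_⟩, hi⟩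
  · rw [injective_iff_map_eq_zero]
    intro z hz
    obtain ⟨r, w, hr, h⟩ := exists_den hκ P z
    have h1 : l w = 0 := by rw [← hi, ← h, map_mul, hz, mul_zero]
    have h2 : w = 0 := hl.inj (by rw [h1, map_zero])
    rw [h2, map_zero] at h
    rcases mul_eq_zero.1 h with h3 | h3
    · exfalso
      have h4 : adjMap κ P (AdjoinRoot.of P (C r)) = AdjoinRoot.of (mapP κ P) (C (κ r)) := by
        simp [adjMap]
      rw [← h4] at h3
      have h5 := adjMap_injective hκ.inj hP (h3.trans (map_zero _).symm)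
      exact hr (hup (by simpa using h5))
    · exact h3
  · intro z
    obtain ⟨p, q, hq, h⟩ := hl.frac z
    refine ⟨adjMap κ P p, adjMap κ P q, fun h0 => hq ?_, ?_⟩
    · exact adjMap_injective hκ.inj hP (h0.trans (map_zero _).symm)
    · rw [hi, hi, h]

/-- The structure map is injective. -/
lemma up_injective {R : Type*} [CommRing R] [IsDomain R] {P : R[X][X]}
    (hd : P.natDegree ≠ 0) :
    Function.Injective ((AdjoinRoot.of P).comp (C : R →+* R[X])) := by
  rw [RingHom.coe_comp]
  refine Function.Injective.comp ?_ Polynomial.C_injective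
  refine AdjoinRoot.of.injective_of_degree_ne_zero ?_
  intro h
  exact hd (natDegree_eq_of_degree_eq_some h)

end aux

/-- The induction hypothesis of `algebra_main`. -/
structure TowerInv {a b : ℕ} {K₀ : Type} [Field K₀] (C₀ : Crv a b K₀) (S : PolyRing) (M : ℕ) :
    Prop where
  dom : IsDomain S.R
  cab : IsCab a b S.P
  fld : ∀ (K : Type) [Field K] (κ : S.R →+* K), Frc κ → ∃ φ : K₀ →+* K,
    mapP κ S.P = mapP φ C₀.P ∧ GoodField C₀ φ M

lemma towerInv_base {a b : ℕ} (hn : Num a b) (S : PolyRing) [IsDomain S.R]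
    (hP : IsCab a b S.P) {K₀ : Type} [Field K₀] {κ₀ : S.R →+* K₀} (hκ₀ : Frc κ₀)
    {C₀ : Crv a b K₀} (hC₀ : C₀.P = mapP κ₀ S.P) (hs : Smooth C₀.P)
    (hcl : ∃ _ : IsDedekindDomain (Aff C₀.P), ∀ c : ClassGroup (Aff C₀.P), c = 1) :
    TowerInv C₀ S 0 := by
  refine ⟨inferInstance, hP, fun K _ κ hκ => ?_⟩
  obtain ⟨φ, hφ⟩ := hκ₀.exists_lift (g := κ) hκ.inj
  have hsurj : Function.Surjective φ := by
    intro z
    obtain ⟨p, q, hq, h⟩ := hκ.frac z
    have hq0 : κ q ≠ 0 := fun h0 => hq (hκ.inj (by rw [h0, map_zero]))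
    refine ⟨κ₀ p / κ₀ q, ?_⟩
    rw [map_div₀, hφ, hφ, ← h, mul_div_assoc, div_self hq0, mul_one]
  have hφκ : φ.comp κ₀ = κ := RingHom.ext hφ
  refine ⟨φ, ?_, ?_, ?_⟩
  · rw [hC₀, mapP_mapP, hφκ]
  · intro z _
    exact hsurj z
  · intro C hC
    obtain ⟨hded, hcl⟩ := hcl
    have hsur : Function.Surjective hC.aff := hC.aff_surjective hsurj
    have hded' : IsDedekindDomain (Aff C.P) :=
      isDedekind hn C (by rw [hC.P]; exact hs.map φ)
    refine ⟨hded', ?_⟩
    have htriv : ∀ c : ClassGroup (Aff C.P), c = 1 := by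
      intro c
      obtain ⟨I, hI, rfl⟩ := exists_cl c
      rw [cl_eq_one_iff]
      have hJ : I.comap hC.aff ≠ ⊥ := by
        intro h0
        apply hI
        rw [← Ideal.map_comap_of_surjective _ hsur I, h0, Ideal.map_bot]
      obtain ⟨x, hx⟩ := (cl_eq_one_iff hJ).1 (hcl _)
      refine ⟨hC.aff x, ?_⟩
      rw [← Ideal.map_comap_of_surjective _ hsur I, hx, Ideal.map_span, Set.image_singleton]
    have : Unique (ClassGroup (Aff C.P)) := ⟨⟨1⟩, htriv⟩
    have : Unique (Multiplicative (Fin 0 → ℤ)) := ⟨⟨1⟩, fun x => by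
      have : Multiplicative.toAdd x = Multiplicative.toAdd 1 := Subsingleton.elim _ _
      exact Multiplicative.toAdd.injective this⟩
    exact ⟨MulEquiv.ofUnique⟩

lemma towerInv_step {a b : ℕ} (hn : Num a b) {K₀ : Type} [Field K₀] [CharZero K₀]
    {C₀ : Crv a b K₀} {N : ℕ} (hg : GoodCurve C₀ N) {S : PolyRing} {M : ℕ}
    (h : TowerInv C₀ S M) : TowerInv C₀ S.adjoin (M + (N - 1)) := by
  have hdom := h.dom
  have ha : a ≠ 0 := by have := hn.ha; omega
  have hup : Function.Injective ((AdjoinRoot.of S.P).comp (C : S.R →+* S.R[X])) :=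
    up_injective (by rw [h.cab.deg]; exact ha)
  -- the fraction field of `S.R`
  have hκ : Frc (algebraMap S.R (FractionRing S.R)) := by
    refine ⟨IsFractionRing.injective _ _, fun z => ?_⟩
    obtain ⟨⟨p, q⟩, hpq⟩ := IsLocalization.surj (nonZeroDivisors S.R) z
    exact ⟨p, q, nonZeroDivisors.ne_zero q.2, hpq⟩
  obtain ⟨φ, hφ, hK⟩ := h.fld (FractionRing S.R) _ hκ
  set κ : S.R →+* FractionRing S.R := algebraMap S.R (FractionRing S.R) with hκdef
  have hrel := C₀.rel_map φ
  have hPeq : (C₀.map φ).P = mapP κ S.P := hφ.symm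
  have hdomA : IsDomain (Aff (C₀.map φ).P) :=
    (C₀.map φ).isDomain hn.co (le_trans one_le_two hn.ha)
  have hdomA' : IsDomain (AdjoinRoot (mapP κ S.P)) := by
    rw [← hPeq]; exact hdomA
  have hdomR : IsDomain (AdjoinRoot S.P) := (adjMap_injective hκ.inj h.cab.monic).isDomain
  refine ⟨hdomR, ?_, ?_⟩
  · exact @IsCab.map _ _ _ _ a b hdomR.toNontrivial S.P h.cab S.up
  · intro L _ l hl
    obtain ⟨i, hi, hil⟩ := exists_ext hκ h.cab.monic (l := l) hl hup
    -- transport to the affine ring of the curve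
    have key : ∀ (P : (FractionRing S.R)[X][X]) (hPP : P = mapP κ S.P)
        (i : AdjoinRoot (mapP κ S.P) →+* L), Frc i →
        ∃ i' : AdjoinRoot P →+* L, Frc i' ∧
          i'.comp ((AdjoinRoot.of P).comp C) = i.comp ((AdjoinRoot.of (mapP κ S.P)).comp C) := by
      rintro P rfl i hi
      exact ⟨i, hi, rfl⟩
    obtain ⟨i', hi', hcomp⟩ := key _ hPeq i hi
    refine ⟨(i'.comp (C₀.map φ).cc).comp φ, ?_, good_step hn hg hK hrel hi'⟩
    have h1 : (i'.comp (C₀.map φ).cc) = i.comp ((AdjoinRoot.of (mapP κ S.P)).comp C) := hcomp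
    have h2 : l.comp S.up = (i.comp ((AdjoinRoot.of (mapP κ S.P)).comp C)).comp κ := by
      ext r
      have := hil (AdjoinRoot.of S.P (C r))
      refine this.symm.trans ?_
      show i (adjMap κ S.P (AdjoinRoot.of S.P (C r))) = i (AdjoinRoot.of (mapP κ S.P) (C (κ r)))
      congr 1
      simp [adjMap]
    show mapP l (mapP S.up S.P) = _
    rw [mapP_mapP, h2, h1]
    generalize i.comp ((AdjoinRoot.of (mapP κ S.P)).comp C) = θ
    rw [← mapP_mapP, ← mapP_mapP, hφ]

theorem algebra_main {a b : ℕ} (hn : Num a b) (S : PolyRing) [IsDomain S.R] [CharZero S.R]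
    (hP : IsCab a b S.P) {K₀ : Type} [Field K₀] {κ₀ : S.R →+* K₀} (hκ₀ : Frc κ₀)
    {C₀ : Crv a b K₀} (hC₀ : C₀.P = mapP κ₀ S.P) {N : ℕ} (hg : GoodCurve C₀ N)
    (hcl : ∃ _ : IsDedekindDomain (Aff C₀.P), ∀ c : ClassGroup (Aff C₀.P), c = 1) (r : ℕ) :
    IsDomain (S.power r).R ∧ ∀ (K : Type) [Field K] (κ : (S.power r).R →+* K), Frc κ →
      ∃ _ : IsDedekindDomain (AdjoinRoot (mapP κ (S.power r).P)),
        Nonempty (ClassGroup (AdjoinRoot (mapP κ (S.power r).P)) ≃*
          Multiplicative (Fin (r * (N - 1)) → ℤ)) := by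
  have hchar : CharZero K₀ := charZero_of_injective_ringHom hκ₀.inj
  have key : TowerInv C₀ (S.power r) (r * (N - 1)) := by
    induction r with
    | zero =>
      rw [Nat.zero_mul]
      exact towerInv_base hn S hP hκ₀ hC₀ hg.smooth hcl
    | succ r ih =>
      have h : (S.power (r + 1)) = (S.power r).adjoin := Function.iterate_succ_apply' _ _ _
      rw [h, Nat.add_mul, Nat.one_mul]
      exact towerInv_step hn hg ih
  refine ⟨key.dom, fun K _ κ hκ => ?_⟩
  obtain ⟨φ, hφ, hK⟩ := key.fld K κ hκ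
  rw [hφ]
  exact hK.clg (C₀.map φ) (C₀.rel_map φ)

end Pool.Agent.CAB
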