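import Pool.Agent.CAB.FrcAux

/-!
# Clearing denominators; fraction fields of polynomial rings in several variables
-/

namespace Pool.Agent.CAB

open Polynomial

theorem clear_poly {R T : Type*} [CommRing R] [CommRing T] {f : R →+* T} {S : Submonoid R}
    (h : ∀ t, ∃ s ∈ S, ∃ p, t * f s = f p) (F : T[X]) :
    ∃ s ∈ S, ∃ G : R[X], F * C (f s) = G.map f := by
  induction F using Polynomial.induction_on' with
  | add p q hp hq =>
    obtain ⟨s, hs, G, hG⟩ := hp
    obtain ⟨s', hs', G', hG'⟩ := hq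
    refine ⟨s * s', S.mul_mem hs hs', G * C s' + G' * C s, ?_⟩
    rw [Polynomial.map_add, Polynomial.map_mul, Polynomial.map_mul, ← hG, ← hG', map_mul, map_mul,
      Polynomial.map_C, Polynomial.map_C]
    ring
  | monomial n c =>
    obtain ⟨s, hs, p, hp⟩ := h c
    refine ⟨s, hs, monomial n p, ?_⟩
    rw [Polynomial.map_monomial, ← hp, Polynomial.monomial_mul_C]

theorem clear_poly2 {R T : Type*} [CommRing R] [CommRing T] {f : R →+* T} {S : Submonoid R}
    (h : ∀ t, ∃ s ∈ S, ∃ p, t * f s = f p) (F : T[X][X]) :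
    ∃ s ∈ S, ∃ G : R[X][X], F * C (C (f s)) = mapP f G := by
  have h' : ∀ t : T[X], ∃ s ∈ S.map (C : R →+* R[X]), ∃ p, t * mapRingHom f s = mapRingHom f p := by
    intro t
    obtain ⟨s, hs, G, hG⟩ := clear_poly h t
    refine ⟨C s, Submonoid.mem_map.2 ⟨s, hs, rfl⟩, G, ?_⟩
    simpa using hG
  obtain ⟨s, hs, G, hG⟩ := clear_poly h' F
  obtain ⟨s₀, hs₀, rfl⟩ := Submonoid.mem_map.1 hs
  refine ⟨s₀, hs₀, G, ?_⟩
  rw [mapP, ← hG]
  simp

theorem clear_mv {σ R T : Type*} [CommRing R] [CommRing T] {f : R →+* T} {S : Submonoid R}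
    (h : ∀ t, ∃ s ∈ S, ∃ p, t * f s = f p) (F : MvPolynomial σ T) :
    ∃ s ∈ S, ∃ G : MvPolynomial σ R, F * MvPolynomial.C (f s) = MvPolynomial.map f G := by
  induction F using MvPolynomial.induction_on with
  | C c =>
    obtain ⟨s, hs, p, hp⟩ := h c
    exact ⟨s, hs, MvPolynomial.C p, by rw [MvPolynomial.map_C, ← hp, map_mul]⟩
  | add p q hp hq =>
    obtain ⟨s, hs, G, hG⟩ := hp
    obtain ⟨s', hs', G', hG'⟩ := hq
    refine ⟨s * s', S.mul_mem hs hs', G * MvPolynomial.C s' + G' * MvPolynomial.C s, ?_⟩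
    rw [map_add (MvPolynomial.map f), map_mul (MvPolynomial.map f), map_mul (MvPolynomial.map f),
      ← hG, ← hG', map_mul, map_mul, MvPolynomial.map_C, MvPolynomial.map_C]
    ring
  | mul_X p i hp =>
    obtain ⟨s, hs, G, hG⟩ := hp
    refine ⟨s, hs, G * MvPolynomial.X i, ?_⟩
    rw [map_mul (MvPolynomial.map f), ← hG, MvPolynomial.map_X]
    ring

/-- denominators for a fraction field -/
theorem Frc.denom {R L : Type*} [CommRing R] [Field L] {f : R →+* L} (hf : Frc f) (t : L) :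
    ∃ s ∈ (haveI := hf.inj.isDomain; nonZeroDivisors R), ∃ p, t * f s = f p := by
  have : IsDomain R := hf.inj.isDomain
  obtain ⟨p, q, hq, h⟩ := hf.frac t
  exact ⟨q, mem_nonZeroDivisors_iff_ne_zero.2 hq, p, h⟩

/-- A homomorphism on `R[X][X]` is an evaluation. -/
theorem hom_poly2 {R L : Type*} [CommRing R] [CommRing L] (g : R[X][X] →+* L) (p : R[X][X]) :
    g p = p.eval₂ (eval₂RingHom (g.comp (C.comp C)) (g (C X))) (g X) := by
  have : g = eval₂RingHom (eval₂RingHom (g.comp (C.comp C)) (g (C X))) (g X) := by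
    refine Polynomial.ringHom_ext' (Polynomial.ringHom_ext' ?_ ?_) ?_
    · ext c
      simp
    · simp
    · simp
  exact RingHom.congr_fun this p

theorem gen2_of_frc {A k₀ K₀ : Type*} [CommRing A] [Field k₀] [Field K₀] {ι : A →+* k₀}
    (hι : Frc ι) {g : A[X][X] →+* K₀} (hg : Frc (R := A[X][X]) g) {φ : k₀ →+* K₀}
    (hφ : φ.comp ι = g.comp (C.comp C)) : Gen2 φ (g (C X)) (g X) := by
  have key : ∀ G : A[X][X], (mapP ι G).eval₂ (eval₂RingHom φ (g (C X))) (g X) = g G := by
    intro G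
    rw [hom_poly2 g G, mapP, Polynomial.eval₂_map, ← hφ]
    congr 1
    refine Polynomial.ringHom_ext' ?_ ?_
    · ext c
      simp
    · simp
  have hinj : Function.Injective (mapP ι) :=
    Polynomial.map_injective _ (Polynomial.map_injective _ hι.inj)
  constructor
  · intro F hF
    obtain ⟨s, hs, G, hG⟩ := clear_poly2 hι.denom F
    have : IsDomain A := hι.inj.isDomain
    have h1 : g G = 0 := by
      rw [← key, ← hG, Polynomial.eval₂_mul, hF, zero_mul]
    have h2 : G = 0 := hg.inj (by rw [h1, map_zero])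
    have h3 : (C (C (ι s)) : k₀[X][X]) ≠ 0 := by
      rw [Ne, Polynomial.C_eq_zero, Polynomial.C_eq_zero]
      intro h
      exact nonZeroDivisors.ne_zero hs (hι.inj (by rw [h, map_zero]))
    have h4 : F * C (C (ι s)) = 0 := by
      rw [hG, h2]
      simp [mapP]
    rcases mul_eq_zero.1 h4 with h | h
    · exact h
    · exact absurd h h3
  · intro z
    obtain ⟨p, q, hq, hz⟩ := hg.frac z
    refine ⟨mapP ι p, mapP ι q, ?_, ?_⟩
    · intro h
      exact hq (hinj (by rw [h]; simp [mapP]))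
    · rw [key, key, hz]

end Pool.Agent.CAB
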