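import Pool.Agent.CAB.Fam
import Pool.Agent.CAB.Alg
import Pool.Agent.CAB.FrcAux2

/-!
# The class groups of the families `P₀(x, y) + u_0 + u_1 x + ... + u_{k-1} x^{k-1}`

Paper proof. `S = family P₀ k Δ`, `S.R = R₀[u_0, ..., u_{k-1}]_Δ` is a domain of characteristic
zero; `S.P` is a `C_ab` polynomial since `k ≤ b`. Let `K₀` be the fraction field of `S.R`, `k₀` the
fraction field of `R₀[u_2, ..., u_{k-1}]`; `K₀ = k₀(u_1, u_0)`: `Gen2 φ u_1 u_0`, and the
polynomial over `K₀` is `fam2 φ u_1 u_0 P₀'` with `P₀' = P₀ + u_2 x^2 + ...` over `k₀`.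
A curve `C₀` over `K₀` with this polynomial exists by `exists_crv` (`a I = b J + 1` is solvable as
`a`, `b` are coprime). It is smooth (`Smooth.map`), so its affine ring is Dedekind (`isDedekind`)
and its class group trivial (`cl_base`). It is a good curve: `goodCurve_of_factors` with the
field of rational functions `K₂'` in `x`, `y` over `k₀`, which is purely transcendental over `K₂`
(`irreducible_map_of_frac_mv`; `diagP` of `P₀'` is the image of `diagP` of `P₀` since the terms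
`u_i x^i` cancel), respectively `goodCurve_cyc`
(`P₀' = y^a - (f₀ - u_2 x^2 - ...)`, irreducible factors of `X^a - 1` over `k₀`, purely
transcendental over the fraction field of `R₀`). Now apply `algebra_main`.
-/

namespace Pool.Agent.CAB

open Polynomial

theorem frc_mv {σ R K K' : Type*} [CommRing R] [Field K] [Field K'] {κ : R →+* K} (hκ : Frc κ)
    {θ : MvPolynomial σ R →+* K'} (hθ : Frc θ) {g : K →+* K'}
    (hg : g.comp κ = θ.comp MvPolynomial.C) :
    Frc (MvPolynomial.eval₂Hom g fun i => θ (MvPolynomial.X i)) := by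
  have key : ∀ G : MvPolynomial σ R,
      MvPolynomial.eval₂Hom g (fun i => θ (MvPolynomial.X i)) (MvPolynomial.map κ G) = θ G := by
    intro G
    have : (MvPolynomial.eval₂Hom g (fun i => θ (MvPolynomial.X i))).comp (MvPolynomial.map κ) =
        θ := by
      refine MvPolynomial.ringHom_ext ?_ ?_
      · intro r
        have := RingHom.congr_fun hg r
        simpa using this
      · intro i
        simp
    exact RingHom.congr_fun this G
  have hinj : Function.Injective (MvPolynomial.eval₂Hom g fun i => θ (MvPolynomial.X i)) := by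
    rw [injective_iff_map_eq_zero]
    intro G hG
    obtain ⟨s, hs, H, hH⟩ := clear_mv hκ.denom G
    have : IsDomain R := hκ.inj.isDomain
    have h1 : θ H = 0 := by rw [← key, ← hH, map_mul, hG, zero_mul]
    have h2 : H = 0 := hθ.inj (by rw [h1, map_zero])
    have h3 : (MvPolynomial.C (κ s) : MvPolynomial σ K) ≠ 0 := by
      rw [Ne, MvPolynomial.C_eq_zero]
      intro h
      exact nonZeroDivisors.ne_zero hs (hκ.inj (by rw [h, map_zero]))
    rw [h2, map_zero] at hH
    exact (mul_eq_zero.1 hH).resolve_right h3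
  refine ⟨hinj, fun z => ?_⟩
  obtain ⟨p, q, hq, hz⟩ := hθ.frac z
  refine ⟨MvPolynomial.map κ p, MvPolynomial.map κ q, ?_, ?_⟩
  · intro h
    exact hq (hθ.inj (by rw [← key, h, map_zero, map_zero]))
  · rw [key, key, hz]

/-- `A[X][X]` with `A = R[t_i]` is the polynomial ring in the `t_i` over `R[X][X]`. -/
noncomputable def swapE (σ R : Type*) [CommRing R] :
    MvPolynomial σ (R[X][X]) ≃+* (MvPolynomial σ R)[X][X] :=
  RingEquiv.ofRingHom
    (MvPolynomial.eval₂Hom (mapRingHom (mapRingHom MvPolynomial.C))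
      fun i => C (C (MvPolynomial.X i)))
    (eval₂RingHom (eval₂RingHom (MvPolynomial.map (C.comp C)) (MvPolynomial.C (C X)))
      (MvPolynomial.C X))
    (by
      refine Polynomial.ringHom_ext' (Polynomial.ringHom_ext' ?_ ?_) ?_
      · refine MvPolynomial.ringHom_ext ?_ ?_
        · intro r; simp
        · intro i; simp
      · simp
      · simp)
    (by
      refine MvPolynomial.ringHom_ext' (Polynomial.ringHom_ext' (Polynomial.ringHom_ext' ?_ ?_) ?_)
        ?_
      · ext r; simp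
      · simp
      · simp
      · intro i; simp)

theorem diagP_eq {R₀ K₂ : Type} [CommRing R₀] [Field K₂] (κ : R₀[X][X] →+* K₂) (P : R₀[X][X]) :
    diagP κ P = P.map (κ.comp C) - C (κ P) := by
  rw [diagP, mapP, Polynomial.map_map]
  congr 2
  refine Polynomial.ringHom_ext' ?_ ?_
  · ext c
    simp
  · simp

theorem diagP_map {R₀ R₁ K K' : Type} [CommRing R₀] [CommRing R₁] [Field K] [Field K']
    {f : R₀ →+* R₁} {κ : R₀[X][X] →+* K} {κ' : R₁[X][X] →+* K'} {g : K →+* K'}
    (h : g.comp κ = κ'.comp (mapRingHom (mapRingHom f))) (P : R₀[X][X]) :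
    (diagP κ P).map g = diagP κ' (mapP f P) := by
  rw [diagP_eq, diagP_eq, Polynomial.map_sub, Polynomial.map_map, Polynomial.map_C, mapP,
    Polynomial.map_map]
  have h1 : g (κ P) = κ' (P.map (mapRingHom f)) := RingHom.congr_fun h P
  rw [h1]
  congr 2
  rw [← RingHom.comp_assoc, h]
  refine Polynomial.ringHom_ext' ?_ ?_
  · ext c
    simp
  · simp

theorem diagP_add_C {R₀ K₂ : Type} [CommRing R₀] [Field K₂] (κ : R₀[X][X] →+* K₂)
    (P : R₀[X][X]) (q : R₀[X]) : diagP κ (P + C q) = diagP κ P := by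
  rw [diagP_eq, diagP_eq, Polynomial.map_add, Polynomial.map_C, map_add, map_add]
  simp

theorem exists_IJ {a b : ℕ} (hn : Num a b) : ∃ I J, a * I = b * J + 1 := by
  obtain ⟨I, -, hI⟩ := Nat.exists_mul_mod_eq_one_of_coprime hn.co (by have := hn.hb; omega)
  exact ⟨I, a * I / b, by have := Nat.div_add_mod (a * I) b; omega⟩

/-- The isomorphism separating the first two parameters. -/
noncomputable def sepE (l : ℕ) (R₀ : Type) [CommRing R₀] :
    MvPolynomial (Fin (l + 2)) R₀ ≃+* (MvPolynomial (Fin l) R₀)[X][X] :=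
  (MvPolynomial.finSuccEquiv R₀ (l + 1)).toRingEquiv.trans
    (Polynomial.mapEquiv (MvPolynomial.finSuccEquiv R₀ l).toRingEquiv)

lemma sepE_X0 (l : ℕ) (R₀ : Type) [CommRing R₀] :
    sepE l R₀ (MvPolynomial.X 0) = X := by
  simp [sepE, MvPolynomial.finSuccEquiv_X_zero]

lemma sepE_X1 (l : ℕ) (R₀ : Type) [CommRing R₀] :
    sepE l R₀ (MvPolynomial.X 1) = C X := by
  show (Polynomial.mapEquiv (MvPolynomial.finSuccEquiv R₀ l).toRingEquiv)
    ((MvPolynomial.finSuccEquiv R₀ (l + 1)) (MvPolynomial.X (Fin.succ 0))) = _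
  rw [MvPolynomial.finSuccEquiv_X_succ]
  simp [MvPolynomial.finSuccEquiv_X_zero]

lemma sepE_X2 (l : ℕ) (R₀ : Type) [CommRing R₀] (i : Fin l) :
    sepE l R₀ (MvPolynomial.X i.succ.succ) = C (C (MvPolynomial.X i)) := by
  simp [sepE, MvPolynomial.finSuccEquiv_X_succ]

lemma sepE_C (l : ℕ) (R₀ : Type) [CommRing R₀] (c : R₀) :
    sepE l R₀ (MvPolynomial.C c) = C (C (MvPolynomial.C c)) := by
  simp [sepE, MvPolynomial.finSuccEquiv_apply]

/-- The data of the fields `k₀`, `K₀` for the family. -/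
theorem family_fields {R₀ : Type} [CommRing R₀] [IsDomain R₀] [CharZero R₀] {a b l : ℕ}
    (hn : Num a b) (hkb : l + 2 ≤ b) {P₀ : R₀[X][X]} (hP : IsCab a b P₀)
    {Δ : MvPolynomial (Fin (l + 2)) R₀} (hΔ : Δ ≠ 0) :
    IsDomain (family P₀ (l + 2) Δ).R ∧ CharZero (family P₀ (l + 2) Δ).R ∧
    IsCab a b (family P₀ (l + 2) Δ).P ∧
    ∃ (k₀ K₀ : Type) (_ : Field k₀) (_ : Field K₀) (κ₀ : (family P₀ (l + 2) Δ).R →+* K₀)
      (ι : MvPolynomial (Fin l) R₀ →+* k₀) (φ : k₀ →+* K₀) (u v : K₀),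
      Frc κ₀ ∧ Frc ι ∧ CharZero k₀ ∧ CharZero K₀ ∧ Gen2 φ u v ∧
      mapP κ₀ (family P₀ (l + 2) Δ).P = fam2 φ u v (mapP (ι.comp MvPolynomial.C) P₀ +
        C (∑ i : Fin l, C (ι (MvPolynomial.X i)) * X ^ ((i : ℕ) + 2))) := by
  have ha1 : 1 ≤ a := by have := hn.ha; omega
  have hle : Submonoid.powers Δ ≤ nonZeroDivisors (MvPolynomial (Fin (l + 2)) R₀) :=
    powers_le_nonZeroDivisors_of_noZeroDivisors hΔ
  have hdom : IsDomain (Localization.Away Δ) := IsLocalization.isDomain_localization hle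
  have hinj : Function.Injective (algebraMap (MvPolynomial (Fin (l + 2)) R₀)
      (Localization.Away Δ)) := IsLocalization.injective _ hle
  have hch : CharZero (Localization.Away Δ) := charZero_of_injective_ringHom hinj
  have hcab : IsCab a b (famP P₀ (l + 2)) := by
    rw [famP]
    refine (hP.map MvPolynomial.C).add_C ha1 ?_
    intro i hi
    rw [Polynomial.finsetSum_coeff]
    refine Finset.sum_eq_zero fun j _ => ?_
    rw [Polynomial.coeff_C_mul, Polynomial.coeff_X_pow, if_neg (by have := j.2; omega), mul_zero]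
  have hnt : Nontrivial (family P₀ (l + 2) Δ).R := hdom.toNontrivial
  refine ⟨hdom, hch, hcab.map _, ?_⟩
  let A := MvPolynomial (Fin l) R₀
  let k₀ := FractionRing A
  let K₀ := FractionRing (Localization.Away Δ)
  let κ₀ : Localization.Away Δ →+* K₀ := algebraMap _ _
  let ι : A →+* k₀ := algebraMap _ _
  have hκ₀ : Frc κ₀ := frc_algebraMap _
  have hι : Frc ι := frc_algebraMap _
  let κ' : MvPolynomial (Fin (l + 2)) R₀ →+* K₀ := κ₀.comp (algebraMap _ _)
  have hκ' : Frc κ' := by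
    refine hκ₀.comp_loc hinj fun t => ?_
    obtain ⟨⟨p, q⟩, hpq⟩ := IsLocalization.surj (Submonoid.powers Δ) t
    exact ⟨p, q, nonZeroDivisors.ne_zero (hle q.2), hpq⟩
  let g : A[X][X] →+* K₀ := κ'.comp ((sepE l R₀).symm : A[X][X] →+* MvPolynomial (Fin (l + 2)) R₀)
  have hg : Frc (R := A[X][X]) g := hκ'.comp_equiv (R := A[X][X]) (sepE l R₀).symm
  obtain ⟨φ, hφ⟩ := hι.exists_ext_hom (g := g.comp (C.comp C))
    (hg.inj.comp (Polynomial.C_injective.comp Polynomial.C_injective))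
  have hgen := gen2_of_frc hι hg hφ
  have hgX : g X = κ' (MvPolynomial.X 0) := by
    show κ' ((sepE l R₀).symm X) = _
    rw [← sepE_X0, RingEquiv.symm_apply_apply]
  have hgCX : g (C X) = κ' (MvPolynomial.X 1) := by
    show κ' ((sepE l R₀).symm (C X)) = _
    rw [← sepE_X1, RingEquiv.symm_apply_apply]
  have hφX : ∀ i : Fin l, φ (ι (MvPolynomial.X i)) = κ' (MvPolynomial.X i.succ.succ) := by
    intro i
    have h1 := RingHom.congr_fun hφ (MvPolynomial.X i)
    have h2 : g (C (C (MvPolynomial.X i))) = κ' (MvPolynomial.X i.succ.succ) := by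
      show κ' ((sepE l R₀).symm (C (C (MvPolynomial.X i)))) = _
      rw [← sepE_X2, RingEquiv.symm_apply_apply]
    exact h1.trans h2
  have hφC : (φ.comp (ι.comp MvPolynomial.C)) = κ'.comp MvPolynomial.C := by
    ext c
    have h1 := RingHom.congr_fun hφ (MvPolynomial.C c)
    have h2 : g (C (C (MvPolynomial.C c))) = κ' (MvPolynomial.C c) := by
      show κ' ((sepE l R₀).symm (C (C (MvPolynomial.C c)))) = _
      rw [← sepE_C, RingEquiv.symm_apply_apply]
    exact h1.trans h2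
  refine ⟨k₀, K₀, inferInstance, inferInstance, κ₀, ι, φ, g (C X), g X, hκ₀, hι,
    charZero_of_injective_ringHom hι.inj, charZero_of_injective_ringHom hκ₀.inj, hgen, ?_⟩
  show mapP κ₀ (mapP (algebraMap _ _) (famP P₀ (l + 2))) = _
  rw [mapP_mapP, fam2]
  show mapP κ' (famP P₀ (l + 2)) = _
  have e1 : (P₀.map (mapRingHom (MvPolynomial.C (σ := Fin (l + 2))))).map (mapRingHom κ') =
      (mapP (ι.comp MvPolynomial.C) P₀).map (mapRingHom φ) := by
    show mapP κ' (mapP MvPolynomial.C P₀) = mapP φ (mapP (ι.comp MvPolynomial.C) P₀)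
    rw [mapP_mapP, mapP_mapP, hφC]
  rw [famP, mapP, mapP, Polynomial.map_add, Polynomial.map_add, e1, add_assoc, Polynomial.map_C,
    Polynomial.map_C, ← Polynomial.C_add]
  congr 2
  rw [Fin.sum_univ_succ, Fin.sum_univ_succ, map_add, map_add, map_sum, map_sum, hgX, hgCX]
  have e2 : ∀ i : Fin l, (mapRingHom κ') (C (MvPolynomial.X i.succ.succ) *
      X ^ ((i.succ.succ : Fin (l + 2)) : ℕ)) =
      (mapRingHom φ) (C (ι (MvPolynomial.X i)) * X ^ ((i : ℕ) + 2)) := by
    intro i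
    rw [map_mul, map_mul, Polynomial.coe_mapRingHom, Polynomial.coe_mapRingHom,
      Polynomial.map_C, Polynomial.map_C, hφX, Polynomial.map_pow, Polynomial.map_pow,
      Polynomial.map_X, Polynomial.map_X]
    rfl
  rw [Finset.sum_congr rfl fun i _ => e2 i]
  have e3 : ((Fin.succ 0 : Fin (l + 2)) : ℕ) = 1 := rfl
  have e4 : ((0 : Fin (l + 2)) : ℕ) = 0 := rfl
  rw [e3, e4, pow_one, pow_zero, mul_one, map_mul, Polynomial.coe_mapRingHom, Polynomial.map_C,
    Polynomial.map_C, Polynomial.map_X]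
  have e5 : (Fin.succ 0 : Fin (l + 2)) = 1 := rfl
  rw [e5]
  ring

theorem family_alg {R₀ : Type} [CommRing R₀] [IsDomain R₀] [CharZero R₀] {a b k : ℕ}
    (hn : Num a b) (hab : a < b) (hk : 2 ≤ k) (hkb : k ≤ b) {P₀ : R₀[X][X]} (hP : IsCab a b P₀)
    {Δ : MvPolynomial (Fin k) R₀} (hΔ : Δ ≠ 0) (hs : Smooth (family P₀ k Δ).P)
    {K₂ : Type} [Field K₂] {κ₂ : R₀[X][X] →+* K₂} (hκ₂ : Frc (R := R₀[X][X]) κ₂) {N : ℕ}
    {h : Fin N → K₂[X]} (hirr : ∀ s, Irreducible (h s)) (hprod : ∏ s, h s = diagP κ₂ P₀) (r : ℕ) :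
    IsDomain ((family P₀ k Δ).power r).R ∧
    ∀ (K : Type) [Field K] (κ : ((family P₀ k Δ).power r).R →+* K), Frc κ →
      ∃ _ : IsDedekindDomain (AdjoinRoot (mapP κ ((family P₀ k Δ).power r).P)),
        Nonempty (ClassGroup (AdjoinRoot (mapP κ ((family P₀ k Δ).power r).P)) ≃*
          Multiplicative (Fin (r * (N - 1)) → ℤ)) := by
  obtain ⟨l, rfl⟩ : ∃ l, k = l + 2 := ⟨k - 2, by omega⟩
  obtain ⟨hdom, hch, hcab, k₀, K₀, _, _, κ₀, ι, φ, u, v, hκ₀, hι, _, _, hgen, hfam⟩ :=
    family_fields hn hkb hP hΔ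
  obtain ⟨I, J, hIJ⟩ := exists_IJ hn
  obtain ⟨C₀, hC₀⟩ := exists_crv (by have := hn.ha; omega) hIJ (hcab.map κ₀)
  have hsC : Smooth C₀.P := by rw [hC₀]; exact hs.map κ₀
  have hded : IsDedekindDomain (Aff C₀.P) := isDedekind hn C₀ hsC
  let K₂' := FractionRing (k₀[X][X])
  let κ₂' : k₀[X][X] →+* K₂' := algebraMap _ _
  have hκ₂' : Frc (R := k₀[X][X]) κ₂' := frc_algebraMap _
  have hιC : Function.Injective (ι.comp (MvPolynomial.C (σ := Fin l) (R := R₀))) :=
    hι.inj.comp (MvPolynomial.C_injective _ _)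
  obtain ⟨g₂, hg₂⟩ := hκ₂.exists_ext_hom
    (g := κ₂'.comp (mapRingHom (mapRingHom (ι.comp (MvPolynomial.C (σ := Fin l))))))
    (hκ₂'.inj.comp (Polynomial.map_injective _ (Polynomial.map_injective _ hιC)))
  -- the field of rational functions over `k₀` is purely transcendental over `K₂`
  let θ' : (MvPolynomial (Fin l) R₀)[X][X] →+* K₂' := κ₂'.comp (mapRingHom (mapRingHom ι))
  have hθ' : Frc (R := (MvPolynomial (Fin l) R₀)[X][X]) θ' := by
    refine hκ₂'.comp_loc
      (Polynomial.map_injective _ (Polynomial.map_injective _ hι.inj)) fun t => ?_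
    obtain ⟨s, hs', G, hG⟩ := clear_poly2 hι.denom t
    refine ⟨G, C (C s), ?_, ?_⟩
    · rw [Ne, Polynomial.C_eq_zero, Polynomial.C_eq_zero]
      have : IsDomain (MvPolynomial (Fin l) R₀) := inferInstance
      exact nonZeroDivisors.ne_zero hs'
    · have : (mapRingHom (mapRingHom ι)) (C (C s)) = C (C (ι s)) := by simp
      rw [this, hG]
      rfl
  let θ : MvPolynomial (Fin l) (R₀[X][X]) →+* K₂' :=
    θ'.comp (swapE (Fin l) R₀ : MvPolynomial (Fin l) (R₀[X][X]) →+* _)
  have hθ : Frc (R := MvPolynomial (Fin l) (R₀[X][X])) θ :=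
    Frc.comp_equiv (R := MvPolynomial (Fin l) (R₀[X][X]))
      (T := (MvPolynomial (Fin l) R₀)[X][X]) hθ' (swapE (Fin l) R₀)
  have hθC : g₂.comp κ₂ = θ.comp MvPolynomial.C := by
    rw [hg₂]
    refine Polynomial.ringHom_ext' (Polynomial.ringHom_ext' ?_ ?_) ?_
    · ext c; simp [θ, θ', swapE]
    · simp [θ, θ', swapE]
    · simp [θ, θ', swapE]
  have hfrc := frc_mv hκ₂ hθ hθC
  have hcomp : (MvPolynomial.eval₂Hom g₂ fun i => θ (MvPolynomial.X i)).comp MvPolynomial.C = g₂ := by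
    ext c
    simp
  refine algebra_main hn (family P₀ (l + 2) Δ) hcab hκ₀ hC₀ (N := N) ?_
    ⟨hded, cl_base hn hgen (by rw [hC₀]; exact hfam)⟩ r
  refine goodCurve_of_factors hn hab hgen (by rw [hC₀]; exact hfam) hsC hκ₂'
    (h := fun s => (h s).map g₂) ?_ ?_
  · intro s
    have := irreducible_map_of_frac_mv hfrc (hirr s)
    rwa [hcomp] at this
  · rw [← Polynomial.map_prod, hprod, diagP_add_C]
    exact diagP_map hg₂ P₀

theorem family_alg_cyc {R₀ : Type} [CommRing R₀] [IsDomain R₀] [CharZero R₀] {a b k : ℕ}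
    (hn : Num a b) (hk : 2 ≤ k) (hkb : k ≤ b) {f₀ : R₀[X]} (hf : f₀.Monic)
    (hdeg : f₀.natDegree = b) {Δ : MvPolynomial (Fin k) R₀} (hΔ : Δ ≠ 0)
    (hs : Smooth (family (X ^ a - C f₀) k Δ).P)
    {k₁ : Type} [Field k₁] {κ₁ : R₀ →+* k₁} (hκ₁ : Frc κ₁) {N : ℕ}
    {h : Fin N → k₁[X]} (hirr : ∀ s, Irreducible (h s)) (hprod : ∏ s, h s = X ^ a - 1) (r : ℕ) :
    IsDomain ((family (X ^ a - C f₀) k Δ).power r).R ∧
    ∀ (K : Type) [Field K] (κ : ((family (X ^ a - C f₀) k Δ).power r).R →+* K), Frc κ →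
      ∃ _ : IsDedekindDomain (AdjoinRoot (mapP κ ((family (X ^ a - C f₀) k Δ).power r).P)),
        Nonempty (ClassGroup (AdjoinRoot (mapP κ ((family (X ^ a - C f₀) k Δ).power r).P)) ≃*
          Multiplicative (Fin (r * (N - 1)) → ℤ)) := by
  have ha1 : 1 ≤ a := by have := hn.ha; omega
  have hb1 : 1 ≤ b := by have := hn.hb; omega
  have hP : IsCab a b (X ^ a - C f₀) := by
    have hc0 : (X ^ a - C f₀ : R₀[X][X]).coeff 0 = - f₀ := by
      rw [Polynomial.coeff_sub, Polynomial.coeff_X_pow, if_neg (by omega), Polynomial.coeff_C_zero,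
        zero_sub]
    refine ⟨Polynomial.monic_X_pow_sub_C _ (by omega), Polynomial.natDegree_X_pow_sub_C, ?_, ?_⟩
    · rw [hc0, Polynomial.coeff_neg, ← hdeg, hf.coeff_natDegree]
    · intro i j hj hij hne
      rcases Nat.eq_zero_or_pos j with rfl | hj0
      · rw [hc0, Polynomial.coeff_neg, neg_ne_zero] at hne
        have h1 := Polynomial.le_natDegree_of_ne_zero hne
        rw [hdeg] at h1
        have h2 : i ≠ b := by
          rintro rfl
          exact hij rfl
        have h3 : i < b := lt_of_le_of_ne h1 h2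
        rw [mul_zero, add_zero]
        exact Nat.mul_lt_mul_of_pos_left h3 ha1
      · exfalso
        apply hne
        rw [Polynomial.coeff_sub, Polynomial.coeff_X_pow, if_neg (by omega),
          Polynomial.coeff_C_of_ne_zero (by omega), sub_zero, Polynomial.coeff_zero]
  obtain ⟨l, rfl⟩ : ∃ l, k = l + 2 := ⟨k - 2, by omega⟩
  obtain ⟨hdom, hch, hcab, k₀, K₀, _, _, κ₀, ι, φ, u, v, hκ₀, hι, _, _, hgen, hfam⟩ :=
    family_fields hn hkb hP hΔ
  obtain ⟨I, J, hIJ⟩ := exists_IJ hn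
  obtain ⟨C₀, hC₀⟩ := exists_crv ha1 hIJ (hcab.map κ₀)
  have hsC : Smooth C₀.P := by rw [hC₀]; exact hs.map κ₀
  have hded : IsDedekindDomain (Aff C₀.P) := isDedekind hn C₀ hsC
  have hιC : Function.Injective (ι.comp (MvPolynomial.C (σ := Fin l) (R := R₀))) :=
    hι.inj.comp (MvPolynomial.C_injective _ _)
  obtain ⟨g₁, hg₁⟩ := hκ₁.exists_ext_hom hιC
  have hfrc := frc_mv hκ₁ hι hg₁
  have hcomp : (MvPolynomial.eval₂Hom g₁ fun i => ι (MvPolynomial.X i)).comp MvPolynomial.C = g₁ := by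
    ext c
    simp
  have hfam' : C₀.P = fam2 φ u v (X ^ a - C (f₀.map (ι.comp MvPolynomial.C) -
      ∑ i : Fin l, C (ι (MvPolynomial.X i)) * X ^ ((i : ℕ) + 2))) := by
    rw [hC₀, hfam, mapP, Polynomial.map_sub, Polynomial.map_pow, Polynomial.map_X,
      Polynomial.map_C, Polynomial.C_sub]
    congr 1
    rw [Polynomial.coe_mapRingHom]
    ring
  refine algebra_main hn (family (X ^ a - C f₀) (l + 2) Δ) hcab hκ₀ hC₀ (N := N) ?_
    ⟨hded, cl_base hn hgen (by rw [hC₀]; exact hfam)⟩ r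
  refine goodCurve_cyc hn hgen hfam' hsC (h := fun s => (h s).map g₁) ?_ ?_
  · intro s
    have := irreducible_map_of_frac_mv hfrc (hirr s)
    rwa [hcomp] at this
  · rw [← Polynomial.map_prod, hprod]
    simp

end Pool.Agent.CAB
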