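import Mathlib

/-!
# The numerical semigroup generated by two coprime numbers
-/

namespace Pool.Agent.CAB

/-- `n` is the weight of a monomial. -/
def IsWt (a b n : ℕ) : Prop := ∃ i j, a * i + b * j = n

open Classical in
/-- The gaps of the semigroup. -/
noncomputable def gaps (a b : ℕ) : Finset ℕ := (Finset.range (a * b)).filter fun l => ¬ IsWt a b l

variable {a b : ℕ}

/-- A weight has a representation with `j < a`. -/
theorem IsWt.exists_lt (ha : 1 ≤ a) {n : ℕ} (h : IsWt a b n) :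
    ∃ i j, j < a ∧ a * i + b * j = n := by
  obtain ⟨i, j, rfl⟩ := h
  refine ⟨i + b * (j / a), j % a, Nat.mod_lt _ ha, ?_⟩
  have h1 := Nat.div_add_mod j a
  calc a * (i + b * (j / a)) + b * (j % a) = a * i + b * (a * (j / a) + j % a) := by ring
    _ = a * i + b * j := by rw [h1]

/-- The representation with `j < a` is unique. -/
theorem rep_unique (hco : Nat.Coprime a b) (ha : 1 ≤ a) {i j i' j' : ℕ} (hj : j < a)
    (hj' : j' < a) (h : a * i + b * j = a * i' + b * j') : i = i' ∧ j = j' := by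
  have h1 : b * j ≡ b * j' [MOD a] := by
    have h2 : (a * i + b * j) % a = (a * i' + b * j') % a := by rw [h]
    rwa [Nat.mul_add_mod, Nat.mul_add_mod] at h2
  have h3 : j ≡ j' [MOD a] := Nat.ModEq.cancel_left_of_coprime hco h1
  have h4 : j = j' := by
    have h5 : j % a = j' % a := h3
    rwa [Nat.mod_eq_of_lt hj, Nat.mod_eq_of_lt hj'] at h5
  subst h4
  refine ⟨?_, rfl⟩
  exact Nat.eq_of_mul_eq_mul_left ha (Nat.add_right_cancel h)

/-- All large numbers are weights. -/
theorem isWt_of_le (hco : Nat.Coprime a b) (ha : 1 ≤ a) (hb : 1 ≤ b) {n : ℕ} (h : a * b ≤ n) :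
    IsWt a b n := by
  rcases Nat.eq_or_lt_of_le ha with h1 | h1
  · exact ⟨n, 0, by rw [← h1]; ring⟩
  · obtain ⟨m, -, hm⟩ := Nat.exists_mul_mod_eq_one_of_coprime hco.symm h1
    have hlt : (m * n) % a < a := Nat.mod_lt _ ha
    have hle : b * ((m * n) % a) ≤ n := by
      calc b * ((m * n) % a) ≤ b * a := Nat.mul_le_mul_left b hlt.le
        _ = a * b := mul_comm _ _
        _ ≤ n := h
    have hmod : b * ((m * n) % a) ≡ n [MOD a] := by
      calc b * ((m * n) % a) ≡ b * (m * n) [MOD a] :=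
            Nat.ModEq.mul_left b (Nat.mod_modEq _ _)
        _ = (b * m) * n := by ring
        _ ≡ 1 * n [MOD a] := Nat.ModEq.mul_right n (by
            show b * m % a = 1 % a
            rw [hm, Nat.mod_eq_of_lt h1])
        _ = n := one_mul n
    obtain ⟨i, hi⟩ := (Nat.modEq_iff_dvd' hle).1 hmod
    exact ⟨i, (m * n) % a, by omega⟩

theorem mem_gaps (hco : Nat.Coprime a b) (ha : 1 ≤ a) (hb : 1 ≤ b) {l : ℕ} :
    l ∈ gaps a b ↔ ¬ IsWt a b l := by
  simp only [gaps, Finset.mem_filter, Finset.mem_range]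
  refine ⟨fun h => h.2, fun h => ⟨?_, h⟩⟩
  by_contra hl
  exact h (isWt_of_le hco ha hb (not_lt.1 hl))

theorem gaps_pos {l : ℕ} (h : l ∈ gaps a b) : 1 ≤ l := by
  simp only [gaps, Finset.mem_filter] at h
  rcases Nat.eq_zero_or_pos l with rfl | h1
  · exact absurd ⟨0, 0, by simp⟩ h.2
  · exact h1

open Classical in
/-- The exponents of the monomial of weight `n` with `j < a` (and `(0, 0)` if there is none). -/
noncomputable def wrep (a b n : ℕ) : ℕ × ℕ :=
  if h : ∃ p : ℕ × ℕ, p.2 < a ∧ a * p.1 + b * p.2 = n then h.choose else (0, 0)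

theorem wrep_spec (ha : 1 ≤ a) {n : ℕ} (h : IsWt a b n) :
    (wrep a b n).2 < a ∧ a * (wrep a b n).1 + b * (wrep a b n).2 = n := by
  have h' : ∃ p : ℕ × ℕ, p.2 < a ∧ a * p.1 + b * p.2 = n := by
    obtain ⟨i, j, h1, h2⟩ := h.exists_lt ha
    exact ⟨(i, j), h1, h2⟩
  rw [wrep, dif_pos h']
  exact h'.choose_spec

theorem wrep_eq (hco : Nat.Coprime a b) (ha : 1 ≤ a) {i j : ℕ} (hj : j < a) :
    wrep a b (a * i + b * j) = (i, j) := by
  have h := wrep_spec (b := b) ha (n := a * i + b * j) ⟨i, j, rfl⟩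
  obtain ⟨h1, h2⟩ := rep_unique hco ha h.1 hj h.2
  exact Prod.ext h1 h2

end Pool.Agent.CAB
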