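import Pool.Agent.CAB.Cab
import Pool.Agent.CAB.Gaps

/-!
# The embedding of the affine ring into Laurent series
-/

namespace Pool.Agent.CAB

open Polynomial

variable {S T U : Type*} [CommRing S] [CommRing T] [CommRing U] {a b : ℕ}

namespace Crv

variable (C : Crv a b S)

/-- Constants in the affine ring. -/
noncomputable def cc : S →+* Aff C.P := (AdjoinRoot.of C.P).comp Polynomial.C

/-- The function `x`. -/
noncomputable def gx : Aff C.P := AdjoinRoot.of C.P X

/-- The function `y`. -/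
noncomputable def gy : Aff C.P := AdjoinRoot.root C.P

/-- Expansion at infinity. -/
noncomputable def ev : Aff C.P →+* LaurentSeries S :=
  AdjoinRoot.lift (eval₂RingHom HahnSeries.C C.x) C.y C.root

@[simp] lemma ev_cc (s : S) : C.ev (C.cc s) = HahnSeries.C s := by
  simp [ev, cc]

@[simp] lemma ev_gx : C.ev C.gx = C.x := by
  simp [ev, gx]

@[simp] lemma ev_gy : C.ev C.gy = C.y := by
  simp [ev, gy]

/-- The monomial of weight `n` (if there is one). -/
noncomputable def em (n : ℕ) : Aff C.P := C.gx ^ (wrep a b n).1 * C.gy ^ (wrep a b n).2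

/-- The image of the affine ring. -/
noncomputable def rg : Subring (LaurentSeries S) := C.ev.range

lemma mem_rg {f : LaurentSeries S} : f ∈ C.rg ↔ ∃ z, C.ev z = f := RingHom.mem_range

lemma leadOne_mon (i j : ℕ) :
    LeadOne (-((a * i + b * j : ℕ) : ℤ)) (C.ev (C.gx ^ i * C.gy ^ j)) := by
  rw [map_mul, map_pow, map_pow, ev_gx, ev_gy]
  have h := (C.x_lead.pow i).mul (C.y_lead.pow j)
  convert h using 1
  push_cast
  ring

lemma leadOne_em (ha : 1 ≤ a) {n : ℕ} (hn : IsWt a b n) :
    LeadOne (-(n : ℤ)) (C.ev (C.em n)) := by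
  have h := C.leadOne_mon (wrep a b n).1 (wrep a b n).2
  rwa [(wrep_spec ha hn).2] at h

/-- Every element of the affine ring is a polynomial of degree `< a` in `y`. -/
theorem exists_mk (ha : 1 ≤ a) (z : Aff C.P) :
    ∃ q : S[X][X], q.natDegree < a ∧ AdjoinRoot.mk C.P q = z := by
  obtain ⟨p, rfl⟩ := AdjoinRoot.mk_surjective z
  have h1 : C.P ≠ 1 := by
    intro h
    have := C.cab.deg
    rw [h, natDegree_one] at this
    omega
  refine ⟨p %ₘ C.P, ?_, ?_⟩
  · have := natDegree_modByMonic_lt p C.cab.monic h1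
    rwa [C.cab.deg] at this
  · have h2 := congrArg (AdjoinRoot.mk C.P) (modByMonic_add_div p C.P)
    rw [map_add, map_mul, AdjoinRoot.mk_self, zero_mul, add_zero] at h2
    exact h2

/-- Combinations of the monomials of distinct weights. -/
def Rp (z : Aff C.P) : Prop :=
  ∃ c : ℕ →₀ S, (∀ n ∈ c.support, IsWt a b n) ∧ z = c.sum fun n s => C.cc s * C.em n

lemma rp_zero : C.Rp 0 := ⟨0, by simp, by simp⟩

lemma rp_add {z w : Aff C.P} (hz : C.Rp z) (hw : C.Rp w) : C.Rp (z + w) := by
  classical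
  obtain ⟨c, hc, rfl⟩ := hz
  obtain ⟨d, hd, rfl⟩ := hw
  refine ⟨c + d, fun n hn => ?_, ?_⟩
  · rcases Finset.mem_union.1 (Finsupp.support_add hn) with h | h
    · exact hc n h
    · exact hd n h
  · rw [Finsupp.sum_add_index']
    · intro n
      rw [map_zero, zero_mul]
    · intro n s t
      rw [map_add, add_mul]

lemma rp_sum {ι : Type*} (s : Finset ι) (f : ι → Aff C.P) (h : ∀ i ∈ s, C.Rp (f i)) :
    C.Rp (∑ i ∈ s, f i) := by
  classical
  induction s using Finset.induction_on with
  | empty => simpa using C.rp_zero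
  | insert i s hi ih =>
    rw [Finset.sum_insert hi]
    exact C.rp_add (h i (Finset.mem_insert_self _ _))
      (ih fun j hj => h j (Finset.mem_insert_of_mem hj))

lemma rp_mon (hco : Nat.Coprime a b) (ha : 1 ≤ a) (s : S) {i j : ℕ} (hj : j < a) :
    C.Rp (C.cc s * (C.gx ^ i * C.gy ^ j)) := by
  refine ⟨Finsupp.single (a * i + b * j) s, fun n hn => ?_, ?_⟩
  · have := Finsupp.support_single_subset hn
    rw [Finset.mem_singleton] at this
    exact ⟨i, j, this.symm⟩
  · rw [Finsupp.sum_single_index (by rw [map_zero, zero_mul]), em, wrep_eq hco ha hj]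

lemma mk_monomial_eq (i j : ℕ) (s : S) :
    AdjoinRoot.mk C.P (monomial j (monomial i s)) = C.cc s * (C.gx ^ i * C.gy ^ j) := by
  rw [← C_mul_X_pow_eq_monomial, ← C_mul_X_pow_eq_monomial, map_mul, map_pow, AdjoinRoot.mk_X,
    AdjoinRoot.mk_C, map_mul, map_pow, mul_assoc]
  rfl

/-- Every element of the affine ring is a combination of the monomials of distinct weights. -/
theorem exists_repr (hco : Nat.Coprime a b) (ha : 1 ≤ a) (z : Aff C.P) :
    ∃ c : ℕ →₀ S, (∀ n ∈ c.support, IsWt a b n) ∧ z = c.sum fun n s => C.cc s * C.em n := by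
  obtain ⟨q, hq, rfl⟩ := C.exists_mk ha z
  show C.Rp _
  rw [q.as_sum_range' a hq, map_sum]
  apply C.rp_sum
  intro j hj
  rw [Finset.mem_range] at hj
  rw [(q.coeff j).as_sum_range, map_sum, map_sum]
  apply C.rp_sum
  intro i _
  rw [mk_monomial_eq]
  exact C.rp_mon hco ha _ hj

lemma coeff_ev_sum (c : ℕ →₀ S) (k : ℤ) :
    (C.ev (c.sum fun n s => C.cc s * C.em n)).coeff k =
      ∑ n ∈ c.support, c n * (C.ev (C.em n)).coeff k := by
  rw [Finsupp.sum, map_sum, HahnSeries.coeff_sum]
  apply Finset.sum_congr rfl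
  intro n _
  rw [map_mul, ev_cc, HahnSeries.C_mul_eq_smul, HahnSeries.coeff_smul, smul_eq_mul]

lemma coeff_ev_topA (ha : 1 ≤ a) {c : ℕ →₀ S} (hc : ∀ n ∈ c.support, IsWt a b n) {N : ℕ}
    (hN : N ∈ c.support) (hmax : ∀ n ∈ c.support, n ≤ N) :
    (C.ev (c.sum fun n s => C.cc s * C.em n)).coeff (-(N : ℤ)) = c N := by
  rw [coeff_ev_sum, Finset.sum_eq_single N]
  · rw [(C.leadOne_em ha (hc N hN)).1, mul_one]
  · intro n hn hne
    have h1 := hmax n hn
    rw [(C.leadOne_em ha (hc n hn)).2 _ (by omega), mul_zero]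
  · intro h
    exact absurd hN h

lemma ordGe_ev (ha : 1 ≤ a) {c : ℕ →₀ S} (hc : ∀ n ∈ c.support, IsWt a b n) {N : ℕ}
    (hmax : ∀ n ∈ c.support, n ≤ N) :
    OrdGe (-(N : ℤ)) (C.ev (c.sum fun n s => C.cc s * C.em n)) := by
  intro k hk
  rw [coeff_ev_sum]
  apply Finset.sum_eq_zero
  intro n hn
  have h1 := hmax n hn
  rw [(C.leadOne_em ha (hc n hn)).2 _ (by omega), mul_zero]

/-- Such combinations are detected by their expansions: if the combination is `OrdGe (-m)` then
no weight `> m` occurs. -/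
theorem support_le (ha : 1 ≤ a) {c : ℕ →₀ S} (hc : ∀ n ∈ c.support, IsWt a b n) {m : ℕ}
    (h : OrdGe (-(m : ℤ)) (C.ev (c.sum fun n s => C.cc s * C.em n))) :
    ∀ n ∈ c.support, n ≤ m := by
  intro n hn
  by_contra hcon
  have hne : c.support.Nonempty := ⟨n, hn⟩
  set N := c.support.max' hne with hN
  have hNm : N ∈ c.support := Finset.max'_mem _ hne
  have hmax : ∀ n ∈ c.support, n ≤ N := fun n hn => Finset.le_max' _ n hn
  have h1 := C.coeff_ev_topA ha hc hNm hmax
  have h2 := hmax n hn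
  rw [h (-(N : ℤ)) (by omega)] at h1
  exact (Finsupp.mem_support_iff.1 hNm) h1.symm

/-- The expansion is injective. -/
theorem ev_injective (hco : Nat.Coprime a b) (ha : 1 ≤ a) : Function.Injective C.ev := by
  rw [injective_iff_map_eq_zero]
  intro z hz
  obtain ⟨c, hc, rfl⟩ := C.exists_repr hco ha z
  by_cases hne : c.support.Nonempty
  · exfalso
    set N := c.support.max' hne with hN
    have hNm : N ∈ c.support := Finset.max'_mem _ hne
    have h1 := C.coeff_ev_topA ha hc hNm (fun n hn => Finset.le_max' _ n hn)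
    rw [hz, HahnSeries.coeff_zero] at h1
    exact (Finsupp.mem_support_iff.1 hNm) h1.symm
  · rw [Finset.not_nonempty_iff_eq_empty] at hne
    rw [Finsupp.sum, hne, Finset.sum_empty]

theorem isDomain [IsDomain S] (hco : Nat.Coprime a b) (ha : 1 ≤ a) : IsDomain (Aff C.P) :=
  (C.ev_injective hco ha).isDomain

lemma em_zero (hco : Nat.Coprime a b) (ha : 1 ≤ a) : C.em 0 = 1 := by
  have h := wrep_eq (a := a) (b := b) hco ha (i := 0) (j := 0) (by omega)
  rw [mul_zero, mul_zero, add_zero] at h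
  rw [em, h, pow_zero, pow_zero, mul_one]

/-- Elements without poles are constant. -/
theorem exists_cc_of_nonneg (hco : Nat.Coprime a b) (ha : 1 ≤ a) {z : Aff C.P}
    (h : C.ev z ∈ nonneg S) : ∃ s, z = C.cc s := by
  obtain ⟨c, hc, rfl⟩ := C.exists_repr hco ha z
  have h1 := C.support_le ha hc (m := 0) (by
    rw [Nat.cast_zero, neg_zero]
    exact h)
  refine ⟨c 0, ?_⟩
  rw [Finsupp.sum_of_support_subset c (s := {0}) (fun n hn => by
    rw [Finset.mem_singleton]
    exact Nat.le_zero.1 (h1 n hn)) _ (fun n _ => by rw [map_zero, zero_mul])]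
  rw [Finset.sum_singleton, C.em_zero hco ha, mul_one]

/-- The order of an element of the affine ring is nonpositive. -/
theorem exists_lead_ev (hco : Nat.Coprime a b) (ha : 1 ≤ a) {z : Aff C.P} (hz : z ≠ 0) :
    ∃ m : ℕ, IsWt a b m ∧ OrdGe (-(m : ℤ)) (C.ev z) ∧ (C.ev z).coeff (-(m : ℤ)) ≠ 0 := by
  obtain ⟨c, hc, rfl⟩ := C.exists_repr hco ha z
  have hne : c.support.Nonempty := by
    rw [Finset.nonempty_iff_ne_empty]
    intro h
    apply hz
    rw [Finsupp.sum, h, Finset.sum_empty]
  have hNm : c.support.max' hne ∈ c.support := Finset.max'_mem _ hne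
  have hmax : ∀ n ∈ c.support, n ≤ c.support.max' hne := fun n hn => Finset.le_max' _ n hn
  refine ⟨c.support.max' hne, hc _ hNm, C.ordGe_ev ha hc hmax, ?_⟩
  rw [C.coeff_ev_topA ha hc hNm hmax]
  exact Finsupp.mem_support_iff.1 hNm

/-- Elements of weight at most `a`: with `b * k ≤ a` for the occurring powers of `y`. -/
theorem exists_of_ordGe (hco : Nat.Coprime a b) (ha : 2 ≤ a) (hb : 2 ≤ b) {z : Aff C.P}
    (h : OrdGe (-(a : ℤ)) (C.ev z)) :
    ∃ (α : S) (q : S[X]), b * q.natDegree ≤ a ∧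
      z = C.cc α * C.gx + (q.sum fun j s => C.cc s * C.gy ^ j) := by
  have ha1 : 1 ≤ a := by omega
  obtain ⟨c, hc, rfl⟩ := C.exists_repr hco ha1 z
  have h1 := C.support_le ha1 hc h
  have hwa : wrep a b a = (1, 0) := by
    have h2 := wrep_eq (a := a) (b := b) hco ha1 (i := 1) (j := 0) (by omega)
    rwa [mul_one, mul_zero, add_zero] at h2
  have hea : C.em a = C.gx := by
    rw [em, hwa, pow_one, pow_zero, mul_one]
  have hen : ∀ n ∈ c.support.erase a, C.em n = C.gy ^ (n / b) := by
    intro n hn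
    rw [Finset.mem_erase] at hn
    obtain ⟨h3, h4⟩ := wrep_spec ha1 (hc n hn.2)
    have h5 := h1 n hn.2
    have h6 : (wrep a b n).1 = 0 := by
      by_contra h7
      have h8 : 1 ≤ (wrep a b n).1 := Nat.one_le_iff_ne_zero.2 h7
      have h9 : a * 1 ≤ a * (wrep a b n).1 := Nat.mul_le_mul_left a h8
      rw [mul_one] at h9
      have h10 : n = a := by omega
      exact hn.1 h10
    rw [h6, mul_zero, zero_add] at h4
    have h7 : n / b = (wrep a b n).2 := by
      conv_lhs => rw [← h4]
      exact Nat.mul_div_cancel_left _ (by omega)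
    rw [em, h6, pow_zero, one_mul, h7]
  refine ⟨c a, ∑ n ∈ c.support.erase a, monomial (n / b) (c n), ?_, ?_⟩
  · have h2 : (∑ n ∈ c.support.erase a, monomial (n / b) (c n)).natDegree ≤ a / b := by
      apply natDegree_sum_le_of_forall_le
      intro n hn
      refine (natDegree_monomial_le _).trans ?_
      exact Nat.div_le_div_right (h1 n (Finset.mem_of_mem_erase hn))
    calc _ ≤ b * (a / b) := Nat.mul_le_mul_left b h2
      _ ≤ a := Nat.mul_div_le a b
  · rw [← eval₂_eq_sum, eval₂_finsetSum]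
    simp only [eval₂_monomial]
    have h2 : (c.sum fun n s => C.cc s * C.em n) =
        C.cc (c a) * C.em a + ∑ n ∈ c.support.erase a, C.cc (c n) * C.em n := by
      rw [Finsupp.sum]
      by_cases hac : a ∈ c.support
      · exact (Finset.add_sum_erase _ _ hac).symm
      · rw [Finset.erase_eq_of_notMem hac]
        have : c a = 0 := Finsupp.notMem_support_iff.1 hac
        rw [this, map_zero, zero_mul, zero_add]
    rw [h2, hea]
    congr 1
    apply Finset.sum_congr rfl
    intro n hn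
    rw [hen n hn]

end Crv

namespace Crv

/-- Induction on elements of the affine ring. -/
theorem aff_induction (C : Crv a b S) {p : Aff C.P → Prop} (hc : ∀ s, p (C.cc s)) (hx : p C.gx)
    (hy : p C.gy) (hadd : ∀ z w, p z → p w → p (z + w)) (hmul : ∀ z w, p z → p w → p (z * w))
    (z : Aff C.P) : p z := by
  have hof : ∀ q : S[X], p (AdjoinRoot.of C.P q) := by
    intro q
    induction q using Polynomial.induction_on' with
    | add q r hq hr => rw [map_add]; exact hadd _ _ hq hr
    | monomial n s =>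
      rw [← C_mul_X_pow_eq_monomial, map_mul, map_pow]
      induction n with
      | zero => rw [pow_zero, mul_one]; exact hc s
      | succ n ih => rw [pow_succ, ← mul_assoc]; exact hmul _ _ ih hx
  obtain ⟨q, rfl⟩ := AdjoinRoot.mk_surjective z
  induction q using Polynomial.induction_on' with
  | add q r hq hr => rw [map_add]; exact hadd _ _ hq hr
  | monomial n s =>
    rw [← C_mul_X_pow_eq_monomial, map_mul, map_pow]
    induction n with
    | zero => rw [pow_zero, mul_one]; exact hof s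
    | succ n ih => rw [pow_succ, ← mul_assoc]; exact hmul _ _ ih hy

/-- The coefficient of the expansion of a combination at its largest weight. -/
theorem coeff_ev_top (C : Crv a b S) (ha : 1 ≤ a) {c : ℕ →₀ S} (hc : ∀ n ∈ c.support, IsWt a b n)
    {N : ℕ} (hN : ∀ n ∈ c.support, n ≤ N) :
    (C.ev (c.sum fun n s => C.cc s * C.em n)).coeff (-(N : ℤ)) = c N := by
  rw [map_finsuppSum, Finsupp.sum, HahnSeries.coeff_sum]
  have h1 : ∀ n ∈ c.support, (C.ev (C.cc (c n) * C.em n)).coeff (-(N : ℤ)) =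
      if n = N then c n else 0 := by
    intro n hn
    have hl := C.leadOne_em ha (hc n hn)
    rw [map_mul, ev_cc, HahnSeries.C_mul_eq_smul, HahnSeries.coeff_smul, smul_eq_mul]
    split_ifs with h
    · rw [← h, hl.1, mul_one]
    · have : n < N := lt_of_le_of_ne (hN n hn) h
      rw [hl.2 _ (by omega), mul_zero]
  rw [Finset.sum_congr rfl h1, Finset.sum_ite_eq' c.support N (fun n => c n)]
  split_ifs with h
  · rfl
  · exact (Finsupp.notMem_support_iff.1 h).symm

/-- Uniqueness of the coefficients of a combination of the monomials of distinct weights. -/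
theorem eq_zero_of_sum_eq_zero (C : Crv a b S) (ha : 1 ≤ a) {c : ℕ →₀ S}
    (hc : ∀ n ∈ c.support, IsWt a b n)
    (h : (c.sum fun n s => C.cc s * C.em n) = 0) : c = 0 := by
  classical
  by_contra hne
  have hne' : c.support.Nonempty := Finsupp.support_nonempty_iff.2 hne
  have h1 := C.coeff_ev_top ha hc (N := c.support.max' hne') (fun n hn => Finset.le_max' _ n hn)
  rw [h, map_zero, HahnSeries.coeff_zero] at h1
  exact (Finsupp.mem_support_iff.1 (c.support.max'_mem hne')) h1.symm

end Crv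

namespace Rel

variable {C : Crv a b S} {C' : Crv a b T} {C'' : Crv a b U} {φ : S →+* T} {ψ : T →+* U}

/-- The base change homomorphism of the affine rings. -/
noncomputable def aff (h : Rel C C' φ) : Aff C.P →+* Aff C'.P :=
  AdjoinRoot.lift ((AdjoinRoot.of C'.P).comp (mapRingHom φ)) (AdjoinRoot.root C'.P) (by
    rw [← Polynomial.eval₂_map]
    have : (C.P.map (mapRingHom φ)) = C'.P := h.P.symm
    rw [this]
    exact AdjoinRoot.eval₂_root C'.P)

@[simp] lemma aff_cc (h : Rel C C' φ) (s : S) : h.aff (C.cc s) = C'.cc (φ s) := by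
  simp [aff, Crv.cc]

@[simp] lemma aff_gx (h : Rel C C' φ) : h.aff C.gx = C'.gx := by
  simp [aff, Crv.gx]

@[simp] lemma aff_gy (h : Rel C C' φ) : h.aff C.gy = C'.gy := by
  simp [aff, Crv.gy]

@[simp] lemma aff_em (h : Rel C C' φ) (n : ℕ) : h.aff (C.em n) = C'.em n := by
  simp [Crv.em]

/-- Homomorphisms out of the affine ring are determined by their values on constants, `x`, `y`. -/
theorem hom_ext {R : Type*} [CommRing R] {f g : Aff C.P →+* R}
    (hc : ∀ s, f (C.cc s) = g (C.cc s)) (hx : f C.gx = g C.gx) (hy : f C.gy = g C.gy) : f = g := by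
  refine RingHom.ext fun z => ?_
  refine C.aff_induction (p := fun z => f z = g z) hc hx hy ?_ ?_ z
  · intro z w hz hw
    rw [map_add, map_add, hz, hw]
  · intro z w hz hw
    rw [map_mul, map_mul, hz, hw]

@[simp] lemma ev_aff (h : Rel C C' φ) (z : Aff C.P) : C'.ev (h.aff z) = lmap φ (C.ev z) := by
  have : (C'.ev.comp h.aff) = (lmap φ).comp C.ev := by
    refine hom_ext ?_ ?_ ?_
    · intro s; simp
    · simp [h.x]
    · simp [h.y]
  exact RingHom.congr_fun this z

lemma aff_trans (h : Rel C C' φ) (h' : Rel C' C'' ψ) (h'' : Rel C C'' (ψ.comp φ)) (z : Aff C.P) :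
    h'.aff (h.aff z) = h''.aff z := by
  have : h'.aff.comp h.aff = h''.aff := by
    refine hom_ext ?_ ?_ ?_ <;> simp
  exact RingHom.congr_fun this z

/-- Base change of a surjection is surjective. -/
theorem aff_surjective (h : Rel C C' φ) (hφ : Function.Surjective φ) :
    Function.Surjective h.aff := by
  intro z
  refine C'.aff_induction (p := fun z => ∃ w, h.aff w = z) ?_ ?_ ?_ ?_ ?_ z
  · intro t
    obtain ⟨s, rfl⟩ := hφ t
    exact ⟨C.cc s, h.aff_cc s⟩
  · exact ⟨C.gx, h.aff_gx⟩
  · exact ⟨C.gy, h.aff_gy⟩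
  · rintro z w ⟨z', rfl⟩ ⟨w', rfl⟩
    exact ⟨z' + w', map_add _ _ _⟩
  · rintro z w ⟨z', rfl⟩ ⟨w', rfl⟩
    exact ⟨z' * w', map_mul _ _ _⟩

theorem aff_injective (h : Rel C C' φ) (hco : Nat.Coprime a b) (ha : 1 ≤ a)
    (hφ : Function.Injective φ) : Function.Injective h.aff := by
  intro z w hzw
  have h1 := congrArg C'.ev hzw
  rw [h.ev_aff, h.ev_aff] at h1
  exact C.ev_injective hco ha (lmap_injective hφ h1)

/-- Elements of the big affine ring with expansion over the small ring come from the small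
affine ring. -/
theorem exists_aff_eq (h : Rel C C' φ) (hco : Nat.Coprime a b) (ha : 1 ≤ a)
    (hφ : Function.Injective φ) {z : Aff C'.P} {f : LaurentSeries S}
    (hz : C'.ev z = lmap φ f) : ∃ w, h.aff w = z := by
  obtain ⟨c, hc, rfl⟩ := C'.exists_repr hco ha z
  have key : ∀ (N : ℕ) (c : ℕ →₀ T) (f : LaurentSeries S), (∀ n ∈ c.support, IsWt a b n) →
      (∀ n ∈ c.support, n < N) →
      C'.ev (c.sum fun n s => C'.cc s * C'.em n) = lmap φ f →
      ∃ w, h.aff w = c.sum fun n s => C'.cc s * C'.em n := by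
    intro N
    induction N with
    | zero =>
      intro c f _ h0 _
      have : c = 0 := by
        rw [← Finsupp.support_eq_empty]
        exact Finset.eq_empty_of_forall_notMem fun n hn => absurd (h0 n hn) (Nat.not_lt_zero n)
      exact ⟨0, by rw [this, map_zero, Finsupp.sum_zero_index]⟩
    | succ N ih =>
      intro c f hw hN hf
      have h1 := C'.coeff_ev_top ha hw (N := N) (fun n hn => Nat.lt_succ_iff.1 (hN n hn))
      rw [hf, coeff_lmap] at h1
      have h2 : (c.sum fun n s => C'.cc s * C'.em n) =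
          h.aff (C.cc (f.coeff (-(N : ℤ))) * C.em N) +
            (c.erase N).sum fun n s => C'.cc s * C'.em n := by
        rw [map_mul, aff_cc, aff_em, h1]
        by_cases hmem : N ∈ c.support
        · exact (Finsupp.add_sum_erase c N (fun n s => C'.cc s * C'.em n) hmem).symm
        · rw [Finsupp.erase_of_notMem_support hmem, Finsupp.notMem_support_iff.1 hmem]
          simp
      have hsup : ∀ n ∈ (c.erase N).support, n ∈ c.support ∧ n ≠ N := by
        intro n hn
        rw [Finsupp.support_erase, Finset.mem_erase] at hn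
        exact ⟨hn.2, hn.1⟩
      obtain ⟨w, hw'⟩ := ih (c.erase N) (f - C.ev (C.cc (f.coeff (-(N : ℤ))) * C.em N))
        (fun n hn => hw n (hsup n hn).1)
        (fun n hn => lt_of_le_of_ne (Nat.lt_succ_iff.1 (hN n (hsup n hn).1)) (hsup n hn).2)
        (by
          rw [map_sub, ← hf, ← h.ev_aff, h2, map_add]
          ring)
      exact ⟨C.cc (f.coeff (-(N : ℤ))) * C.em N + w, by rw [map_add, hw', h2]⟩
  exact key (c.support.sup id + 1) c f hc
    (fun n hn => Nat.lt_succ_iff.2 (Finset.le_sup (f := id) hn)) hz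

/-- The kernel of reduction modulo `π`. -/
theorem aff_ker (h : Rel C C' φ) (hco : Nat.Coprime a b) (ha : 1 ≤ a) {π : S}
    (hker : ∀ s, φ s = 0 → ∃ t, s = π * t) {z : Aff C.P} (hz : h.aff z = 0) :
    ∃ w, z = C.cc π * w := by
  classical
  obtain ⟨c, hc, rfl⟩ := C.exists_repr hco ha z
  have h1 : ((c.mapRange φ (map_zero φ)).sum fun n s => C'.cc s * C'.em n) = 0 := by
    rw [Finsupp.sum_mapRange_index (by simp), ← hz, map_finsuppSum]
    refine Finsupp.sum_congr fun n _ => ?_
    rw [map_mul, aff_cc, aff_em]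
  have h2 : c.mapRange φ (map_zero φ) = 0 := by
    refine C'.eq_zero_of_sum_eq_zero ha (fun n hn => hc n ?_) h1
    exact Finsupp.support_mapRange hn
  have h3 : ∀ n, ∃ t, c n = π * t := by
    intro n
    refine hker _ ?_
    have := DFunLike.congr_fun h2 n
    rwa [Finsupp.mapRange_apply, Finsupp.zero_apply] at this
  choose t ht using h3
  refine ⟨∑ n ∈ c.support, C.cc (t n) * C.em n, ?_⟩
  rw [Finsupp.sum, Finset.mul_sum]
  refine Finset.sum_congr rfl fun n _ => ?_
  rw [ht n, map_mul, mul_assoc]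

/-- Base change to a localisation: common denominators. -/
theorem aff_loc (h : Rel C C' φ) (hfrac : ∀ t : T, ∃ s r : S, φ r ≠ 0 ∧ t * φ r = φ s)
    [IsDomain T] (z : Aff C'.P) : ∃ (r : S) (w : Aff C.P), φ r ≠ 0 ∧ z * C'.cc (φ r) = h.aff w := by
  refine C'.aff_induction
    (p := fun z => ∃ (r : S) (w : Aff C.P), φ r ≠ 0 ∧ z * C'.cc (φ r) = h.aff w) ?_ ?_ ?_ ?_ ?_ z
  · intro t
    obtain ⟨s, r, hr, e⟩ := hfrac t
    exact ⟨r, C.cc s, hr, by rw [aff_cc, ← map_mul, e]⟩
  · exact ⟨1, C.gx, by rw [map_one]; exact one_ne_zero, by simp⟩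
  · exact ⟨1, C.gy, by rw [map_one]; exact one_ne_zero, by simp⟩
  · rintro z₁ z₂ ⟨r₁, w₁, h₁, e₁⟩ ⟨r₂, w₂, h₂, e₂⟩
    refine ⟨r₁ * r₂, w₁ * C.cc r₂ + w₂ * C.cc r₁, by rw [map_mul]; exact mul_ne_zero h₁ h₂, ?_⟩
    simp only [map_add, map_mul, aff_cc, ← e₁, ← e₂]
    ring
  · rintro z₁ z₂ ⟨r₁, w₁, h₁, e₁⟩ ⟨r₂, w₂, h₂, e₂⟩
    refine ⟨r₁ * r₂, w₁ * w₂, by rw [map_mul]; exact mul_ne_zero h₁ h₂, ?_⟩
    simp only [map_mul, ← e₁, ← e₂]
    ring

end Rel

end Pool.Agent.CAB
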