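import Pool.Agent.CAB.Fam
import Pool.Agent.CAB.Alg

namespace Pool.Agent.CAB

open Polynomial

/-- Adding a polynomial in `x` of small degree. -/
theorem IsCab.add_C {S : Type*} [CommRing S] [Nontrivial S] {a b : ℕ} (ha : 1 ≤ a) {P : S[X][X]}
    (hP : IsCab a b P) {q : S[X]} (hq : ∀ i, b ≤ i → q.coeff i = 0) : IsCab a b (P + C q) where
  monic := by
    apply hP.monic.add_of_left
    rw [Polynomial.degree_eq_natDegree hP.monic.ne_zero, hP.deg]
    refine lt_of_le_of_lt Polynomial.degree_C_le ?_
    exact_mod_cast ha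
  deg := by
    rw [Polynomial.natDegree_add_eq_left_of_natDegree_lt, hP.deg]
    rw [Polynomial.natDegree_C, hP.deg]
    omega
  lead := by
    rw [Polynomial.coeff_add, Polynomial.coeff_C_zero, Polynomial.coeff_add, hP.lead,
      hq b le_rfl, add_zero]
  wt := by
    intro i j hj hij hne
    rcases Nat.eq_zero_or_pos j with rfl | hj0
    · rw [Polynomial.coeff_add, Polynomial.coeff_C_zero, Polynomial.coeff_add] at hne
      by_cases h1 : (P.coeff 0).coeff i = 0
      · rw [h1, zero_add] at hne
        have : i < b := by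
          by_contra h2
          exact hne (hq i (not_lt.1 h2))
        rw [mul_zero, add_zero]
        exact Nat.mul_lt_mul_of_pos_left this ha
      · exact hP.wt i 0 hj hij h1
    · refine hP.wt i j hj hij ?_
      rwa [Polynomial.coeff_add, Polynomial.coeff_C_ne_zero (by omega), add_zero] at hne

/-- `K` is the fraction field of `R`, and of every localisation between. -/
theorem Frc.comp_loc {R T L : Type*} [CommRing R] [CommRing T] [Field L] {f : R →+* T}
    {κ : T →+* L} (hκ : Frc κ) (hf : Function.Injective f)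
    (hloc : ∀ t : T, ∃ p q : R, q ≠ 0 ∧ t * f q = f p) : Frc (κ.comp f) where
  inj := hκ.inj.comp hf
  frac := by
    intro z
    obtain ⟨p, q, hq, hz⟩ := hκ.frac z
    obtain ⟨p1, p2, hp2, hp⟩ := hloc p
    obtain ⟨q1, q2, hq2, hq'⟩ := hloc q
    have hq1 : q1 ≠ 0 := by
      rintro rfl
      rw [map_zero] at hq'
      have h1 : κ q * κ (f q2) = 0 := by rw [← map_mul, hq', map_zero]
      rcases mul_eq_zero.1 h1 with h | h
      · exact hq (hκ.inj (by rw [h, map_zero]))
      · exact hq2 (hf (hκ.inj (by rw [h, map_zero, map_zero])))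
    have hinj : Function.Injective (κ.comp f) := hκ.inj.comp hf
    refine ⟨p1 * q2, q1 * p2, ?_, ?_⟩
    · intro h0
      have h1 : (κ.comp f) q1 * (κ.comp f) p2 = 0 := by rw [← map_mul, h0, map_zero]
      rcases mul_eq_zero.1 h1 with h | h
      · exact hq1 (hinj (by rw [h, map_zero]))
      · exact hp2 (hinj (by rw [h, map_zero]))
    · show z * κ (f (q1 * p2)) = κ (f (p1 * q2))
      have e1 := congrArg κ hp
      have e2 := congrArg κ hq'
      rw [map_mul] at e1 e2
      rw [map_mul, map_mul, map_mul, map_mul, ← e1, ← e2, ← hz]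
      ring

/-- Extension of an injective homomorphism to the fraction field. -/
theorem Frc.exists_ext_hom {R K L : Type*} [CommRing R] [Field K] [Field L] {ι : R →+* K}
    (hι : Frc ι) {g : R →+* L} (hg : Function.Injective g) : ∃ φ : K →+* L, φ.comp ι = g := by
  letI : Algebra R K := ι.toAlgebra
  haveI : IsDomain R := hι.inj.isDomain
  haveI : IsFractionRing R K := by
    refine ⟨?_, ?_, ?_⟩
    · intro y
      have : (y : R) ≠ 0 := nonZeroDivisors.ne_zero y.2
      exact isUnit_iff_ne_zero.2 fun h => this (hι.inj (by rw [map_zero]; exact h))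
    · intro z
      obtain ⟨p, q, hq, hz⟩ := hι.frac z
      exact ⟨(p, ⟨q, mem_nonZeroDivisors_iff_ne_zero.2 hq⟩), hz⟩
    · intro x y h
      exact ⟨1, by rw [hι.inj h]⟩
  refine ⟨IsFractionRing.lift hg, ?_⟩
  ext x
  exact IsFractionRing.lift_algebraMap hg x

theorem frc_algebraMap (R : Type*) [CommRing R] [IsDomain R] :
    Frc (algebraMap R (FractionRing R)) := by
  refine ⟨IsFractionRing.injective _ _, fun z => ?_⟩
  obtain ⟨⟨p, q⟩, hpq⟩ := IsLocalization.surj (nonZeroDivisors R) z
  exact ⟨p, q, nonZeroDivisors.ne_zero q.2, hpq⟩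

/-- Composition with a surjective (bijective) map. -/
theorem Frc.comp_equiv {R T L : Type*} [CommRing R] [CommRing T] [Field L]
    {κ : T →+* L} (hκ : Frc κ) (e : R ≃+* T) : Frc (κ.comp (e : R →+* T)) :=
  hκ.comp_loc e.injective fun t => ⟨e.symm t, 1, by
    intro h
    have := congrArg e h
    rw [map_one, map_zero] at this
    have h2 := congrArg κ this
    rw [map_one, map_zero] at h2
    exact one_ne_zero h2, by simp⟩

end Pool.Agent.CAB
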