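import Pool.Agent.CAB.Zeta

/-!
# CAB: the Euler product of a family, from summability hypotheses

Variant of `Analytic`: the pointwise estimates `MomHyp` are replaced by the convergence of the
three series which are used (`MomS`). `d` is the dimension of the base.
-/

namespace Pool.Agent.CAB

open Polynomial Finset Pool.Agent.Hhelper85

/-- The series that are needed for the continuation of the Euler product. -/
structure MomS {R₀ : Type} [CommRing R₀] (P₀ : R₀[X][X]) {k : ℕ} (Δ : MvPolynomial (Fin k) R₀)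
    (r : ℕ) (d : ℝ) : Prop where
  two_le : 2 ≤ k
  tp : ∀ σ : ℝ, d + r + k - 1 / 4 < σ →
    Summable fun x : Nat.Primes × ℕ => |(TP P₀ Δ r x : ℝ)| * pr σ x
  sa : ∀ σ : ℝ, d + r + k + 1 / 2 < σ →
    Summable fun x : Nat.Primes × ℕ => (∑ᶠ φ : R₀ →+* GF x.1 x.2, SA P₀ Δ r x φ) * pr σ x
  dz : ∀ σ : ℝ, d + 2 < σ → Summable fun x : Nat.Primes × ℕ => |(DZ P₀ x : ℝ)| * pr σ x

section main

variable {R₀ : Type} [CommRing R₀] {P₀ : R₀[X][X]} {k : ℕ}
  {Δ : MvPolynomial (Fin k) R₀} {r : ℕ} {d : ℝ} (hM : MomS P₀ Δ r d)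
include hM

lemma MomS.summable_TP {s : ℂ} (hs : d + r + k - 1 / 4 < s.re) :
    Summable fun x : Nat.Primes × ℕ => (TP P₀ Δ r x : ℂ) * pw s x := by
  apply Summable.of_norm_bounded (hM.tp _ hs)
  intro x
  rw [norm_mul, Complex.norm_intCast, norm_pw]

lemma MomS.summable_DZ {s : ℂ} (hs : d + 2 < s.re) :
    Summable fun x : Nat.Primes × ℕ => (DZ P₀ x : ℂ) * pw s x := by
  apply Summable.of_norm_bounded (hM.dz _ hs)
  intro x
  rw [norm_mul, Complex.norm_intCast, norm_pw]

/-- The remainder is holomorphic. -/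
theorem MomS.differentiableOn_HP :
    DifferentiableOn ℂ (HP P₀ Δ r) {s : ℂ | d + r + k - 1 / 4 < s.re} := by
  intro s hs
  have hs' : d + r + k - 1 / 4 < s.re := hs
  obtain ⟨τ, h4, h5⟩ := exists_between hs'
  have hopen : IsOpen {s : ℂ | τ < s.re} := isOpen_lt continuous_const Complex.continuous_re
  have key : DifferentiableOn ℂ (HP P₀ Δ r) {s : ℂ | τ < s.re} := by
    apply Complex.differentiableOn_tsum_of_summable_norm (hM.tp _ h4)
    · intro x
      exact ((differentiable_pw x).const_mul _).differentiableOn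
    · exact hopen
    · intro x w hw
      rw [norm_mul, Complex.norm_intCast, norm_pw]
      have hw' : τ ≤ w.re := le_of_lt hw
      apply mul_le_mul_of_nonneg_left _ (abs_nonneg _)
      apply pr_anti
      linarith
  exact ((key s h5).differentiableAt (hopen.mem_nhds h5)).differentiableWithinAt

lemma MomS.analyticAt_HP {s : ℂ} (hs : d + r + k - 1 / 4 < s.re) :
    AnalyticAt ℂ (HP P₀ Δ r) s :=
  hM.differentiableOn_HP.analyticAt
    ((isOpen_lt continuous_const Complex.continuous_re).mem_nhds hs)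

variable [Algebra.FiniteType ℤ R₀]

lemma MomS.summable_vP {s : ℂ} (hs : d + r + k + 1 / 2 < s.re) :
    Summable (vP ((family P₀ k Δ).power r).P s) := by
  rw [← summable_norm_iff]
  rw [summable_sigma_of_nonneg (fun _ => norm_nonneg _)]
  refine ⟨fun x => ?_, ?_⟩
  · have := finite_hom (R := ((family P₀ k Δ).power r).R) (GF x.1 x.2)
    exact Summable.of_finite
  · refine (hM.sa _ hs).congr fun x => ?_
    have := finite_hom (R := ((family P₀ k Δ).power r).R) (GF x.1 x.2)
    have := finite_hom (R := R₀) (GF x.1 x.2)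
    let _ := Fintype.ofFinite (((family P₀ k Δ).power r).R →+* GF x.1 x.2)
    let _ := Fintype.ofFinite (R₀ →+* GF x.1 x.2)
    rw [tsum_fintype]
    simp only [norm_vP]
    rw [← Finset.sum_mul, sum_abs_eq, finsum_eq_sum_of_fintype]

lemma MomS.tsum_vP {s : ℂ} (hs : d + r + k + 1 / 2 < s.re) :
    ∑' h, vP ((family P₀ k Δ).power r).P s h
      = HP P₀ Δ r s - r * LD P₀ (s - (r + k - 2 : ℕ)) := by
  have hk := hM.two_le
  have h1 := hM.summable_vP hs
  rw [h1.tsum_sigma]
  have h4 : ∀ x : Nat.Primes × ℕ,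
      ∑' ψ : ((family P₀ k Δ).power r).R →+* GF x.1 x.2,
        vP ((family P₀ k Δ).power r).P s ⟨x, ψ⟩
      = (TP P₀ Δ r x : ℂ) * pw s x - r * ((DZ P₀ x : ℂ) * pw (s - (r + k - 2 : ℕ)) x) := by
    intro x
    have := finite_hom (R := ((family P₀ k Δ).power r).R) (GF x.1 x.2)
    let _ := Fintype.ofFinite (((family P₀ k Δ).power r).R →+* GF x.1 x.2)
    rw [tsum_fintype]
    simp only [vP_eq]
    rw [← Finset.sum_mul, sum_eq hk, ← pow_mul_pw]
    ring
  simp only [h4]
  have h3' : Summable fun x : Nat.Primes × ℕ =>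
      (r : ℂ) * ((DZ P₀ x : ℂ) * pw (s - (r + k - 2 : ℕ)) x) := by
    apply Summable.mul_left
    apply hM.summable_DZ
    simp only [Complex.sub_re, Complex.natCast_re]
    rw [Nat.cast_sub (by omega)]
    push_cast
    linarith
  rw [(hM.summable_TP (by linarith)).tsum_sub h3', tsum_mul_left]
  rfl

/-- The Euler product of the family with `r` marked points. -/
theorem MomS.hasProd_family {s : ℂ} (hs : d + r + k + 1 / 2 < s.re) :
    HasProd (fun m : MaximalSpectrum ((family P₀ k Δ).power r).R =>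
      localFactor ((family P₀ k Δ).power r).P m s)
      (Complex.exp (HP P₀ Δ r s - r * LD P₀ (s - (r + k - 2 : ℕ)))) := by
  have h := euler_product ((family P₀ k Δ).power r).P (s := s) (hM.summable_vP hs)
  rw [hM.tsum_vP hs] at h
  exact h

/-- The factorisation of the Euler product. -/
theorem MomS.hasProd_factor {s : ℂ} (hs : d + r + k + 1 / 2 < s.re) {W : ℂ}
    (hW : W = Complex.exp (LD P₀ (s - (r + k) + 2))) :
    HasProd (fun m : MaximalSpectrum ((family P₀ k Δ).power r).R =>
      localFactor ((family P₀ k Δ).power r).P m s)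
      (Complex.exp (HP P₀ Δ r s) * (W ^ r)⁻¹) := by
  have h := hM.hasProd_family hs
  have hk := hM.two_le
  have e : s - (r + k) + 2 = s - (r + k - 2 : ℕ) := by
    rw [Nat.cast_sub (by omega)]
    push_cast
    ring
  have h5 : Complex.exp (HP P₀ Δ r s) * (W ^ r)⁻¹
      = Complex.exp (HP P₀ Δ r s - r * LD P₀ (s - (r + k - 2 : ℕ))) := by
    rw [Complex.exp_sub, Complex.exp_nat_mul, hW, e, div_eq_mul_inv]
  rw [h5]
  exact h

/-- The continuation obtained from a continuation of `exp (LD P₀ (s + 2))`. -/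
theorem MomS.rel_cont {ε : ℝ} (hε : 0 < ε) (hε1 : ε ≤ 1 / 4) {W : ℂ → ℂ}
    (hWm : MeromorphicOn W {s : ℂ | d - ε < s.re})
    (hW : ∀ s : ℂ, d < s.re → W s = Complex.exp (LD P₀ (s + 2))) :
    ∃ Φ : ℂ → ℂ, MeromorphicOn Φ {s : ℂ | d + r + k - ε < s.re} ∧
      (∀ s : ℂ, d + r + k + 1 / 2 < s.re →
        HasProd (fun m : MaximalSpectrum ((family P₀ k Δ).power r).R =>
          localFactor ((family P₀ k Δ).power r).P m s) (Φ s)) ∧
      meromorphicOrderAt Φ ((d : ℂ) + r + k) = -(r * meromorphicOrderAt W (d : ℂ)) := by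
  have hZc : ∀ s : ℂ, d + r + k - ε < s.re →
      MeromorphicAt (fun s : ℂ => W (s - ((r : ℂ) + k))) s := by
    intro s hs
    have hg : AnalyticAt ℂ (fun s : ℂ => s - ((r : ℂ) + k)) s := analyticAt_id.sub analyticAt_const
    have h2 : d - ε < (s - ((r : ℂ) + k)).re := by
      simp only [Complex.sub_re, Complex.add_re, Complex.natCast_re]
      linarith
    have h3 : MeromorphicAt (W ∘ fun s : ℂ => s - ((r : ℂ) + k)) s :=
      MeromorphicAt.comp_analyticAt (hWm _ h2) hg
    exact h3
  refine ⟨fun s => Complex.exp (HP P₀ Δ r s) * ((W (s - (r + k))) ^ r)⁻¹, ?_, ?_, ?_⟩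
  · intro s hs
    have hs' : d + r + k - ε < s.re := hs
    have h1 := (hM.analyticAt_HP (s := s) (by linarith)).cexp.meromorphicAt
    exact h1.mul (((hZc s hs').pow r).inv)
  · intro s hs
    apply hM.hasProd_factor hs
    apply hW
    simp only [Complex.sub_re, Complex.add_re, Complex.natCast_re]
    linarith
  · have hre : ((d : ℂ) + r + k).re = d + r + k := by simp
    have h1 := (hM.analyticAt_HP (s := (d : ℂ) + r + k) (by rw [hre]; linarith)).cexp
    have h2 := hZc ((d : ℂ) + r + k) (by rw [hre]; linarith)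
    have e1 : ((d : ℂ) + r + k) - ((r : ℂ) + k) = d := by ring
    have h4 : meromorphicOrderAt (fun s : ℂ => W (s - (r + k))) ((d : ℂ) + r + k)
        = meromorphicOrderAt W d := by
      have := meromorphicOrderAt_comp_sub_const_eq_meromorphicOrderAt (f := W)
        (c := (r : ℂ) + k) (x := (d : ℂ) + r + k)
      rw [e1] at this
      rw [← this]
      rfl
    have h7 : meromorphicOrderAt (fun s => Complex.exp (HP P₀ Δ r s) *
        ((W (s - (r + k))) ^ r)⁻¹) ((d : ℂ) + r + k)
        = meromorphicOrderAt (((fun s : ℂ => W (s - (r + k))) ^ r)⁻¹) ((d : ℂ) + r + k) :=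
      meromorphicOrderAt_mul_of_ne_zero h1 (Complex.exp_ne_zero _)
    rw [h7, meromorphicOrderAt_inv, meromorphicOrderAt_pow h2, h4]

end main

end Pool.Agent.CAB
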