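import Pool.Agent.CAB.MomDefs
import Pool.Agent.Hhelper85.Analytic
import Pool.Agent.Hhelper85.BaseZeta

/-!
# CAB module EUL: the Euler product of a family of plane curves as exponential of a sum over
homomorphisms to finite fields

Adaptation of `Pool/Agent/Hhelper85/Euler.lean` (`PtsAll`, `kap'`, `card_fiber`, `hom_data`,
`hasSum_fiber`, `hasSum_uI`, `euler_product`) and `BaseZeta.lean` (`pt_data`, `pt_zero`, `pw_fiber`,
`hasSum_fiber_const`). Note `CAB.qy` and `TateBSD.qy` are the same function (`rfl`).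

`Nj_eq`: let `ψ : R → K = GF p n` with kernel `m` and `n = dm m * j`, `j ≥ 1`; so `#K = q^j`, `q = qy m = #κ`,
`κ = R/m`. `K` is an algebraic extension of `κ` (via `RingHom.kerLift ψ`, transported to `m`), so there is an
embedding `ι : K → κ̄` of `κ`-algebras (`IsAlgClosed.lift`), its range is `{z : z^(q^j) = z}` (all elements of `K`
satisfy it by `FiniteField.pow_card`; the polynomial `X^(q^j) - X` has at most `q^j` roots in `κ̄`). Hence
`(x, y) ↦ (ι x, ι y)` is a bijection from the solutions in `K` of `P^ψ = 0` to the set counted by `Nj`.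
-/

set_option linter.unusedSectionVars false

namespace Pool.Agent.CAB

open Polynomial Pool.Agent.Hhelper85

local instance eul_primeFact (p : Nat.Primes) : Fact (p : ℕ).Prime := ⟨p.2⟩

section aux

/-- A finite field `L` embedded in a field is the set of the roots of `X ^ #L - X`. -/
lemma eul_range {L W : Type*} [Field L] [Finite L] [Field W] (i : L →+* W) (x : W) :
    x ^ Nat.card L = x ↔ ∃ y, i y = x := by
  classical
  have := Fintype.ofFinite L
  have hQ : 1 < Nat.card L := Finite.one_lt_card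
  constructor
  · intro hx
    have hne : (X ^ Nat.card L - X : W[X]) ≠ 0 := FiniteField.X_pow_card_sub_X_ne_zero W hQ
    have hdeg : (X ^ Nat.card L - X : W[X]).natDegree = Nat.card L :=
      FiniteField.X_pow_card_sub_X_natDegree_eq W hQ
    have hsub : Finset.univ.image i ⊆ (X ^ Nat.card L - X : W[X]).roots.toFinset := by
      intro y hy
      obtain ⟨z, -, rfl⟩ := Finset.mem_image.1 hy
      rw [Multiset.mem_toFinset, mem_roots hne, IsRoot.def, eval_sub, eval_pow, eval_X,
        ← map_pow, Nat.card_eq_fintype_card, FiniteField.pow_card, sub_self]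
    have hcard : (X ^ Nat.card L - X : W[X]).roots.toFinset.card ≤ (Finset.univ.image i).card := by
      rw [Finset.card_image_of_injective _ i.injective, Finset.card_univ,
        ← Nat.card_eq_fintype_card]
      refine (Multiset.toFinset_card_le _).trans ((card_roots' _).trans ?_)
      rw [hdeg]
    have heq := Finset.eq_of_subset_of_card_le hsub hcard
    have hx' : x ∈ (X ^ Nat.card L - X : W[X]).roots.toFinset := by
      rw [Multiset.mem_toFinset, mem_roots hne, IsRoot.def, eval_sub, eval_pow, eval_X, hx,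
        sub_self]
    rw [← heq] at hx'
    obtain ⟨z, -, hz⟩ := Finset.mem_image.1 hx'
    exact ⟨z, hz⟩
  · rintro ⟨y, rfl⟩
    rw [← map_pow, Nat.card_eq_fintype_card, FiniteField.pow_card]

lemma eul_card {k W L : Type*} [Field k] [Field W] [IsAlgClosed W] [Algebra k W] [Field L]
    [Finite L] (ψ : k →+* L) (g : k[X][X]) :
    Nat.card {z : W × W // z.1 ^ Nat.card L = z.1 ∧ z.2 ^ Nat.card L = z.2 ∧
      (g.map (mapRingHom (algebraMap k W))).evalEval z.1 z.2 = 0} = NF (g.map (mapRingHom ψ)) := by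
  let _ := ψ.toAlgebra
  have hfin : Module.Finite k L := Module.Finite.of_finite
  have halg : Algebra.IsAlgebraic k L := Algebra.IsAlgebraic.of_finite k L
  let i : L →ₐ[k] W := IsAlgClosed.lift
  have hcomp : (i : L →+* W).comp ψ = algebraMap k W := i.comp_algebraMap
  have hi : ∀ y y' : L, (g.map (mapRingHom (algebraMap k W))).evalEval (i y) (i y') =
      i ((g.map (mapRingHom ψ)).evalEval y y') := by
    intro y y'
    have h1 : g.map (mapRingHom (algebraMap k W)) =
        (g.map (mapRingHom ψ)).map (mapRingHom (i : L →+* W)) := by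
      rw [Polynomial.map_map, mapRingHom_comp, hcomp]
    rw [h1]
    exact map_mapRingHom_evalEval (i : L →+* W) (g.map (mapRingHom ψ)) y y'
  unfold NF
  symm
  refine Nat.card_congr (Equiv.ofBijective (fun P => ⟨(i P.1.1, i P.1.2), ?_, ?_, ?_⟩) ⟨?_, ?_⟩)
  · exact (eul_range (i : L →+* W) _).2 ⟨_, rfl⟩
  · exact (eul_range (i : L →+* W) _).2 ⟨_, rfl⟩
  · show (g.map (mapRingHom (algebraMap k W))).evalEval (i P.1.1) (i P.1.2) = 0
    rw [hi, P.2, map_zero]
  · rintro ⟨⟨x, y⟩, h⟩ ⟨⟨x', y'⟩, h'⟩ hh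
    simp only [Subtype.mk.injEq, Prod.mk.injEq] at hh ⊢
    exact ⟨i.injective hh.1, i.injective hh.2⟩
  · rintro ⟨⟨x, y⟩, h1, h2, h3⟩
    obtain ⟨x', rfl⟩ := (eul_range (i : L →+* W) _).1 h1
    obtain ⟨y', rfl⟩ := (eul_range (i : L →+* W) _).1 h2
    refine ⟨⟨(x', y'), ?_⟩, rfl⟩
    have h4 : i ((g.map (mapRingHom ψ)).evalEval x' y') = 0 := by
      rw [← hi]
      exact h3
    exact (map_eq_zero i).1 h4

end aux

variable {R : Type} [CommRing R] [Algebra.FiniteType ℤ R]

/-- The summand at a point. -/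
noncomputable def vP (P : R[X][X]) (s : ℂ) (h : PtsAll R) : ℂ :=
  (af (P.map (mapRingHom h.2)) : ℂ) * pw s h.1

theorem Nj_eq (P : R[X][X]) {h : PtsAll R} {m : MaximalSpectrum R} {j : ℕ}
    (hh : kap' h = (m, j)) (hj : j ≠ 0) : NF (P.map (mapRingHom h.2)) = Nj P m j := by
  obtain ⟨e1, e2⟩ := pt_data hh hj
  obtain ⟨⟨p, n⟩, φ⟩ := h
  simp only at e1 e2
  have hm : kerM φ = m := congrArg Prod.fst hh
  have := m.isMaximal
  let _ := Ideal.Quotient.field m.asIdeal
  have hle : ∀ a ∈ m.asIdeal, φ a = 0 := by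
    intro a ha
    have : a ∈ (kerM φ).asIdeal := by rw [hm]; exact ha
    exact this
  have hn : n ≠ 0 := by
    rw [e2]
    exact mul_ne_zero (dm_ne m) hj
  have hcard : Nat.card (GF p n) = qy m ^ j := by
    rw [GaloisField.card _ _ hn, qy, card_quot, ← pow_mul, ← e2, e1]
  have h1 := eul_card (W := AlgebraicClosure (R ⧸ m.asIdeal))
    (Ideal.Quotient.lift m.asIdeal φ hle : R ⧸ m.asIdeal →+* GF p n)
    (P.map (mapRingHom (Ideal.Quotient.mk m.asIdeal)))
  have h2 : (P.map (mapRingHom (Ideal.Quotient.mk m.asIdeal))).map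
      (mapRingHom (Ideal.Quotient.lift m.asIdeal φ hle : R ⧸ m.asIdeal →+* GF p n)) =
        P.map (mapRingHom φ) := by
    rw [Polynomial.map_map, mapRingHom_comp, Ideal.Quotient.lift_comp_mk]
  have h3 : (P.map (mapRingHom (Ideal.Quotient.mk m.asIdeal))).map
      (mapRingHom (algebraMap (R ⧸ m.asIdeal) (AlgebraicClosure (R ⧸ m.asIdeal)))) =
        P.map (mapRingHom ((algebraMap (R ⧸ m.asIdeal)
          (AlgebraicClosure (R ⧸ m.asIdeal))).comp (Ideal.Quotient.mk m.asIdeal))) := by
    rw [Polynomial.map_map, mapRingHom_comp]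
  rw [hcard, h2, h3] at h1
  exact h1.symm

/-- The value at a pair. -/
noncomputable def uP (P : R[X][X]) (s : ℂ) (i : MaximalSpectrum R × ℕ) : ℂ :=
  (trj P i.1 i.2 : ℂ) * uC s i

lemma vP_fiber (P : R[X][X]) (s : ℂ) {h : PtsAll R} {m : MaximalSpectrum R} {j : ℕ}
    (hh : kap' h = (m, j)) (hj : j ≠ 0) : vP P s h = uP P s (m, j) / dm m := by
  obtain ⟨e1, e2⟩ := pt_data hh hj
  have hn : h.1.2 ≠ 0 := by
    rw [e2]
    exact mul_ne_zero (dm_ne m) hj
  have h3 : Nat.card (GF h.1.1 h.1.2) = qy m ^ j := by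
    rw [GaloisField.card _ _ hn, qy, card_quot, ← pow_mul, ← e2, e1]
  have h4 : af (P.map (mapRingHom h.2)) = trj P m j := by
    rw [af, trj, Nj_eq P hh hj, h3]
    push_cast
    rfl
  rw [vP, uP, pw_fiber s hh hj, h4, mul_div_assoc]

lemma hasSum_vP_fiber (P : R[X][X]) (s : ℂ) (i : MaximalSpectrum R × ℕ) :
    HasSum (fun h : {h : PtsAll R // kap' h = i} => vP P s h.1) (uP P s i) := by
  obtain ⟨m, j⟩ := i
  by_cases hj : j = 0
  · subst hj
    have h0 : uP P s (m, 0) = 0 := by simp [uP, uC]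
    rw [h0]
    have h1 : ∀ h : {h : PtsAll R // kap' h = (m, 0)}, vP P s h.1 = 0 := by
      rintro ⟨h, hh⟩
      have h4 : pw s h.1 = 0 := by
        rw [pw, pt_zero hh]
        simp
      rw [vP, h4, mul_zero]
    simp only [h1]
    exact hasSum_zero
  · have h1 : ∀ h : {h : PtsAll R // kap' h = (m, j)}, vP P s h.1 = uP P s (m, j) / dm m :=
      fun h => vP_fiber P s h.2 hj
    simp only [h1]
    exact hasSum_fiber_const m hj _

lemma hasSum_uP (P : R[X][X]) {s : ℂ} (hsum : Summable (vP P s)) :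
    HasSum (uP P s) (∑' h, vP P s h) := by
  have h1 := (Equiv.sigmaFiberEquiv (kap' (R := R))).hasSum_iff.2 hsum.hasSum
  exact h1.sigma (fun i => hasSum_vP_fiber P s i)

theorem euler_product (P : R[X][X]) {s : ℂ} (hsum : Summable (vP P s)) :
    HasProd (fun m : MaximalSpectrum R => localFactor P m s) (Complex.exp (∑' h, vP P s h)) := by
  have h1 := hasSum_uP P hsum
  have h2 : ∀ m : MaximalSpectrum R, Summable (fun j : ℕ => uP P s (m, j)) :=
    fun m => h1.summable.prod_factor m
  have h3 := (h1.prod_fiberwise (fun m => (h2 m).hasSum)).cexp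
  convert h3 using 1
  ext m
  simp only [Function.comp_apply, localFactor]
  congr 1
  rw [(h2 m).tsum_eq_zero_add]
  have h0 : uP P s (m, 0) = 0 := by simp [uP, uC]
  rw [h0, zero_add]
  apply tsum_congr
  intro j
  rw [uP, uC, mul_div_assoc]
  push_cast
  rfl

end Pool.Agent.CAB
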