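import Pool.Agent.CAB.Homs
import Pool.Agent.CAB.Euler

/-!
# CAB: the Euler product of a family of plane curves over its `r`-fold fibre power

`MomHyp` collects the estimates of the moments over all finite fields. The Euler product is
`exp (HP s - r * LD (s - (r + k - 2)))` where `HP` is holomorphic for `Re s > d + r + k - 1/4`
(`d` is the abscissa of absolute convergence of the zeta function of the base) and `LD` is the
logarithm of `ζ_Z(s) / ζ_{R₀}(s - 2)`, `Z : P₀(x, y) = P₀(x, y')`.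
-/

namespace Pool.Agent.CAB

open Polynomial Finset Pool.Agent.Hhelper85

section defs

variable {R₀ : Type} [CommRing R₀]

open Classical in
/-- The weighted first moment over the good parameters. -/
noncomputable def SP (P₀ : R₀[X][X]) {k : ℕ} (Δ : MvPolynomial (Fin k) R₀) (r : ℕ)
    (x : Nat.Primes × ℕ) (φ : R₀ →+* GF x.1 x.2) : ℤ :=
  ∑ᶠ u : Fin k → GF x.1 x.2, if Good Δ φ u then
    (NF (fam (P₀.map (mapRingHom φ)) u) : ℤ) ^ r * af (fam (P₀.map (mapRingHom φ)) u) else 0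

open Classical in
/-- The weighted absolute first moment over the good parameters. -/
noncomputable def SA (P₀ : R₀[X][X]) {k : ℕ} (Δ : MvPolynomial (Fin k) R₀) (r : ℕ)
    (x : Nat.Primes × ℕ) (φ : R₀ →+* GF x.1 x.2) : ℝ :=
  ∑ᶠ u : Fin k → GF x.1 x.2, if Good Δ φ u then
    (NF (fam (P₀.map (mapRingHom φ)) u) : ℝ) ^ r * |(af (fam (P₀.map (mapRingHom φ)) u) : ℝ)|
    else 0

/-- The remainder at a point of the base. -/
noncomputable def RP (P₀ : R₀[X][X]) {k : ℕ} (Δ : MvPolynomial (Fin k) R₀) (r : ℕ)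
    (x : Nat.Primes × ℕ) (φ : R₀ →+* GF x.1 x.2) : ℤ :=
  SP P₀ Δ r x φ + r * ((x.1 : ℤ) ^ x.2) ^ (r + k - 2) *
    ((NZ (P₀.map (mapRingHom φ)) : ℤ) - ((x.1 : ℤ) ^ x.2) ^ 2)

/-- The sum of the remainders over the points of the base. -/
noncomputable def TP (P₀ : R₀[X][X]) {k : ℕ} (Δ : MvPolynomial (Fin k) R₀) (r : ℕ)
    (x : Nat.Primes × ℕ) : ℤ := ∑ᶠ φ : R₀ →+* GF x.1 x.2, RP P₀ Δ r x φ

/-- `∑_φ (#Z_φ(F_q) - q²)`. -/
noncomputable def DZ (P₀ : R₀[X][X]) (x : Nat.Primes × ℕ) : ℤ :=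
  ∑ᶠ φ : R₀ →+* GF x.1 x.2, ((NZ (P₀.map (mapRingHom φ)) : ℤ) - ((x.1 : ℤ) ^ x.2) ^ 2)

/-- The logarithmic remainder. -/
noncomputable def HP (P₀ : R₀[X][X]) {k : ℕ} (Δ : MvPolynomial (Fin k) R₀) (r : ℕ) (s : ℂ) : ℂ :=
  ∑' x : Nat.Primes × ℕ, (TP P₀ Δ r x : ℂ) * pw s x

/-- The logarithm of `ζ_Z(s) / ζ_{R₀}(s - 2)`. -/
noncomputable def LD (P₀ : R₀[X][X]) (s : ℂ) : ℂ :=
  ∑' x : Nat.Primes × ℕ, (DZ P₀ x : ℂ) * pw s x

/-- Estimates of the moments over all finite fields. -/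
structure MomHyp (P₀ : R₀[X][X]) {k : ℕ} (Δ : MvPolynomial (Fin k) R₀) (r : ℕ) (M : ℝ) :
    Prop where
  nonneg : 0 ≤ M
  two_le : 2 ≤ k
  main : ∀ x : Nat.Primes × ℕ, x.2 ≠ 0 → ∀ φ : R₀ →+* GF x.1 x.2,
    |(RP P₀ Δ r x φ : ℝ)| ≤ M * (((x.1 : ℝ) ^ x.2) ^ (r + k - 1) *
      (Real.sqrt ((x.1 : ℝ) ^ x.2) * Real.sqrt (Real.sqrt ((x.1 : ℝ) ^ x.2))))
  abs : ∀ x : Nat.Primes × ℕ, x.2 ≠ 0 → ∀ φ : R₀ →+* GF x.1 x.2,
    SA P₀ Δ r x φ ≤ M * (((x.1 : ℝ) ^ x.2) ^ (r + k) * Real.sqrt ((x.1 : ℝ) ^ x.2))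
  nz : ∀ x : Nat.Primes × ℕ, x.2 ≠ 0 → ∀ φ : R₀ →+* GF x.1 x.2,
    |(NZ (P₀.map (mapRingHom φ)) : ℝ) - ((x.1 : ℝ) ^ x.2) ^ 2| ≤ M * ((x.1 : ℝ) ^ x.2) ^ 2

end defs

lemma sqrt_sqrt_mul_pr (σ : ℝ) (x : Nat.Primes × ℕ) :
    Real.sqrt (Real.sqrt ((x.1 : ℝ) ^ x.2)) * pr σ x = pr (σ - 1 / 4) x := by
  have hp : (0 : ℝ) < x.1 := by exact_mod_cast x.1.2.pos
  rw [pr, pr, neg_sub, sub_eq_add_neg, Real.rpow_add hp, mul_pow, Real.sqrt_eq_rpow,
    Real.sqrt_eq_rpow, ← Real.rpow_natCast,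
    ← Real.rpow_natCast ((x.1 : ℝ) ^ ((1 : ℝ) / 4)), ← Real.rpow_mul hp.le,
    ← Real.rpow_mul (by positivity), ← Real.rpow_mul (by positivity)]
  have h : ((x.2 : ℕ) : ℝ) * (1 / 2) * (1 / 2) = 1 / 4 * ((x.2 : ℕ) : ℝ) := by ring
  rw [h]
  ring

section main

variable {R₀ : Type} [CommRing R₀] [Algebra.FiniteType ℤ R₀] {P₀ : R₀[X][X]} {k : ℕ}
  {Δ : MvPolynomial (Fin k) R₀} {r : ℕ} {M : ℝ} (hM : MomHyp P₀ Δ r M)
include hM

lemma TP_bound {x : Nat.Primes × ℕ} (hx : x.2 ≠ 0) :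
    |(TP P₀ Δ r x : ℝ)| ≤ hN R₀ x * (M * (((x.1 : ℝ) ^ x.2) ^ (r + k - 1) *
      (Real.sqrt ((x.1 : ℝ) ^ x.2) * Real.sqrt (Real.sqrt ((x.1 : ℝ) ^ x.2))))) := by
  have := finite_hom (R := R₀) (GF x.1 x.2)
  let _ := Fintype.ofFinite (R₀ →+* GF x.1 x.2)
  rw [TP, finsum_eq_sum_of_fintype, Int.cast_sum]
  refine (Finset.abs_sum_le_sum_abs _ _).trans ?_
  refine (Finset.sum_le_sum (fun φ _ => hM.main x hx φ)).trans ?_
  rw [Finset.sum_const, nsmul_eq_mul, Finset.card_univ, hN, Nat.card_eq_fintype_card]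

lemma DZ_bound {x : Nat.Primes × ℕ} (hx : x.2 ≠ 0) :
    |(DZ P₀ x : ℝ)| ≤ hN R₀ x * (M * ((x.1 : ℝ) ^ x.2) ^ 2) := by
  have := finite_hom (R := R₀) (GF x.1 x.2)
  let _ := Fintype.ofFinite (R₀ →+* GF x.1 x.2)
  rw [DZ, finsum_eq_sum_of_fintype, Int.cast_sum]
  refine (Finset.abs_sum_le_sum_abs _ _).trans ?_
  refine (Finset.sum_le_sum (g := fun _ => M * ((x.1 : ℝ) ^ x.2) ^ 2) (fun φ _ => ?_)).trans ?_
  · have h := hM.nz x hx φ
    push_cast
    exact h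
  · rw [Finset.sum_const, nsmul_eq_mul, Finset.card_univ, hN, Nat.card_eq_fintype_card]

lemma TP_term_bound (s : ℂ) (x : Nat.Primes × ℕ) :
    ‖(TP P₀ Δ r x : ℂ) * pw s x‖
      ≤ M * (hN R₀ x * pr (s.re - (r + k - 1 : ℕ) - 3 / 4) x) := by
  obtain ⟨p, n⟩ := x
  by_cases hn0 : n = 0
  · subst hn0
    simp [pw, pr]
  · have h1 := TP_bound hM (x := (p, n)) hn0
    have e : pr (s.re - (r + k - 1 : ℕ) - 3 / 4) (p, n) =
        Real.sqrt (Real.sqrt (((p : ℕ) : ℝ) ^ n)) * (Real.sqrt (((p : ℕ) : ℝ) ^ n) *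
          ((((p : ℕ) : ℝ) ^ n) ^ (r + k - 1) * pr s.re (p, n))) := by
      have h2 := pow_mul_pr (r + k - 1) s.re (p, n)
      have h3 := sqrt_mul_pr (s.re - (r + k - 1 : ℕ)) (p, n)
      have h4 := sqrt_sqrt_mul_pr (s.re - (r + k - 1 : ℕ) - 1 / 2) (p, n)
      simp only at h2 h3 h4
      rw [h2, h3, h4]
      congr 1
      ring
    rw [norm_mul, Complex.norm_intCast, norm_pw, e]
    refine (mul_le_mul_of_nonneg_right h1 (pr_nonneg _ _)).trans (le_of_eq ?_)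
    ring

lemma DZ_term_bound (s : ℂ) (x : Nat.Primes × ℕ) :
    ‖(DZ P₀ x : ℂ) * pw s x‖ ≤ M * (hN R₀ x * pr (s.re - 2) x) := by
  obtain ⟨p, n⟩ := x
  by_cases hn0 : n = 0
  · subst hn0
    simp [pw, pr]
  · have h1 := DZ_bound hM (x := (p, n)) hn0
    have h2 := pow_mul_pr 2 s.re (p, n)
    simp only at h2
    push_cast at h2
    rw [norm_mul, Complex.norm_intCast, norm_pw, ← h2]
    refine (mul_le_mul_of_nonneg_right h1 (pr_nonneg _ _)).trans (le_of_eq ?_)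
    ring

variable {d : ℝ} (hd : ∀ σ : ℝ, d < σ → Summable fun x : Nat.Primes × ℕ => (hN R₀ x : ℝ) * pr σ x)
include hd

lemma summable_TP {s : ℂ} (hs : d + r + k - 1 / 4 < s.re) :
    Summable fun x : Nat.Primes × ℕ => (TP P₀ Δ r x : ℂ) * pw s x := by
  have hk := hM.two_le
  apply Summable.of_norm_bounded
    (g := fun x => M * (hN R₀ x * pr (s.re - (r + k - 1 : ℕ) - 3 / 4) x))
  · apply Summable.mul_left
    apply hd
    rw [Nat.cast_sub (by omega)]
    push_cast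
    linarith
  · exact TP_term_bound hM s

lemma summable_DZ {s : ℂ} (hs : d + 2 < s.re) :
    Summable fun x : Nat.Primes × ℕ => (DZ P₀ x : ℂ) * pw s x := by
  apply Summable.of_norm_bounded (g := fun x => M * (hN R₀ x * pr (s.re - 2) x))
  · apply Summable.mul_left
    apply hd
    linarith
  · exact DZ_term_bound hM s

/-- The remainder is holomorphic. -/
theorem differentiableOn_HP :
    DifferentiableOn ℂ (HP P₀ Δ r) {s : ℂ | d + r + k - 1 / 4 < s.re} := by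
  have hk := hM.two_le
  intro s hs
  have hs' : d + r + k - 1 / 4 < s.re := hs
  obtain ⟨τ, h4, h5⟩ := exists_between hs'
  have hopen : IsOpen {s : ℂ | τ < s.re} := isOpen_lt continuous_const Complex.continuous_re
  have key : DifferentiableOn ℂ (HP P₀ Δ r) {s : ℂ | τ < s.re} := by
    apply Complex.differentiableOn_tsum_of_summable_norm
      (u := fun x => M * (hN R₀ x * pr (τ - (r + k - 1 : ℕ) - 3 / 4) x))
    · apply Summable.mul_left
      apply hd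
      rw [Nat.cast_sub (by omega)]
      push_cast
      linarith
    · intro x
      exact ((differentiable_pw x).const_mul _).differentiableOn
    · exact hopen
    · intro x w hw
      refine (TP_term_bound hM w x).trans ?_
      have hw' : τ ≤ w.re := le_of_lt hw
      apply mul_le_mul_of_nonneg_left _ hM.nonneg
      apply mul_le_mul_of_nonneg_left _ (by positivity)
      apply pr_anti
      linarith
  exact ((key s h5).differentiableAt (hopen.mem_nhds h5)).differentiableWithinAt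

omit hM hd in
lemma vP_eq {R : Type} [CommRing R] [Algebra.FiniteType ℤ R] (P : R[X][X]) (s : ℂ)
    (x : Nat.Primes × ℕ) (ψ : R →+* GF x.1 x.2) :
    vP P s ⟨x, ψ⟩ = (af (P.map (mapRingHom ψ)) : ℂ) * pw s x := rfl

omit hM hd in
lemma norm_vP {R : Type} [CommRing R] [Algebra.FiniteType ℤ R] (P : R[X][X]) (s : ℂ)
    (x : Nat.Primes × ℕ) (ψ : R →+* GF x.1 x.2) :
    ‖vP P s ⟨x, ψ⟩‖ = |(af (P.map (mapRingHom ψ)) : ℝ)| * pr s.re x := by
  rw [vP_eq, norm_mul, norm_pw, Complex.norm_intCast]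

omit hM hd in
lemma sum_abs_eq {x : Nat.Primes × ℕ} (P₀ : R₀[X][X]) (Δ : MvPolynomial (Fin k) R₀) (r : ℕ)
    [inst : Fintype (((family P₀ k Δ).power r).R →+* GF x.1 x.2)] [Fintype (R₀ →+* GF x.1 x.2)] :
    ∑ ψ : ((family P₀ k Δ).power r).R →+* GF x.1 x.2,
      |(af (((family P₀ k Δ).power r).P.map (mapRingHom ψ)) : ℝ)|
      = ∑ φ : R₀ →+* GF x.1 x.2, SA P₀ Δ r x φ := by
  classical
  let _ := Fintype.ofFinite (GF x.1 x.2)
  rw [tower_sum (K := GF x.1 x.2) (A := ℝ) P₀ Δ r inst (fun Q => |(af Q : ℝ)|)]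
  apply Finset.sum_congr rfl
  intro φ _
  rw [SA, finsum_eq_sum_of_fintype]

omit hM hd in
lemma sum_eq (hk : 2 ≤ k) {x : Nat.Primes × ℕ}
    [inst : Fintype (((family P₀ k Δ).power r).R →+* GF x.1 x.2)] :
    ∑ ψ : ((family P₀ k Δ).power r).R →+* GF x.1 x.2,
      (af (((family P₀ k Δ).power r).P.map (mapRingHom ψ)) : ℂ)
      = (TP P₀ Δ r x : ℂ) - r * (((x.1 : ℂ) ^ x.2) ^ (r + k - 2) * (DZ P₀ x : ℂ)) := by
  classical
  have := finite_hom (R := R₀) (GF x.1 x.2)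
  let _ := Fintype.ofFinite (R₀ →+* GF x.1 x.2)
  let _ := Fintype.ofFinite (GF x.1 x.2)
  rw [tower_sum (K := GF x.1 x.2) (A := ℂ) P₀ Δ r inst (fun Q => (af Q : ℂ)), TP, DZ,
    finsum_eq_sum_of_fintype, finsum_eq_sum_of_fintype]
  push_cast
  rw [Finset.mul_sum, Finset.mul_sum, ← Finset.sum_sub_distrib]
  apply Finset.sum_congr rfl
  intro φ _
  rw [RP, SP, finsum_eq_sum_of_fintype]
  push_cast
  ring

lemma summable_vP {s : ℂ} (hs : d + r + k + 1 / 2 < s.re) :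
    Summable (vP ((family P₀ k Δ).power r).P s) := by
  rw [← summable_norm_iff]
  rw [summable_sigma_of_nonneg (fun _ => norm_nonneg _)]
  refine ⟨fun x => ?_, ?_⟩
  · have := finite_hom (R := ((family P₀ k Δ).power r).R) (GF x.1 x.2)
    exact Summable.of_finite
  · apply Summable.of_nonneg_of_le (f := fun x => M * (hN R₀ x
      * pr (s.re - (r + k : ℕ) - 1 / 2) x))
    · intro x
      exact tsum_nonneg (fun _ => norm_nonneg _)
    · intro x
      have := finite_hom (R := ((family P₀ k Δ).power r).R) (GF x.1 x.2)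
      have := finite_hom (R := R₀) (GF x.1 x.2)
      let _ := Fintype.ofFinite (((family P₀ k Δ).power r).R →+* GF x.1 x.2)
      let _ := Fintype.ofFinite (R₀ →+* GF x.1 x.2)
      rw [tsum_fintype]
      simp only [norm_vP]
      rw [← Finset.sum_mul]
      by_cases hx : x.2 = 0
      · obtain ⟨p, n⟩ := x
        simp only at hx
        subst hx
        simp [pr]
      · rw [← sqrt_mul_pr, ← pow_mul_pr, sum_abs_eq]
        have h1 : ∑ φ : R₀ →+* GF x.1 x.2, SA P₀ Δ r x φ ≤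
            hN R₀ x * (M * (((x.1 : ℝ) ^ x.2) ^ (r + k) * Real.sqrt ((x.1 : ℝ) ^ x.2))) := by
          refine (Finset.sum_le_sum (fun φ _ => hM.abs x hx φ)).trans ?_
          rw [Finset.sum_const, nsmul_eq_mul, Finset.card_univ, hN, Nat.card_eq_fintype_card]
        refine (mul_le_mul_of_nonneg_right h1 (pr_nonneg _ _)).trans (le_of_eq ?_)
        ring
    · apply Summable.mul_left
      apply hd
      push_cast
      linarith

lemma tsum_vP {s : ℂ} (hs : d + r + k + 1 / 2 < s.re) :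
    ∑' h, vP ((family P₀ k Δ).power r).P s h
      = HP P₀ Δ r s - r * LD P₀ (s - (r + k - 2 : ℕ)) := by
  have hk := hM.two_le
  have h1 := summable_vP hM hd hs
  rw [h1.tsum_sigma]
  have h4 : ∀ x : Nat.Primes × ℕ,
      ∑' ψ : ((family P₀ k Δ).power r).R →+* GF x.1 x.2,
        vP ((family P₀ k Δ).power r).P s ⟨x, ψ⟩
      = (TP P₀ Δ r x : ℂ) * pw s x - r * ((DZ P₀ x : ℂ) * pw (s - (r + k - 2 : ℕ)) x) := by
    intro x
    have := finite_hom (R := ((family P₀ k Δ).power r).R) (GF x.1 x.2)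
    let _ := Fintype.ofFinite (((family P₀ k Δ).power r).R →+* GF x.1 x.2)
    rw [tsum_fintype]
    simp only [vP_eq]
    rw [← Finset.sum_mul, sum_eq hk, ← pow_mul_pw]
    ring
  simp only [h4]
  have h3' : Summable fun x : Nat.Primes × ℕ =>
      (r : ℂ) * ((DZ P₀ x : ℂ) * pw (s - (r + k - 2 : ℕ)) x) := by
    apply Summable.mul_left
    apply summable_DZ hM hd
    simp only [Complex.sub_re, Complex.natCast_re]
    rw [Nat.cast_sub (by omega)]
    push_cast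
    linarith
  rw [(summable_TP hM hd (by linarith)).tsum_sub h3', tsum_mul_left]
  rfl

/-- The Euler product of the family with `r` marked points. -/
theorem hasProd_family {s : ℂ} (hs : d + r + k + 1 / 2 < s.re) :
    HasProd (fun m : MaximalSpectrum ((family P₀ k Δ).power r).R =>
      localFactor ((family P₀ k Δ).power r).P m s)
      (Complex.exp (HP P₀ Δ r s - r * LD P₀ (s - (r + k - 2 : ℕ)))) := by
  have h := euler_product ((family P₀ k Δ).power r).P (s := s) (summable_vP hM hd hs)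
  rw [tsum_vP hM hd hs] at h
  exact h

end main

end Pool.Agent.CAB
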