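import Pool.Agent.CAB.MomU
import Pool.Agent.CAB.SumAn
import Pool.Agent.CAB.FrcAux
import Pool.Agent.CAB.Ev
import Pool.Agent.CAB.FamAlg
import Pool.Agent.SZ.Ana
import Pool.Agent.WPl.Final

/-!
# CAB: the series of a family of `C_ab` curves over a finitely generated domain

The Weil bound for prime fields (`WPl`) and the trivial bound for the other finite fields are enough.
-/

namespace Pool.Agent.CAB

open Polynomial Finset Pool.Agent.Hhelper85 Pool.Agent.SZ

/-- A `C_ab` polynomial over a domain is prime. -/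
theorem IsCab.prime {S : Type*} [CommRing S] [IsDomain S] {a b : ℕ} (hn : Num a b) {P : S[X][X]}
    (hP : IsCab a b P) : Prime P := by
  obtain ⟨I, J, hIJ⟩ := exists_IJ hn
  have ha := hn.ha
  obtain ⟨C₀, hC₀⟩ := exists_crv (by omega) hIJ hP
  have h1 : IsDomain (Aff C₀.P) := C₀.isDomain hn.co (by omega)
  rw [hC₀] at h1
  have h2 : (Ideal.span {P} : Ideal S[X][X]).IsPrime := by
    rw [← Ideal.Quotient.isDomain_iff_prime]
    exact h1
  exact (Ideal.span_singleton_prime hP.monic.ne_zero).1 h2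

/-- The weights of a `C_ab` polynomial. -/
theorem IsCab.natDegree_coeff_le {S : Type*} [CommRing S] [Nontrivial S] {a b : ℕ} (ha : 1 ≤ a)
    {P : S[X][X]} (hP : IsCab a b P) (j : ℕ) : (P.coeff j).natDegree ≤ b * (a - j) := by
  rw [natDegree_le_iff_coeff_eq_zero]
  intro i hi
  by_contra hne
  have hj : j ≤ a := by
    by_contra h
    apply hne
    have h0 : P.coeff j = 0 := coeff_eq_zero_of_natDegree_lt (by rw [hP.deg]; omega)
    rw [h0, coeff_zero]
  obtain ⟨m, rfl⟩ : ∃ m, a = j + m := ⟨a - j, by omega⟩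
  rw [Nat.add_sub_cancel_left] at hi
  by_cases hjm : m = 0
  · subst hjm
    have h1 : P.coeff j = 1 := by
      have := hP.monic.coeff_natDegree
      rwa [hP.deg, add_zero] at this
    rw [h1, coeff_one, if_neg (by omega)] at hne
    exact hne rfl
  have hm1 : 1 ≤ m := Nat.one_le_iff_ne_zero.2 hjm
  have hbm : b * 1 ≤ b * m := Nat.mul_le_mul_left _ hm1
  by_cases hij : (i, j) = (b, 0)
  · have : i = b := (Prod.ext_iff.1 hij).1
    omega
  have h2 := hP.wt i j (by omega) hij hne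
  have h3 : 1 * i ≤ (j + m) * i := Nat.mul_le_mul_right _ ha
  have h4 : (j + m) * b = b * j + b * m := by ring
  omega

/-- A field whose cardinality is the prime `p`. -/
theorem exists_equiv_zmod {p : ℕ} [Fact p.Prime] {K : Type} [Field K] (hK : Nat.card K = p) :
    Nonempty (K ≃+* ZMod p) := by
  have hfin : Finite K := Nat.finite_of_card_ne_zero (by
    rw [hK]; exact (Fact.out : p.Prime).ne_zero)
  let _ := Fintype.ofFinite K
  have hc : Fintype.card K = p := by rw [← Nat.card_eq_fintype_card, hK]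
  exact ⟨(ZMod.ringEquivOfPrime K (Fact.out : p.Prime) hc).symm⟩

/-- The number of points of a curve and ring isomorphisms. -/
theorem NF_equiv {K L : Type*} [Field K] [Field L] (e : K ≃+* L) (P : K[X][X]) :
    NF (mapP (e : K →+* L) P) = NF P := by
  rw [NF, NF]
  apply (Nat.card_congr ?_).symm
  refine (Equiv.prodCongr e.toEquiv e.toEquiv).subtypeEquiv ?_
  intro z
  have h : (mapP (e : K →+* L) P).evalEval (e z.1) (e z.2) = e (P.evalEval z.1 z.2) := by
    have := Polynomial.map_mapRingHom_evalEval (e : K →+* L) P z.1 z.2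
    simpa using this
  change P.evalEval z.1 z.2 = 0 ↔ (mapP (e : K →+* L) P).evalEval (e z.1) (e z.2) = 0
  rw [h, map_eq_zero_iff e e.injective]

/-- The Weil bound for `C_ab` curves over prime fields. -/
theorem cab_weil {a b : ℕ} (hn : Num a b) : ∃ C : ℝ, 0 ≤ C ∧ ∀ (p : ℕ) [Fact p.Prime]
    (K : Type) [Field K], Nat.card K = p → ∀ P : K[X][X], IsCab a b P →
      |(af P : ℝ)| ≤ C * Real.sqrt p := by
  obtain ⟨C, hC⟩ := WPl.weil_plane a b
  refine ⟨|C|, abs_nonneg _, ?_⟩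
  intro p _ K _ hK P hP
  obtain ⟨e⟩ := exists_equiv_zmod hK
  have hP' : IsCab a b (mapP (e : K →+* ZMod p) P) := hP.map _
  have ha := hn.ha
  have h1 := hC p (mapP (e : K →+* ZMod p) P) hP'.monic hP'.deg
    (fun j => hP'.natDegree_coeff_le (by omega) j)
    ((hP'.map (algebraMap (ZMod p) (AlgebraicClosure (ZMod p)))).prime hn).irreducible
  have h2 : (Nat.card {z : ZMod p × ZMod p //
      (mapP (e : K →+* ZMod p) P).evalEval z.1 z.2 = 0} : ℝ) = NF P := by
    rw [← NF_equiv e P]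
    rfl
  rw [h2] at h1
  rw [af, hK]
  push_cast
  rw [abs_sub_comm]
  exact h1.trans (mul_le_mul_of_nonneg_right (le_abs_self C) (Real.sqrt_nonneg _))

section momS

variable {R₀ : Type} [CommRing R₀] {P₀ : R₀[X][X]} {k : ℕ} {Δ : MvPolynomial (Fin k) R₀}

/-- The members of the family over a finite field are `C_ab` curves. -/
theorem isCab_fam {K : Type*} [Field K] {a b : ℕ} (ha : 1 ≤ a) {P : K[X][X]} (hP : IsCab a b P)
    (hkb : k ≤ b) (u : Fin k → K) : IsCab a b (fam P u) := by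
  apply hP.add_C ha
  intro i hi
  apply coeff_eq_zero_of_degree_lt
  exact (low_degree hkb u).trans_le (by exact_mod_cast hi)

/-- The fourth moment over the prime fields. -/
theorem fourth_one {a b : ℕ} (hn : Num a b) (hP : IsCab a b P₀) (hkb : k ≤ b) :
    ∃ C4 : ℝ, 0 ≤ C4 ∧ ∀ x : Nat.Primes × ℕ, x.2 = 1 → ∀ φ : R₀ →+* GF x.1 x.2,
      ∑ᶠ u : Fin k → GF x.1 x.2, (af (fam (P₀.map (mapRingHom φ)) u) : ℝ) ^ 4 ≤
        C4 * ((x.1 : ℝ) ^ x.2) ^ (k + 2) := by
  obtain ⟨C, hC0, hC⟩ := cab_weil hn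
  refine ⟨C ^ 4, by positivity, ?_⟩
  intro x hx φ
  have ha := hn.ha
  have hp : Fact (x.1 : ℕ).Prime := ⟨x.1.2⟩
  have hcard : Nat.card (GF x.1 x.2) = (x.1 : ℕ) := by
    rw [card_GF (by omega), hx, pow_one]
  let i1 : Fintype (GF x.1 x.2) := Fintype.ofFinite _
  rw [finsum_eq_sum_of_fintype]
  have key : ∀ u : Fin k → GF x.1 x.2, (af (fam (P₀.map (mapRingHom φ)) u) : ℝ) ^ 4 ≤
      C ^ 4 * (x.1 : ℝ) ^ 2 := by
    intro u
    have h1 := hC x.1 (GF x.1 x.2) hcard _ (isCab_fam (by omega) (hP.map φ) hkb u)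
    have h2 := pow_le_pow_left₀ (abs_nonneg _) h1 4
    rw [← abs_pow, abs_of_nonneg (by positivity)] at h2
    refine h2.trans (le_of_eq ?_)
    have hs : Real.sqrt (x.1 : ℝ) ^ 2 = (x.1 : ℝ) := Real.sq_sqrt (by positivity)
    rw [mul_pow]
    congr 1
    calc Real.sqrt (x.1 : ℝ) ^ 4 = (Real.sqrt (x.1 : ℝ) ^ 2) ^ 2 := by ring
      _ = (x.1 : ℝ) ^ 2 := by rw [hs]
  refine (Finset.sum_le_sum fun u _ => key u).trans (le_of_eq ?_)
  rw [Finset.sum_const, nsmul_eq_mul, Finset.card_univ, Fintype.card_fun, Fintype.card_fin,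
    ← Nat.card_eq_fintype_card, hcard, hx]
  push_cast
  ring

lemma finsum_le_card_mul [Algebra.FiniteType ℤ R₀] {x : Nat.Primes × ℕ}
    {f : (R₀ →+* GF x.1 x.2) → ℝ} {c : ℝ} (h : ∀ φ, f φ ≤ c) :
    ∑ᶠ φ : R₀ →+* GF x.1 x.2, f φ ≤ hN R₀ x * c := by
  have := finite_hom (R := R₀) (GF x.1 x.2)
  let _ := Fintype.ofFinite (R₀ →+* GF x.1 x.2)
  rw [finsum_eq_sum_of_fintype]
  refine (Finset.sum_le_sum (fun φ _ => h φ)).trans ?_
  rw [Finset.sum_const, nsmul_eq_mul, Finset.card_univ, hN, Nat.card_eq_fintype_card]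

lemma abs_finsum_le_card_mul [Algebra.FiniteType ℤ R₀] {x : Nat.Primes × ℕ}
    {f : (R₀ →+* GF x.1 x.2) → ℤ} {c : ℝ} (h : ∀ φ, |(f φ : ℝ)| ≤ c) :
    |((∑ᶠ φ : R₀ →+* GF x.1 x.2, f φ : ℤ) : ℝ)| ≤ hN R₀ x * c := by
  have := finite_hom (R := R₀) (GF x.1 x.2)
  let _ := Fintype.ofFinite (R₀ →+* GF x.1 x.2)
  rw [finsum_eq_sum_of_fintype, Int.cast_sum]
  refine (Finset.abs_sum_le_sum_abs _ _).trans ?_
  refine (Finset.sum_le_sum (fun φ _ => h φ)).trans ?_
  rw [Finset.sum_const, nsmul_eq_mul, Finset.card_univ, hN, Nat.card_eq_fintype_card]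

/-- The three series of a family of `C_ab` curves over a finitely generated domain. -/
theorem momS_cab {δ : ℕ} (hA : FGD R₀ δ) {a b : ℕ} (hn : Num a b) (hP : IsCab a b P₀)
    (hk : 2 ≤ k) (hkb : k ≤ b)
    (hΔ : ∀ x : Nat.Primes × ℕ, x.2 ≠ 0 → ∀ φ : R₀ →+* GF x.1 x.2, Δ.map φ ≠ 0) (r : ℕ) :
    MomS P₀ Δ r ((δ : ℝ) + 1) := by
  have hft := hA.ft
  obtain ⟨C4, hC40, hC4⟩ := fourth_one (k := k) hn hP hkb
  have ha := hn.ha
  obtain ⟨M, hM0, H⟩ := pointwise hP.monic hP.deg (by omega) hk hΔ hC40 r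
  obtain ⟨C, hC⟩ := hA.hN_le
  have hCr : ∀ x : Nat.Primes × ℕ, x.2 ≠ 0 → (hN R₀ x : ℝ) ≤ C * ((x.1 : ℝ) ^ x.2) ^ δ := by
    intro x hx
    exact_mod_cast hC x hx
  have hrk : ((r + k - 1 : ℕ) : ℝ) = r + k - 1 := by
    rw [Nat.cast_sub (by omega)]
    push_cast
    ring
  refine ⟨hk, ?_, ?_, ?_⟩
  · intro σ hσ
    have s1 := (summable_pr (σ := σ - δ - (r + k - 1 : ℕ) - 1 / 2 - 1 / 4)
      (by rw [hrk]; linarith)).mul_left (C * M)
    have s2 := (summable_pr_two (σ := σ - δ - (r + k : ℕ))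
      (by push_cast; linarith)).mul_left (C * M)
    refine Summable.of_nonneg_of_le (fun x => mul_nonneg (abs_nonneg _) (pr_nonneg _ _))
      (fun x => ?_) (s1.add s2)
    have hn1 : 0 ≤ C * M * pr (σ - δ - (r + k - 1 : ℕ) - 1 / 2 - 1 / 4) x :=
      mul_nonneg (by positivity) (pr_nonneg _ _)
    have hn2 : 0 ≤ C * M * (if x.2 = 1 then 0 else pr (σ - δ - (r + k : ℕ)) x) := by
      apply mul_nonneg (by positivity)
      split_ifs
      · exact le_rfl
      · exact pr_nonneg _ _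
    by_cases hx : x.2 = 0
    · rw [pr_eq_zero σ hx, mul_zero]
      exact add_nonneg hn1 hn2
    by_cases hx1 : x.2 = 1
    · rw [if_pos hx1, mul_zero, add_zero]
      have h1 : |(TP P₀ Δ r x : ℝ)| ≤ hN R₀ x * (M * (((x.1 : ℝ) ^ x.2) ^ (r + k - 1) *
          (Real.sqrt ((x.1 : ℝ) ^ x.2) * Real.sqrt (Real.sqrt ((x.1 : ℝ) ^ x.2))))) :=
        abs_finsum_le_card_mul fun φ => (H x hx φ).1 (hC4 x hx1 φ)
      refine (mul_le_mul_of_nonneg_right h1 (pr_nonneg _ _)).trans ?_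
      rw [← sqrt_sqrt_mul_pr, ← sqrt_mul_pr, ← pow_mul_pr, ← pow_mul_pr]
      have h2 := mul_le_mul_of_nonneg_right (hCr x hx) (mul_nonneg (mul_nonneg hM0
        (by positivity : (0 : ℝ) ≤ (((x.1 : ℝ) ^ x.2) ^ (r + k - 1) *
          (Real.sqrt ((x.1 : ℝ) ^ x.2) * Real.sqrt (Real.sqrt ((x.1 : ℝ) ^ x.2))))))
        (pr_nonneg σ x))
      calc _ ≤ _ := (le_of_eq (by ring)).trans h2
        _ = _ := by ring
    · rw [if_neg hx1]
      have h1 : |(TP P₀ Δ r x : ℝ)| ≤ hN R₀ x * (M * ((x.1 : ℝ) ^ x.2) ^ (r + k)) :=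
        abs_finsum_le_card_mul fun φ => (H x hx φ).2.1
      refine (mul_le_mul_of_nonneg_right h1 (pr_nonneg _ _)).trans ?_
      have h3 : hN R₀ x * (M * ((x.1 : ℝ) ^ x.2) ^ (r + k)) * pr σ x ≤
          C * M * pr (σ - δ - (r + k : ℕ)) x := by
        rw [← pow_mul_pr, ← pow_mul_pr]
        have h2 := mul_le_mul_of_nonneg_right (hCr x hx) (mul_nonneg (mul_nonneg hM0
          (by positivity : (0 : ℝ) ≤ ((x.1 : ℝ) ^ x.2) ^ (r + k))) (pr_nonneg σ x))
        calc _ ≤ _ := (le_of_eq (by ring)).trans h2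
          _ = _ := by ring
      linarith
  · intro σ hσ
    have s1 := (summable_pr (σ := σ - δ - (r + k : ℕ) - 1 / 2)
      (by push_cast; linarith)).mul_left (C * M)
    refine Summable.of_nonneg_of_le (fun x => ?_) (fun x => ?_) s1
    · apply mul_nonneg _ (pr_nonneg _ _)
      apply finsum_nonneg
      intro φ
      rw [SA]
      apply finsum_nonneg
      intro u
      split_ifs
      · positivity
      · exact le_rfl
    · by_cases hx : x.2 = 0
      · rw [pr_eq_zero σ hx, mul_zero]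
        exact mul_nonneg (by positivity) (pr_nonneg _ _)
      have h1 : (∑ᶠ φ : R₀ →+* GF x.1 x.2, SA P₀ Δ r x φ) ≤
          hN R₀ x * (M * (((x.1 : ℝ) ^ x.2) ^ (r + k) * Real.sqrt ((x.1 : ℝ) ^ x.2))) :=
        finsum_le_card_mul fun φ => (H x hx φ).2.2.1
      refine (mul_le_mul_of_nonneg_right h1 (pr_nonneg _ _)).trans ?_
      rw [← sqrt_mul_pr, ← pow_mul_pr, ← pow_mul_pr]
      have h2 := mul_le_mul_of_nonneg_right (hCr x hx) (mul_nonneg (mul_nonneg hM0
        (by positivity : (0 : ℝ) ≤ (((x.1 : ℝ) ^ x.2) ^ (r + k) *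
          Real.sqrt ((x.1 : ℝ) ^ x.2)))) (pr_nonneg σ x))
      calc _ ≤ _ := (le_of_eq (by ring)).trans h2
        _ = _ := by ring
  · intro σ hσ
    have s1 := (summable_pr (σ := σ - δ - (2 : ℕ)) (by push_cast; linarith)).mul_left (C * M)
    refine Summable.of_nonneg_of_le (fun x => mul_nonneg (abs_nonneg _) (pr_nonneg _ _))
      (fun x => ?_) s1
    by_cases hx : x.2 = 0
    · rw [pr_eq_zero σ hx, mul_zero]
      exact mul_nonneg (by positivity) (pr_nonneg _ _)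
    have h1 : |(DZ P₀ x : ℝ)| ≤ hN R₀ x * (M * ((x.1 : ℝ) ^ x.2) ^ 2) := by
      apply abs_finsum_le_card_mul
      intro φ
      have h := (H x hx φ).2.2.2
      push_cast
      exact h
    refine (mul_le_mul_of_nonneg_right h1 (pr_nonneg _ _)).trans ?_
    rw [← pow_mul_pr, ← pow_mul_pr]
    have h2 := mul_le_mul_of_nonneg_right (hCr x hx) (mul_nonneg (mul_nonneg hM0
      (by positivity : (0 : ℝ) ≤ ((x.1 : ℝ) ^ x.2) ^ 2)) (pr_nonneg σ x))
    calc _ ≤ _ := (le_of_eq (by ring)).trans h2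
      _ = _ := by ring

end momS

end Pool.Agent.CAB
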