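import Pool.Agent.CAB.Analytic

/-!
# CAB: the zeta functions of `R₀` and of `Z : P₀(x, y) = P₀(x, y')`
-/

namespace Pool.Agent.CAB

open Polynomial Finset Pool.Agent.Hhelper85

section zeta

variable {R : Type} [CommRing R] [Algebra.FiniteType ℤ R]

lemma summable_pr_pts' {σ : ℝ} (h : Summable fun x : Nat.Primes × ℕ => (hN R x : ℝ) * pr σ x) :
    Summable fun h : PtsAll R => pr σ h.1 := by
  apply (summable_sigma_of_nonneg (fun _ => pr_nonneg _ _)).2
  refine ⟨fun x => ?_, ?_⟩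
  · have := finite_hom (R := R) (GF x.1 x.2)
    exact Summable.of_finite
  · refine h.congr fun x => ?_
    exact (tsum_const_hom x (pr σ x)).symm

/-- The Euler product, from a summability condition on the points over finite fields. -/
theorem hasProd_LZ' {s : ℂ} (hσ : 0 < s.re)
    (h : Summable fun x : Nat.Primes × ℕ => (hN R x : ℝ) * pr s.re x) :
    HasProd (fun m : MaximalSpectrum R => (1 - (qy m : ℂ) ^ (-s))⁻¹)
      (Complex.exp (LZ R s)) := by
  have h1 : Summable fun h : PtsAll R => pw s h.1 := by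
    rw [← summable_norm_iff]
    simp only [norm_pw]
    exact summable_pr_pts' h
  have h2 := hasSum_log hσ (hasSum_uC h1)
  rw [tsum_pts_pw h1] at h2
  have h6 := h2.cexp
  have h7 : (fun m : MaximalSpectrum R => (1 - (qy m : ℂ) ^ (-s))⁻¹)
      = Complex.exp ∘ (fun m : MaximalSpectrum R => -Complex.log (1 - (qy m : ℂ) ^ (-s))) := by
    ext m
    simp only [Function.comp_apply]
    rw [Complex.exp_neg]
    congr 1
    exact (Complex.exp_log (one_sub_qy_ne hσ m)).symm
  rw [h7]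
  exact h6

lemma summable_hN' {σ : ℝ} (hσ : 0 < σ)
    (h : Summable fun m : MaximalSpectrum R => (qy m : ℝ) ^ (-σ)) :
    Summable fun x : Nat.Primes × ℕ => (hN R x : ℝ) * pr σ x := summable_hN hσ h

end zeta

section RZ

variable {R₀ : Type} [CommRing R₀]

/-- `P₀(x, y') - P₀(x, y)`. -/
noncomputable def dR (P₀ : R₀[X][X]) : R₀[X][X][X] := P₀.map C - C P₀

/-- The coordinate ring of `Z : P₀(x, y) = P₀(x, y')` over `R₀`. -/
abbrev RZ (P₀ : R₀[X][X]) : Type := AdjoinRoot (dR P₀)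

instance ft_RZ [Algebra.FiniteType ℤ R₀] (P₀ : R₀[X][X]) :
    @Algebra.FiniteType ℤ (RZ P₀) _ _ (Ring.toIntAlgebra _) := by
  have h1 : @Algebra.FiniteType ℤ R₀[X] _ _ (Ring.toIntAlgebra _) :=
    ft_trans (A := R₀) (B := R₀[X]) ‹_› inferInstance
  have h2 : @Algebra.FiniteType ℤ R₀[X][X] _ _ (Ring.toIntAlgebra _) :=
    ft_trans (A := R₀[X]) (B := R₀[X][X]) h1 inferInstance
  have h3 : @Algebra.FiniteType ℤ (RZ P₀) _ _ (Ring.toIntAlgebra _) :=
    ft_trans (A := R₀[X][X]) (B := RZ P₀) h2 inferInstance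
  exact h3

/-- Homomorphisms out of `A[T]/(f)`. -/
noncomputable def adjEquiv {A : Type*} [CommRing A] (f : A[X]) (K : Type*) [CommRing K] :
    (AdjoinRoot f →+* K) ≃ {z : (A →+* K) × K // f.eval₂ z.1 z.2 = 0} where
  toFun g := ⟨(g.comp (AdjoinRoot.of f), g (AdjoinRoot.root f)), by
    rw [← Polynomial.hom_eval₂, AdjoinRoot.eval₂_root, map_zero]⟩
  invFun z := AdjoinRoot.lift z.1.1 z.1.2 z.2
  left_inv g := by
    apply AdjoinRoot.ringHom_ext
    · ext x
      simp
    · simp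
  right_inv := by
    rintro ⟨⟨h, t⟩, hh⟩
    apply Subtype.ext
    apply Prod.ext
    · ext x
      simp
    · simp

/-- Homomorphisms out of `A[T]`. -/
noncomputable def polyEquiv (A : Type*) [CommRing A] (K : Type*) [CommRing K] :
    (A[X] →+* K) ≃ (A →+* K) × K where
  toFun g := (g.comp C, g X)
  invFun z := eval₂RingHom z.1 z.2
  left_inv g := by
    apply Polynomial.ringHom_ext
    · intro a
      simp
    · simp
  right_inv := by
    rintro ⟨h, t⟩
    apply Prod.ext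
    · ext x
      simp
    · simp

/-- Rearrangement of the data. -/
noncomputable def tripEquiv (R₀ : Type) [CommRing R₀] (K : Type*) [CommRing K] :
    ((R₀[X][X] →+* K) × K) ≃ (R₀ →+* K) × (K × K × K) where
  toFun z := ((polyEquiv _ _ (polyEquiv _ _ z.1).1).1,
    ((polyEquiv _ _ (polyEquiv _ _ z.1).1).2, (polyEquiv _ _ z.1).2, z.2))
  invFun w := ((polyEquiv _ _).symm ((polyEquiv _ _).symm (w.1, w.2.1), w.2.2.1), w.2.2.2)
  left_inv z := by simp
  right_inv w := by simp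

lemma dR_eval (P₀ : R₀[X][X]) {K : Type*} [CommRing K] (h : R₀[X][X] →+* K) (t : K) :
    (dR P₀).eval₂ h t = 0 ↔
      (P₀.map (mapRingHom (tripEquiv R₀ K (h, t)).1)).evalEval (tripEquiv R₀ K (h, t)).2.1
        (tripEquiv R₀ K (h, t)).2.2.1 =
      (P₀.map (mapRingHom (tripEquiv R₀ K (h, t)).1)).evalEval (tripEquiv R₀ K (h, t)).2.1
        (tripEquiv R₀ K (h, t)).2.2.2 := by
  rw [ev_eq, ev_eq, dR, eval₂_sub, eval₂_C, eval₂_map, sub_eq_zero, eq_comm]
  have e0 : eval₂RingHom (tripEquiv R₀ K (h, t)).1 (tripEquiv R₀ K (h, t)).2.1 = h.comp C := by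
    apply Polynomial.ringHom_ext
    · intro a
      simp [tripEquiv, polyEquiv]
    · simp [tripEquiv, polyEquiv]
  have e1 : P₀.eval₂ (h.comp C) (tripEquiv R₀ K (h, t)).2.2.1 = h P₀ := by
    have : eval₂RingHom (h.comp C) (tripEquiv R₀ K (h, t)).2.2.1 = h := by
      apply Polynomial.ringHom_ext
      · intro a
        simp
      · simp [tripEquiv, polyEquiv]
    rw [← coe_eval₂RingHom, this]
  rw [e0, e1]
  rfl

lemma hN_RZ (P₀ : R₀[X][X]) (x : Nat.Primes × ℕ) [Fintype (R₀ →+* GF x.1 x.2)] :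
    hN (RZ P₀) x = ∑ φ : R₀ →+* GF x.1 x.2, NZ (P₀.map (mapRingHom φ)) := by
  rw [hN, Nat.card_congr (adjEquiv (dR P₀) (GF x.1 x.2)),
    Nat.card_congr (Equiv.subtypeEquiv (tripEquiv R₀ (GF x.1 x.2))
      (q := fun w => (P₀.map (mapRingHom w.1)).evalEval w.2.1 w.2.2.1 =
        (P₀.map (mapRingHom w.1)).evalEval w.2.1 w.2.2.2) (fun z => dR_eval P₀ z.1 z.2)),
    Nat.card_congr (Equiv.subtypeProdEquivSigmaSubtype
      (fun (φ : R₀ →+* GF x.1 x.2) (z : GF x.1 x.2 × GF x.1 x.2 × GF x.1 x.2) =>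
        (P₀.map (mapRingHom φ)).evalEval z.1 z.2.1 =
        (P₀.map (mapRingHom φ)).evalEval z.1 z.2.2)), Nat.card_sigma]
  rfl

variable [Algebra.FiniteType ℤ R₀]

lemma DZ_eq (P₀ : R₀[X][X]) (x : Nat.Primes × ℕ) :
    DZ P₀ x = (hN (RZ P₀) x : ℤ) - ((x.1 : ℤ) ^ x.2) ^ 2 * hN R₀ x := by
  have := finite_hom (R := R₀) (GF x.1 x.2)
  let _ := Fintype.ofFinite (R₀ →+* GF x.1 x.2)
  rw [DZ, finsum_eq_sum_of_fintype, hN_RZ, Finset.sum_sub_distrib, Finset.sum_const,
    Finset.card_univ, hN, Nat.card_eq_fintype_card]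
  push_cast
  ring

variable {P₀ : R₀[X][X]} {k : ℕ} {Δ : MvPolynomial (Fin k) R₀} {r : ℕ} {M : ℝ}
  (hM : MomHyp P₀ Δ r M) {d : ℝ}
  (hd : ∀ σ : ℝ, d < σ → Summable fun x : Nat.Primes × ℕ => (hN R₀ x : ℝ) * pr σ x)
include hM hd

lemma summable_RZ {σ : ℝ} (hσ : d + 2 < σ) :
    Summable fun x : Nat.Primes × ℕ => (hN (RZ P₀) x : ℝ) * pr σ x := by
  have h1 := (summable_DZ hM hd (s := (σ : ℂ)) (by simpa using hσ)).norm
  have h2 := hd (σ - 2) (by linarith)
  refine Summable.of_nonneg_of_le (fun x => mul_nonneg (Nat.cast_nonneg _) (pr_nonneg _ _))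
    (fun x => ?_) (h1.add h2)
  have e := DZ_eq P₀ x
  have e' : (hN (RZ P₀) x : ℝ) = (DZ P₀ x : ℝ) + ((x.1 : ℝ) ^ x.2) ^ 2 * hN R₀ x := by
    rw [e]
    push_cast
    ring
  rw [e', add_mul, norm_mul, norm_pw, Complex.norm_intCast, Complex.ofReal_re]
  apply add_le_add
  · exact mul_le_mul_of_nonneg_right (le_abs_self _) (pr_nonneg _ _)
  · have h3 := pow_mul_pr 2 σ x
    push_cast at h3
    rw [← h3]
    apply le_of_eq
    ring

lemma LD_eq {s : ℂ} (hs : d + 2 < s.re) :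
    LD P₀ s = LZ (RZ P₀) s - LZ R₀ (s - 2) := by
  have h1 : Summable fun x : Nat.Primes × ℕ => (hN (RZ P₀) x : ℂ) * pw s x := by
    rw [← summable_norm_iff]
    simp only [norm_mul, Complex.norm_natCast, norm_pw]
    exact summable_RZ hM hd hs
  have h2 : Summable fun x : Nat.Primes × ℕ => (hN R₀ x : ℂ) * pw (s - 2) x := by
    rw [← summable_norm_iff]
    simp only [norm_mul, Complex.norm_natCast, norm_pw]
    apply hd
    simp only [Complex.sub_re, Complex.re_ofNat]
    linarith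
  rw [LZ, LZ, ← h1.tsum_sub h2, LD]
  apply tsum_congr
  intro x
  rw [DZ_eq]
  have h3 := pow_mul_pw 2 s x
  push_cast at h3
  rw [← h3]
  push_cast
  ring

end RZ

section cont

variable {R₀ : Type} [CommRing R₀] [Algebra.FiniteType ℤ R₀] {P₀ : R₀[X][X]} {k : ℕ}
  {Δ : MvPolynomial (Fin k) R₀} {r : ℕ} {M : ℝ}
  (hM : MomHyp P₀ Δ r M) {d : ℝ}
  (hd : ∀ σ : ℝ, d < σ → Summable fun x : Nat.Primes × ℕ => (hN R₀ x : ℝ) * pr σ x)
include hM hd

lemma analyticAt_HP {s : ℂ} (hs : d + r + k - 1 / 4 < s.re) : AnalyticAt ℂ (HP P₀ Δ r) s :=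
  (differentiableOn_HP hM hd).analyticAt
    ((isOpen_lt continuous_const Complex.continuous_re).mem_nhds hs)

/-- The factorisation of the Euler product. -/
theorem hasProd_factor {s : ℂ} (hs : d + r + k + 1 / 2 < s.re) {W : ℂ}
    (hW : W = Complex.exp (LD P₀ (s - (r + k) + 2))) :
    HasProd (fun m : MaximalSpectrum ((family P₀ k Δ).power r).R =>
      localFactor ((family P₀ k Δ).power r).P m s)
      (Complex.exp (HP P₀ Δ r s) * (W ^ r)⁻¹) := by
  have h := hasProd_family hM hd hs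
  have hk := hM.two_le
  have e : s - (r + k) + 2 = s - (r + k - 2 : ℕ) := by
    rw [Nat.cast_sub (by omega)]
    push_cast
    ring
  have h5 : Complex.exp (HP P₀ Δ r s) * (W ^ r)⁻¹
      = Complex.exp (HP P₀ Δ r s - r * LD P₀ (s - (r + k - 2 : ℕ))) := by
    rw [Complex.exp_sub, Complex.exp_nat_mul, hW, e, div_eq_mul_inv]
  rw [h5]
  exact h

/-- The continuation obtained from a continuation of `exp (LD P₀ (s + 2))`. -/
theorem rel_cont {ε : ℝ} (hε : 0 < ε) (hε1 : ε ≤ 1 / 4) {W : ℂ → ℂ}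
    (hWm : MeromorphicOn W {s : ℂ | d - ε < s.re})
    (hW : ∀ s : ℂ, d < s.re → W s = Complex.exp (LD P₀ (s + 2))) :
    ∃ Φ : ℂ → ℂ, MeromorphicOn Φ {s : ℂ | d + r + k - ε < s.re} ∧
      (∀ s : ℂ, d + r + k + 1 / 2 < s.re →
        HasProd (fun m : MaximalSpectrum ((family P₀ k Δ).power r).R =>
          localFactor ((family P₀ k Δ).power r).P m s) (Φ s)) ∧
      meromorphicOrderAt Φ ((d : ℂ) + r + k) = -(r * meromorphicOrderAt W (d : ℂ)) := by
  have hZc : ∀ s : ℂ, d + r + k - ε < s.re →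
      MeromorphicAt (fun s : ℂ => W (s - ((r : ℂ) + k))) s := by
    intro s hs
    have hg : AnalyticAt ℂ (fun s : ℂ => s - ((r : ℂ) + k)) s := analyticAt_id.sub analyticAt_const
    have h2 : d - ε < (s - ((r : ℂ) + k)).re := by
      simp only [Complex.sub_re, Complex.add_re, Complex.natCast_re]
      linarith
    have h3 : MeromorphicAt (W ∘ fun s : ℂ => s - ((r : ℂ) + k)) s :=
      MeromorphicAt.comp_analyticAt (hWm _ h2) hg
    exact h3
  refine ⟨fun s => Complex.exp (HP P₀ Δ r s) * ((W (s - (r + k))) ^ r)⁻¹, ?_, ?_, ?_⟩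
  · intro s hs
    have hs' : d + r + k - ε < s.re := hs
    have h1 := (analyticAt_HP hM hd (s := s) (by linarith)).cexp.meromorphicAt
    exact h1.mul (((hZc s hs').pow r).inv)
  · intro s hs
    apply hasProd_factor hM hd hs
    apply hW
    simp only [Complex.sub_re, Complex.add_re, Complex.natCast_re]
    linarith
  · have hre : ((d : ℂ) + r + k).re = d + r + k := by simp
    have h1 := (analyticAt_HP hM hd (s := (d : ℂ) + r + k) (by rw [hre]; linarith)).cexp
    have h2 := hZc ((d : ℂ) + r + k) (by rw [hre]; linarith)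
    have e1 : ((d : ℂ) + r + k) - ((r : ℂ) + k) = d := by ring
    have h4 : meromorphicOrderAt (fun s : ℂ => W (s - (r + k))) ((d : ℂ) + r + k)
        = meromorphicOrderAt W d := by
      have := meromorphicOrderAt_comp_sub_const_eq_meromorphicOrderAt (f := W)
        (c := (r : ℂ) + k) (x := (d : ℂ) + r + k)
      rw [e1] at this
      rw [← this]
      rfl
    have h7 : meromorphicOrderAt (fun s => Complex.exp (HP P₀ Δ r s) *
        ((W (s - (r + k))) ^ r)⁻¹) ((d : ℂ) + r + k)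
        = meromorphicOrderAt (((fun s : ℂ => W (s - (r + k))) ^ r)⁻¹) ((d : ℂ) + r + k) :=
      meromorphicOrderAt_mul_of_ne_zero h1 (Complex.exp_ne_zero _)
    rw [h7, meromorphicOrderAt_inv, meromorphicOrderAt_pow h2, h4]

end cont

end Pool.Agent.CAB
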