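import Pool.Agent.CAB.Step
import Pool.Agent.CAB.Fact
import Pool.Agent.CAB.CycIndep

/-!
# The generic members of two parameter families are good curves

Paper proof of `goodCurve_of_factors` (`a < b`). By `gen_E` the field `E` is the fraction field
of `k₀[x₁][y₁][u]` through some `f`. `f ∘ C : k₀[X][X] → E` (`x₁`, `y₁`) is injective, so it
extends to `g : K₂ → E`, and `E` is the fraction field of `K₂[X]` through `X ↦ u`.
`h_s.map g` is irreducible by `irreducible_map_of_frac`, the product is `fib` by `fib_eq`,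
Nagata's condition is `twopt`. Independence: `b * deg g ≤ a < b` gives `deg g = 0`, `g` is a constant
`c` and `h_s ∣ c - n_s` with `deg h_s ≥ 1` gives `n_s = c` for all `s` (characteristic zero:
the cast of integers to `L` is injective).

Paper proof of `goodCurve_cyc`. `P₀ = y^m - f₀(x)`; by `fib_eq` the fibre is
`Y^m - y₁^m = y₁^m ((Y/y₁)^m - 1)`. The factors are `C (y₁ ^ deg h_s) * (h_s.map f).comp (Y / y₁)`;
they are irreducible over `E`, because `h_s` stays irreducible over the purely transcendental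
extension `E` of `k₀` (`irreducible_map_of_frac` three times, or directly
`irreducible_map_of_frac_mv`) and `Y ↦ Y / y₁` is an automorphism. `y₁ ≠ 0`. Independence:
`cyc_indep` over `L` (with `h_s` mapped to `L`).
-/

namespace Pool.Agent.CAB

open Polynomial

variable {k₀ K₀ K₂ : Type} [Field k₀] [Field K₀] [Field K₂] {a b : ℕ}

/-- Extension to the fraction field. -/
lemma fm_ext {R F E : Type*} [CommRing R] [Field F] [Field E] {κ : R →+* F} (hκ : Frc κ)
    {g : R →+* E} (hg : Function.Injective g) : ∃ g' : F →+* E, g'.comp κ = g := by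
  have : IsDomain R := hκ.inj.isDomain
  let _ := κ.toAlgebra
  have hF : FaithfulSMul R F := (faithfulSMul_iff_algebraMap_injective R F).2 hκ.inj
  have : IsFractionRing R F := IsFractionRing.of_field R F (by
    intro z
    obtain ⟨p, q, hq, h⟩ := hκ.frac z
    refine ⟨p, q, ?_⟩
    have hq' : κ q ≠ 0 := (map_ne_zero_iff κ hκ.inj).2 hq
    show z = κ p / κ q
    rw [← h, mul_div_cancel_right₀ _ hq'])
  refine ⟨IsFractionRing.lift hg, ?_⟩
  ext r
  exact IsFractionRing.lift_algebraMap hg r

lemma fm_clear {R F : Type*} [CommRing R] [Field F] {κ : R →+* F} (hκ : Frc κ) (q : F[X]) :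
    ∃ c : R, c ≠ 0 ∧ ∃ q' : R[X], Polynomial.C (κ c) * q = q'.map κ := by
  have : IsDomain R := hκ.inj.isDomain
  induction q using Polynomial.induction_on' with
  | add p q hp hq =>
    obtain ⟨c, hc, p', hp'⟩ := hp
    obtain ⟨d, hd, q', hq'⟩ := hq
    refine ⟨c * d, mul_ne_zero hc hd, Polynomial.C d * p' + Polynomial.C c * q', ?_⟩
    rw [Polynomial.map_add, Polynomial.map_mul, Polynomial.map_mul, ← hp', ← hq',
      Polynomial.map_C, Polynomial.map_C, map_mul, Polynomial.C_mul]
    ring
  | monomial n z =>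
    obtain ⟨p, q, hq, h⟩ := hκ.frac z
    refine ⟨q, hq, Polynomial.monomial n p, ?_⟩
    rw [Polynomial.C_mul_monomial, Polynomial.map_monomial, ← h, mul_comm]

/-- One variable more. -/
lemma fm_step {R F E : Type*} [CommRing R] [Field F] [Field E] {κ : R →+* F} (hκ : Frc κ)
    {f : R[X] →+* E} (hf : Frc f) :
    ∃ g : F →+* E, g.comp κ = f.comp Polynomial.C ∧ Frc (eval₂RingHom g (f X)) := by
  obtain ⟨g, hg⟩ := fm_ext hκ (g := f.comp Polynomial.C) (hf.inj.comp Polynomial.C_injective)
  have hval : ∀ q : R[X], eval₂RingHom g (f X) (q.map κ) = f q := by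
    intro q
    rw [coe_eval₂RingHom, eval₂_map, hg]
    have h1 : (eval₂RingHom (f.comp Polynomial.C) (f X)) = f := by
      apply Polynomial.ringHom_ext
      · intro r; simp
      · simp
    conv_rhs => rw [← h1]
    rfl
  refine ⟨g, hg, ⟨?_, ?_⟩⟩
  · rw [injective_iff_map_eq_zero]
    intro q hq
    obtain ⟨c, hc, q', hq'⟩ := fm_clear hκ q
    have h1 := congrArg (eval₂RingHom g (f X)) hq'
    rw [map_mul, hq, mul_zero, hval] at h1
    have h2 : q' = 0 := hf.inj (by rw [← h1, map_zero])
    rw [h2, Polynomial.map_zero] at hq'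
    refine (mul_eq_zero.1 hq').resolve_left ?_
    rw [Polynomial.C_eq_zero]
    exact (map_ne_zero_iff κ hκ.inj).2 hc
  · intro z
    obtain ⟨p, q, hq, h⟩ := hf.frac z
    refine ⟨p.map κ, q.map κ, ?_, ?_⟩
    · exact fun h0 => hq ((Polynomial.map_eq_zero_iff hκ.inj).1 h0)
    · rw [hval, hval, h]

lemma fm_frc_of_frac (R : Type*) [CommRing R] [IsDomain R] :
    Frc (algebraMap R (FractionRing R)) := by
  refine ⟨IsFractionRing.injective R (FractionRing R), fun z => ?_⟩
  obtain ⟨p, q, hq, rfl⟩ := IsFractionRing.div_surjective (A := R) z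
  refine ⟨p, q, nonZeroDivisors.ne_zero hq, ?_⟩
  rw [div_mul_cancel₀]
  exact (map_ne_zero_iff _ (IsFractionRing.injective R (FractionRing R))).2
    (nonZeroDivisors.ne_zero hq)

/-- `P₀(x, Y) - P₀(x, y)` over the field `K₂` of rational functions in `x`, `y` over `R₀`. -/
noncomputable def diagP {R₀ : Type} [CommRing R₀] (κ : R₀[X][X] →+* K₂) (P₀ : R₀[X][X]) : K₂[X] :=
  (mapP (κ.comp (Polynomial.C.comp Polynomial.C)) P₀).map
    (evalRingHom (κ (Polynomial.C X))) - Polynomial.C (κ P₀)

theorem goodCurve_of_factors [CharZero k₀] (hn : Num a b) (hab : a < b) {φ : k₀ →+* K₀} {u v : K₀}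
    (hg : Gen2 φ u v) {P₀ : k₀[X][X]} {C : Crv a b K₀} (hC : C.P = fam2 φ u v P₀)
    (hs : Smooth C.P) {κ : k₀[X][X] →+* K₂} (hκ : Frc (R := k₀[X][X]) κ) {N : ℕ} {h : Fin N → K₂[X]}
    (hirr : ∀ s, Irreducible (h s)) (hprod : ∏ s, h s = diagP κ P₀) : GoodCurve C N := by
  refine ⟨hs, ?_⟩
  intro E _ i₀ hi₀ CE hCE
  have hsE : Smooth CE.P := by rw [hCE.P]; exact hs.map _
  have hded : IsDedekindDomain (Aff CE.P) := isDedekind hn CE hsE
  obtain ⟨f, hf, hfc, hfx, hfy, hfu⟩ := gen_E hn hg hC hi₀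
  obtain ⟨g, hg1, hg2⟩ := fm_step (R := k₀[X][X]) hκ hf
  have hgC : (eval₂RingHom g (f X)).comp Polynomial.C = g := by
    ext z; simp
  refine ⟨fun s => (h s).map g, ?_, ?_, ?_, ?_⟩
  · intro s
    have h1 := irreducible_map_of_frac hg2 (hirr s)
    rwa [hgC] at h1
  · have hgκ : ∀ z, g (κ z) = f (Polynomial.C z) := fun z => congrArg (fun t => t z) hg1
    have h1 : ∏ s, (h s).map g = (diagP κ P₀).map g := by
      rw [← hprod, Polynomial.map_prod]
    rw [h1, fib_eq hC hCE (f := f.comp (Polynomial.C.comp (Polynomial.C.comp Polynomial.C)))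
      (fun c => hfc c)]
    have h2 : (eval₂RingHom (eval₂RingHom (f.comp (Polynomial.C.comp (Polynomial.C.comp
        Polynomial.C))) (i₀ C.gx)) (i₀ C.gy)) = f.comp Polynomial.C := by
      apply Polynomial.ringHom_ext'
      · apply Polynomial.ringHom_ext'
        · ext c; simp
        · simp [hfx]
      · simp [hfy]
    have h3 : P₀.eval₂ (eval₂RingHom (f.comp (Polynomial.C.comp (Polynomial.C.comp
        Polynomial.C))) (i₀ C.gx)) (i₀ C.gy) = f (Polynomial.C P₀) := congrArg (fun t => t P₀) h2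
    rw [h3, diagP, Polynomial.map_sub, Polynomial.map_C, hgκ, Polynomial.map_map, mapP, mapP,
      Polynomial.map_map, Polynomial.map_map]
    congr 2
    apply Polynomial.ringHom_ext'
    · ext c
      simp [hgκ]
    · simp [hgκ, hfx]
  · intro I hI
    exact twopt hn hg hC hi₀ hCE I hI
  · intro L _ m q n hq hdvd s t
    have hchar : CharZero L := charZero_of_injective_ringHom
      (m.comp (i₀.comp (C.cc.comp φ))).injective
    have hq0 : q.natDegree = 0 := by
      by_contra h0
      have : 1 ≤ q.natDegree := Nat.one_le_iff_ne_zero.2 h0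
      nlinarith
    rw [Polynomial.eq_C_of_natDegree_eq_zero hq0] at hdvd
    have hs : ∀ s, q.coeff 0 = (n s : L) := by
      intro s
      have h1 := hdvd s
      rw [← Polynomial.C_sub] at h1
      by_contra hne
      have h2 := natDegree_le_of_dvd h1 (by rw [Ne, Polynomial.C_eq_zero]; exact sub_ne_zero.2 hne)
      rw [Polynomial.natDegree_C, natDegree_map, natDegree_map] at h2
      have := (hirr s).natDegree_pos
      omega
    have := (hs s).symm.trans (hs t)
    exact_mod_cast this

/-- Scaling of the variable. -/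
lemma fm_scale {E : Type*} [Field E] {c d : E} (hc : c ≠ 0) (hd : d ≠ 0) {q : E[X]}
    (hq : Irreducible q) : Irreducible (Polynomial.C c * q.comp (Polynomial.C d * X)) := by
  let _ : Invertible d := invertibleOfNonzero hd
  have h1 : Irreducible (q.comp (Polynomial.C d * X)) := by
    have h2 : q.comp (Polynomial.C d * X) = Polynomial.algEquivCMulXAddC d 0 q := by
      simp [Polynomial.algEquivCMulXAddC, Polynomial.comp, aeval_def]
    rw [h2]
    exact (MulEquiv.irreducible_iff (Polynomial.algEquivCMulXAddC d 0)).2 hq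
  exact (irreducible_isUnit_mul (Polynomial.isUnit_C.2 (isUnit_iff_ne_zero.2 hc))).2 h1

theorem goodCurve_cyc [CharZero k₀] (hn : Num a b) {φ : k₀ →+* K₀} {u v : K₀}
    (hg : Gen2 φ u v) {f₀ : k₀[X]} {C : Crv a b K₀}
    (hC : C.P = fam2 φ u v (X ^ a - Polynomial.C f₀)) (hs : Smooth C.P) {N : ℕ}
    {h : Fin N → k₀[X]} (hirr : ∀ s, Irreducible (h s)) (hprod : ∏ s, h s = X ^ a - 1) :
    GoodCurve C N := by
  refine ⟨hs, ?_⟩
  intro E _ i₀ hi₀ CE hCE
  have hsE : Smooth CE.P := by rw [hCE.P]; exact hs.map _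
  have hded : IsDedekindDomain (Aff CE.P) := isDedekind hn CE hsE
  obtain ⟨f, hf, hfc, hfx, hfy, hfu⟩ := gen_E hn hg hC hi₀
  obtain ⟨g, hg1, hg2⟩ := fm_step (R := k₀[X][X]) (fm_frc_of_frac k₀[X][X]) hf
  have hgC : (eval₂RingHom g (f X)).comp Polynomial.C = g := by
    ext z; simp
  set f₁ : k₀ →+* E := f.comp (Polynomial.C.comp (Polynomial.C.comp Polynomial.C)) with hf₁
  set y₁ : E := i₀ C.gy with hy₁
  have hy0 : y₁ ≠ 0 := by
    rw [← hfy]
    refine (map_ne_zero_iff f hf.inj).2 ?_
    rw [Ne, Polynomial.C_eq_zero]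
    exact X_ne_zero
  have hirr' : ∀ s, Irreducible ((h s).map f₁) := by
    intro s
    have h1 := irreducible_map_of_frac2 (fm_frc_of_frac k₀[X][X]) (hirr s)
    have h2 := irreducible_map_of_frac hg2 h1
    rw [hgC, Polynomial.map_map, ← RingHom.comp_assoc, hg1] at h2
    exact h2
  refine ⟨fun s => Polynomial.C (y₁ ^ (h s).natDegree) *
    ((h s).map f₁).comp (Polynomial.C y₁⁻¹ * X), ?_, ?_, ?_, ?_⟩
  · intro s
    exact fm_scale (pow_ne_zero _ hy0) (inv_ne_zero hy0) (hirr' s)
  · rw [Finset.prod_mul_distrib, ← Polynomial.prod_comp, ← Polynomial.map_prod, hprod]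
    have hdeg : ∑ s, (h s).natDegree = a := by
      rw [← natDegree_prod _ _ (fun s _ => (hirr s).ne_zero), hprod]
      exact natDegree_X_pow_sub_C (n := a) (r := (1 : k₀))
    have h1 : ∏ s, (Polynomial.C (y₁ ^ (h s).natDegree) : E[X]) = Polynomial.C (y₁ ^ a) := by
      rw [← map_prod, Finset.prod_pow_eq_pow_sum, hdeg]
    rw [h1, fib_eq hC hCE (f := f₁) (fun c => hfc c)]
    have h4 : (Polynomial.C (y₁ ^ a) * Polynomial.C (y₁⁻¹ ^ a) : E[X]) = 1 := by
      rw [← Polynomial.C_mul, ← mul_pow, mul_inv_cancel₀ hy0, one_pow, Polynomial.C_1]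
    have h5 : ((X ^ a - 1 : k₀[X]).map f₁).comp (Polynomial.C y₁⁻¹ * X) =
        Polynomial.C (y₁⁻¹ ^ a) * X ^ a - 1 := by
      rw [Polynomial.map_sub, Polynomial.map_pow, Polynomial.map_X, Polynomial.map_one,
        Polynomial.sub_comp, Polynomial.X_pow_comp, Polynomial.one_comp, mul_pow, Polynomial.C_pow]
    rw [h5, mul_sub, ← mul_assoc, h4, one_mul, mul_one]
    simp only [mapP, Polynomial.map_sub, Polynomial.map_pow, Polynomial.map_X, Polynomial.map_C,
      eval₂_sub, eval₂_X_pow, eval₂_C, coe_mapRingHom, coe_evalRingHom, coe_eval₂RingHom,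
      Polynomial.eval_map, Polynomial.C_sub]
    rw [← hy₁]
    ring
  · intro I hI
    exact twopt hn hg hC hi₀ hCE I hI
  · intro L _ m q n hq hdvd
    have hchar : CharZero L := charZero_of_injective_ringHom
      (m.comp (i₀.comp (C.cc.comp φ))).injective
    have hm0 : m y₁ ≠ 0 := (map_ne_zero m).2 hy0
    refine cyc_indep (h := fun s => (h s).map (m.comp f₁)) hn.ha hn.hb hn.co ?_ ?_ hm0 hq ?_
    · intro s
      rw [natDegree_map]
      exact (hirr s).natDegree_pos
    · rw [← Polynomial.map_prod, hprod]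
      simp
    · intro s
      have h1 := hdvd s
      rw [Polynomial.map_mul, Polynomial.map_comp, Polynomial.map_mul, Polynomial.map_map,
        Polynomial.map_C, Polynomial.map_C, Polynomial.map_X, map_inv₀] at h1
      exact dvd_of_mul_left_dvd h1

end Pool.Agent.CAB
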