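import Mathlib

/-!
# Class groups of Dedekind domains: homomorphisms out of them, extension of ideals
-/

namespace Pool.Agent.CAB

variable {R R' : Type*} [CommRing R] [IsDedekindDomain R] [CommRing R'] [IsDedekindDomain R']

/-- The class of a nonzero ideal. -/
noncomputable def cl (I : Ideal R) (hI : I ≠ ⊥) : ClassGroup R :=
  ClassGroup.mk0 ⟨I, mem_nonZeroDivisors_iff_ne_zero.2 hI⟩

theorem exists_cl (c : ClassGroup R) : ∃ (I : Ideal R) (hI : I ≠ ⊥), cl I hI = c := by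
  obtain ⟨I, rfl⟩ := ClassGroup.mk0_surjective c
  exact ⟨I.1, mem_nonZeroDivisors_iff_ne_zero.1 I.2, rfl⟩

theorem cl_mul {I J : Ideal R} (hI : I ≠ ⊥) (hJ : J ≠ ⊥) (hIJ : I * J ≠ ⊥) :
    cl (I * J) hIJ = cl I hI * cl J hJ := by
  unfold cl
  rw [← map_mul]
  rfl

theorem cl_eq_iff {I J : Ideal R} (hI : I ≠ ⊥) (hJ : J ≠ ⊥) :
    cl I hI = cl J hJ ↔ ∃ x y : R, x ≠ 0 ∧ y ≠ 0 ∧ Ideal.span {x} * I = Ideal.span {y} * J := by
  unfold cl
  rw [ClassGroup.mk0_eq_mk0_iff]
  constructor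
  · rintro ⟨x, y, hx, hy, h⟩
    exact ⟨x, y, hx, hy, h⟩
  · rintro ⟨x, y, hx, hy, h⟩
    exact ⟨x, y, hx, hy, h⟩

theorem cl_eq_one_iff {I : Ideal R} (hI : I ≠ ⊥) : cl I hI = 1 ↔ ∃ x : R, I = Ideal.span {x} := by
  unfold cl
  rw [ClassGroup.mk0_eq_one_iff]
  constructor
  · rintro ⟨x, hx⟩
    exact ⟨x, hx⟩
  · rintro ⟨x, hx⟩
    exact ⟨x, hx⟩

theorem cl_congr {I J : Ideal R} (hI : I ≠ ⊥) (h : I = J) : cl I hI = cl J (h ▸ hI) := by
  subst h
  rfl

/-- The class of a finite product. -/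
theorem cl_prod {ι : Type*} (s : Finset ι) (I : ι → Ideal R) (hI : ∀ i, I i ≠ ⊥)
    (h : ∏ i ∈ s, I i ≠ ⊥) : cl (∏ i ∈ s, I i) h = ∏ i ∈ s, cl (I i) (hI i) := by
  classical
  induction s using Finset.induction_on with
  | empty =>
    have e : (∏ i ∈ ∅, cl (I i) (hI i)) = 1 := Finset.prod_empty
    rw [e, cl_eq_one_iff]
    refine ⟨1, ?_⟩
    rw [Finset.prod_empty, Ideal.span_singleton_one, Ideal.one_eq_top]
  | insert i s hi ih =>
    have h1 : ∏ j ∈ s, I j ≠ ⊥ := by
      intro h0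
      apply h
      rw [Finset.prod_insert hi, h0, ← Ideal.zero_eq_bot, mul_zero]
    have h2 : I i * ∏ j ∈ s, I j ≠ ⊥ := by
      rw [← Finset.prod_insert hi]
      exact h
    have e : (∏ j ∈ insert i s, cl (I j) (hI j)) = cl (I i) (hI i) * ∏ j ∈ s, cl (I j) (hI j) :=
      Finset.prod_insert hi
    rw [e, ← ih h1, ← cl_mul (hI i) h1 h2]
    exact cl_congr h (Finset.prod_insert hi)

/-- Homomorphisms out of the class group: a multiplicative function on nonzero ideals that is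
trivial on principal ideals. Proof: define `F c = f I` for some ideal `I` in the class (`Quot`
choice through `exists_cl`); well defined by `cl_eq_iff`. -/
theorem exists_hom {G : Type*} [CommGroup G] (f : Ideal R → G)
    (hmul : ∀ I J, I ≠ ⊥ → J ≠ ⊥ → f (I * J) = f I * f J)
    (hprin : ∀ x : R, x ≠ 0 → f (Ideal.span {x}) = 1) :
    ∃ F : ClassGroup R →* G, ∀ (I : Ideal R) (hI : I ≠ ⊥), F (cl I hI) = f I := by
  have hwd : ∀ (I J : Ideal R) (hI : I ≠ ⊥) (hJ : J ≠ ⊥), cl I hI = cl J hJ → f I = f J := by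
    intro I J hI hJ h
    obtain ⟨x, y, hx, hy, hxy⟩ := (cl_eq_iff hI hJ).1 h
    have hx' : Ideal.span {x} ≠ (⊥ : Ideal R) := by
      rw [Ne, Ideal.span_singleton_eq_bot]
      exact hx
    have hy' : Ideal.span {y} ≠ (⊥ : Ideal R) := by
      rw [Ne, Ideal.span_singleton_eq_bot]
      exact hy
    have e1 := hmul _ _ hx' hI
    have e2 := hmul _ _ hy' hJ
    rw [hprin x hx, one_mul] at e1
    rw [hprin y hy, one_mul] at e2
    rw [← e1, ← e2, hxy]
  let g : ClassGroup R → G := fun c => f (exists_cl c).choose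
  have hg : ∀ (I : Ideal R) (hI : I ≠ ⊥), g (cl I hI) = f I := by
    intro I hI
    obtain ⟨h1, h2⟩ := (exists_cl (cl I hI)).choose_spec
    exact hwd _ _ h1 hI h2
  refine ⟨MonoidHom.mk' g ?_, hg⟩
  intro c d
  obtain ⟨I, hI, rfl⟩ := exists_cl c
  obtain ⟨J, hJ, rfl⟩ := exists_cl d
  have hIJ : I * J ≠ ⊥ := by
    rw [← Ideal.zero_eq_bot] at hI hJ ⊢
    exact mul_ne_zero hI hJ
  rw [← cl_mul hI hJ hIJ, hg, hg, hg, hmul I J hI hJ]

theorem map_ne_bot {f : R →+* R'} (hf : Function.Injective f) {I : Ideal R} (hI : I ≠ ⊥) :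
    I.map f ≠ ⊥ := by
  rw [Ne, Ideal.map_eq_bot_iff_of_injective hf]
  exact hI

open Classical in
theorem extCl_mul (f : R →+* R') (hf : Function.Injective f) (I J : Ideal R) (hI : I ≠ ⊥)
    (hJ : J ≠ ⊥) : (if h : (I * J).map f = ⊥ then (1 : ClassGroup R') else cl ((I * J).map f) h) =
      (if h : I.map f = ⊥ then 1 else cl (I.map f) h) *
        (if h : J.map f = ⊥ then 1 else cl (J.map f) h) := by
  have hIJ : I * J ≠ ⊥ := by
    rw [← Ideal.zero_eq_bot] at hI hJ ⊢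
    exact mul_ne_zero hI hJ
  have h1 := map_ne_bot hf hI
  have h2 := map_ne_bot hf hJ
  have h3 := map_ne_bot hf hIJ
  have h4 : I.map f * J.map f ≠ ⊥ := by
    rw [← Ideal.map_mul]
    exact h3
  rw [dif_neg h1, dif_neg h2, dif_neg h3, ← cl_mul h1 h2 h4]
  exact cl_congr h3 (Ideal.map_mul f I J)

open Classical in
theorem extCl_prin (f : R →+* R') (hf : Function.Injective f) (x : R) (hx : x ≠ 0) :
    (if h : (Ideal.span {x}).map f = ⊥ then (1 : ClassGroup R')
      else cl ((Ideal.span {x}).map f) h) = 1 := by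
  have hx' : Ideal.span {x} ≠ (⊥ : Ideal R) := by
    rw [Ne, Ideal.span_singleton_eq_bot]
    exact hx
  rw [dif_neg (map_ne_bot hf hx'), cl_eq_one_iff]
  exact ⟨f x, by rw [Ideal.map_span, Set.image_singleton]⟩

open Classical in
/-- Extension of ideal classes along an injective homomorphism. -/
noncomputable def extCl (f : R →+* R') (hf : Function.Injective f) :
    ClassGroup R →* ClassGroup R' :=
  (exists_hom (R := R) (G := ClassGroup R')
    (fun I => if h : I.map f = ⊥ then 1 else cl (I.map f) h) (extCl_mul f hf)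
    (extCl_prin f hf)).choose

theorem extCl_cl {f : R →+* R'} (hf : Function.Injective f) {I : Ideal R} (hI : I ≠ ⊥) :
    extCl f hf (cl I hI) = cl (I.map f) (map_ne_bot hf hI) := by
  classical
  have h := (exists_hom (R := R) (G := ClassGroup R')
    (fun I => if h : I.map f = ⊥ then 1 else cl (I.map f) h) (extCl_mul f hf)
    (extCl_prin f hf)).choose_spec I hI
  simp only [dif_neg (map_ne_bot hf hI)] at h
  exact h

theorem extCl_extCl {R'' : Type*} [CommRing R''] [IsDedekindDomain R''] {f : R →+* R'}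
    {g : R' →+* R''} (hf : Function.Injective f) (hg : Function.Injective g)
    (hgf : Function.Injective (g.comp f)) (c : ClassGroup R) :
    extCl g hg (extCl f hf c) = extCl (g.comp f) hgf c := by
  obtain ⟨I, hI, rfl⟩ := exists_cl c
  rw [extCl_cl, extCl_cl, extCl_cl]
  exact cl_congr _ (Ideal.map_map f g)

/-- **Nagata.** Let `R` be a Dedekind domain, `s ≠ 0`, and suppose that every ideal becomes
principal after inverting `s`: for every nonzero ideal `I` there are `x ∈ I` and `N` with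
`s ^ N * I ⊆ (x)`. Then every class is a product of classes of prime ideals containing `s` and
of their inverses. Proof: `(x) = I * J` with `s ^ N ∈ J` (as `s ^ N I ⊆ I J`), so every prime
factor of `J` contains `s`, and `cl I = (cl J)⁻¹`. -/
theorem nagata {s : R} (hs : s ≠ 0)
    (h : ∀ I : Ideal R, I ≠ ⊥ → ∃ x ∈ I, x ≠ 0 ∧ ∃ N : ℕ, ∀ z ∈ I, s ^ N * z ∈ Ideal.span {x}) :
    Subgroup.closure {c : ClassGroup R | ∃ (p : Ideal R) (hp : p ≠ ⊥), p.IsPrime ∧ s ∈ p ∧
      c = cl p hp} = ⊤ := by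
  set H := Subgroup.closure {c : ClassGroup R | ∃ (p : Ideal R) (hp : p ≠ ⊥), p.IsPrime ∧ s ∈ p ∧
      c = cl p hp} with hH
  have key : ∀ J : Ideal R, ∀ hJ : J ≠ ⊥, (∃ N : ℕ, s ^ N ∈ J) → cl J hJ ∈ H := by
    intro J
    induction J using UniqueFactorizationMonoid.induction_on_prime with
    | h₁ =>
      intro hJ
      exact absurd rfl hJ
    | h₂ J hJu =>
      intro hJ _
      have h1 : J = 1 := by
        rw [Ideal.one_eq_top]
        exact Ideal.isUnit_iff.1 hJu
      have h2 : cl J hJ = 1 := by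
        rw [cl_eq_one_iff]
        exact ⟨1, by rw [h1, Ideal.span_singleton_one, Ideal.one_eq_top]⟩
      rw [h2]
      exact H.one_mem
    | h₃ J p hJ0 hp ih =>
      intro hJ hN
      obtain ⟨N, hN⟩ := hN
      have hJ' : J ≠ ⊥ := hJ0
      have hp' : p ≠ ⊥ := hp.ne_zero
      have hpp : p.IsPrime := Ideal.isPrime_of_prime hp
      have hle1 : p * J ≤ p := Ideal.mul_le_left
      have hle2 : p * J ≤ J := Ideal.mul_le_right
      have hsp : s ∈ p := hpp.mem_of_pow_mem N (hle1 hN)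
      have hsJ : s ^ N ∈ J := hle2 hN
      have hm1 : cl p hp' ∈ H := Subgroup.subset_closure ⟨p, hp', hpp, hsp, rfl⟩
      have hm2 : cl J hJ' ∈ H := ih hJ' ⟨N, hsJ⟩
      rw [cl_mul hp' hJ' hJ]
      exact H.mul_mem hm1 hm2
  rw [eq_top_iff]
  intro c _
  obtain ⟨I, hI, rfl⟩ := exists_cl c
  obtain ⟨x, hxI, hx0, N, hN⟩ := h I hI
  have hdvd : I ∣ Ideal.span {x} := by
    rw [Ideal.dvd_iff_le, Ideal.span_singleton_le_iff_mem]
    exact hxI
  obtain ⟨J, hJ⟩ := hdvd
  have hx' : Ideal.span {x} ≠ (⊥ : Ideal R) := by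
    rw [Ne, Ideal.span_singleton_eq_bot]
    exact hx0
  have hJ0 : J ≠ ⊥ := by
    intro h0
    apply hx'
    rw [hJ, h0, ← Ideal.zero_eq_bot, mul_zero]
  have hIJ : I * J ≠ ⊥ := by
    rw [← hJ]
    exact hx'
  have hsJ : s ^ N ∈ J := by
    have h1 : I * J ∣ I * Ideal.span {s ^ N} := by
      rw [Ideal.dvd_iff_le, ← hJ, mul_comm, Ideal.span_singleton_mul_le_iff]
      exact hN
    have h2 : J ∣ Ideal.span {s ^ N} := by
      have hI' : I ≠ 0 := hI
      exact (mul_dvd_mul_iff_left hI').1 h1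
    rw [Ideal.dvd_iff_le, Ideal.span_singleton_le_iff_mem] at h2
    exact h2
  have h1 : cl I hI * cl J hJ0 = 1 := by
    rw [← cl_mul hI hJ0 hIJ, cl_eq_one_iff]
    exact ⟨x, hJ.symm⟩
  rw [eq_inv_of_mul_eq_one_left h1]
  exact H.inv_mem (key J hJ0 ⟨N, hsJ⟩)

end Pool.Agent.CAB
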