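import Pool.Agent.CAB.Laurent

/-!
# `C_ab` polynomials, smoothness, expansions at infinity: definitions
-/

namespace Pool.Agent.CAB

open Polynomial

variable {S T U : Type*} [CommRing S] [CommRing T] [CommRing U]

/-- `P(x, y) = y ^ a - x ^ b + ∑ c_ij x ^ i y ^ j` with `a i + b j < a b`; the outer variable is
`y`. -/
structure IsCab (a b : ℕ) (P : S[X][X]) : Prop where
  monic : P.Monic
  deg : P.natDegree = a
  lead : (P.coeff 0).coeff b = -1
  wt : ∀ i j, j < a → (i, j) ≠ (b, 0) → (P.coeff j).coeff i ≠ 0 → a * i + b * j < a * b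

/-- The derivative with respect to the inner variable `x`. -/
noncomputable def dX (P : S[X][X]) : S[X][X] := P.sum fun j c => monomial j (derivative c)

/-- The affine curve `P = 0` is smooth over `S`. -/
def Smooth (P : S[X][X]) : Prop :=
  ∃ u v w : S[X][X], u * P + v * derivative P + w * dX P = 1

/-- Base change of a polynomial in two variables. -/
noncomputable abbrev mapP (φ : S →+* T) (P : S[X][X]) : T[X][X] := P.map (mapRingHom φ)

/-- The affine coordinate ring `S[x, y] / P`. -/
abbrev Aff (P : S[X][X]) : Type _ := AdjoinRoot P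

/-- A `C_ab` curve together with an expansion of `x` and `y` at infinity. -/
structure Crv (a b : ℕ) (S : Type*) [CommRing S] where
  P : S[X][X]
  x : LaurentSeries S
  y : LaurentSeries S
  cab : IsCab a b P
  x_lead : LeadOne (-(a : ℤ)) x
  y_lead : LeadOne (-(b : ℤ)) y
  root : P.eval₂ (eval₂RingHom HahnSeries.C x) y = 0

/-- `C'` is the base change of `C` along `φ`. -/
structure Rel {a b : ℕ} (C : Crv a b S) (C' : Crv a b T) (φ : S →+* T) : Prop where
  P : C'.P = mapP φ C.P
  x : C'.x = lmap φ C.x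
  y : C'.y = lmap φ C.y

variable {a b : ℕ}

lemma mapP_mapP (φ : S →+* T) (ψ : T →+* U) (P : S[X][X]) :
    mapP ψ (mapP φ P) = mapP (ψ.comp φ) P := by
  ext i j
  simp [mapP]

lemma IsCab.map [Nontrivial T] {P : S[X][X]} (h : IsCab a b P) (φ : S →+* T) :
    IsCab a b (mapP φ P) where
  monic := h.monic.map _
  deg := by rw [mapP, h.monic.natDegree_map, h.deg]
  lead := by
    simp [mapP, h.lead]
  wt := fun i j hj hij hne => h.wt i j hj hij fun h0 => hne (by simp [mapP, h0])

lemma coeff_dX (P : S[X][X]) (j : ℕ) : (dX P).coeff j = derivative (P.coeff j) := by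
  unfold dX
  rw [Polynomial.sum_def, finsetSum_coeff]
  simp only [coeff_monomial]
  rw [Finset.sum_ite_eq']
  split_ifs with h
  · rfl
  · rw [notMem_support_iff.1 h, derivative_zero]

lemma mapP_dX (φ : S →+* T) (P : S[X][X]) : mapP φ (dX P) = dX (mapP φ P) := by
  ext j : 1
  rw [coeff_dX, mapP, mapP, Polynomial.coeff_map, Polynomial.coeff_map, coeff_dX,
    coe_mapRingHom, derivative_map]

lemma Smooth.map {P : S[X][X]} (h : Smooth P) (φ : S →+* T) : Smooth (mapP φ P) := by
  obtain ⟨u, v, w, h⟩ := h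
  refine ⟨mapP φ u, mapP φ v, mapP φ w, ?_⟩
  have h2 := congrArg (mapP φ) h
  rw [← mapP_dX]
  simpa [mapP, derivative_map] using h2

lemma Rel.trans {C : Crv a b S} {C' : Crv a b T} {C'' : Crv a b U} {φ : S →+* T} {ψ : T →+* U}
    (h : Rel C C' φ) (h' : Rel C' C'' ψ) : Rel C C'' (ψ.comp φ) where
  P := by rw [h'.P, h.P, mapP_mapP]
  x := by rw [h'.x, h.x, lmap_lmap]
  y := by rw [h'.y, h.y, lmap_lmap]

/-- If `C → C''` and `C → C'` are base changes along `ψ φ` and `φ`, then `C' → C''` is the base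
change along `ψ`. -/
lemma Rel.of_comp {C : Crv a b S} {C' : Crv a b T} {C'' : Crv a b U} {φ : S →+* T} {ψ : T →+* U}
    (h : Rel C C' φ) (h' : Rel C C'' (ψ.comp φ)) : Rel C' C'' ψ where
  P := by rw [h'.P, h.P, mapP_mapP]
  x := by rw [h'.x, h.x, lmap_lmap]
  y := by rw [h'.y, h.y, lmap_lmap]

/-- Base change of a curve with expansion. -/
noncomputable def Crv.map [Nontrivial T] (C : Crv a b S) (φ : S →+* T) : Crv a b T where
  P := mapP φ C.P
  x := lmap φ C.x
  y := lmap φ C.y
  cab := C.cab.map φ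
  x_lead := C.x_lead.lmap φ
  y_lead := C.y_lead.lmap φ
  root := by
    have h := congrArg (lmap φ) C.root
    rw [map_zero, Polynomial.hom_eval₂] at h
    rw [mapP, Polynomial.eval₂_map, ← h]
    congr 1
    ext n
    · simp
    · simp

lemma Crv.rel_map [Nontrivial T] (C : Crv a b S) (φ : S →+* T) : Rel C (C.map φ) φ :=
  ⟨rfl, rfl, rfl⟩

/-- the correction polynomial in `ω` -/
noncomputable def cabQ (a b I J : ℕ) (L : S[X][X]) : (PowerSeries S)[X] :=
  ∑ p ∈ L.support.sigma (fun j => (L.coeff j).support),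
    C (PowerSeries.C ((L.coeff p.1).coeff p.2) * PowerSeries.X ^ (a * b - (a * p.2 + b * p.1))) *
      X ^ (J * p.2 + I * p.1)

lemma cab_sum_mem {R ι : Type*} [CommRing R] (s : Finset ι) (α : ι → R) (k : ι → ℕ) (K : Ideal R)
    (h : ∀ i ∈ s, α i ∈ K) (z : R) : (∑ i ∈ s, C (α i) * X ^ (k i)).eval z ∈ K ∧
      (derivative (∑ i ∈ s, C (α i) * X ^ (k i))).eval z ∈ K := by
  constructor
  · rw [eval_finsetSum]
    refine K.sum_mem fun i hi => ?_
    rw [eval_mul, eval_C]
    exact K.mul_mem_right _ (h i hi)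
  · rw [derivative_sum, eval_finsetSum]
    refine K.sum_mem fun i hi => ?_
    rw [derivative_C_mul, eval_mul, eval_C]
    exact K.mul_mem_right _ (h i hi)

lemma cab_ineq {a b I J i j : ℕ} (hab : a * I = b * J + 1)
    (h : a * i + b * j < a * b) : J * i + I * j < a * I := by
  have hb : 0 < b := by
    rcases Nat.eq_zero_or_pos b with h0 | h0
    · rw [h0, mul_zero] at h
      exact absurd h (Nat.not_lt_zero _)
    · exact h0
  have hj : j < a := by
    have : b * j < b * a := by
      rw [mul_comm b a]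
      exact lt_of_le_of_lt (Nat.le_add_left _ _) h
    exact lt_of_mul_lt_mul_left this (Nat.zero_le _)
  have e1 : a * (J * i + I * j) = J * (a * i + b * j) + j := by
    have : a * I * j = (b * J + 1) * j := by rw [hab]
    linarith [this, mul_assoc a I j, show a * (J * i + I * j) = J * (a * i) + a * I * j by ring,
      show (b * J + 1) * j = J * (b * j) + j by ring,
      show J * (a * i + b * j) = J * (a * i) + J * (b * j) by ring]
  have e2 : a * (a * I) = J * (a * b) + a := by
    rw [hab]
    ring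
  have e3 : J * (a * i + b * j) ≤ J * (a * b) := Nat.mul_le_mul_left _ h.le
  have e4 : a * (J * i + I * j) < a * (a * I) := by
    rw [e1, e2]
    omega
  exact lt_of_mul_lt_mul_left e4 (Nat.zero_le _)

lemma cabQ_degree {a b I J : ℕ} (hab : a * I = b * J + 1) {L : S[X][X]}
    (hL : ∀ i j, (L.coeff j).coeff i ≠ 0 → a * i + b * j < a * b) :
    (cabQ a b I J L).degree < ((a * I : ℕ) : WithBot ℕ) := by
  unfold cabQ
  refine (degree_sum_le _ _).trans_lt ?_
  rw [Finset.sup_lt_iff (WithBot.bot_lt_coe _)]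
  intro p hp
  rw [Finset.mem_sigma] at hp
  refine (degree_C_mul_X_pow_le _ _).trans_lt ?_
  exact_mod_cast cab_ineq hab (hL p.2 p.1 (mem_support_iff.1 hp.2))

/-- evaluation of the correction polynomial -/
lemma cabQ_eval {a b I J : ℕ} {L : S[X][X]}
    (hL : ∀ i j, (L.coeff j).coeff i ≠ 0 → a * i + b * j < a * b) (ω : PowerSeries S) :
    L.eval₂ (eval₂RingHom HahnSeries.C (HahnSeries.single (-(a : ℤ)) 1 *
      (HahnSeries.ofPowerSeries ℤ S ω) ^ J)) (HahnSeries.single (-(b : ℤ)) 1 *
      (HahnSeries.ofPowerSeries ℤ S ω) ^ I) =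
    HahnSeries.single (-((a * b : ℕ) : ℤ)) 1 *
      HahnSeries.ofPowerSeries ℤ S ((cabQ a b I J L).eval ω) := by
  unfold cabQ
  rw [eval₂_eq_sum, Polynomial.sum_def, eval_finsetSum, map_sum, Finset.mul_sum,
    Finset.sum_sigma]
  refine Finset.sum_congr rfl fun j hj => ?_
  rw [coe_eval₂RingHom, eval₂_eq_sum, Polynomial.sum_def, Finset.sum_mul]
  refine Finset.sum_congr rfl fun i hi => ?_
  have hlt := hL i j (mem_support_iff.1 hi)
  simp only [eval_mul, eval_C, eval_pow, eval_X, map_mul, map_pow, HahnSeries.ofPowerSeries_C,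
    HahnSeries.ofPowerSeries_X]
  set W := HahnSeries.ofPowerSeries ℤ S ω
  have e1 : (HahnSeries.single (-(a : ℤ)) (1 : S) : LaurentSeries S) ^ i *
      HahnSeries.single (-(b : ℤ)) (1 : S) ^ j =
      HahnSeries.single (-((a * b : ℕ) : ℤ)) 1 *
        HahnSeries.single (1 : ℤ) (1 : S) ^ (a * b - (a * i + b * j)) := by
    rw [HahnSeries.single_pow, HahnSeries.single_pow, HahnSeries.single_pow,
      HahnSeries.single_mul_single, HahnSeries.single_mul_single]
    simp only [one_pow, mul_one, nsmul_eq_mul]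
    have : (i : ℤ) * -(a : ℤ) + (j : ℤ) * -(b : ℤ) =
        -((a * b : ℕ) : ℤ) + ((a * b - (a * i + b * j) : ℕ) : ℤ) := by
      push_cast [Nat.cast_sub hlt.le]
      ring
    rw [this]
  rw [mul_pow, mul_pow, ← pow_mul, ← pow_mul, pow_add]
  calc HahnSeries.C ((L.coeff j).coeff i) * (HahnSeries.single (-(a : ℤ)) 1 ^ i * W ^ (J * i)) *
        (HahnSeries.single (-(b : ℤ)) 1 ^ j * W ^ (I * j))
      = HahnSeries.C ((L.coeff j).coeff i) * (HahnSeries.single (-(a : ℤ)) 1 ^ i *
        HahnSeries.single (-(b : ℤ)) 1 ^ j) * (W ^ (J * i) * W ^ (I * j)) := by ring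
    _ = _ := by
        rw [e1]
        ring

/-- **Existence of expansions.** With `a I = b J + 1` put `x = τ^{-a} ω^J`, `y = τ^{-b} ω^I` with
`ω ∈ 1 + τ S[[τ]]`; then `τ^{ab} P(x, y) = ω^{bJ} (ω - 1) + ∑ c_ij τ^{ab - ai - bj} ω^{Ji + Ij}`
(the last sum is divisible by `τ`), which has a root `ω ≡ 1` by Hensel's lemma
(`S[[τ]]` is `τ`-adically complete), or by constructing the coefficients recursively. -/
theorem exists_crv {I J : ℕ} (ha : 1 ≤ a) (hab : a * I = b * J + 1) {P : S[X][X]}
    (hP : IsCab a b P) : ∃ C : Crv a b S, C.P = P := by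
  have hnt : Nontrivial S := by
    by_contra hn
    rw [not_nontrivial_iff_subsingleton] at hn
    have h1 : P = 0 := Subsingleton.elim _ _
    have h2 := hP.deg
    rw [h1, natDegree_zero] at h2
    omega
  set L : S[X][X] := P - X ^ a + C (X ^ b) with hLdef
  have hLc : ∀ j, L.coeff j = P.coeff j - (if j = a then 1 else 0) +
      (if j = 0 then X ^ b else 0) := by
    intro j
    rw [hLdef, coeff_add, coeff_sub, coeff_X_pow, coeff_C]
  have hL : ∀ i j, (L.coeff j).coeff i ≠ 0 → a * i + b * j < a * b := by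
    intro i j hne
    rw [hLc j] at hne
    rcases lt_trichotomy j a with hj | hj | hj
    · rw [if_neg hj.ne, sub_zero] at hne
      by_cases hij : (i, j) = (b, 0)
      · obtain ⟨rfl, rfl⟩ := Prod.mk.inj hij
        exfalso
        apply hne
        rw [if_pos rfl, coeff_add, hP.lead, coeff_X_pow, if_pos rfl]
        ring
      · apply hP.wt i j hj hij
        intro h0
        apply hne
        rw [coeff_add, h0, zero_add]
        split_ifs with hj0
        · rw [coeff_X_pow, if_neg]
          rintro rfl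
          exact hij (by rw [hj0])
        · exact coeff_zero _
    · exfalso
      apply hne
      have h1 : P.coeff j = 1 := by
        rw [hj, ← hP.deg]
        exact hP.monic.coeff_natDegree
      have h2 : j ≠ 0 := by omega
      rw [h1, if_pos hj, if_neg h2]
      simp
    · exfalso
      apply hne
      have h1 : P.coeff j = 0 := coeff_eq_zero_of_natDegree_lt (by rw [hP.deg]; exact hj)
      have h2 : j ≠ 0 := by omega
      rw [h1, if_neg hj.ne', if_neg h2]
      simp
  set K : Ideal (PowerSeries S) := Ideal.span {PowerSeries.X} with hK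
  have hQL : (cabQ a b I J L).eval 1 ∈ K ∧ (derivative (cabQ a b I J L)).eval 1 ∈ K :=
    cab_sum_mem (L.support.sigma (fun j => (L.coeff j).support))
    (fun p => PowerSeries.C ((L.coeff p.1).coeff p.2) *
      PowerSeries.X ^ (a * b - (a * p.2 + b * p.1)))
    (fun p => J * p.2 + I * p.1) K (by
      intro p hp
      rw [Finset.mem_sigma] at hp
      have hlt := hL p.2 p.1 (mem_support_iff.1 hp.2)
      refine K.mul_mem_left _ (K.pow_mem_of_mem (Ideal.subset_span rfl) _ ?_)
      omega) 1
  have hQdeg := cabQ_degree hab hL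
  set Q : (PowerSeries S)[X] := X ^ (a * I) + (cabQ a b I J L - X ^ (b * J)) with hQ
  have hQm : Q.Monic := by
    rw [hQ]
    refine monic_X_pow_add ((degree_sub_le _ _).trans_lt (max_lt hQdeg ?_))
    refine (degree_X_pow_le _).trans_lt ?_
    exact_mod_cast (by omega : b * J < a * I)
  have hcast : ((a * I : ℕ) : PowerSeries S) = ((b * J : ℕ) : PowerSeries S) + 1 := by
    rw [hab]
    push_cast
    ring
  obtain ⟨ω, hω1, hω2⟩ := HenselianRing.is_henselian (I := K) Q hQm 1 (by
    rw [hQ, eval_add, eval_sub, eval_pow, eval_pow, eval_X, one_pow, one_pow]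
    have : (1 : PowerSeries S) + (eval 1 (cabQ a b I J L) - 1) = eval 1 (cabQ a b I J L) := by
      ring
    rw [this]
    exact hQL.1) (by
    have h3 : Q.derivative.eval 1 = 1 + (derivative (cabQ a b I J L)).eval 1 := by
      rw [hQ, derivative_add, derivative_sub, derivative_X_pow, derivative_X_pow]
      simp only [eval_add, eval_sub, eval_mul, eval_pow, eval_X, one_pow, mul_one, eval_C]
      rw [hcast]
      ring
    rw [h3, map_add, map_one, Ideal.Quotient.eq_zero_iff_mem.2 hQL.2, add_zero]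
    exact isUnit_one)
  have hω0 : PowerSeries.constantCoeff ω = 1 := by
    rw [hK, Ideal.mem_span_singleton, PowerSeries.X_dvd_iff, map_sub, map_one] at hω2
    exact sub_eq_zero.1 hω2
  set W : LaurentSeries S := HahnSeries.ofPowerSeries ℤ S ω with hW
  have hWl : LeadOne 0 W := by
    constructor
    · have := HahnSeries.ofPowerSeries_apply_coeff (Γ := ℤ) ω 0
      rw [hW]
      simpa [hω0] using this
    · intro m hm
      have := PowerSeries.coeff_coe (f := ω) m
      rw [if_pos hm] at this
      exact this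
  have hsl : ∀ n : ℤ, LeadOne n (HahnSeries.single n (1 : S) : LaurentSeries S) := by
    intro n
    refine ⟨HahnSeries.coeff_single_same _ _, fun m hm => HahnSeries.coeff_single_of_ne hm.ne⟩
  refine ⟨⟨P, HahnSeries.single (-(a : ℤ)) 1 * W ^ J, HahnSeries.single (-(b : ℤ)) 1 * W ^ I,
    hP, ?_, ?_, ?_⟩, rfl⟩
  · have := (hsl (-(a : ℤ))).mul (hWl.pow J)
    simpa using this
  · have := (hsl (-(b : ℤ))).mul (hWl.pow I)
    simpa using this
  · have hPL : P = X ^ a - C (X ^ b) + L := by rw [hLdef]; ring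
    rw [hPL, eval₂_add, eval₂_sub, eval₂_X_pow, eval₂_C, cabQ_eval hL ω]
    rw [coe_eval₂RingHom, eval₂_X_pow]
    have e1 : (HahnSeries.single (-(b : ℤ)) 1 * W ^ I) ^ a =
        HahnSeries.single (-((a * b : ℕ) : ℤ)) (1 : S) * W ^ (a * I) := by
      rw [mul_pow, ← pow_mul, HahnSeries.single_pow, mul_comm I a, one_pow, nsmul_eq_mul,
        show (a : ℤ) * -(b : ℤ) = -((a * b : ℕ) : ℤ) by push_cast; ring]
    have e2 : (HahnSeries.single (-(a : ℤ)) 1 * W ^ J) ^ b =
        HahnSeries.single (-((a * b : ℕ) : ℤ)) (1 : S) * W ^ (b * J) := by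
      rw [mul_pow, ← pow_mul, HahnSeries.single_pow, mul_comm J b, one_pow, nsmul_eq_mul,
        show (b : ℤ) * -(a : ℤ) = -((a * b : ℕ) : ℤ) by push_cast; ring]
    rw [e1, e2, ← mul_sub, ← mul_add]
    have e3 : W ^ (a * I) - W ^ (b * J) +
        HahnSeries.ofPowerSeries ℤ S (eval ω (cabQ a b I J L)) =
        HahnSeries.ofPowerSeries ℤ S (Q.eval ω) := by
      rw [hQ, eval_add, eval_sub, eval_pow, eval_pow, eval_X, map_add, map_sub, map_pow, map_pow]
      ring
    rw [e3, hω1.eq_zero, map_zero, mul_zero]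

end Pool.Agent.CAB
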