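import Pool.Agent.CAB.Laurent

/-!
# Reduced echelon forms: subspaces of `L((τ))` stable under derivations

Paper proof. Let `A` be the set of orders of nonzero elements of `V`, bounded above by `B`. For
`n ∈ A` there is exactly one `v_n ∈ V` with `v_n = τ^n + ...` whose coefficients at all other
`m ∈ A`, `m > n`, vanish (finitely many such `m`; subtract multiples of the `v_m`, descending
induction; uniqueness: a difference of two such elements has all coefficients at elements of `A`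
equal to zero, so it is `0`). Every `v ∈ V` of order `≥ n` is `∑_{m ∈ A, m ≥ n} v(m) v_m`
(the difference has vanishing coefficients at all elements of `A`). For `D ∈ Δ` the element
`D v_n ∈ V` has coefficient `D 1 = 0` at `n`, `0` at the other elements of `A`
and order `≥ n`, so it vanishes. So all coefficients of `v_n` are killed by all `D ∈ Δ`, i.e. they
lie in the image of `E`.
-/

namespace Pool.Agent.CAB

variable {E L : Type*} [Field E] [Field L]

/-- The orders of the elements of `V`. -/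
def ordSet (V : AddSubgroup (LaurentSeries L)) : Set ℤ :=
  {n | ∃ v ∈ V, OrdGe n v ∧ v.coeff n = 1}

lemma ech_coeff (c : L) (v : LaurentSeries L) (m : ℤ) :
    (HahnSeries.C c * v).coeff m = c * v.coeff m := by
  rw [HahnSeries.C_mul_eq_smul, HahnSeries.coeff_smul, smul_eq_mul]

lemma ech_zero {V : AddSubgroup (LaurentSeries L)}
    (hL : ∀ c : L, ∀ v ∈ V, HahnSeries.C c * v ∈ V) {v : LaurentSeries L} (hv : v ∈ V)
    (h : ∀ m ∈ ordSet V, v.coeff m = 0) : v = 0 := by
  by_contra h0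
  obtain ⟨n, hn1, hn2⟩ := exists_lead h0
  refine hn2 (h n ⟨HahnSeries.C (v.coeff n)⁻¹ * v, hL _ v hv, ?_, ?_⟩)
  · intro m hm
    rw [ech_coeff, hn1 m hm, mul_zero]
  · rw [ech_coeff, inv_mul_cancel₀ hn2]

lemma ech_step {V : AddSubgroup (LaurentSeries L)}
    (hL : ∀ c : L, ∀ v ∈ V, HahnSeries.C c * v ∈ V) {n : ℤ} (hn : n ∈ ordSet V) (k : ℕ) :
    ∃ w ∈ V, OrdGe n w ∧ w.coeff n = 1 ∧
      ∀ m ∈ ordSet V, n < m → m ≤ n + k → w.coeff m = 0 := by
  induction k with
  | zero =>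
    obtain ⟨v, hv, h1, h2⟩ := hn
    refine ⟨v, hv, h1, h2, fun m _ h3 h4 => ?_⟩
    exfalso
    simp at h4
    omega
  | succ k ih =>
    obtain ⟨w, hw, h1, h2, h3⟩ := ih
    by_cases hA : (n + (k + 1 : ℕ)) ∈ ordSet V
    · obtain ⟨u, hu, hu1, hu2⟩ := hA
      refine ⟨w - HahnSeries.C (w.coeff (n + (k + 1 : ℕ))) * u, V.sub_mem hw (hL _ u hu),
        ?_, ?_, ?_⟩
      · intro m hm
        rw [HahnSeries.coeff_sub, ech_coeff, h1 m hm, hu1 m (by push_cast; omega), mul_zero,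
          sub_zero]
      · rw [HahnSeries.coeff_sub, ech_coeff, h2, hu1 n (by push_cast; omega), mul_zero, sub_zero]
      · intro m hm hnm hmk
        rcases eq_or_lt_of_le hmk with rfl | hlt
        · rw [HahnSeries.coeff_sub, ech_coeff, hu2, mul_one, sub_self]
        · rw [HahnSeries.coeff_sub, ech_coeff, h3 m hm hnm (by push_cast at hlt ⊢; omega),
            hu1 m hlt, mul_zero, sub_zero]
    · refine ⟨w, hw, h1, h2, fun m hm hnm hmk => ?_⟩
      rcases eq_or_lt_of_le hmk with rfl | hlt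
      · exact absurd hm hA
      · exact h3 m hm hnm (by push_cast at hlt ⊢; omega)

lemma ech_bound {V : AddSubgroup (LaurentSeries L)} {B : ℤ}
    (hB : ∀ v ∈ V, (∀ m ≤ B, v.coeff m = 0) → v = 0) {n : ℤ} (hn : n ∈ ordSet V) : n ≤ B := by
  by_contra h
  obtain ⟨v, hv, h1, h2⟩ := hn
  have h3 := hB v hv (fun m hm => h1 m (by omega))
  rw [h3, HahnSeries.coeff_zero] at h2
  exact zero_ne_one h2

lemma ech_reduced {V : AddSubgroup (LaurentSeries L)}
    (hL : ∀ c : L, ∀ v ∈ V, HahnSeries.C c * v ∈ V) {B : ℤ}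
    (hB : ∀ v ∈ V, (∀ m ≤ B, v.coeff m = 0) → v = 0) {n : ℤ} (hn : n ∈ ordSet V) :
    ∃ w ∈ V, OrdGe n w ∧ w.coeff n = 1 ∧ ∀ m ∈ ordSet V, m ≠ n → w.coeff m = 0 := by
  obtain ⟨w, hw, h1, h2, h3⟩ := ech_step hL hn (B - n).toNat
  refine ⟨w, hw, h1, h2, fun m hm hmn => ?_⟩
  rcases lt_or_gt_of_ne hmn with h4 | h4
  · exact h1 m h4
  · refine h3 m hm h4 ?_
    have := ech_bound hB hm
    omega

lemma ech_lift (φ : E →+* L) {w : LaurentSeries L} (h : ∀ m, ∃ e, φ e = w.coeff m) :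
    ∃ w' : LaurentSeries E, lmap φ w' = w := by
  choose e he using h
  refine ⟨⟨e, w.isPWO_support.mono ?_⟩, ?_⟩
  · intro m hm
    rw [Function.mem_support] at hm
    rw [HahnSeries.mem_support, ← he m]
    exact (map_ne_zero φ).2 hm
  · ext m
    exact he m

theorem echelon (φ : E →+* L) (Δ : Set (Der L))
    (hcst : ∀ c : L, (∀ D ∈ Δ, D c = 0) → ∃ e, φ e = c) (V : AddSubgroup (LaurentSeries L))
    (hL : ∀ c : L, ∀ v ∈ V, HahnSeries.C c * v ∈ V) (hD : ∀ D ∈ Δ, ∀ v ∈ V, lder D v ∈ V)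
    (B : ℤ) (hB : ∀ v ∈ V, (∀ m ≤ B, v.coeff m = 0) → v = 0) {v : LaurentSeries L} (hv : v ∈ V) :
    ∃ (n : ℕ) (c : Fin n → L) (w : Fin n → LaurentSeries E), (∀ s, lmap φ (w s) ∈ V) ∧
      v = ∑ s, HahnSeries.C (c s) * lmap φ (w s) := by
  classical
  have h1 : ∀ n : ordSet V, ∃ w : LaurentSeries E, lmap φ w ∈ V ∧ OrdGe n.1 (lmap φ w) ∧
      (lmap φ w).coeff n.1 = 1 ∧ ∀ m ∈ ordSet V, m ≠ n.1 → (lmap φ w).coeff m = 0 := by
    rintro ⟨n, hn⟩
    obtain ⟨w, hw, h1, h2, h3⟩ := ech_reduced hL hB hn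
    have h4 : ∀ D ∈ Δ, lder D w = 0 := by
      intro D hDΔ
      apply ech_zero hL (hD D hDΔ w hw)
      intro m hm
      rw [coeff_lder]
      by_cases hmn : m = n
      · rw [hmn, h2, D.map_one]
      · rw [h3 m hm hmn, map_zero]
    obtain ⟨w', rfl⟩ := ech_lift φ (w := w) (fun m => hcst _ (fun D hDΔ => by
      rw [← coeff_lder, h4 D hDΔ, HahnSeries.coeff_zero]))
    exact ⟨w', hw, h1, h2, h3⟩
  choose w hw1 hw2 hw3 hw4 using h1
  obtain ⟨n₀, hn₀⟩ := exists_ordGe v
  let S : Finset (ordSet V) := (Finset.Icc n₀ B).subtype (· ∈ ordSet V)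
  have hS : ∀ m : ordSet V, m ∈ S ↔ n₀ ≤ m.1 := by
    intro m
    simp only [S, Finset.mem_subtype, Finset.mem_Icc]
    exact ⟨fun h => h.1, fun h => ⟨h, ech_bound hB m.2⟩⟩
  have hsum : v = ∑ m ∈ S, HahnSeries.C (v.coeff m.1) * lmap φ (w m) := by
    rw [← sub_eq_zero]
    apply ech_zero hL
    · exact V.sub_mem hv (V.sum_mem (fun m _ => hL _ _ (hw1 m)))
    · intro k hk
      rw [HahnSeries.coeff_sub, HahnSeries.coeff_sum]
      simp only [ech_coeff]
      by_cases hkn : n₀ ≤ k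
      · rw [Finset.sum_eq_single (⟨k, hk⟩ : ordSet V)]
        · rw [hw3, mul_one, sub_self]
        · intro m _ hmk
          rw [hw4 m k hk (fun h => hmk (Subtype.ext h.symm)), mul_zero]
        · intro h
          exact absurd ((hS ⟨k, hk⟩).2 hkn) h
      · rw [hn₀ k (by omega), Finset.sum_eq_zero, sub_zero]
        intro m hm
        rw [hw2 m k (by have := (hS m).1 hm; omega), mul_zero]
  refine ⟨S.card, fun s => v.coeff (S.equivFin.symm s).1.1, fun s => w (S.equivFin.symm s).1,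
    fun s => hw1 _, ?_⟩
  conv_lhs => rw [hsum]
  rw [← Finset.sum_coe_sort S]
  exact (Equiv.sum_comp S.equivFin.symm
    (fun m : S => HahnSeries.C (v.coeff m.1.1) * lmap φ (w m.1))).symm

end Pool.Agent.CAB
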