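import Pool.Agent.CAB.Mlt
import Pool.Agent.CAB.Ech
import Pool.Agent.CAB.Ded

/-!
# An ideal class with vanishing derivatives is defined over the constants

Paper proof (`ker_main`). `E → L` (`φ`) is the field of constants of the set `Δ` of derivations
of `L`, `C` a curve over `E`, `C'` its base change to `L`.
Let `I ≠ 0` be an ideal of `R(L) = Aff C'.P` such that `coord = 0` for a multiplier for every
`D ∈ Δ`. By `crd_eq_zero_iff` and `Mlt.sub_rg` there is a multiplier `s_D ∈ L[[τ]]` for every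
`D ∈ Δ`. All nonzero elements of `R(L)` have order `≤ 0` (`exists_lead_ev`); choose
`0 ≠ h ∈ I` whose order `-e` is maximal. Every `z ∈ I` with `OrdGe (-e)` is `λ h`, `λ ∈ L` (subtract
`λ h` to kill the coefficient of `τ^{-e}`; maximality). For `D ∈ Δ`: `D h - s_D h ∈ I` is
`OrdGe (-e)`, so it is `λ h`. For `z ∈ I`:
`D(z / h) = (D z) / h - z (D h) / h² = (D z - s_D z - λ z) / h ∈ I / h`.
So `V = {ev z / ev h : z ∈ I}` is stable under `Δ` and `L`, contains `1`, and its nonzero elements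
have order `≤ 0`. By `echelon`, `V` is spanned by `V ∩ E((τ))`.
The set `𝔡 = {d ∈ rg C' : d V ⊆ rg C'}` contains `ev h ≠ 0`, is an `L`-space, its nonzero elements
have order `≤ 0`, and is stable under `Δ` (`D(d v) = D(d) v + d D(v)`). By `echelon` it contains
some `lmap φ f ≠ 0`, and by `exists_aff_eq` this is the expansion of some `d ∈ Aff C.P`, `d ≠ 0`.
Put `J = {z ∈ Aff C.P : lmap φ (ev z) ∈ d V}`, an ideal containing `d` (as `1 ∈ V`). Then
`(h) * J R(L) = (d) * I`: for `z ∈ J`, `z h ∈ d I` as `ev z = d (ev i / ev h)`; for `i ∈ I`,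
`i / h = ∑ λ_s v_s` with `v_s ∈ V ∩ E((τ))`, `d v_s ∈ rg C' ∩ E((τ))` is the expansion of
some `z_s ∈ J` (`exists_aff_eq`), so `d i = h ∑ λ_s z_s`.
-/

namespace Pool.Agent.CAB

variable {E L : Type*} [Field E] [Field L] {a b : ℕ}

lemma one_le_of_num (hn : Num a b) : 1 ≤ a := le_trans one_le_two hn.ha

/-- A nonzero `L`-subspace of the affine ring over `L` which is stable under `Δ` contains a
nonzero element of the affine ring over the constants. -/
theorem exists_const_mem (hn : Num a b) {φ : E →+* L} {Δ : Set (Der L)}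
    (hcst : ∀ c : L, (∀ D ∈ Δ, D c = 0) → ∃ e, φ e = c) {C : Crv a b E} {C' : Crv a b L}
    (h : Rel C C' φ) (V : AddSubgroup (Aff C'.P)) (hL : ∀ c : L, ∀ v ∈ V, C'.cc c * v ∈ V)
    (hD : ∀ D ∈ Δ, ∀ v ∈ V, ∃ w ∈ V, C'.ev w = lder D (C'.ev v)) (hV : ∃ v ∈ V, v ≠ 0) :
    ∃ w : Aff C.P, w ≠ 0 ∧ h.aff w ∈ V := by
  classical
  have ha := one_le_of_num hn
  obtain ⟨v, hv, hv0⟩ := hV
  have hev0 : C'.ev v ≠ 0 := fun h0 =>
    hv0 (C'.ev_injective hn.co ha (h0.trans (map_zero _).symm))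
  obtain ⟨n, c, w, hw, hsum⟩ := echelon φ Δ hcst (V.map (C'.ev : Aff C'.P →+ LaurentSeries L))
    (by
      rintro c _ ⟨v, hv, rfl⟩
      exact ⟨C'.cc c * v, hL c v hv, by simp⟩)
    (by
      rintro D hDΔ _ ⟨v, hv, rfl⟩
      obtain ⟨w, hw, hw'⟩ := hD D hDΔ v hv
      exact ⟨w, hw, hw'⟩) 0
    (by
      rintro _ ⟨v, hv, rfl⟩ hm
      by_contra hne
      have hv0 : v ≠ 0 := by
        rintro rfl
        exact hne (map_zero _)
      obtain ⟨m, -, -, hm'⟩ := C'.exists_lead_ev hn.co ha hv0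
      exact hm' (hm _ (by omega))) (v := C'.ev v) ⟨v, hv, rfl⟩
  have hex : ∃ s, w s ≠ 0 := by
    by_contra hcon
    push Not at hcon
    apply hev0
    rw [hsum]
    exact Finset.sum_eq_zero fun s _ => by rw [hcon s, map_zero, mul_zero]
  obtain ⟨s, hs⟩ := hex
  obtain ⟨z, hz, hz'⟩ := hw s
  obtain ⟨w', hw'⟩ := h.exists_aff_eq hn.co ha φ.injective (z := z) hz'
  refine ⟨w', ?_, by rw [hw']; exact hz⟩
  rintro rfl
  rw [map_zero] at hw'
  rw [← hw'] at hz'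
  have h1 : lmap φ (w s) = 0 := by rw [← hz']; exact map_zero _
  exact hs (lmap_injective φ.injective (h1.trans (map_zero _).symm))

/-- Coefficientwise derivations do not lower the order. -/
lemma OrdGe.lder {D : Der L} {n : ℤ} {f : LaurentSeries L} (hf : OrdGe n f) :
    OrdGe n (Pool.Agent.CAB.lder D f) := by
  intro m hm
  rw [coeff_lder, hf m hm, map_zero]

lemma OrdGe.sub {n : ℤ} {f g : LaurentSeries L} (hf : OrdGe n f) (hg : OrdGe n g) :
    OrdGe n (f - g) := by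
  intro m hm
  rw [HahnSeries.coeff_sub, hf m hm, hg m hm, sub_zero]

theorem ker_main (hn : Num a b) {φ : E →+* L} {Δ : Set (Der L)}
    (hcst : ∀ c : L, (∀ D ∈ Δ, D c = 0) → ∃ e, φ e = c)
    (hφ : ∀ D ∈ Δ, ∀ e, D (φ e) = 0) {C : Crv a b E} {C' : Crv a b L} (h : Rel C C' φ)
    [IsDedekindDomain (Aff C.P)] [IsDedekindDomain (Aff C'.P)]
    (hinj : Function.Injective h.aff) {I : Ideal (Aff C'.P)} (hI : I ≠ ⊥)
    (hθ : ∀ D ∈ Δ, ∃ F, Mlt D C' I F ∧ C'.crd hn F = 0) :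
    ∃ c : ClassGroup (Aff C.P), cl I hI = extCl h.aff hinj c := by
  classical
  have ha := one_le_of_num hn
  have hevinj := C'.ev_injective hn.co ha
  have hev0 : ∀ z, C'.ev z = 0 → z = 0 := fun z hz => hevinj (hz.trans (map_zero _).symm)
  -- the constants of the equation
  have hcstC : ∀ D ∈ Δ, Cst D C' := by
    intro D hD
    constructor
    · ext n
      rw [coeff_lder, h.x, coeff_lmap, hφ D hD]
      rfl
    · ext n
      rw [coeff_lder, h.y, coeff_lmap, hφ D hD]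
      rfl
  -- integral multipliers
  have hmlt : ∀ D ∈ Δ, ∃ s ∈ nonneg L, Mlt D C' I s := by
    intro D hD
    obtain ⟨F, hF, hF0⟩ := hθ D hD
    obtain ⟨r, hr, s, hs, rfl⟩ := (C'.crd_eq_zero_iff hn).1 hF0
    refine ⟨s, hs, ?_⟩
    have := hF.sub_rg hr
    rwa [add_sub_cancel_left] at this
  -- an element of maximal order
  obtain ⟨z₀, hz₀, hz₀0⟩ := Submodule.exists_mem_ne_zero_of_ne_bot hI
  have hex : ∃ m : ℕ, ∃ z ∈ I, z ≠ 0 ∧ OrdGe (-(m : ℤ)) (C'.ev z) := by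
    obtain ⟨m, -, hm, -⟩ := C'.exists_lead_ev hn.co ha hz₀0
    exact ⟨m, z₀, hz₀, hz₀0, hm⟩
  obtain ⟨g, hg, hg0, hgord⟩ := Nat.find_spec hex
  set e := Nat.find hex with he
  have hmin : ∀ z ∈ I, z ≠ 0 → ∀ m : ℕ, OrdGe (-(m : ℤ)) (C'.ev z) → e ≤ m :=
    fun z hz hz0 m hm => Nat.find_min' hex ⟨z, hz, hz0, hm⟩
  have hsmall : ∀ z ∈ I, OrdGe (-(e : ℤ) + 1) (C'.ev z) → z = 0 := by
    intro z hz hord
    by_contra hz0
    obtain ⟨m, -, hm, hm'⟩ := C'.exists_lead_ev hn.co ha hz0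
    have h1 := hmin z hz hz0 m hm
    exact hm' (hord _ (by omega))
  set G := C'.ev g with hG
  have hG0 : G ≠ 0 := fun h0 => hg0 (hev0 g h0)
  have hGe : G.coeff (-(e : ℤ)) ≠ 0 := by
    intro h0
    refine hg0 (hsmall g hg fun m hm => ?_)
    rcases lt_or_eq_of_le (show m ≤ -(e : ℤ) by omega) with h1 | h1
    · exact hgord m h1
    · rw [h1]; exact h0
  have hline : ∀ z ∈ I, OrdGe (-(e : ℤ)) (C'.ev z) → ∃ c : L, z = C'.cc c * g := by
    intro z hz hord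
    refine ⟨(C'.ev z).coeff (-(e : ℤ)) / G.coeff (-(e : ℤ)), ?_⟩
    rw [← sub_eq_zero]
    refine hsmall _ (I.sub_mem hz (I.mul_mem_left _ hg)) fun m hm => ?_
    rw [map_sub, map_mul, Crv.ev_cc, HahnSeries.coeff_sub, ← hG, HahnSeries.C_mul_eq_smul,
      HahnSeries.coeff_smul, smul_eq_mul]
    rcases lt_or_eq_of_le (show m ≤ -(e : ℤ) by omega) with h1 | h1
    · rw [hord m h1, hgord m h1, mul_zero, sub_zero]
    · rw [h1, div_mul_cancel₀ _ hGe, sub_self]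
  -- the space `V = I / g`
  let V : AddSubgroup (LaurentSeries L) :=
    { carrier := {f | ∃ z ∈ I, f * G = C'.ev z}
      add_mem' := by
        rintro f f' ⟨z, hz, hf⟩ ⟨z', hz', hf'⟩
        exact ⟨z + z', I.add_mem hz hz', by rw [add_mul, hf, hf', map_add]⟩
      zero_mem' := ⟨0, I.zero_mem, by rw [zero_mul, map_zero]⟩
      neg_mem' := by
        rintro f ⟨z, hz, hf⟩
        exact ⟨-z, I.neg_mem hz, by rw [neg_mul, hf, map_neg]⟩ }
  have memV : ∀ f, f ∈ V ↔ ∃ z ∈ I, f * G = C'.ev z := fun f => Iff.rfl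
  have hVL : ∀ c : L, ∀ v ∈ V, HahnSeries.C c * v ∈ V := by
    rintro c v ⟨z, hz, hv⟩
    exact ⟨C'.cc c * z, I.mul_mem_left _ hz, by rw [mul_assoc, hv, map_mul, Crv.ev_cc]⟩
  have hVR : ∀ r : Aff C'.P, ∀ v ∈ V, C'.ev r * v ∈ V := by
    rintro r v ⟨z, hz, hv⟩
    exact ⟨r * z, I.mul_mem_left _ hz, by rw [mul_assoc, hv, map_mul]⟩
  have hVD : ∀ D ∈ Δ, ∀ v ∈ V, lder D v ∈ V := by
    rintro D hD v ⟨z, hz, hv⟩
    obtain ⟨s, hs, hsM⟩ := hmlt D hD
    obtain ⟨w, hw, hw'⟩ := hsM g hg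
    have hword : OrdGe (-(e : ℤ)) (C'.ev w) := by
      rw [← hw']
      refine OrdGe.sub (OrdGe.lder hgord) ?_
      have := OrdGe.mul (nonneg_iff_ordGe.1 hs) hgord
      rwa [zero_add] at this
    obtain ⟨c, hc⟩ := hline w hw hword
    obtain ⟨w₂, hw₂, hw₂'⟩ := hsM z hz
    refine ⟨w₂ - C'.cc c * z, I.sub_mem hw₂ (I.mul_mem_left _ hz), ?_⟩
    have h1 := (lder D).leib v G
    rw [hv] at h1
    rw [hc, map_mul, Crv.ev_cc, ← hG] at hw'
    rw [map_sub, map_mul, Crv.ev_cc, ← hw₂', ← hv]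
    rw [← hv] at h1
    have h2 : lder D G = s * G + HahnSeries.C c * G := by rw [← hw']; ring
    rw [h2] at h1
    rw [h1]
    ring
  have hVB : ∀ v ∈ V, (∀ m ≤ (0 : ℤ), v.coeff m = 0) → v = 0 := by
    rintro v ⟨z, hz, hv⟩ hm
    have h1 : OrdGe 1 v := fun m hm' => hm m (by omega)
    have h2 := OrdGe.mul h1 hgord
    rw [hv, add_comm] at h2
    have h3 := hsmall z hz h2
    rw [h3, map_zero] at hv
    exact (mul_eq_zero.1 hv).resolve_right hG0
  have h1V : (1 : LaurentSeries L) ∈ V := ⟨g, hg, by rw [one_mul]⟩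
  -- denominators
  let 𝔡 : AddSubgroup (Aff C'.P) :=
    { carrier := {d | ∀ f ∈ V, ∃ w, C'.ev d * f = C'.ev w}
      add_mem' := by
        intro d d' hd hd' f hf
        obtain ⟨w, hw⟩ := hd f hf
        obtain ⟨w', hw'⟩ := hd' f hf
        exact ⟨w + w', by rw [map_add, add_mul, hw, hw', map_add]⟩
      zero_mem' := fun f _ => ⟨0, by rw [map_zero, zero_mul]⟩
      neg_mem' := by
        intro d hd f hf
        obtain ⟨w, hw⟩ := hd f hf
        exact ⟨-w, by rw [map_neg, neg_mul, hw, map_neg]⟩ }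
  have mem𝔡 : ∀ d, d ∈ 𝔡 ↔ ∀ f ∈ V, ∃ w, C'.ev d * f = C'.ev w := fun d => Iff.rfl
  obtain ⟨d, hd0, hd⟩ : ∃ w : Aff C.P, w ≠ 0 ∧ h.aff w ∈ 𝔡 := by
    refine exists_const_mem hn hcst h 𝔡 ?_ ?_ ⟨g, ?_, hg0⟩
    · intro c v hv f hf
      obtain ⟨w, hw⟩ := hv f hf
      exact ⟨C'.cc c * w, by rw [map_mul, map_mul, mul_assoc, hw]⟩
    · intro D hD v hv
      obtain ⟨w, hw⟩ := (hcstC D hD).lder_ev v
      refine ⟨w, ?_, hw⟩
      intro f hf
      obtain ⟨w₁, hw₁⟩ := hv f hf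
      obtain ⟨w₂, hw₂⟩ := hv _ (hVD D hD f hf)
      obtain ⟨w₃, hw₃⟩ := (hcstC D hD).lder_ev w₁
      refine ⟨w₃ - w₂, ?_⟩
      have h1 := (lder D).leib (C'.ev v) f
      rw [hw₁, ← hw₃, hw₂, ← hw] at h1
      rw [map_sub, h1]
      ring
    · rintro f ⟨z, hz, hf⟩
      exact ⟨z, by rw [← hG, mul_comm, hf]⟩
  -- the ideal over the constants
  let J : Ideal (Aff C.P) :=
    { carrier := {z | ∃ f ∈ V, C'.ev (h.aff z) = C'.ev (h.aff d) * f}
      add_mem' := by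
        rintro z z' ⟨f, hf, hz⟩ ⟨f', hf', hz'⟩
        exact ⟨f + f', V.add_mem hf hf', by rw [map_add, map_add, hz, hz', mul_add]⟩
      zero_mem' := ⟨0, V.zero_mem, by rw [map_zero, map_zero, mul_zero]⟩
      smul_mem' := by
        rintro r z ⟨f, hf, hz⟩
        refine ⟨C'.ev (h.aff r) * f, hVR _ f hf, ?_⟩
        rw [smul_eq_mul, map_mul, map_mul, hz]
        ring }
  have memJ : ∀ z, z ∈ J ↔ ∃ f ∈ V, C'.ev (h.aff z) = C'.ev (h.aff d) * f := fun z => Iff.rfl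
  have hdJ : d ∈ J := ⟨1, h1V, by rw [mul_one]⟩
  have hJ : J ≠ ⊥ := by
    intro h0
    rw [h0] at hdJ
    exact hd0 ((Submodule.mem_bot _).1 hdJ)
  have had0 : h.aff d ≠ 0 := fun h0 => hd0 (hinj (h0.trans (map_zero _).symm))
  refine ⟨cl J hJ, ?_⟩
  rw [extCl_cl hinj hJ, cl_eq_iff hI (map_ne_bot hinj hJ)]
  refine ⟨h.aff d, g, had0, hg0, le_antisymm ?_ ?_⟩
  · rw [Ideal.span_singleton_mul_le_span_singleton_mul]
    intro z hz
    have hf : C'.ev z / G ∈ V := ⟨z, hz, div_mul_cancel₀ _ hG0⟩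
    obtain ⟨n, c, w, hw, hsum⟩ := echelon φ Δ hcst V hVL hVD 0 hVB hf
    have hzs : ∀ s, ∃ y ∈ J, C'.ev (h.aff y) = C'.ev (h.aff d) * lmap φ (w s) := by
      intro s
      obtain ⟨w', hw'⟩ := hd _ (hw s)
      obtain ⟨y, hy⟩ := h.exists_aff_eq hn.co ha φ.injective (z := w') (f := C.ev d * w s) (by
        rw [← hw', map_mul, h.ev_aff])
      have : C'.ev (h.aff y) = C'.ev (h.aff d) * lmap φ (w s) := by rw [hy, ← hw']
      exact ⟨y, ⟨_, hw s, this⟩, this⟩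
    choose y hyJ hy using hzs
    refine ⟨∑ s, C'.cc (c s) * h.aff (y s),
      Ideal.sum_mem _ fun s _ => Ideal.mul_mem_left _ _ (Ideal.mem_map_of_mem _ (hyJ s)), ?_⟩
    apply hevinj
    rw [map_mul, map_mul, map_sum]
    have h1 : C'.ev z = (C'.ev z / G) * G := (div_mul_cancel₀ _ hG0).symm
    rw [h1, hsum, ← hG, Finset.sum_mul, Finset.mul_sum, Finset.mul_sum]
    refine Finset.sum_congr rfl fun s _ => ?_
    rw [map_mul, Crv.ev_cc, hy s]
    ring
  · rw [Ideal.span_singleton_mul_le_span_singleton_mul]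
    intro z hz
    let K : Ideal (Aff C'.P) :=
      { carrier := {t | ∃ i ∈ I, g * t = h.aff d * i}
        add_mem' := by
          rintro t t' ⟨i, hi, ht⟩ ⟨i', hi', ht'⟩
          exact ⟨i + i', I.add_mem hi hi', by rw [mul_add, mul_add, ht, ht']⟩
        zero_mem' := ⟨0, I.zero_mem, by rw [mul_zero, mul_zero]⟩
        smul_mem' := by
          rintro r t ⟨i, hi, ht⟩
          refine ⟨r * i, I.mul_mem_left _ hi, ?_⟩
          rw [smul_eq_mul, mul_left_comm, ht]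
          ring }
    have hJK : J.map h.aff ≤ K := by
      rw [Ideal.map_le_iff_le_comap]
      rintro y ⟨f, ⟨i, hi, hfi⟩, hy⟩
      refine ⟨i, hi, hevinj ?_⟩
      rw [map_mul, map_mul, hy, ← hfi]
      ring
    exact hJK hz

end Pool.Agent.CAB
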