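import Pool.Agent.CAB.DerExt
import Pool.Agent.CAB.Ker

/-!
# The constants of the lifted derivations

Paper proof. `f ∈ L` with `D f = 0` for all lifts `D` of the derivations in `Δ`. The set
`𝔡 = {d ∈ Aff C.P : i(d) f ∈ i(Aff C.P)}` is a nonzero `k`-subspace stable under the
coefficientwise derivations (`D(d f) = D(d) f`), so by `exists_const_mem` it contains
`aff d₀`, `0 ≠ d₀ ∈ Aff C₀.P`. Then `i(aff d₀) f = i(w)`, `w ∈ Aff C.P`, and `D w = 0` for all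
`δ ∈ Δ`, i.e. all coefficients of `ev w` are constants, so `w = aff w₀` (`exists_aff_eq`). So
`f = i(aff w₀) / i(aff d₀) ∈ E`.
-/

namespace Pool.Agent.CAB

variable {K₀ k E L : Type*} [Field K₀] [Field k] [Field E] [Field L] {a b : ℕ}

/-- The derivations kill the expansions. -/
theorem consts_cst {φ : K₀ →+* k} {δ : Der k} (hφ : ∀ e, δ (φ e) = 0)
    {C₀ : Crv a b K₀} {C : Crv a b k} (h : Rel C₀ C φ) : Cst δ C where
  x := by
    rw [h.x]
    ext n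
    rw [coeff_lder, coeff_lmap, hφ, HahnSeries.coeff_zero]
  y := by
    rw [h.y]
    ext n
    rw [coeff_lder, coeff_lmap, hφ, HahnSeries.coeff_zero]

theorem lift_aff (hn : Num a b) {φ : K₀ →+* k} {δ : Der k} (hφ : ∀ e, δ (φ e) = 0)
    {C₀ : Crv a b K₀} {C : Crv a b k} (h : Rel C₀ C φ) {i : Aff C.P →+* L} {D : Der L}
    (hD : Lift δ D C i) (z : Aff C₀.P) : D (i (h.aff z)) = 0 := by
  have ha : 1 ≤ a := by have := hn.ha; omega
  obtain ⟨w, hw, hw'⟩ := hD.stable hn (consts_cst hφ h) (h.aff z)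
  have h1 : C.ev w = 0 := by
    rw [hw', h.ev_aff]
    ext n
    rw [coeff_lder, coeff_lmap, hφ, HahnSeries.coeff_zero]
  have h2 : w = 0 := by
    apply C.ev_injective hn.co ha
    rw [h1, map_zero]
  rw [hw, h2, map_zero]

theorem consts_frac (hn : Num a b) {φ : K₀ →+* k} {Δ : Set (Der k)}
    (hcst : ∀ c : k, (∀ δ ∈ Δ, δ c = 0) → ∃ e, φ e = c) (hφ : ∀ δ ∈ Δ, ∀ e, δ (φ e) = 0)
    {C₀ : Crv a b K₀} {C : Crv a b k} (h : Rel C₀ C φ) {i₀ : Aff C₀.P →+* E} (hi₀ : Frc i₀)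
    {i : Aff C.P →+* L} (hi : Frc i) {m : E →+* L} (hm : ∀ z, m (i₀ z) = i (h.aff z)) {f : L}
    (hf : ∀ δ ∈ Δ, ∀ D : Der L, Lift δ D C i → D f = 0) : ∃ e, m e = f := by
  have ha : 1 ≤ a := by have := hn.ha; omega
  have hc : ∀ δ ∈ Δ, Cst δ C := fun δ hδ => consts_cst (hφ δ hδ) h
  let V : AddSubgroup (Aff C.P) :=
    { carrier := {v | ∃ w, i v * f = i w}
      zero_mem' := ⟨0, by rw [map_zero, zero_mul]⟩
      add_mem' := by
        rintro v v' ⟨w, hw⟩ ⟨w', hw'⟩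
        exact ⟨w + w', by rw [map_add, map_add, add_mul, hw, hw']⟩
      neg_mem' := by
        rintro v ⟨w, hw⟩
        exact ⟨-w, by rw [map_neg, map_neg, neg_mul, hw]⟩ }
  obtain ⟨d₀, hd₀, w, hw⟩ : ∃ w : Aff C₀.P, w ≠ 0 ∧ h.aff w ∈ V := by
    refine exists_const_mem hn hcst h V ?_ ?_ ?_
    · rintro c v ⟨w, hw⟩
      exact ⟨C.cc c * w, by rw [map_mul, map_mul, mul_assoc, hw]⟩
    · rintro δ hδ v ⟨w, hw⟩
      obtain ⟨D, hD⟩ := exists_lift hn (hc δ hδ) hi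
      obtain ⟨v', hv', hv''⟩ := hD.stable hn (hc δ hδ) v
      obtain ⟨w', hw', -⟩ := hD.stable hn (hc δ hδ) w
      refine ⟨v', ⟨w', ?_⟩, hv''⟩
      have h1 := congrArg D hw
      rw [D.leib, hf δ hδ D hD, mul_zero, zero_add, hw', hv'] at h1
      rw [mul_comm]
      exact h1
    · obtain ⟨p, q, hq, hpq⟩ := hi.frac f
      exact ⟨q, ⟨p, by rw [mul_comm]; exact hpq⟩, hq⟩
  have hd : i₀ d₀ ≠ 0 := fun h0 => hd₀ (hi₀.inj (by rw [h0, map_zero]))
  have hmd : m (i₀ d₀) ≠ 0 := (map_ne_zero m).2 hd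
  have hkill : ∀ δ ∈ Δ, lder δ (C.ev w) = 0 := by
    intro δ hδ
    obtain ⟨D, hD⟩ := exists_lift hn (hc δ hδ) hi
    obtain ⟨w', hw', hw''⟩ := hD.stable hn (hc δ hδ) w
    have h1 := congrArg D hw
    rw [D.leib, hf δ hδ D hD, mul_zero, zero_add, lift_aff hn (hφ δ hδ) h hD, mul_zero, hw'] at h1
    have h2 : w' = 0 := hi.inj (by rw [← h1, map_zero])
    rw [← hw'', h2, map_zero]
  obtain ⟨g, hg⟩ := ech_lift φ (w := C.ev w) fun n => hcst _ fun δ hδ => by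
    rw [← coeff_lder, hkill δ hδ, HahnSeries.coeff_zero]
  obtain ⟨w₀, rfl⟩ := h.exists_aff_eq hn.co ha φ.injective hg.symm
  refine ⟨i₀ w₀ / i₀ d₀, ?_⟩
  rw [map_div₀, div_eq_iff hmd, hm, hm, mul_comm]
  exact hw.symm

/-- Lifts kill the image of `E`. -/
theorem lift_const (hn : Num a b) {φ : K₀ →+* k} {δ : Der k} (hφ : ∀ e, δ (φ e) = 0)
    {C₀ : Crv a b K₀} {C : Crv a b k} (h : Rel C₀ C φ) {i₀ : Aff C₀.P →+* E} (hi₀ : Frc i₀)
    {i : Aff C.P →+* L} {m : E →+* L} (hm : ∀ z, m (i₀ z) = i (h.aff z)) {D : Der L}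
    (hD : Lift δ D C i) (e : E) : D (m e) = 0 := by
  obtain ⟨p, q, hq, hpq⟩ := hi₀.frac e
  have h0 : m (i₀ q) ≠ 0 := by
    rw [Ne, map_eq_zero]
    intro h0
    exact hq (hi₀.inj (by rw [h0, map_zero]))
  have h1 := congrArg (fun z => D (m z)) hpq
  simp only [map_mul] at h1
  rw [D.leib, hm, hm, lift_aff hn hφ h hD, lift_aff hn hφ h hD, mul_zero, zero_add, ← hm] at h1
  exact (mul_eq_zero.1 h1).resolve_left h0

end Pool.Agent.CAB
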