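import Pool.Agent.CAB.Ev

/-!
# Gap coordinates: `S((τ)) = R ⊕ ⨁_{l gap} S τ^{-l} ⊕ τ S[[τ]]`
-/

namespace Pool.Agent.CAB

open Polynomial

variable {S T U : Type*} [CommRing S] [CommRing T] [CommRing U] {a b : ℕ}

/-- The standing assumptions on the two weights. -/
structure Num (a b : ℕ) : Prop where
  co : Nat.Coprime a b
  ha : 2 ≤ a
  hb : 2 ≤ b

/-- A finite sum of gap monomials. -/
noncomputable def gsum (a b : ℕ) (γ : ℕ → S) : LaurentSeries S :=
  ∑ l ∈ gaps a b, HahnSeries.single (-(l : ℤ)) (γ l)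

namespace CoordAux

lemma cax_gsum_add (γ γ' : ℕ → S) : gsum a b (γ + γ') = gsum a b γ + gsum a b γ' := by
  unfold gsum
  rw [← Finset.sum_add_distrib]
  refine Finset.sum_congr rfl fun l _ => ?_
  rw [Pi.add_apply, HahnSeries.single_add]

lemma cax_gsum_sub (γ γ' : ℕ → S) : gsum a b (γ - γ') = gsum a b γ - gsum a b γ' := by
  rw [eq_sub_iff_add_eq, ← cax_gsum_add, sub_add_cancel]

lemma cax_gsum_zero : gsum a b (0 : ℕ → S) = 0 := by
  simp [gsum]

lemma cax_gsum_single {l : ℕ} (hl : l ∈ gaps a b) (c : S) :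
    gsum a b (Pi.single l c) = HahnSeries.single (-(l : ℤ)) c := by
  unfold gsum
  rw [Finset.sum_eq_single l]
  · rw [Pi.single_eq_same]
  · intro m _ hm
    rw [Pi.single_eq_of_ne hm, HahnSeries.single_eq_zero]
  · intro h
    exact absurd hl h

lemma cax_coeff_gsum {γ : ℕ → S} (n : ℕ) :
    (gsum a b γ).coeff (-(n : ℤ)) = if n ∈ gaps a b then γ n else 0 := by
  unfold gsum
  rw [HahnSeries.coeff_sum]
  split_ifs with h
  · rw [Finset.sum_eq_single n]
    · rw [HahnSeries.coeff_single, if_pos rfl]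
    · intro m _ hm
      rw [HahnSeries.coeff_single, if_neg]
      intro h1
      apply hm
      omega
    · intro h1
      exact absurd h h1
  · refine Finset.sum_eq_zero fun m hm => ?_
    rw [HahnSeries.coeff_single, if_neg]
    intro h1
    have h2 : m = n := by omega
    exact h (h2 ▸ hm)

lemma cax_lmap_gsum (φ : S →+* T) (γ : ℕ → S) :
    lmap φ (gsum a b γ) = gsum a b (fun l => φ (γ l)) := by
  unfold gsum
  rw [map_sum]
  refine Finset.sum_congr rfl fun l _ => ?_
  rw [lmap_single]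

lemma cax_lmap_nonneg (φ : S →+* T) {h : LaurentSeries S} (hh : h ∈ nonneg S) :
    lmap φ h ∈ nonneg T := by
  intro n hn
  rw [coeff_lmap, hh n hn, map_zero]

lemma cax_coeff_HC_mul (s : S) (f : LaurentSeries S) (n : ℤ) :
    (HahnSeries.C s * f).coeff n = s * f.coeff n := by
  rw [HahnSeries.C_mul_eq_smul, HahnSeries.coeff_smul, smul_eq_mul]

lemma cax_coeff_ev_sum (C : Crv a b S) (ha : 1 ≤ a) {c : ℕ →₀ S} (hc : ∀ n ∈ c.support, IsWt a b n)
    {n : ℕ} (hn : ∀ m ∈ c.support, m ≤ n) :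
    (C.ev (c.sum fun m s => C.cc s * C.em m)).coeff (-(n : ℤ)) = c n := by
  rw [Finsupp.sum, map_sum, HahnSeries.coeff_sum]
  by_cases hns : n ∈ c.support
  · rw [Finset.sum_eq_single n]
    · rw [map_mul, C.ev_cc, cax_coeff_HC_mul, (C.leadOne_em ha (hc n hns)).1, mul_one]
    · intro m hm hmn
      have hlt : m < n := lt_of_le_of_ne (hn m hm) hmn
      rw [map_mul, C.ev_cc, cax_coeff_HC_mul, (C.leadOne_em ha (hc m hm)).2 _ (by omega), mul_zero]
    · intro h
      exact absurd hns h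
  · rw [Finsupp.notMem_support_iff.1 hns]
    refine Finset.sum_eq_zero fun m hm => ?_
    have hne : m ≠ n := fun h => hns (h ▸ hm)
    have hlt : m < n := lt_of_le_of_ne (hn m hm) hne
    rw [map_mul, C.ev_cc, cax_coeff_HC_mul, (C.leadOne_em ha (hc m hm)).2 _ (by omega), mul_zero]

end CoordAux

open CoordAux

namespace Crv

variable (C : Crv a b S)

/-- Existence of the decomposition: if `f` is `OrdGe (-N)`, induction on `N`: subtract
`c * em N` (if `N` is a weight) or `c τ^{-N}` (if `N` is a gap), `c` the coefficient of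
`τ^{-N}`. -/
theorem exists_decomp (hn : Num a b) (f : LaurentSeries S) :
    ∃ (r : LaurentSeries S) (γ : ℕ → S) (h : LaurentSeries S), r ∈ C.rg ∧ h ∈ nonneg S ∧
      (∀ l, l ∉ gaps a b → γ l = 0) ∧ f = r + gsum a b γ + h := by
  have ha : 1 ≤ a := le_trans (by norm_num) hn.ha
  have hb : 1 ≤ b := le_trans (by norm_num) hn.hb
  have key : ∀ N : ℕ, ∀ f : LaurentSeries S, OrdGe (-(N : ℤ)) f →
      ∃ (r : LaurentSeries S) (γ : ℕ → S) (h : LaurentSeries S), r ∈ C.rg ∧ h ∈ nonneg S ∧
        (∀ l, l ∉ gaps a b → γ l = 0) ∧ f = r + gsum a b γ + h := by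
    intro N
    induction N with
    | zero =>
      intro f hf
      refine ⟨0, 0, f, zero_mem _, ?_, fun _ _ => rfl, ?_⟩
      · rw [nonneg_iff_ordGe]
        simpa using hf
      · rw [cax_gsum_zero]
        simp
    | succ N ih =>
      intro f hf
      by_cases hw : IsWt a b (N + 1)
      · have hlead := C.leadOne_em ha hw
        obtain ⟨r, γ, h, hr, hh, hγ, hfe⟩ := ih
          (f - C.ev (C.cc (f.coeff (-((N + 1 : ℕ) : ℤ))) * C.em (N + 1))) (by
            intro m hm
            rw [HahnSeries.coeff_sub, map_mul, C.ev_cc, cax_coeff_HC_mul]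
            rcases eq_or_ne m (-((N + 1 : ℕ) : ℤ)) with h1 | h1
            · rw [h1, hlead.1, mul_one, sub_self]
            · have h2 : m < -((N + 1 : ℕ) : ℤ) := by
                push_cast at h1 ⊢
                omega
              rw [hf m h2, hlead.2 m h2, mul_zero, sub_self])
        refine ⟨r + C.ev (C.cc (f.coeff (-((N + 1 : ℕ) : ℤ))) * C.em (N + 1)), γ, h,
          add_mem hr (C.mem_rg.2 ⟨_, rfl⟩), hh, hγ, ?_⟩
        linear_combination hfe
      · have hg : N + 1 ∈ gaps a b := (mem_gaps hn.co ha hb).2 hw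
        obtain ⟨r, γ, h, hr, hh, hγ, hfe⟩ := ih
          (f - HahnSeries.single (-((N + 1 : ℕ) : ℤ)) (f.coeff (-((N + 1 : ℕ) : ℤ)))) (by
            intro m hm
            rw [HahnSeries.coeff_sub, HahnSeries.coeff_single]
            split_ifs with h1
            · rw [h1, sub_self]
            · have h2 : m < -((N + 1 : ℕ) : ℤ) := by
                push_cast at h1 ⊢
                omega
              rw [hf m h2, sub_zero])
        refine ⟨r, γ + Pi.single (N + 1) (f.coeff (-((N + 1 : ℕ) : ℤ))), h, hr, hh, ?_, ?_⟩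
        · intro l hl
          have h1 : l ≠ N + 1 := by
            rintro rfl
            exact hl hg
          rw [Pi.add_apply, hγ l hl, Pi.single_eq_of_ne h1, add_zero]
        · rw [cax_gsum_add, cax_gsum_single hg]
          linear_combination hfe
  obtain ⟨n, hf⟩ := exists_ordGe f
  refine key (-n).toNat f ?_
  intro m hm
  exact hf m (by omega)

/-- Uniqueness of the gap coordinates: write `r` as a combination of monomials; the largest
weight or gap with a nonzero coefficient would be the order of the sum. -/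
theorem decomp_unique (hn : Num a b) {r h : LaurentSeries S} {γ : ℕ → S} (hr : r ∈ C.rg)
    (hh : h ∈ nonneg S) (h0 : r + gsum a b γ + h = 0) : ∀ l ∈ gaps a b, γ l = 0 := by
  classical
  have ha : 1 ≤ a := le_trans (by norm_num) hn.ha
  have hb : 1 ≤ b := le_trans (by norm_num) hn.hb
  obtain ⟨z, rfl⟩ := C.mem_rg.1 hr
  obtain ⟨c, hc, rfl⟩ := C.exists_repr hn.co ha z
  intro l hl
  by_contra hne
  set A : Finset ℕ := c.support ∪ (gaps a b).filter fun l => γ l ≠ 0 with hA
  have hlA : l ∈ A := Finset.mem_union_right _ (Finset.mem_filter.2 ⟨hl, hne⟩)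
  set n := A.max' ⟨l, hlA⟩ with hndef
  have hnA : n ∈ A := Finset.max'_mem _ _
  have hmax : ∀ m ∈ A, m ≤ n := fun m hm => Finset.le_max' _ _ hm
  have hn1 : 1 ≤ n := le_trans (gaps_pos hl) (hmax l hlA)
  have h1 := congrArg (fun f : LaurentSeries S => f.coeff (-(n : ℤ))) h0
  simp only [HahnSeries.coeff_add, HahnSeries.coeff_zero] at h1
  rw [cax_coeff_ev_sum C ha hc (fun m hm => hmax m (Finset.mem_union_left _ hm)), cax_coeff_gsum,
    hh _ (by omega), add_zero] at h1
  by_cases hg : n ∈ gaps a b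
  · rw [if_pos hg] at h1
    have h2 : n ∉ c.support := fun h => (mem_gaps hn.co ha hb).1 hg (hc n h)
    rw [Finsupp.notMem_support_iff.1 h2, zero_add] at h1
    rw [hA, Finset.mem_union] at hnA
    rcases hnA with h3 | h3
    · exact h2 h3
    · exact (Finset.mem_filter.1 h3).2 h1
  · rw [if_neg hg, add_zero] at h1
    rw [hA, Finset.mem_union] at hnA
    rcases hnA with h3 | h3
    · exact Finsupp.mem_support_iff.1 h3 h1
    · exact hg (Finset.mem_filter.1 h3).1

/-- Two decompositions have the same gap coordinates. -/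
theorem decomp_eq (hn : Num a b) {r h r' h' : LaurentSeries S} {γ γ' : ℕ → S} (hr : r ∈ C.rg)
    (hh : h ∈ nonneg S) (hγ : ∀ l, l ∉ gaps a b → γ l = 0) (hr' : r' ∈ C.rg)
    (hh' : h' ∈ nonneg S) (hγ' : ∀ l, l ∉ gaps a b → γ' l = 0)
    (heq : r + gsum a b γ + h = r' + gsum a b γ' + h') : γ = γ' := by
  have h0 : (r - r') + gsum a b (γ - γ') + (h - h') = 0 := by
    rw [cax_gsum_sub]
    linear_combination heq
  have h1 := C.decomp_unique hn (sub_mem hr hr') (sub_mem hh hh') h0
  funext l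
  by_cases hl : l ∈ gaps a b
  · exact sub_eq_zero.1 (h1 l hl)
  · rw [hγ l hl, hγ' l hl]

/-- The gap coordinates of a Laurent series. -/
noncomputable def crd (hn : Num a b) : LaurentSeries S →+ (ℕ → S) where
  toFun f := (C.exists_decomp hn f).choose_spec.choose
  map_zero' := by
    obtain ⟨h, h1, h2, h3, h4⟩ := (C.exists_decomp hn 0).choose_spec.choose_spec
    refine C.decomp_eq hn h1 h2 h3 (zero_mem C.rg) (zero_mem (nonneg S)) (fun _ _ => rfl) ?_
    rw [← h4, cax_gsum_zero]
    simp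
  map_add' := by
    intro f g
    obtain ⟨h, h1, h2, h3, h4⟩ := (C.exists_decomp hn f).choose_spec.choose_spec
    obtain ⟨k, k1, k2, k3, k4⟩ := (C.exists_decomp hn g).choose_spec.choose_spec
    obtain ⟨m, m1, m2, m3, m4⟩ := (C.exists_decomp hn (f + g)).choose_spec.choose_spec
    refine C.decomp_eq hn m1 m2 m3 (add_mem h1 k1) (add_mem h2 k2) (fun l hl => ?_) ?_
    · rw [Pi.add_apply, h3 l hl, k3 l hl, add_zero]
    · rw [← m4, cax_gsum_add]
      conv_lhs => rw [h4, k4]
      ring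

theorem crd_spec (hn : Num a b) (f : LaurentSeries S) :
    ∃ r ∈ C.rg, ∃ h ∈ nonneg S, f = r + gsum a b (C.crd hn f) + h := by
  obtain ⟨h, h1, h2, -, h3⟩ := (C.exists_decomp hn f).choose_spec.choose_spec
  exact ⟨_, h1, h, h2, h3⟩

theorem crd_off (hn : Num a b) (f : LaurentSeries S) {l : ℕ} (hl : l ∉ gaps a b) :
    C.crd hn f l = 0 := by
  obtain ⟨h, -, -, h3, -⟩ := (C.exists_decomp hn f).choose_spec.choose_spec
  exact h3 l hl

theorem crd_eq (hn : Num a b) {f r h : LaurentSeries S} {γ : ℕ → S} (hr : r ∈ C.rg)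
    (hh : h ∈ nonneg S) (hf : f = r + gsum a b γ + h) (hγ : ∀ l, l ∉ gaps a b → γ l = 0) :
    C.crd hn f = γ := by
  obtain ⟨r', hr', h', hh', hf'⟩ := C.crd_spec hn f
  refine C.decomp_eq hn hr' hh' (fun l hl => C.crd_off hn f hl) hr hh hγ ?_
  rw [← hf', hf]

theorem crd_rg (hn : Num a b) {f : LaurentSeries S} (hf : f ∈ C.rg) : C.crd hn f = 0 := by
  refine C.crd_eq hn hf (zero_mem _) ?_ fun _ _ => rfl
  simp [gsum]

theorem crd_nonneg (hn : Num a b) {f : LaurentSeries S} (hf : f ∈ nonneg S) :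
    C.crd hn f = 0 := by
  refine C.crd_eq hn (zero_mem C.rg) hf ?_ fun _ _ => rfl
  simp [gsum]

theorem crd_eq_zero_iff (hn : Num a b) {f : LaurentSeries S} :
    C.crd hn f = 0 ↔ ∃ r ∈ C.rg, ∃ h ∈ nonneg S, f = r + h := by
  constructor
  · intro h0
    obtain ⟨r, hr, h, hh, hf⟩ := C.crd_spec hn f
    refine ⟨r, hr, h, hh, ?_⟩
    rw [hf, h0]
    simp [gsum]
  · rintro ⟨r, hr, h, hh, rfl⟩
    rw [map_add, C.crd_rg hn hr, C.crd_nonneg hn hh, add_zero]

end Crv

/-- Gap coordinates are compatible with base change. -/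
theorem Rel.crd_lmap {C : Crv a b S} {C' : Crv a b T} {φ : S →+* T} (h : Rel C C' φ)
    (hn : Num a b) (f : LaurentSeries S) (l : ℕ) :
    C'.crd hn (lmap φ f) l = φ (C.crd hn f l) := by
  obtain ⟨r, hr, k, hk, hf⟩ := C.crd_spec hn f
  obtain ⟨z, rfl⟩ := C.mem_rg.1 hr
  have h1 : C'.crd hn (lmap φ f) = fun l => φ (C.crd hn f l) := by
    refine C'.crd_eq hn (r := C'.ev (h.aff z)) (h := lmap φ k) (C'.mem_rg.2 ⟨_, rfl⟩)
      (cax_lmap_nonneg φ hk) ?_ ?_
    · conv_lhs => rw [hf]
      rw [map_add, map_add, cax_lmap_gsum, h.ev_aff]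
    · intro l hl
      rw [C.crd_off hn f hl, map_zero]
  rw [h1]

end Pool.Agent.CAB
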