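import Mathlib

/-!
# Derivations of commutative rings (additive maps with the Leibniz rule)
-/

namespace Pool.Agent.CAB

/-- A derivation of the ring `R` into itself. -/
structure Der (R : Type*) [CommRing R] extends R →+ R where
  leib' : ∀ a b : R, toFun (a * b) = a * toFun b + b * toFun a

namespace Der

variable {R : Type*} [CommRing R]

instance : FunLike (Der R) R R where
  coe D := D.toFun
  coe_injective D D' h := by
    cases D; cases D'
    congr 1
    exact DFunLike.coe_injective h

instance : AddMonoidHomClass (Der R) R R where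
  map_add D := D.map_add'
  map_zero D := D.map_zero'

@[ext] lemma ext {D D' : Der R} (h : ∀ a, D a = D' a) : D = D' := DFunLike.ext _ _ h

lemma leib (D : Der R) (a b : R) : D (a * b) = a * D b + b * D a := D.leib' a b

@[simp] lemma map_one (D : Der R) : D 1 = 0 := by
  have h := D.leib 1 1
  simp only [one_mul] at h
  simpa using h

@[simp] lemma map_natCast (D : Der R) (n : ℕ) : D (n : R) = 0 := by
  induction n with
  | zero => simp
  | succ n ih => rw [Nat.cast_succ, map_add, ih, map_one, add_zero]

@[simp] lemma map_intCast (D : Der R) (n : ℤ) : D (n : R) = 0 := by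
  obtain ⟨m, rfl | rfl⟩ := n.eq_nat_or_neg
  · simp
  · simp

lemma map_pow (D : Der R) (a : R) (n : ℕ) : D (a ^ (n + 1)) = (n + 1) * a ^ n * D a := by
  induction n with
  | zero => simp
  | succ n ih => rw [pow_succ, leib, ih]; push_cast; ring

/-- The constants. -/
def consts (D : Der R) : Subring R where
  carrier := {a | D a = 0}
  mul_mem' {a b} ha hb := by
    have ha' : D a = 0 := ha
    have hb' : D b = 0 := hb
    show D (a * b) = 0
    rw [leib, ha', hb', mul_zero, mul_zero, add_zero]
  one_mem' := D.map_one
  add_mem' {a b} ha hb := by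
    have ha' : D a = 0 := ha
    have hb' : D b = 0 := hb
    show D (a + b) = 0
    rw [map_add, ha', hb', add_zero]
  zero_mem' := map_zero D
  neg_mem' {a} ha := by
    have ha' : D a = 0 := ha
    show D (-a) = 0
    rw [map_neg, ha', neg_zero]

lemma mem_consts {D : Der R} {a : R} : a ∈ D.consts ↔ D a = 0 := Iff.rfl

section field

variable {K : Type*} [Field K]

lemma map_div (D : Der K) {a b : K} (hb : b ≠ 0) : D (a / b) = (D a * b - a * D b) / b ^ 2 := by
  have h : D a = D (a / b * b) := by rw [div_mul_cancel₀ a hb]
  rw [leib] at h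
  rw [h]
  field_simp
  ring

lemma map_inv (D : Der K) {b : K} (hb : b ≠ 0) : D b⁻¹ = -D b / b ^ 2 := by
  have h := D.map_div (a := 1) hb
  rw [one_div] at h
  rw [h]
  simp

end field

end Der

/-- `DT` extends `DS` along `φ`. -/
def Der.Ext {S T : Type*} [CommRing S] [CommRing T] (DS : Der S) (DT : Der T) (φ : S →+* T) :
    Prop := ∀ s, DT (φ s) = φ (DS s)

end Pool.Agent.CAB
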