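import Pool.Agent.CAB.FamAlg

/-!
# The factorisation for `P₀ = P₁ + t y`

Over `R₀ = R₁[t]` put `P₀ = P₁(x, y) + t y` with `P₁` a `C_ab` polynomial over `R₁`. Then
`P₀(x, Y) - P₀(x, y) = (Y - y) (t + G)` with `G = (P₁(x, Y) - P₁(x, y)) / (Y - y)` monic in `Y` of
degree `a - 1 ≥ 1`; the second factor is linear in `t`, so it is irreducible (Gauss).
-/

namespace Pool.Agent.CAB

open Polynomial

/-- `P₁ + t y` over `R₁[t]`. -/
noncomputable def addTY {R₁ : Type*} [CommRing R₁] (P₁ : R₁[X][X]) : R₁[X][X][X] :=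
  mapP (C : R₁ →+* R₁[X]) P₁ + C (C X) * X

theorem IsCab.addTY {R₁ : Type*} [CommRing R₁] [Nontrivial R₁] {a b : ℕ} (hn : Num a b)
    {P₁ : R₁[X][X]} (hP : IsCab a b P₁) : IsCab a b (addTY P₁) := by
  have hP' := hP.map (C : R₁ →+* R₁[X])
  have ha := hn.ha
  have hb := hn.hb
  have hc : ∀ j, (C (C X) * X : R₁[X][X][X]).coeff j = if j = 1 then C X else 0 := by
    intro j
    rw [Polynomial.coeff_C_mul, Polynomial.coeff_X]
    simp only [eq_comm (a := 1)]
    split_ifs <;> simp
  have hdeg : (C (C X) * X : R₁[X][X][X]).degree < (mapP (C : R₁ →+* R₁[X]) P₁).degree := by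
    rw [Polynomial.degree_eq_natDegree hP'.monic.ne_zero, hP'.deg]
    refine lt_of_le_of_lt (Polynomial.degree_C_mul_X_le _) ?_
    exact_mod_cast (by omega : 1 < a)
  refine ⟨hP'.monic.add_of_left hdeg, ?_, ?_, ?_⟩
  · rw [Pool.Agent.CAB.addTY, Polynomial.natDegree_add_eq_left_of_degree_lt hdeg, hP'.deg]
  · rw [Pool.Agent.CAB.addTY, Polynomial.coeff_add, hc, if_neg (by omega), add_zero, hP'.lead]
  · intro i j hj hij hne
    rw [Pool.Agent.CAB.addTY, Polynomial.coeff_add, hc] at hne
    by_cases hj1 : j = 1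
    · subst hj1
      by_cases h1 : ((mapP (C : R₁ →+* R₁[X]) P₁).coeff 1).coeff i = 0
      · rw [if_pos rfl, Polynomial.coeff_add, h1, zero_add, Polynomial.coeff_C] at hne
        have hi : i = 0 := by
          by_contra h0
          exact hne (if_neg h0)
        subst hi
        nlinarith
      · exact hP'.wt i 1 hj hij h1
    · rw [if_neg hj1, add_zero] at hne
      exact hP'.wt i j hj hij hne

/-- Moving the innermost variable `t` to the outside. -/
noncomputable def outE (R₁ : Type*) [CommRing R₁] : R₁[X][X][X] ≃+* R₁[X][X][X] :=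
  (Polynomial.mapEquiv (Bivariate.swap (R := R₁)).toRingEquiv).trans
    (Bivariate.swap (R := R₁[X])).toRingEquiv

lemma outE_C (R₁ : Type*) [CommRing R₁] (r : R₁) : outE R₁ (C (C (C r))) = C (C (C r)) := by
  show Bivariate.swap ((Polynomial.mapEquiv (Bivariate.swap (R := R₁)).toRingEquiv) _) = _
  rw [Polynomial.mapEquiv_apply, Polynomial.map_C]
  have : (((Bivariate.swap (R := R₁)).toRingEquiv : R₁[X][X] ≃+* R₁[X][X]) : R₁[X][X] →+* R₁[X][X])
      (C (C r)) = C (C r) := Bivariate.swap_C_C r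
  rw [this, Bivariate.swap_C_C]

lemma outE_t (R₁ : Type*) [CommRing R₁] : outE R₁ (C (C X)) = X := by
  show Bivariate.swap ((Polynomial.mapEquiv (Bivariate.swap (R := R₁)).toRingEquiv) _) = _
  rw [Polynomial.mapEquiv_apply, Polynomial.map_C]
  have : (((Bivariate.swap (R := R₁)).toRingEquiv : R₁[X][X] ≃+* R₁[X][X]) : R₁[X][X] →+* R₁[X][X])
      (C X) = X := Bivariate.swap_X
  rw [this, Bivariate.swap_X]

lemma outE_x (R₁ : Type*) [CommRing R₁] : outE R₁ (C X) = C (C X) := by
  show Bivariate.swap ((Polynomial.mapEquiv (Bivariate.swap (R := R₁)).toRingEquiv) _) = _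
  rw [Polynomial.mapEquiv_apply, Polynomial.map_C]
  have : (((Bivariate.swap (R := R₁)).toRingEquiv : R₁[X][X] ≃+* R₁[X][X]) : R₁[X][X] →+* R₁[X][X])
      X = C X := Bivariate.swap_Y
  rw [this, Bivariate.swap_C_C]

lemma outE_y (R₁ : Type*) [CommRing R₁] : outE R₁ X = C X := by
  show Bivariate.swap ((Polynomial.mapEquiv (Bivariate.swap (R := R₁)).toRingEquiv) _) = _
  rw [Polynomial.mapEquiv_apply, Polynomial.map_X, Bivariate.swap_Y]

/-- The factorisation of `P₀(x, Y) - P₀(x, y)` for `P₀ = P₁ + t y`. -/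
theorem diag_addTY {R₁ : Type} [CommRing R₁] [IsDomain R₁] {a b : ℕ} (hn : Num a b)
    {P₁ : R₁[X][X]} (hP : IsCab a b P₁) :
    ∃ (K₂ : Type) (_ : Field K₂) (κ₂ : R₁[X][X][X] →+* K₂), Frc (R := R₁[X][X][X]) κ₂ ∧
      ∃ h : Fin 2 → K₂[X], (∀ s, Irreducible (h s)) ∧ ∏ s, h s = diagP κ₂ (addTY P₁) := by
  have ha := hn.ha
  let F := FractionRing (R₁[X][X])
  let κF : R₁[X][X] →+* F := algebraMap _ _
  have hκF : Frc (R := R₁[X][X]) κF := frc_algebraMap _
  let K₂ := FractionRing F[X]
  let α : F[X] →+* K₂ := algebraMap _ _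
  have hα : Frc (R := F[X]) α := frc_algebraMap _
  let κ' : R₁[X][X][X] →+* K₂ := α.comp (mapRingHom κF)
  have hκ' : Frc (R := R₁[X][X][X]) κ' := by
    refine hα.comp_loc (Polynomial.map_injective _ hκF.inj) fun t => ?_
    obtain ⟨c, hc, q', hq'⟩ := fm_clear hκF t
    refine ⟨q', C c, by rwa [Ne, Polynomial.C_eq_zero], ?_⟩
    rw [Polynomial.coe_mapRingHom, Polynomial.map_C, ← hq']
    ring
  let κ₂ : R₁[X][X][X] →+* K₂ := κ'.comp (outE R₁ : R₁[X][X][X] →+* R₁[X][X][X])
  have hκ₂ : Frc (R := R₁[X][X][X]) κ₂ :=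
    Frc.comp_equiv (R := R₁[X][X][X]) (T := R₁[X][X][X]) hκ' (outE R₁)
  let j : F →+* K₂ := α.comp C
  let yF : F := κF X
  let Q : F[X] := P₁.map (κF.comp C)
  have hQm : Q.Monic := hP.monic.map _
  have hQd : Q.natDegree = a := by rw [hP.monic.natDegree_map, hP.deg]
  have hQe : Q.eval yF = κF P₁ := by
    show (P₁.map (κF.comp C)).eval (κF X) = κF P₁
    rw [Polynomial.eval_map]
    have h1 : (eval₂RingHom (κF.comp C) (κF X)) = κF := by
      refine Polynomial.ringHom_ext' ?_ ?_
      · ext c <;> simp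
      · simp
    exact RingHom.congr_fun h1 P₁
  let G : F[X] := Q /ₘ (X - C yF)
  have hG : (X - C yF) * G = Q - C (κF P₁) := by
    have h1 := Polynomial.modByMonic_add_div Q (X - C yF)
    rw [Polynomial.modByMonic_X_sub_C_eq_C_eval, hQe] at h1
    rw [← h1]
    ring
  have hmon : (X - C yF).Monic := Polynomial.monic_X_sub_C yF
  have hGm : G.Monic := by
    have h2 : ((X - C yF) * G).Monic := by
      rw [hG]
      apply hQm.sub_of_left
      rw [Polynomial.degree_eq_natDegree hQm.ne_zero, hQd]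
      refine lt_of_le_of_lt Polynomial.degree_C_le ?_
      exact_mod_cast (by omega : 0 < a)
    exact Polynomial.Monic.of_mul_monic_left hmon h2
  have hGd : G.natDegree = a - 1 := by
    rw [Polynomial.natDegree_divByMonic _ hmon, hQd, Polynomial.natDegree_X_sub_C]
  let W : F[X][X] := G.map C + C X
  have hGC : (G.map (C : F →+* F[X])).natDegree = a - 1 := by rw [hGm.natDegree_map, hGd]
  have hWm : W.Monic := by
    apply (hGm.map C).add_of_left
    rw [Polynomial.degree_eq_natDegree (hGm.map C).ne_zero, hGC]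
    refine lt_of_le_of_lt Polynomial.degree_C_le ?_
    exact_mod_cast (by omega : 0 < a - 1)
  have hWirr : Irreducible W := by
    have h1 : Bivariate.swap W = X - C (-G) := by
      rw [map_add, Bivariate.swap_map_C, Bivariate.swap_X, map_neg]
      ring
    have h2 : Irreducible (Bivariate.swap W) := by
      rw [h1]
      exact Polynomial.irreducible_X_sub_C _
    exact (MulEquiv.irreducible_iff (Bivariate.swap (R := F))).1 h2
  have hW2 : Irreducible (W.map α) :=
    (hWm.irreducible_iff_irreducible_map_fraction_map (K := K₂)).1 hWirr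
  have k1 : ∀ c, κ₂ (C (C (C c))) = j (κF (C (C c))) := by
    intro c
    show α (mapRingHom κF (outE R₁ (C (C (C c))))) = α (C (κF (C (C c))))
    rw [outE_C, Polynomial.coe_mapRingHom, Polynomial.map_C]
  have k2 : κ₂ (C (C X)) = α X := by
    show α (mapRingHom κF (outE R₁ (C (C X)))) = α X
    rw [outE_t, Polynomial.coe_mapRingHom, Polynomial.map_X]
  have k3 : κ₂ (C X) = j (κF (C X)) := by
    show α (mapRingHom κF (outE R₁ (C X))) = α (C (κF (C X)))
    rw [outE_x, Polynomial.coe_mapRingHom, Polynomial.map_C]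
  have k4 : κ₂ X = j yF := by
    show α (mapRingHom κF (outE R₁ X)) = α (C (κF X))
    rw [outE_y, Polynomial.coe_mapRingHom, Polynomial.map_C]
  have e1 : (κ₂.comp C).comp (mapRingHom (C : R₁ →+* R₁[X])) = j.comp (κF.comp C) := by
    refine Polynomial.ringHom_ext' ?_ ?_
    · ext c
      simp [k1]
    · simp [k3]
  have e2 : κ₂.comp (mapRingHom (mapRingHom (C : R₁ →+* R₁[X]))) = j.comp κF := by
    refine Polynomial.ringHom_ext' (Polynomial.ringHom_ext' ?_ ?_) ?_
    · ext c
      simp [k1]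
    · simp [k3]
    · simp [k4, yF]
  refine ⟨K₂, inferInstance, κ₂, hκ₂, ![X - C (j yF), W.map α], ?_, ?_⟩
  · intro s
    fin_cases s
    · exact Polynomial.irreducible_X_sub_C _
    · exact hW2
  · rw [Fin.prod_univ_two, diagP_eq, addTY]
    have e3 : (mapP (C : R₁ →+* R₁[X]) P₁).map (κ₂.comp C) = Q.map j := by
      rw [mapP, Polynomial.map_map, e1, ← Polynomial.map_map]
    have e4 : κ₂ (mapP (C : R₁ →+* R₁[X]) P₁) = j (κF P₁) := RingHom.congr_fun e2 P₁
    have e5 : (C (C X) * X : R₁[X][X][X]).map (κ₂.comp C) = C (α X) * X := by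
      rw [Polynomial.map_mul, Polynomial.map_C, Polynomial.map_X, RingHom.comp_apply, k2]
    have e6 : κ₂ (C (C X) * X) = α X * j yF := by rw [map_mul, k2, k4]
    have e7 : W.map α = G.map j + C (α X) := by
      rw [Polynomial.map_add, Polynomial.map_C, Polynomial.map_map]
    have e8 : Q.map j - C (j (κF P₁)) = (X - C (j yF)) * G.map j := by
      have := congrArg (Polynomial.map j) hG
      rw [Polynomial.map_mul, Polynomial.map_sub, Polynomial.map_sub, Polynomial.map_X,
        Polynomial.map_C, Polynomial.map_C] at this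
      exact this.symm
    show (X - C (j yF)) * W.map α = _
    have e9 : (mapP (C : R₁ →+* R₁[X]) P₁ + C (C X) * X).map (κ₂.comp C) =
        Q.map j + C (α X) * X := by
      rw [← e3, ← e5]
      exact Polynomial.map_add _
    have e10 : κ₂ (mapP (C : R₁ →+* R₁[X]) P₁ + C (C X) * X) = j (κF P₁) + α X * j yF := by
      rw [← e4, ← e6]
      exact map_add _ _ _
    rw [e9, e10]
    rw [e7, map_add, map_mul]
    linear_combination -e8

/-- The algebraic side for the family `P₁ + t y + u_0 + u_1 x + ... + u_{k-1} x^{k-1} = 0`: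
the affine Picard group of the generic fibre of its `r`-fold fibre power has rank `r`. -/
theorem family_alg_t {R₁ : Type} [CommRing R₁] [IsDomain R₁] [CharZero R₁] {a b k : ℕ}
    (hn : Num a b) (hab : a < b) (hk : 2 ≤ k) (hkb : k ≤ b) {P₁ : R₁[X][X]} (hP : IsCab a b P₁)
    {Δ : MvPolynomial (Fin k) R₁[X]} (hΔ : Δ ≠ 0) (hs : Smooth (family (addTY P₁) k Δ).P)
    (r : ℕ) :
    IsDomain ((family (addTY P₁) k Δ).power r).R ∧
    ∀ (K : Type) [Field K] (κ : ((family (addTY P₁) k Δ).power r).R →+* K), Frc κ →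
      ∃ _ : IsDedekindDomain (AdjoinRoot (mapP κ ((family (addTY P₁) k Δ).power r).P)),
        Nonempty (ClassGroup (AdjoinRoot (mapP κ ((family (addTY P₁) k Δ).power r).P)) ≃*
          Multiplicative (Fin r → ℤ)) := by
  obtain ⟨K₂, _, κ₂, hκ₂, h, hirr, hprod⟩ := diag_addTY hn hP
  have hP' : IsCab a b (addTY P₁) := hP.addTY hn
  have := family_alg hn hab hk hkb hP' hΔ hs hκ₂ hirr hprod r
  rwa [show r * (2 - 1) = r by omega] at this

end Pool.Agent.CAB
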