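import Pool.Agent.CAB.Laurent

/-!
# Invertible ideals of `O((τ))` are principal

`O` is a principal ideal domain, so `O[[τ]]` is a unique factorisation domain (Mathlib) and
`O((τ)) = O[[τ]][1/τ]` (Mathlib) is one. Let `u_s ∈ O((τ))`, `v_s ∈ L((τ))` with
`w_st = v_s u_t ∈ O((τ))` and `∑ u_s v_s = 1`. Not all `u_s` vanish, say `u_t ≠ 0`; let `h` be a
greatest common divisor of the `u_s` and `u_s = h α_s`, the `α_s` with greatest common divisor `1`.
For every `r`, `w_sr u_t = w_st u_r`, so `w_sr α_t = w_st α_r` and `α_t` divides all `w_st α_r`,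
hence it divides `w_st = α_t β_s`, and `β_s = h v_s`.
-/

namespace Pool.Agent.CAB

variable {O L : Type*} [CommRing O] [IsDomain O] [IsPrincipalIdealRing O] [Field L]

theorem gcd_step {j : O →+* L} (hj : Function.Injective j) {n : ℕ} {u : Fin n → LaurentSeries O}
    {v : Fin n → LaurentSeries L} (h1 : ∀ s t, ∃ w, lmap j w = v s * lmap j (u t))
    (hsum : ∑ s, lmap j (u s) * v s = 1) :
    ∃ (h : LaurentSeries O) (α β : Fin n → LaurentSeries O), h ≠ 0 ∧ (∀ s, u s = h * α s) ∧
      ∀ s, lmap j (β s) = lmap j h * v s := by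
  classical
  have hufd : UniqueFactorizationMonoid (LaurentSeries O) :=
    UniqueFactorizationMonoid.of_isLocalization
      (Submonoid.powers (PowerSeries.X : PowerSeries O)) (LaurentSeries O)
  let _ := UniqueFactorizationMonoid.strongNormalizationMonoid (α := LaurentSeries O)
  let _ := UniqueFactorizationMonoid.toNormalizedGCDMonoid (LaurentSeries O)
  have hinj := lmap_injective hj
  obtain ⟨t, ht⟩ : ∃ t, u t ≠ 0 := by
    by_contra hcon
    push Not at hcon
    have h2 : ∑ s, lmap j (u s) * v s = 0 := Finset.sum_eq_zero fun s _ => by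
      rw [hcon s, map_zero, zero_mul]
    rw [h2] at hsum
    exact zero_ne_one hsum
  obtain ⟨α, hα, hα1⟩ := (Finset.univ : Finset (Fin n)).extract_gcd u ⟨t, Finset.mem_univ t⟩
  set h := (Finset.univ : Finset (Fin n)).gcd u with hh
  have hα' : ∀ s, u s = h * α s := fun s => hα s (Finset.mem_univ s)
  have hh0 : h ≠ 0 := by
    intro h0
    apply ht
    rw [hα' t, h0, zero_mul]
  have hαt : α t ≠ 0 := by
    intro h0
    apply ht
    rw [hα' t, h0, mul_zero]
  choose w hw using h1
  have key : ∀ s, α t ∣ w s t := by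
    intro s
    have h2 : ∀ r, w s r * α t = w s t * α r := by
      intro r
      have h3 : w s r * u t = w s t * u r := by
        apply hinj
        rw [map_mul, map_mul, hw, hw]
        ring
      rw [hα' t, hα' r] at h3
      apply mul_left_cancel₀ hh0
      linear_combination h3
    have h4 : α t ∣ (Finset.univ : Finset (Fin n)).gcd fun r => α r * w s t :=
      Finset.dvd_gcd fun r _ => ⟨w s r, by rw [mul_comm (α r), ← h2 r, mul_comm]⟩
    have h5 := Finset.gcd_mul_right' (s := (Finset.univ : Finset (Fin n))) (f := α) (w s t)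
    rw [hα1, one_mul] at h5
    exact h4.trans h5.dvd
  choose β hβ using key
  refine ⟨h, α, β, hh0, hα', fun s => ?_⟩
  have h6 : lmap j (α t) ≠ 0 := by
    intro h0
    apply hαt
    apply hinj
    rw [h0, map_zero]
  apply mul_left_cancel₀ h6
  have h7 := hw s t
  rw [hβ s, hα' t, map_mul, map_mul] at h7
  rw [h7]
  ring

end Pool.Agent.CAB
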