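import Pool.Agent.CAB.DerExt

/-!
# Dedekind domains which are localisations of unique factorisation domains

`ufd_loc`: a Dedekind domain `R` which contains a unique factorisation domain `B` such that every
element of `R` is a fraction with denominator dividing a power of `σ`: every ideal of `R` becomes
principal after inverting `σ`. `eliminate`: this applies to the affine plane curve
`Q₁(x, y) + t Q₂(x, y) = 0` over the fraction field of `A₀[t]`, with `σ = Q₂(x, y)`, because
`t` can be eliminated: `B = A₀[x, y]`.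
-/

namespace Pool.Agent.CAB

open Polynomial

/-- the property which is proved for all ideals -/
def LocPrin {R : Type*} [CommRing R] (s : R) (I : Ideal R) : Prop :=
  ∃ z ∈ I, z ≠ 0 ∧ ∃ N : ℕ, ∀ w ∈ I, s ^ N * w ∈ Ideal.span {z}

theorem LocPrin.mul {R : Type*} [CommRing R] [IsDomain R] {s : R} {I J : Ideal R}
    (hI : LocPrin s I) (hJ : LocPrin s J) : LocPrin s (I * J) := by
  obtain ⟨z, hz, hz0, N, hN⟩ := hI
  obtain ⟨z', hz', hz0', N', hN'⟩ := hJ
  refine ⟨z * z', Ideal.mul_mem_mul hz hz', mul_ne_zero hz0 hz0', N + N', ?_⟩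
  intro w hw
  refine Submodule.mul_induction_on hw ?_ ?_
  · intro x hx y hy
    obtain ⟨c, hc⟩ := Ideal.mem_span_singleton'.1 (hN x hx)
    obtain ⟨d, hd⟩ := Ideal.mem_span_singleton'.1 (hN' y hy)
    rw [Ideal.mem_span_singleton']
    refine ⟨c * d, ?_⟩
    rw [pow_add]
    linear_combination (s ^ N' * y) * hc + (c * z) * hd
  · intro x y hx hy
    rw [mul_add]
    exact add_mem hx hy

theorem ufd_loc {R B : Type*} [CommRing R] [IsDedekindDomain R] [CommRing B] [IsDomain B]
    [UniqueFactorizationMonoid B] (β : B →+* R) (hβ : Function.Injective β) (σ : B)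
    (hσ : σ ≠ 0) (hfrac : ∀ r : R, ∃ (m b : B) (N : ℕ), β m ∣ β σ ^ N ∧ β m * r = β b)
    (I : Ideal R) (hI : I ≠ ⊥) : LocPrin (β σ) I := by
  classical
  have hs : β σ ≠ 0 := by rwa [Ne, map_eq_zero_iff _ hβ]
  set s := β σ with hsdef
  have hprime : ∀ p : Ideal R, p.IsPrime → p ≠ ⊥ → LocPrin s p := by
    intro p hp hp0
    by_cases hsp : s ∈ p
    · refine ⟨s, hsp, hs, 1, ?_⟩
      intro w _
      rw [pow_one, Ideal.mem_span_singleton']
      exact ⟨w, mul_comm _ _⟩
    obtain ⟨r, hrp, hr0⟩ := Submodule.exists_mem_ne_zero_of_ne_bot hp0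
    obtain ⟨m, b, N, hm, hb⟩ := hfrac r
    have hm0 : β m ≠ 0 := by
      intro h
      rw [h, zero_dvd_iff] at hm
      exact pow_ne_zero N hs hm
    have hb0 : b ≠ 0 := by
      intro h
      rw [h, map_zero] at hb
      exact mul_ne_zero hm0 hr0 hb
    have hq : (p.comap β).IsPrime := Ideal.comap_isPrime _ _
    have hq0 : p.comap β ≠ ⊥ := by
      intro h
      have : b ∈ p.comap β := by
        rw [Ideal.mem_comap, ← hb]
        exact Ideal.mul_mem_left _ _ hrp
      rw [h] at this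
      exact hb0 this
    obtain ⟨x, hxq, hx⟩ := hq.exists_mem_prime_of_ne_bot hq0
    have hxp : β x ∈ p := hxq
    have hspow : ∀ n, s ^ n ∉ p := fun n h => hsp (hp.mem_of_pow_mem n h)
    let J : Ideal R :=
      { carrier := {w | ∃ n : ℕ, s ^ n * w ∈ Ideal.span {β x}}
        zero_mem' := ⟨0, by rw [mul_zero]; exact zero_mem _⟩
        add_mem' := by
          rintro u v ⟨n, hn⟩ ⟨n', hn'⟩
          refine ⟨n + n', ?_⟩
          have e : s ^ (n + n') * (u + v) = s ^ n' * (s ^ n * u) + s ^ n * (s ^ n' * v) := by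
            rw [pow_add]; ring
          rw [e]
          exact add_mem (Ideal.mul_mem_left _ _ hn) (Ideal.mul_mem_left _ _ hn')
        smul_mem' := by
          rintro c u ⟨n, hn⟩
          refine ⟨n, ?_⟩
          rw [smul_eq_mul]
          have e : s ^ n * (c * u) = c * (s ^ n * u) := by ring
          rw [e]
          exact Ideal.mul_mem_left _ _ hn }
    have hJmem : ∀ w, w ∈ J ↔ ∃ n : ℕ, s ^ n * w ∈ Ideal.span {β x} := fun w => Iff.rfl
    have hJp : J ≤ p := by
      rintro w ⟨n, hn⟩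
      have h1 : s ^ n * w ∈ p := (Ideal.span_singleton_le_iff_mem p).2 hxp hn
      exact (hp.mem_or_mem h1).resolve_left (hspow n)
    have hxJ : β x ∈ J := ⟨0, by rw [pow_zero, one_mul]; exact Ideal.mem_span_singleton_self _⟩
    have hJ0 : J ≠ ⊥ := by
      intro h
      rw [h] at hxJ
      have : β x = 0 := hxJ
      rw [map_eq_zero_iff _ hβ] at this
      exact hx.ne_zero this
    have hJprime : J.IsPrime := by
      refine ⟨fun h => hp.ne_top (top_le_iff.1 (h ▸ hJp)), ?_⟩
      rintro r₁ r₂ ⟨n, hn⟩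
      obtain ⟨t, ht⟩ := Ideal.mem_span_singleton'.1 hn
      obtain ⟨m₁, b₁, N₁, hm₁, hb₁⟩ := hfrac r₁
      obtain ⟨m₂, b₂, N₂, hm₂, hb₂⟩ := hfrac r₂
      obtain ⟨m₃, b₃, N₃, hm₃, hb₃⟩ := hfrac t
      have h1 : m₃ * σ ^ n * (b₁ * b₂) = x * (m₁ * m₂ * b₃) := by
        apply hβ
        simp only [map_mul, map_pow]
        rw [← hsdef, ← hb₁, ← hb₂, ← hb₃]
        linear_combination (- β m₃ * β m₁ * β m₂) * ht
      have h2 : x ∣ m₃ * σ ^ n * (b₁ * b₂) := ⟨_, h1⟩
      have hx3 : ¬ x ∣ m₃ := by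
        rintro ⟨y, hy⟩
        have : β x ∣ s ^ N₃ := by
          refine dvd_trans ⟨β y, ?_⟩ hm₃
          rw [hy, map_mul]
        obtain ⟨y', hy'⟩ := this
        apply hspow N₃
        rw [hy']
        exact Ideal.mul_mem_right _ _ hxp
      have hxσ : ¬ x ∣ σ ^ n := by
        intro h
        obtain ⟨y, hy⟩ := h
        apply hspow n
        rw [hsdef, ← map_pow, hy, map_mul]
        exact Ideal.mul_mem_right _ _ hxp
      have fin : ∀ (m' b' : B) (N' : ℕ) (r' : R), β m' ∣ s ^ N' → β m' * r' = β b' →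
          x ∣ b' → r' ∈ J := by
        rintro m' b' N' r' ⟨y, hy⟩ h4 ⟨y', hy'⟩
        refine ⟨N', ?_⟩
        rw [Ideal.mem_span_singleton', hy]
        refine ⟨y * β y', ?_⟩
        rw [hy', map_mul] at h4
        linear_combination (-y) * h4
      rcases hx.dvd_or_dvd h2 with h3 | h3
      · exact absurd h3 (fun h => (hx.dvd_or_dvd h).elim hx3 hxσ)
      · rcases hx.dvd_or_dvd h3 with h4 | h4
        · exact Or.inl (fin m₁ b₁ N₁ r₁ hm₁ hb₁ h4)
        · exact Or.inr (fin m₂ b₂ N₂ r₂ hm₂ hb₂ h4)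
    have hJmax : J.IsMaximal := hJprime.isMaximal hJ0
    have hJeq : J = p := hJmax.eq_of_le hp.ne_top hJp
    have hfin : ∀ T : Finset R, (∀ t ∈ T, t ∈ J) → ∃ n : ℕ, ∀ t ∈ T,
        s ^ n * t ∈ Ideal.span {β x} := by
      intro T
      induction T using Finset.induction_on with
      | empty => exact fun _ => ⟨0, by simp⟩
      | insert t T _ ih =>
        intro h
        obtain ⟨n, hn⟩ := ih (fun u hu => h u (Finset.mem_insert_of_mem hu))
        obtain ⟨n', hn'⟩ := h t (Finset.mem_insert_self _ _)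
        refine ⟨n + n', ?_⟩
        intro u hu
        rcases Finset.mem_insert.1 hu with rfl | hu
        · rw [pow_add, mul_assoc]
          exact Ideal.mul_mem_left _ _ hn'
        · rw [pow_add, mul_comm (s ^ n), mul_assoc]
          exact Ideal.mul_mem_left _ _ (hn u hu)
    obtain ⟨T, hT⟩ := IsNoetherian.noetherian p
    have hTJ : ∀ t ∈ T, t ∈ J := by
      intro t ht
      rw [hJeq, ← hT]
      exact Submodule.subset_span ht
    obtain ⟨n, hn⟩ := hfin T hTJ
    refine ⟨β x, hxp, by rw [Ne, map_eq_zero_iff _ hβ]; exact hx.ne_zero, n, ?_⟩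
    intro w hw
    rw [← hT] at hw
    refine Submodule.span_induction (p := fun w _ => s ^ n * w ∈ Ideal.span {β x}) ?_ ?_ ?_ ?_ hw
    · intro t ht
      exact hn t ht
    · rw [mul_zero]; exact zero_mem _
    · intro u v _ _ hu hv
      rw [mul_add]
      exact add_mem hu hv
    · intro c u _ hu
      have e : s ^ n * (c • u) = c * (s ^ n * u) := by rw [smul_eq_mul]; ring
      rw [e]
      exact Ideal.mul_mem_left _ _ hu
  -- factor the ideal
  revert hI
  refine UniqueFactorizationMonoid.induction_on_prime (P := fun I => I ≠ ⊥ → LocPrin s I) I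
    ?_ ?_ ?_
  · intro h
    exact absurd rfl h
  · intro u hu _
    rw [Ideal.isUnit_iff] at hu
    rw [hu]
    refine ⟨1, Submodule.mem_top, one_ne_zero, 0, ?_⟩
    intro w _
    rw [Ideal.mem_span_singleton']
    exact ⟨w, by ring⟩
  · intro J p hJ hp ih _
    exact (hprime p (Ideal.isPrime_of_prime hp) hp.ne_zero).mul (ih hJ)

/-- Membership in a subring can be checked on constants and on the variable. -/
theorem poly_mem {R₁ R₂ : Type*} [CommRing R₁] [CommRing R₂] (h : R₁[X] →+* R₂) (𝒮 : Subring R₂)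
    (hC : ∀ c, h (C c) ∈ 𝒮) (hX : h X ∈ 𝒮) (p : R₁[X]) : h p ∈ 𝒮 := by
  induction p using Polynomial.induction_on' with
  | add p q hp hq => rw [map_add]; exact add_mem hp hq
  | monomial n c =>
    rw [← C_mul_X_pow_eq_monomial, map_mul, map_pow]
    exact mul_mem (hC c) (pow_mem hX n)

/-- Elements of `R` which are fractions with denominator in `ψ(M)`. -/
def locSub {B R : Type*} [CommRing B] [CommRing R] (ψ : B →+* R) (M : Submonoid B) :
    Subring R where
  carrier := {r | ∃ d ∈ M, ∃ b, ψ d * r = ψ b}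
  one_mem' := ⟨1, M.one_mem, 1, by rw [mul_one]⟩
  zero_mem' := ⟨1, M.one_mem, 0, by rw [mul_zero, map_zero]⟩
  mul_mem' := by
    rintro r r' ⟨d, hd, b, hb⟩ ⟨d', hd', b', hb'⟩
    refine ⟨d * d', M.mul_mem hd hd', b * b', ?_⟩
    rw [map_mul, map_mul]
    linear_combination (ψ d' * r') * hb + ψ b * hb'
  add_mem' := by
    rintro r r' ⟨d, hd, b, hb⟩ ⟨d', hd', b', hb'⟩
    refine ⟨d * d', M.mul_mem hd hd', d' * b + d * b', ?_⟩
    rw [map_mul, map_add, map_mul, map_mul]
    linear_combination ψ d' * hb + ψ d * hb'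
  neg_mem' := by
    rintro r ⟨d, hd, b, hb⟩
    exact ⟨d, hd, -b, by rw [map_neg, ← hb]; ring⟩

theorem mem_locSub {B R : Type*} [CommRing B] [CommRing R] {ψ : B →+* R} {M : Submonoid B}
    {r : R} : r ∈ locSub ψ M ↔ ∃ d ∈ M, ∃ b, ψ d * r = ψ b := Iff.rfl

theorem mem_locSub_of_eq {B R : Type*} [CommRing B] [CommRing R] {ψ : B →+* R} {M : Submonoid B}
    {r : R} {b : B} (h : r = ψ b) : r ∈ locSub ψ M :=
  ⟨1, M.one_mem, b, by rw [map_one, one_mul, h]⟩

theorem eliminate {A₀ K : Type*} [CommRing A₀] [IsDomain A₀] [UniqueFactorizationMonoid A₀]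
    [Field K] {P : K[X][X]} (g : A₀[X] →+* K) (hg : Frc g) (Q₁ Q₂ : A₀[X][X]) (hQ₂ : Q₂ ≠ 0)
    (hP : P = mapP g (mapP C Q₁ + C (C X) * mapP C Q₂)) (hm : P.Monic)
    [IsDedekindDomain (AdjoinRoot P)] (I : Ideal (AdjoinRoot P)) (hI : I ≠ ⊥) :
    LocPrin (AdjoinRoot.mk P (mapP (g.comp C) Q₂)) I := by
  classical
  set PA : A₀[X][X][X] := mapP C Q₁ + C (C X) * mapP C Q₂ with hPA
  have hinj : Function.Injective (mapRingHom g) := Polynomial.map_injective g hg.inj
  have hmA : PA.Monic := by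
    apply Polynomial.monic_of_injective hinj
    have : PA.map (mapRingHom g) = P := hP.symm
    rw [this]
    exact hm
  let ψ : A₀[X][X] →+* AdjoinRoot P := (AdjoinRoot.mk P).comp (mapRingHom (mapRingHom (g.comp C)))
  let μ : A₀[X][X][X] →+* AdjoinRoot P := (AdjoinRoot.mk P).comp (mapRingHom (mapRingHom g))
  let ι : A₀[X][X] →+* A₀[X][X][X] := mapRingHom (mapRingHom C)
  have hψ : ∀ w, ψ w = μ (ι w) := by
    intro w
    show AdjoinRoot.mk P (mapP (g.comp C) w) = AdjoinRoot.mk P (mapP g (mapP C w))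
    rw [mapP_mapP]
  have hψa : ∀ w, ψ w = AdjoinRoot.mk P (mapP (g.comp C) w) := fun _ => rfl
  have hμP : μ PA = 0 := by
    show AdjoinRoot.mk P (mapP g PA) = 0
    rw [← hP, AdjoinRoot.mk_self]
  let al : A₀[X][X] →+* FractionRing A₀[X][X] := algebraMap _ _
  have hal : Function.Injective al := IsFractionRing.injective _ _
  let e₀ : A₀[X] →+* FractionRing A₀[X][X] :=
    eval₂RingHom (al.comp (C.comp C)) (-(al Q₁) / al Q₂)
  let e : A₀[X][X][X] →+* FractionRing A₀[X][X] :=
    eval₂RingHom (eval₂RingHom e₀ (al (C X))) (al X)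
  have hι : ∀ w, e (ι w) = al w := by
    intro w
    have : e.comp ι = al := by
      ext <;> simp [e, ι, e₀]
    exact RingHom.congr_fun this w
  have hQ₂' : al Q₂ ≠ 0 := by rwa [Ne, map_eq_zero_iff _ hal]
  have heP : e PA = 0 := by
    have h1 : PA = ι Q₁ + C (C X) * ι Q₂ := rfl
    rw [h1, map_add, map_mul, hι, hι]
    have h2 : e (C (C X)) = -(al Q₁) / al Q₂ := by simp [e, e₀]
    rw [h2, div_mul_cancel₀ _ hQ₂']
    ring
  have hψi : Function.Injective ψ := by
    rw [injective_iff_map_eq_zero]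
    intro w hw
    have h1 : P ∣ mapP g (ι w) := by
      rw [← AdjoinRoot.mk_eq_zero]
      exact (hψ w).symm.trans hw
    rw [hP] at h1
    obtain ⟨c, hc⟩ := (Polynomial.map_dvd_map (mapRingHom g) hinj hmA).1 h1
    have h2 : al w = 0 := by rw [← hι, hc, map_mul, heP, zero_mul]
    rwa [map_eq_zero_iff _ hal] at h2
  have hμC : ∀ c, μ (C (C (C c))) = ψ (C (C c)) := by
    intro c; rw [hψ]; congr 1; simp [ι]
  have hμx : μ (C X) = ψ (C X) := by rw [hψ]; congr 1; simp [ι]
  have hμy : μ X = ψ X := by rw [hψ]; congr 1; simp [ι]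
  have hμt : ψ Q₂ * μ (C (C X)) = ψ (-Q₁) := by
    have h1 : PA = ι Q₁ + C (C X) * ι Q₂ := rfl
    rw [h1, map_add, map_mul, ← hψ, ← hψ] at hμP
    rw [map_neg]
    linear_combination hμP
  -- fractions with denominators powers of `Q₂`
  have hS : ∀ G, μ G ∈ locSub ψ (Submonoid.powers Q₂) := by
    intro G
    refine poly_mem μ _ (fun c => ?_) (mem_locSub_of_eq hμy) G
    refine poly_mem (μ.comp C) _ (fun c => ?_) (mem_locSub_of_eq hμx) c
    refine poly_mem ((μ.comp C).comp C) _ (fun c => mem_locSub_of_eq (hμC c)) ?_ c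
    exact ⟨Q₂, Submonoid.mem_powers _, -Q₁, hμt⟩
  -- all elements are fractions with denominators in `A₀[t]`
  let M : Submonoid A₀[X][X][X] :=
    { carrier := {z | ∃ d : A₀[X], d ≠ 0 ∧ z = C (C d)}
      one_mem' := ⟨1, one_ne_zero, by simp⟩
      mul_mem' := by
        rintro _ _ ⟨d, hd, rfl⟩ ⟨d', hd', rfl⟩
        exact ⟨d * d', mul_ne_zero hd hd', by simp⟩ }
  have hD : ∀ r, r ∈ locSub (B := A₀[X][X][X]) (R := AdjoinRoot P) μ M := by
    intro r
    obtain ⟨F, rfl⟩ := AdjoinRoot.mk_surjective r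
    refine poly_mem (AdjoinRoot.mk P) _ (fun c => ?_) (mem_locSub_of_eq (b := X) ?_) F
    · refine poly_mem ((AdjoinRoot.mk P).comp (C : K[X] →+* K[X][X])) _ (fun c => ?_)
        (mem_locSub_of_eq (b := (C X : A₀[X][X][X])) ?_) c
      · obtain ⟨p, q, hq, hpq⟩ := hg.frac c
        refine ⟨C (C q), ⟨q, hq, rfl⟩, C (C p), ?_⟩
        show AdjoinRoot.mk P (mapP g (C (C q))) * AdjoinRoot.mk P (C (C c))
          = AdjoinRoot.mk P (mapP g (C (C p)))
        rw [← map_mul]
        congr 1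
        simp only [mapP, Polynomial.map_C, coe_mapRingHom]
        rw [← C_mul, ← C_mul, mul_comm, hpq]
      · show AdjoinRoot.mk P (C X) = AdjoinRoot.mk P (mapP g (C X))
        simp [mapP]
    · show AdjoinRoot.mk P X = AdjoinRoot.mk P (mapP g X)
      congr 1
      simp [mapP]
  have main := ufd_loc ψ hψi Q₂ hQ₂ ?_ I hI
  · exact main
  · intro r
    obtain ⟨_, ⟨d, hd0, rfl⟩, G, hG⟩ := hD r
    obtain ⟨_, ⟨n, rfl⟩, b, hb⟩ := hS G
    obtain ⟨_, ⟨n', rfl⟩, m, hm'⟩ := hS (C (C d))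
    refine ⟨m * Q₂ ^ n, b * Q₂ ^ n', n + n', ?_, ?_⟩
    · refine ⟨AdjoinRoot.mk P (C (C (g d)⁻¹)), ?_⟩
      have h1 : μ (C (C d)) * AdjoinRoot.mk P (C (C (g d)⁻¹)) = 1 := by
        show AdjoinRoot.mk P (mapP g (C (C d))) * _ = 1
        rw [← map_mul]
        simp only [mapP, Polynomial.map_C, coe_mapRingHom]
        rw [← C_mul, ← C_mul, mul_inv_cancel₀, C_1, C_1, map_one]
        rw [Ne, map_eq_zero_iff _ hg.inj]
        exact hd0
      simp only [map_mul, map_pow] at hm' ⊢
      rw [← hm', pow_add]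
      linear_combination (- ψ Q₂ ^ n * ψ Q₂ ^ n') * h1
    · simp only [map_mul, map_pow] at hm' hb ⊢
      rw [← hm']
      have hG' : μ (C (C d)) * r = μ G := hG
      rw [← hb, ← hG']
      ring

end Pool.Agent.CAB
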