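import Pool.Agent.CAB.Pts
import Pool.Agent.CAB.CG
import Pool.Agent.CAB.UfdLoc

/-!
# The two parameter family `P₀(x, y) + u x + v`: Nagata's argument

`φ : k₀ → K₀`, `u, v ∈ K₀` algebraically independent over `k₀` with `K₀ = k₀(u, v)`.
-/

namespace Pool.Agent.CAB

open Polynomial

variable {k₀ K₀ E : Type*} [Field k₀] [Field K₀] [Field E] {a b : ℕ}

/-- `K₀ = k₀(u, v)` with `u, v` algebraically independent. -/
structure Gen2 (φ : k₀ →+* K₀) (u v : K₀) : Prop where
  inj : ∀ F : k₀[X][X], F.eval₂ (eval₂RingHom φ u) v = 0 → F = 0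
  frac : ∀ z : K₀, ∃ F G : k₀[X][X], G ≠ 0 ∧
    z * G.eval₂ (eval₂RingHom φ u) v = F.eval₂ (eval₂RingHom φ u) v

/-- The equation `P₀(x, y) + u x + v`. -/
noncomputable def fam2 (φ : k₀ →+* K₀) (u v : K₀) (P₀ : k₀[X][X]) : K₀[X][X] :=
  mapP φ P₀ + C (C u * X + C v)

/-- The map from `k₀[u][v]` to `K₀`. -/
theorem Gen2.frc {φ : k₀ →+* K₀} {u v : K₀} (hg : Gen2 φ u v) :
    Frc (R := k₀[X][X]) (eval₂RingHom (eval₂RingHom φ u) v) where
  inj := by
    rw [injective_iff_map_eq_zero]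
    intro F hF
    exact hg.inj F hF
  frac := by
    intro z
    obtain ⟨F, G, hG, h⟩ := hg.frac z
    exact ⟨F, G, hG, h⟩

/-- The generic member has trivial class group.
Proof. `U = k₀[u, x, y]` is a unique factorisation domain (`MvPolynomial (Fin 3) k₀`). Let
`ψ : U → R = Aff C.P` be the obvious map (`u ↦ cc u`, `x ↦ gx`, `y ↦ gy`).
(1) `ψ` is injective: let `A = k₀[u, v]`, `P_A = P₀ + u x + v` over `A` (also a monic polynomial in
`y`), `A[x,y]/P_A → K₀[x,y]/P` is injective (both are free on `x^i y^j`, `j < a`, and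
`A → K₀` is injective), and `U → A[x,y]/P_A` has the left inverse `u ↦ u`, `x ↦ x`, `y ↦ y`,
`v ↦ - P₀(x, y) - u x`.
(2) For every `z ∈ R` there are `w ∈ U` and a unit of `R` of the form `ψ(w')` (`w'` the image of a
nonzero polynomial in `u`, `v`, where `v = - P₀(x,y) - u x`) with `z ψ(w') = ψ(w)`:
a common denominator of the coefficients, and `cc v = ψ(- P₀ - u x)`.
So `R` is the localisation of the unique factorisation domain `U` at a submonoid; it is a
Dedekind domain, so it is enough that every nonzero prime `p` of `R` contains a nonzero principal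
prime ideal: `ψ⁻¹(p)` is a nonzero prime of `U`, contains an irreducible (hence prime) element `q`,
and `ψ(q) R` is a prime ideal (localisation of `(q)`, which does not meet the submonoid). So
`p = (ψ(q))`, all primes, hence all ideals, are principal. -/
theorem cl_base (hn : Num a b) {φ : k₀ →+* K₀} {u v : K₀} (hg : Gen2 φ u v) {P₀ : k₀[X][X]}
    {C : Crv a b K₀} (hC : C.P = fam2 φ u v P₀) [IsDedekindDomain (Aff C.P)]
    (c : ClassGroup (Aff C.P)) : c = 1 := by
  obtain ⟨I, hI, rfl⟩ := exists_cl c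
  have hP : C.P = mapP (eval₂RingHom (eval₂RingHom φ u) v)
      (mapP Polynomial.C (mapP (Polynomial.C : k₀ →+* k₀[X]) P₀
        + Polynomial.C (Polynomial.C X * X))
        + Polynomial.C (Polynomial.C X) * mapP Polynomial.C 1) := by
    have h1 : (eval₂RingHom (eval₂RingHom φ u) v).comp
        ((Polynomial.C : k₀[X] →+* k₀[X][X]).comp (Polynomial.C : k₀ →+* k₀[X])) = φ := by
      ext c; simp
    rw [hC, fam2]
    simp only [mapP, Polynomial.map_add, Polynomial.map_mul, Polynomial.map_C, Polynomial.map_one,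
      Polynomial.map_map, Polynomial.mapRingHom_comp, h1, coe_mapRingHom, Polynomial.map_X, mul_one,
      coe_eval₂RingHom, eval₂_C, eval₂_X, map_add, map_mul]
    ring
  obtain ⟨z, hz, hz0, N, hN⟩ := eliminate (P := C.P) _ hg.frc _ _ one_ne_zero hP C.cab.monic I hI
  rw [cl_eq_one_iff]
  refine ⟨z, le_antisymm ?_ ((Ideal.span_singleton_le_iff_mem I).2 hz)⟩
  intro w hw
  have := hN w hw
  rwa [mapP, Polynomial.map_one, map_one, one_pow, one_mul] at this

/-- The relation between the tautological coordinates. -/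
theorem gen_root {φ : k₀ →+* K₀} {u v : K₀} {P₀ : k₀[X][X]}
    {C : Crv a b K₀} (hC : C.P = fam2 φ u v P₀) {i : Aff C.P →+* E} {f : k₀ →+* E}
    (hf : ∀ c, f c = i (C.cc (φ c))) :
    P₀.eval₂ (eval₂RingHom f (i C.gx)) (i C.gy) + (i (C.cc u) * i C.gx + i (C.cc v)) = 0 := by
  have h1 : (fam2 φ u v P₀).eval₂ (AdjoinRoot.of C.P) (AdjoinRoot.root C.P) = 0 := by
    rw [← hC]
    exact AdjoinRoot.eval₂_root C.P
  rw [fam2, eval₂_add, eval₂_C, mapP, eval₂_map] at h1
  have h2 : (AdjoinRoot.of C.P).comp (mapRingHom φ) = eval₂RingHom (C.cc.comp φ) C.gx := by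
    ext c
    · simp [Crv.cc]
    · simp [Crv.gx]
  rw [h2] at h1
  have h3 := congrArg i h1
  rw [map_add, hom_eval₂, map_zero] at h3
  have h4 : i.comp (eval₂RingHom (C.cc.comp φ) C.gx) = eval₂RingHom f (i C.gx) := by
    ext c
    · simp [hf]
    · simp
  have h5 : AdjoinRoot.of C.P (Polynomial.C u * X + Polynomial.C v) =
      C.cc u * C.gx + C.cc v := by
    simp [Crv.cc, Crv.gx]
  rw [h4, h5, map_add, map_mul] at h3
  exact h3

/-- The fibre: `P(x₁, Y) = P₀(x₁, Y) - P₀(x₁, y₁)`. -/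
theorem fib_eq {φ : k₀ →+* K₀} {u v : K₀} {P₀ : k₀[X][X]}
    {C : Crv a b K₀} (hC : C.P = fam2 φ u v P₀) {i : Aff C.P →+* E}
    {C' : Crv a b E} (hC' : Rel C C' (i.comp C.cc)) {f : k₀ →+* E}
    (hf : ∀ c, f c = i (C.cc (φ c))) :
    fib C'.P (i C.gx) = (mapP f P₀).map (evalRingHom (i C.gx)) -
      Polynomial.C (P₀.eval₂ (eval₂RingHom f (i C.gx)) (i C.gy)) := by
  have h1 := gen_root hC hf
  have h2 : C'.P = mapP f P₀ + Polynomial.C (Polynomial.C (i (C.cc u)) * X +
      Polynomial.C (i (C.cc v))) := by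
    have h3 : (i.comp C.cc).comp φ = f := by
      ext c
      exact (hf c).symm
    have h4 : mapP (i.comp C.cc) C.P = mapP (i.comp C.cc) (fam2 φ u v P₀) :=
      congrArg (fun Q : K₀[X][X] => mapP (i.comp C.cc) Q) hC
    rw [hC'.P, h4, fam2, mapP, Polynomial.map_add]
    have h5 := mapP_mapP φ (i.comp C.cc) P₀
    rw [h3] at h5
    rw [← h5]
    simp [mapP]
  rw [fib, h2, Polynomial.map_add, Polynomial.map_C, coe_evalRingHom, eval_add, eval_mul, eval_C,
    eval_C, eval_X, eq_neg_of_add_eq_zero_right h1, map_neg, sub_eq_add_neg]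

/-- Injectivity, for an abstract model `A` of `k₀[u, v]`. -/
theorem gen_inj {A : Type*} [CommRing A] {φ : k₀ →+* K₀} {u v : K₀} {P₀ : k₀[X][X]}
    {C : Crv a b K₀} (hC : C.P = fam2 φ u v P₀) {i : Aff C.P →+* E} (hi : Function.Injective i)
    (f : k₀[X][X][X] →+* E)
    (hfc : ∀ c, f (Polynomial.C (Polynomial.C (Polynomial.C c))) = i (C.cc (φ c)))
    (hfx : f (Polynomial.C (Polynomial.C X)) = i C.gx)
    (hfy : f (Polynomial.C X) = i C.gy) (hfu : f X = i (C.cc u))
    (cU : k₀ →+* k₀[X][X][X]) (hcU : ∀ c, cU c = Polynomial.C (Polynomial.C (Polynomial.C c)))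
    (w : k₀[X][X][X]) (hw : w = -(P₀.eval₂ (eval₂RingHom cU
      (Polynomial.C (Polynomial.C X) : k₀[X][X][X])) (Polynomial.C X) +
        X * Polynomial.C (Polynomial.C X)))
    (α : A →+* K₀) (hαi : Function.Injective α) (ιA : k₀ →+* A) (hαι : α.comp ιA = φ)
    (uA vA : A) (hαu : α uA = u) (hαv : α vA = v)
    (β₀ : A →+* k₀[X][X][X])
    (hβc : ∀ c, β₀ (ιA c) = Polynomial.C (Polynomial.C (Polynomial.C c)))
    (hβu : β₀ uA = X) (hβv : β₀ vA = w) : Function.Injective f := by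
  rw [injective_iff_map_eq_zero]
  intro F hF
  have hαc : ∀ c, α (ιA c) = φ c := fun c => by rw [← hαι]; rfl
  obtain ⟨PA, hPA⟩ : ∃ PA : A[X][X], PA = mapP ιA P₀ +
      Polynomial.C (Polynomial.C uA * X + Polynomial.C vA) := ⟨_, rfl⟩
  have hPA' : mapP α PA = C.P := by
    have h1 := mapP_mapP ιA α P₀
    rw [hαι] at h1
    rw [hC, fam2, hPA, mapP, Polynomial.map_add]
    rw [← h1]
    simp [mapP, hαu, hαv]
  have hmi : Function.Injective (mapRingHom α) := Polynomial.map_injective _ hαi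
  have hPAm : PA.Monic := by
    refine Polynomial.monic_of_injective hmi ?_
    have h1 : mapP α PA = C.P := hPA'
    rw [mapP] at h1
    rw [h1]
    exact C.cab.monic
  obtain ⟨γ, hγc, hγx, hγy, hγu⟩ : ∃ γ : k₀[X][X][X] →+* A[X][X],
      (∀ c, γ (Polynomial.C (Polynomial.C (Polynomial.C c))) =
        Polynomial.C (Polynomial.C (ιA c))) ∧
      γ (Polynomial.C (Polynomial.C X)) = Polynomial.C X ∧ γ (Polynomial.C X) = X ∧
      γ X = Polynomial.C (Polynomial.C uA) := by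
    obtain ⟨e1, he1⟩ : ∃ e1 : k₀ →+* A[X][X],
        ∀ c, e1 c = Polynomial.C (Polynomial.C (ιA c)) :=
      ⟨(Polynomial.C.comp Polynomial.C).comp ιA, fun _ => rfl⟩
    refine ⟨eval₂RingHom (eval₂RingHom (eval₂RingHom e1
      (Polynomial.C X : A[X][X])) X) (Polynomial.C (Polynomial.C uA)),
      fun c => ?_, ?_, ?_, ?_⟩
    · simp [he1]
    · simp
    · simp
    · simp
  obtain ⟨β, hβa, hβx, hβy⟩ : ∃ β : A[X][X] →+* k₀[X][X][X],
      (∀ c, β (Polynomial.C (Polynomial.C c)) = β₀ c) ∧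
      β (Polynomial.C X) = Polynomial.C (Polynomial.C X) ∧ β X = Polynomial.C X := by
    refine ⟨eval₂RingHom (eval₂RingHom β₀ (Polynomial.C (Polynomial.C X) : k₀[X][X][X]))
      (Polynomial.C X), fun c => ?_, ?_, ?_⟩
    · simp
    · simp
    · simp
  have hβγ : β.comp γ = RingHom.id _ := by
    refine Polynomial.ringHom_ext' (Polynomial.ringHom_ext' (Polynomial.ringHom_ext' ?_ ?_) ?_) ?_
    · ext c : 1
      simp [hγc, hβa, hβc]
    · simp [hγx, hβx]
    · simp [hγy, hβy]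
    · simp [hγu, hβa, hβu]
  have hβP : β PA = 0 := by
    have h1 : β (mapP ιA P₀) = P₀.eval₂ (eval₂RingHom cU
      (Polynomial.C (Polynomial.C X) : k₀[X][X][X])) (Polynomial.C X) := by
      have h2 : mapP ιA P₀ = P₀.eval₂ ((Polynomial.C).comp (mapRingHom ιA)) X := rfl
      rw [h2, hom_eval₂, hβy]
      congr 1
      refine Polynomial.ringHom_ext' ?_ ?_
      · ext c : 1
        simp [hβa, hβc, hcU]
      · simp [hβx]
    rw [hPA, map_add β, h1, Polynomial.C_add, Polynomial.C_mul, map_add β, map_mul β, hβx, hβa, hβa,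
      hβu, hβv, hw]
    ring
  -- divisibility
  have hdvd : PA ∣ γ F := by
    refine (Polynomial.map_dvd_map (mapRingHom α) hmi hPAm).1 ?_
    have h1 : PA.map (mapRingHom α) = C.P := hPA'
    rw [h1]
    have h2 : AdjoinRoot.mk C.P ((γ F).map (mapRingHom α)) = 0 := by
      apply hi
      rw [map_zero, ← hF]
      have h3 : (i.comp ((AdjoinRoot.mk C.P).comp ((mapRingHom (mapRingHom α)).comp γ))) = f := by
        refine Polynomial.ringHom_ext' (Polynomial.ringHom_ext' (Polynomial.ringHom_ext'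
          ?_ ?_) ?_) ?_
        · ext c : 1
          simp [hγc, hαc, hfc, Crv.cc]
        · simp [hγx, hfx, Crv.gx]
        · simp [hγy, hfy, Crv.gy]
        · simp [hγu, hαu, hfu, Crv.cc]
      exact RingHom.congr_fun h3 F
    exact AdjoinRoot.mk_eq_zero.1 h2
  obtain ⟨G, hG⟩ := hdvd
  have h4 : β (γ F) = F := RingHom.congr_fun hβγ F
  rw [← h4, hG, map_mul β, hβP, zero_mul]

/-- `u`, `x₁`, `y₁` are algebraically independent over `k₀` and generate `E`; stated in the
form: `E` is the fraction field of `k₀[x₁][y₁][u]`. -/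
theorem gen_E (hn : Num a b) {φ : k₀ →+* K₀} {u v : K₀} (hg : Gen2 φ u v) {P₀ : k₀[X][X]}
    {C : Crv a b K₀} (hC : C.P = fam2 φ u v P₀) {i : Aff C.P →+* E} (hi : Frc i) :
    ∃ f : k₀[X][X][X] →+* E, Frc (R := k₀[X][X][X]) f ∧ (∀ c, f (Polynomial.C (Polynomial.C (Polynomial.C c))) =
      i (C.cc (φ c))) ∧ f (Polynomial.C (Polynomial.C X)) = i C.gx ∧
      f (Polynomial.C X) = i C.gy ∧ f X = i (C.cc u) := by
  obtain ⟨f₀, hf₀⟩ : ∃ f₀ : k₀ →+* E, ∀ c, f₀ c = i (C.cc (φ c)) :=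
    ⟨(i.comp C.cc).comp φ, fun _ => rfl⟩
  have hroot := gen_root hC hf₀
  obtain ⟨f, hfc, hfx, hfy, hfu⟩ : ∃ f : k₀[X][X][X] →+* E,
      (∀ c, f (Polynomial.C (Polynomial.C (Polynomial.C c))) = i (C.cc (φ c))) ∧
      f (Polynomial.C (Polynomial.C X)) = i C.gx ∧
      f (Polynomial.C X) = i C.gy ∧ f X = i (C.cc u) := by
    refine ⟨eval₂RingHom (eval₂RingHom (eval₂RingHom f₀ (i C.gx)) (i C.gy)) (i (C.cc u)),
      fun c => ?_, ?_, ?_, ?_⟩
    · simp [hf₀]
    · simp
    · simp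
    · simp
  obtain ⟨cU, hcU⟩ : ∃ cU : k₀ →+* k₀[X][X][X],
      ∀ c, cU c = Polynomial.C (Polynomial.C (Polynomial.C c)) :=
    ⟨(Polynomial.C.comp Polynomial.C).comp Polynomial.C, fun _ => rfl⟩
  obtain ⟨w, hw⟩ : ∃ w : k₀[X][X][X], w = -(P₀.eval₂ (eval₂RingHom cU
      (Polynomial.C (Polynomial.C X) : k₀[X][X][X])) (Polynomial.C X) +
        X * Polynomial.C (Polynomial.C X)) := ⟨_, rfl⟩
  obtain ⟨α, hα⟩ : ∃ α : k₀[X][X] →+* K₀, α = eval₂RingHom (eval₂RingHom φ u) v := ⟨_, rfl⟩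
  obtain ⟨β₀, hβ⟩ : ∃ β₀ : k₀[X][X] →+* k₀[X][X][X],
      β₀ = eval₂RingHom (eval₂RingHom cU (X : k₀[X][X][X])) w := ⟨_, rfl⟩
  refine ⟨f, ⟨?_, ?_⟩, hfc, hfx, hfy, hfu⟩
  · refine gen_inj hC hi.inj f hfc hfx hfy hfu cU hcU w hw α ?_
      ((Polynomial.C).comp Polynomial.C) ?_ (Polynomial.C X) X ?_ ?_ β₀ ?_ ?_ ?_
    · rw [injective_iff_map_eq_zero]
      intro G hG
      rw [hα] at hG
      exact hg.inj G hG
    · ext c
      simp [hα]
    · simp [hα]
    · simp [hα]
    · intro c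
      simp [hβ, hcU]
    · simp [hβ]
    · simp [hβ]
  · -- fractions
    have hcci : Function.Injective (i.comp C.cc) := (i.comp C.cc).injective
    have hfw : f w = i (C.cc v) := by
      have h1 : f.comp (eval₂RingHom cU (Polynomial.C (Polynomial.C X) : k₀[X][X][X])) =
          eval₂RingHom f₀ (i C.gx) := by
        refine Polynomial.ringHom_ext' ?_ ?_
        · ext c : 1
          simp [hfc, hf₀, hcU]
        · simp [hfx]
      rw [hw, map_neg f, map_add f, map_mul f, hom_eval₂, hfy, hfu, hfx, h1]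
      linear_combination -hroot
    have hβ₀ : ∀ G, f (β₀ G) = i (C.cc (G.eval₂ (eval₂RingHom φ u) v)) := by
      intro G
      have h1 : f.comp β₀ = (i.comp C.cc).comp (eval₂RingHom (eval₂RingHom φ u) v) := by
        refine Polynomial.ringHom_ext' (Polynomial.ringHom_ext' ?_ ?_) ?_
        · ext c : 1
          simp [hβ, hfc, hcU]
        · simp [hβ, hfu]
        · simp [hβ, hfw]
      exact RingHom.congr_fun h1 G
    have key : ∀ z : Aff C.P, ∃ w' w : k₀[X][X][X], f w' ≠ 0 ∧ i z * f w' = f w := by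
      intro z
      refine C.aff_induction (p := fun z => ∃ w' w : k₀[X][X][X], f w' ≠ 0 ∧ i z * f w' = f w)
        ?_ ?_ ?_ ?_ ?_ z
      · intro s
        obtain ⟨F, G, hG, h⟩ := hg.frac s
        refine ⟨β₀ G, β₀ F, ?_, ?_⟩
        · rw [hβ₀]
          intro h0
          have h1 : (i.comp C.cc) (G.eval₂ (eval₂RingHom φ u) v) = (i.comp C.cc) 0 := by
            rw [map_zero]
            exact h0
          exact hG (hg.inj G (hcci h1))
        · rw [hβ₀, hβ₀, ← h, map_mul, map_mul]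
      · exact ⟨1, Polynomial.C (Polynomial.C X), by rw [map_one]; exact one_ne_zero,
          by rw [map_one, mul_one, hfx]⟩
      · exact ⟨1, Polynomial.C X, by rw [map_one]; exact one_ne_zero,
          by rw [map_one, mul_one, hfy]⟩
      · rintro z₁ z₂ ⟨r₁, w₁, h₁, e₁⟩ ⟨r₂, w₂, h₂, e₂⟩
        refine ⟨r₁ * r₂, w₁ * r₂ + w₂ * r₁, by rw [map_mul]; exact mul_ne_zero h₁ h₂, ?_⟩
        rw [map_add i, map_mul f, map_add f, map_mul f, map_mul f, ← e₁, ← e₂]
        ring
      · rintro z₁ z₂ ⟨r₁, w₁, h₁, e₁⟩ ⟨r₂, w₂, h₂, e₂⟩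
        refine ⟨r₁ * r₂, w₁ * w₂, by rw [map_mul]; exact mul_ne_zero h₁ h₂, ?_⟩
        rw [map_mul i, map_mul f, map_mul f, ← e₁, ← e₂]
        ring
    intro z
    obtain ⟨p, q, hq, hz⟩ := hi.frac z
    obtain ⟨r₁, w₁, h₁, e₁⟩ := key p
    obtain ⟨r₂, w₂, h₂, e₂⟩ := key q
    have hiq : i q ≠ 0 := by
      intro h0
      exact hq (hi.inj (by rw [h0, map_zero]))
    refine ⟨w₁ * r₂, w₂ * r₁, ?_, ?_⟩
    · intro h0
      have h3 : f (w₂ * r₁) = 0 := by rw [h0, map_zero]
      rw [map_mul, ← e₂] at h3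
      rcases mul_eq_zero.1 h3 with h4 | h4
      · rcases mul_eq_zero.1 h4 with h5 | h5
        · exact hiq h5
        · exact h₂ h5
      · exact h₁ h4
    · rw [map_mul, map_mul, ← e₁, ← e₂, ← hz]
      ring

/-- The relation between the generators: `v = - P₀(x₁, y₁) - u x₁`. -/
theorem v_eq {φ : k₀ →+* K₀} {u v : K₀} {P₀ : k₀[X][X]}
    {C : Crv a b K₀} (hC : C.P = fam2 φ u v P₀) :
    C.cc v = - P₀.eval₂ (eval₂RingHom (C.cc.comp φ) C.gx) C.gy - C.cc u * C.gx := by
  have h1 : C.P.eval₂ (eval₂RingHom C.cc C.gx) C.gy = 0 := by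
    have h2 : (eval₂RingHom C.cc C.gx) = AdjoinRoot.of C.P := by
      ext
      · simp [Crv.cc]
      · simp [Crv.gx]
    rw [h2]
    exact AdjoinRoot.eval₂_root C.P
  have h3 : ∀ Q : K₀[X][X], Q = fam2 φ u v P₀ → (Q.eval₂ (eval₂RingHom C.cc C.gx) C.gy)
      = P₀.eval₂ (eval₂RingHom (C.cc.comp φ) C.gx) C.gy + (C.cc u * C.gx + C.cc v) := by
    rintro _ rfl
    rw [fam2, eval₂_add, eval₂_C, mapP, Polynomial.eval₂_map]
    congr 1
    · congr 1
      ext <;> simp
    · simp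
  rw [h3 _ hC] at h1
  linear_combination h1

/-- Over the function field `E` of the generic member (`x₁ = i(x)`, `y₁ = i(y)`), every ideal of
the affine ring becomes principal after inverting `x - x₁`.
Proof. `E = k₀(u, x₁, y₁)`, with `v = - P₀(x₁, y₁) - u x₁`, and `u, x₁, y₁` are algebraically
independent over `k₀` (as in (1) above). In `R_E = Aff C'.P` we have
`P₀(x, y) - P₀(x₁, y₁) + u (x - x₁) = 0`. Let `U = k₀[x₁, y₁, x, y]`, a unique factorisation
domain, `U' = U[1/(x - x₁)]` and `ψ : U' → R_E[1/(x - x₁)]` the obvious map; its image contains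
`u = - (P₀(x, y) - P₀(x₁, y₁)) / (x - x₁)`. `ψ` is injective: `u, x₁, y₁` are algebraically
independent, let `A = k₀[u, x₁, y₁]`, `P_A = P₀(X, Y) - P₀(x₁, y₁) + u (X - x₁)`, then
`A[X, Y]/P_A ⊆ R_E` and `A[X,Y]/P_A → U'` (`u ↦ -(P₀(X,Y) - P₀(x₁,y₁))/(X - x₁)`) is a left
inverse of `U → A[X,Y]/P_A`. Every element of `R_E` becomes an element of the image after
multiplication with a nonzero element of `A` (a unit of `R_E`). So `R_E[1/(x - x₁)]` is a
localisation of `U'`, every prime ideal of it is principal or zero, as in `cl_base`; so every prime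
`p` of `R_E` not containing `x - x₁` satisfies `(x - x₁)^N p ⊆ (q) ⊆ p` for some `q`; factor the
ideal `I` into primes. -/
theorem twopt (hn : Num a b) {φ : k₀ →+* K₀} {u v : K₀} (hg : Gen2 φ u v) {P₀ : k₀[X][X]}
    {C : Crv a b K₀} (hC : C.P = fam2 φ u v P₀) {i : Aff C.P →+* E} (hi : Frc i)
    {C' : Crv a b E} (hC' : Rel C C' (i.comp C.cc)) [IsDedekindDomain (Aff C'.P)]
    (I : Ideal (Aff C'.P)) (hI : I ≠ ⊥) :
    ∃ z ∈ I, z ≠ 0 ∧ ∃ N : ℕ, ∀ w ∈ I, (C'.gx - C'.cc (i C.gx)) ^ N * w ∈ Ideal.span {z} := by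
  obtain ⟨f, hf, hfc, hfx, hfy, hfu⟩ := gen_E hn hg hC hi
  set Q₁ : k₀[X][X][X][X] := mapP ((Polynomial.C : k₀[X] →+* k₀[X][X]).comp Polynomial.C) P₀
    - Polynomial.C (Polynomial.C P₀) with hQ₁
  set Q₂ : k₀[X][X][X][X] := Polynomial.C (X - Polynomial.C (Polynomial.C X)) with hQ₂
  have hQ₂0 : Q₂ ≠ 0 := by
    rw [hQ₂, Ne, Polynomial.C_eq_zero]
    exact X_sub_C_ne_zero _
  have hv : i (C.cc v) = - f (Polynomial.C P₀) - i (C.cc u) * i C.gx := by
    rw [v_eq hC, map_sub, map_neg, map_mul]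
    congr 2
    rw [Polynomial.hom_eval₂]
    have : f (Polynomial.C P₀) = P₀.eval₂ ((f.comp Polynomial.C).comp Polynomial.C)
        (f (Polynomial.C X)) := by
      conv_lhs => rw [← Polynomial.eval₂_C_X (p := P₀)]
      rw [← RingHom.comp_apply, Polynomial.hom_eval₂]
      rfl
    rw [this, hfy]
    congr 1
    ext
    · simp [hfc]
    · simp [hfx]
  have hP : C'.P = mapP f (mapP Polynomial.C Q₁ + Polynomial.C (Polynomial.C X)
      * mapP Polynomial.C Q₂) := by
    have h1 : ((f.comp (Polynomial.C : k₀[X][X] →+* k₀[X][X][X])).comp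
        ((Polynomial.C : k₀[X] →+* k₀[X][X]).comp Polynomial.C)) = (i.comp C.cc).comp φ := by
      ext c
      simp [hfc]
    have e1 : mapP f (mapP Polynomial.C (mapP ((Polynomial.C : k₀[X] →+* k₀[X][X]).comp
        Polynomial.C) P₀)) = mapP ((i.comp C.cc).comp φ) P₀ := by
      rw [mapP_mapP, mapP_mapP, h1]
    have e2 : ∀ Q : K₀[X][X], Q = fam2 φ u v P₀ → mapP (i.comp C.cc) Q
        = mapP ((i.comp C.cc).comp φ) P₀ + Polynomial.C (Polynomial.C (i (C.cc u)) * X
          + Polynomial.C (i (C.cc v))) := by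
      rintro _ rfl
      rw [fam2, mapP, Polynomial.map_add]
      have := mapP_mapP φ (i.comp C.cc) P₀
      rw [mapP, mapP] at this
      rw [this]
      simp
    have e3 : mapP f (mapP Polynomial.C (mapP ((Polynomial.C : k₀[X] →+* k₀[X][X]).comp
        Polynomial.C) P₀ - Polynomial.C (Polynomial.C P₀))
        + Polynomial.C (Polynomial.C X) * mapP Polynomial.C
          (Polynomial.C (X - Polynomial.C (Polynomial.C X))))
        = mapP f (mapP Polynomial.C (mapP ((Polynomial.C : k₀[X] →+* k₀[X][X]).comp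
        Polynomial.C) P₀)) - Polynomial.C (Polynomial.C (f (Polynomial.C P₀)))
          + Polynomial.C (Polynomial.C (i (C.cc u))) *
            Polynomial.C (X - Polynomial.C (i C.gx)) := by
      simp only [mapP, Polynomial.map_add, Polynomial.map_sub, Polynomial.map_mul,
        Polynomial.map_C, coe_mapRingHom, Polynomial.map_X, hfx, hfu]
    rw [hC'.P, e2 _ hC, hQ₁, hQ₂, e3, e1, hv]
    simp only [map_sub, map_neg, map_mul, map_add]
    ring
  obtain ⟨z, hz, hz0, N, hN⟩ := eliminate (P := C'.P) f hf Q₁ Q₂ hQ₂0 hP C'.cab.monic I hI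
  refine ⟨z, hz, hz0, N, ?_⟩
  have h2 : AdjoinRoot.mk C'.P (mapP (f.comp Polynomial.C) Q₂) = C'.gx - C'.cc (i C.gx) := by
    rw [hQ₂]
    simp [mapP, hfx, Crv.gx, Crv.cc]
  rw [h2] at hN
  exact hN

end Pool.Agent.CAB
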