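import Pool.Agent.CAB.ZNCyc
import Pool.Agent.CAB.FacT

/-!
# CAB: the family `P₁ + t y + u_0 + u_1 x + ... + u_{k-1} x^{k-1}` over `R₁[t, u]`: analytic part
-/

namespace Pool.Agent.CAB

open Polynomial Finset Pool.Agent.Hhelper85 Pool.Agent.HypTate

section count

variable {K : Type*} [Field K] [Fintype K] [DecidableEq K]

lemma NZ_addTY {F : K → K[X][X]} {Q : K[X][X]}
    (hF : ∀ (t x y : K), (F t).evalEval x y = Q.evalEval x y + t * y) :
    (∑ t : K, (NZ (F t) : ℤ)) = 2 * (Fintype.card K : ℤ) ^ 3 - (Fintype.card K : ℤ) ^ 2 := by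
  have h1 : ∀ t : K, NZ (F t) = ∑ z : K × K × K,
      if Q.evalEval z.1 z.2.1 + t * z.2.1 = Q.evalEval z.1 z.2.2 + t * z.2.2 then 1 else 0 := by
    intro t
    rw [NZ, Nat.card_eq_fintype_card, Fintype.card_subtype, Finset.card_filter]
    apply Finset.sum_congr rfl
    intro z _
    rw [hF, hF]
  have h2 : ∀ z : K × K × K, (∑ t : K,
      if Q.evalEval z.1 z.2.1 + t * z.2.1 = Q.evalEval z.1 z.2.2 + t * z.2.2 then 1 else 0) =
      if z.2.1 = z.2.2 then Fintype.card K else 1 := by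
    intro z
    rw [← Finset.card_filter]
    by_cases h : z.2.1 = z.2.2
    · rw [if_pos h, h, Finset.filter_true_of_mem (fun _ _ => rfl), Finset.card_univ]
    · rw [if_neg h, Finset.card_eq_one]
      have hne : z.2.1 - z.2.2 ≠ 0 := sub_ne_zero.2 h
      refine ⟨(Q.evalEval z.1 z.2.2 - Q.evalEval z.1 z.2.1) / (z.2.1 - z.2.2), ?_⟩
      ext t
      simp only [Finset.mem_filter, Finset.mem_univ, true_and, Finset.mem_singleton]
      rw [eq_div_iff hne]
      constructor
      · intro h3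
        linear_combination h3
      · intro h3
        linear_combination h3
  have h3 : (∑ t : K, NZ (F t)) = ∑ z : K × K × K, if z.2.1 = z.2.2 then Fintype.card K else 1 := by
    rw [Finset.sum_congr rfl (fun t _ => h1 t), Finset.sum_comm]
    exact Finset.sum_congr rfl (fun z _ => h2 z)
  have h4 : (∑ z : K × K × K, if z.2.1 = z.2.2 then Fintype.card K else 1) =
      Fintype.card K * (Fintype.card K * (Fintype.card K + (Fintype.card K - 1))) := by
    have h5 : ∀ y : K, (∑ z : K, if y = z then Fintype.card K else 1) =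
        Fintype.card K + (Fintype.card K - 1) := by
      intro y
      rw [← Finset.add_sum_erase _ _ (Finset.mem_univ y), if_pos rfl,
        Finset.sum_congr rfl (g := fun _ => 1)
          (fun z hz => if_neg (Finset.ne_of_mem_erase hz).symm), Finset.sum_const, smul_eq_mul,
        mul_one, Finset.card_erase_of_mem (Finset.mem_univ _), Finset.card_univ]
    have h7 : ∀ x : K, (∑ w : K × K, if (x, w).2.1 = (x, w).2.2 then Fintype.card K else 1) =
        Fintype.card K * (Fintype.card K + (Fintype.card K - 1)) := by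
      intro x
      rw [Fintype.sum_prod_type, Finset.sum_congr rfl (fun y _ => h5 y), Finset.sum_const,
        Finset.card_univ, smul_eq_mul]
    rw [Fintype.sum_prod_type, Finset.sum_congr rfl (fun x _ => h7 x), Finset.sum_const,
      Finset.card_univ, smul_eq_mul]
  have hq : 1 ≤ Fintype.card K := Fintype.card_pos
  have h6 : (∑ t : K, (NZ (F t) : ℤ)) = ((∑ t : K, NZ (F t) : ℕ) : ℤ) := by push_cast; rfl
  rw [h6, h3, h4]
  push_cast [Nat.cast_sub hq]
  ring

end count

section ring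

variable {R₁ : Type} [CommRing R₁]

lemma addTY_eval (P₁ : R₁[X][X]) {K : Type*} [Field K] (φ : R₁[X] →+* K) (x y : K) :
    ((addTY P₁).map (mapRingHom φ)).evalEval x y =
      (P₁.map (mapRingHom (φ.comp C))).evalEval x y + φ X * y := by
  rw [ev_eq, ev_eq, addTY, eval₂_add, eval₂_mul, eval₂_C, eval₂_X]
  congr 1
  · rw [mapP, eval₂_map]
    congr 1
    apply Polynomial.ringHom_ext
    · intro r
      simp
    · simp
  · simp

variable [Algebra.FiniteType ℤ R₁]

instance ft_poly : @Algebra.FiniteType ℤ R₁[X] _ _ (Ring.toIntAlgebra _) :=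
  ft_trans (A := R₁) (B := R₁[X]) ‹_› inferInstance

lemma hN_poly {x : Nat.Primes × ℕ} (hx : x.2 ≠ 0) :
    hN R₁[X] x = hN R₁ x * (x.1 : ℕ) ^ x.2 := by
  rw [hN, Nat.card_congr (polyEquiv R₁ (GF x.1 x.2)), Nat.card_prod, card_GF hx, hN]

lemma DZ_addTY (P₁ : R₁[X][X]) {x : Nat.Primes × ℕ} (hx : x.2 ≠ 0) :
    DZ (addTY P₁) x = (((x.1 : ℤ) ^ x.2) ^ 3 - ((x.1 : ℤ) ^ x.2) ^ 2) * hN R₁ x := by
  classical
  have := finite_hom (R := R₁) (GF x.1 x.2)
  have := finite_hom (R := R₁[X]) (GF x.1 x.2)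
  let _ := Fintype.ofFinite (R₁ →+* GF x.1 x.2)
  let _ := Fintype.ofFinite (R₁[X] →+* GF x.1 x.2)
  let _ := Fintype.ofFinite (GF x.1 x.2)
  have hc : (Fintype.card (GF x.1 x.2) : ℤ) = (x.1 : ℤ) ^ x.2 := by
    have := card_GF hx
    rw [Nat.card_eq_fintype_card] at this
    rw [this]; push_cast; rfl
  rw [DZ, finsum_eq_sum_of_fintype]
  rw [Fintype.sum_equiv (polyEquiv R₁ (GF x.1 x.2)) _
    (fun w => ((NZ ((addTY P₁).map (mapRingHom ((polyEquiv R₁ (GF x.1 x.2)).symm w))) : ℤ) -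
      ((x.1 : ℤ) ^ x.2) ^ 2)) (fun φ => by rw [Equiv.symm_apply_apply]), Fintype.sum_prod_type]
  have h1 : ∀ φ : R₁ →+* GF x.1 x.2, (∑ t : GF x.1 x.2,
      ((NZ ((addTY P₁).map (mapRingHom ((polyEquiv R₁ (GF x.1 x.2)).symm (φ, t)))) : ℤ) -
      ((x.1 : ℤ) ^ x.2) ^ 2)) = ((x.1 : ℤ) ^ x.2) ^ 3 - ((x.1 : ℤ) ^ x.2) ^ 2 := by
    intro φ
    have h2 := NZ_addTY (F := fun t : GF x.1 x.2 =>
      (addTY P₁).map (mapRingHom ((polyEquiv R₁ (GF x.1 x.2)).symm (φ, t))))
      (Q := P₁.map (mapRingHom φ)) (by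
        intro t x' y'
        rw [addTY_eval]
        have e1 : ((polyEquiv R₁ (GF x.1 x.2)).symm (φ, t)).comp C = φ := by
          ext r
          simp [polyEquiv]
        have e2 : (polyEquiv R₁ (GF x.1 x.2)).symm (φ, t) X = t := by
          simp [polyEquiv]
        rw [e1, e2])
    rw [Finset.sum_sub_distrib, h2, Finset.sum_const, Finset.card_univ, nsmul_eq_mul, hc]
    ring
  rw [Finset.sum_congr rfl (fun φ _ => h1 φ), Finset.sum_const, Finset.card_univ, nsmul_eq_mul,
    hN, Nat.card_eq_fintype_card]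
  ring

variable {d : ℝ} (hd : ∀ σ : ℝ, d < σ → Summable fun x : Nat.Primes × ℕ => (hN R₁ x : ℝ) * pr σ x)
include hd

lemma summable_poly {σ : ℝ} (hσ : d + 1 < σ) :
    Summable fun x : Nat.Primes × ℕ => (hN R₁[X] x : ℝ) * pr σ x := by
  refine (hd (σ - 1) (by linarith)).congr fun x => ?_
  by_cases hx : x.2 = 0
  · simp [pr, hx]
  · have h := pow_mul_pr 1 σ x
    push_cast at h
    rw [hN_poly hx, ← h]
    push_cast
    ring

lemma LD_addTY (P₁ : R₁[X][X]) {s : ℂ} (hs : d + 3 < s.re) :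
    LD (addTY P₁) s = LZ R₁ (s - 3) - LZ R₁ (s - 2) := by
  have h1 : Summable fun x : Nat.Primes × ℕ => (hN R₁ x : ℂ) * pw (s - 3) x := by
    rw [← summable_norm_iff]
    simp only [norm_mul, Complex.norm_natCast, norm_pw]
    apply hd
    simp only [Complex.sub_re, Complex.re_ofNat]
    linarith
  have h2 : Summable fun x : Nat.Primes × ℕ => (hN R₁ x : ℂ) * pw (s - 2) x := by
    rw [← summable_norm_iff]
    simp only [norm_mul, Complex.norm_natCast, norm_pw]
    apply hd
    simp only [Complex.sub_re, Complex.re_ofNat]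
    linarith
  rw [LZ, LZ, ← h1.tsum_sub h2, LD]
  apply tsum_congr
  intro x
  by_cases hx : x.2 = 0
  · obtain ⟨p, n⟩ := x
    simp only at hx
    subst hx
    simp [pw]
  · rw [DZ_addTY P₁ hx]
    have h3 := pow_mul_pw 3 s x
    have h4 := pow_mul_pw 2 s x
    push_cast at h3 h4
    rw [← h3, ← h4]
    push_cast
    ring

end ring

section cont

variable {R₁ : Type} [CommRing R₁] [Algebra.FiniteType ℤ R₁] {P₁ : R₁[X][X]} {k : ℕ}
  {Δ : MvPolynomial (Fin k) R₁[X]} {r : ℕ} {M : ℝ} (hM : MomHyp (addTY P₁) Δ r M) {d : ℝ}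
  (hd : ∀ σ : ℝ, d < σ → Summable fun x : Nat.Primes × ℕ => (hN R₁ x : ℝ) * pr σ x)
include hM hd

/-- The factorisation of the Euler product. -/
theorem addTY_factor (hd0 : 0 ≤ d) :
    ∃ H : ℂ → ℂ, DifferentiableOn ℂ H {s : ℂ | d + 1 + r + k - 1 / 4 < s.re} ∧
      ∀ s : ℂ, d + 1 + r + k + 1 / 2 < s.re →
        HasProd (fun m : MaximalSpectrum ((family (addTY P₁) k Δ).power r).R =>
          localFactor ((family (addTY P₁) k Δ).power r).P m s)
          (Complex.exp (H s) * ((∏' m : MaximalSpectrum R₁,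
            (1 - (qy m : ℂ) ^ (-(s - (r + k + 1))))⁻¹) ^ r)⁻¹) := by
  have hd' : ∀ σ : ℝ, d + 1 < σ →
      Summable fun x : Nat.Primes × ℕ => (hN R₁[X] x : ℝ) * pr σ x :=
    fun σ hσ => summable_poly hd hσ
  refine ⟨fun s => HP (addTY P₁) Δ r s + r * LZ R₁ (s - (r + k)), ?_, ?_⟩
  · apply DifferentiableOn.add (differentiableOn_HP hM hd')
    apply DifferentiableOn.const_mul
    intro s hs
    have hs' : d + 1 + r + k - 1 / 4 < s.re := hs
    have h1 : d < (s - ((r : ℂ) + k)).re := by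
      simp only [Complex.sub_re, Complex.add_re, Complex.natCast_re]
      linarith
    have h2 := (analyticAt_LZ hd h1).differentiableAt
    have h3 : DifferentiableAt ℂ (fun s : ℂ => LZ R₁ (s - ((r : ℂ) + k))) s := by
      have h4 : DifferentiableAt ℂ (fun s : ℂ => s - ((r : ℂ) + k)) s := by fun_prop
      exact DifferentiableAt.comp (f := fun s : ℂ => s - ((r : ℂ) + k)) s h2 h4
    exact h3.differentiableWithinAt
  · intro s hs
    have h := hasProd_factor hM hd' hs rfl
    have hr : 0 < (s - ((r : ℂ) + k + 1)).re := by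
      simp only [Complex.sub_re, Complex.add_re, Complex.natCast_re, Complex.one_re]
      linarith
    have hr' : d < (s - ((r : ℂ) + k + 1)).re := by
      simp only [Complex.sub_re, Complex.add_re, Complex.natCast_re, Complex.one_re]
      linarith
    have h2 := hasProd_LZ' hr (hd _ hr')
    have e1 : LD (addTY P₁) (s - (r + k) + 2) = LZ R₁ (s - (r + k + 1)) -
        LZ R₁ (s - (r + k)) := by
      rw [LD_addTY hd P₁ (by
        simp only [Complex.sub_re, Complex.add_re, Complex.natCast_re, Complex.re_ofNat]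
        linarith)]
      congr 2
      · ring
      · ring
    rw [e1] at h
    have e2 : (∏' m : MaximalSpectrum R₁, (1 - (qy m : ℂ) ^ (-(s - ((r : ℂ) + k + 1))))⁻¹) =
        Complex.exp (LZ R₁ (s - (r + k + 1))) := h2.tprod_eq
    rw [e2]
    convert h using 1
    rw [← Complex.exp_nat_mul, ← Complex.exp_nat_mul, ← Complex.exp_neg, ← Complex.exp_neg,
      ← Complex.exp_add, ← Complex.exp_add]
    congr 1
    ring

/-- The continuation of the Euler product. -/
theorem addTY_cont (hd0 : 0 ≤ d) {ε : ℝ} (hε : 0 < ε) (hε1 : ε ≤ 1 / 4) {Z : ℂ → ℂ}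
    (hZm : MeromorphicOn Z {s : ℂ | d - ε < s.re})
    (hZ : ∀ s : ℂ, d < s.re →
      HasProd (fun m : MaximalSpectrum R₁ => (1 - (qy m : ℂ) ^ (-s))⁻¹) (Z s)) :
    ∃ Φ : ℂ → ℂ, MeromorphicOn Φ {s : ℂ | d + 1 + r + k - ε < s.re} ∧
      (∀ s : ℂ, d + 1 + r + k + 1 / 2 < s.re →
        HasProd (fun m : MaximalSpectrum ((family (addTY P₁) k Δ).power r).R =>
          localFactor ((family (addTY P₁) k Δ).power r).P m s) (Φ s)) ∧
      meromorphicOrderAt Φ ((d : ℂ) + 1 + r + k) = -(r * meromorphicOrderAt Z (d : ℂ)) := by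
  have hd' : ∀ σ : ℝ, d + 1 < σ →
      Summable fun x : Nat.Primes × ℕ => (hN R₁[X] x : ℝ) * pr σ x :=
    fun σ hσ => summable_poly hd hσ
  have hana : ∀ s : ℂ, d + 1 - ε < s.re →
      AnalyticAt ℂ (fun s : ℂ => Complex.exp (-LZ R₁ s)) s := by
    intro s hs
    have h2 := analyticAt_LZ hd (s := s) (by linarith)
    exact h2.neg.cexp
  have hsh : ∀ s : ℂ, d + 1 - ε < s.re → MeromorphicAt (fun s : ℂ => Z (s - 1)) s := by
    intro s hs
    have hg : AnalyticAt ℂ (fun s : ℂ => s - 1) s := analyticAt_id.sub analyticAt_const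
    have h2 : d - ε < (s - 1).re := by
      simp only [Complex.sub_re, Complex.one_re]
      linarith
    have h3 : MeromorphicAt (Z ∘ fun s : ℂ => s - 1) s :=
      MeromorphicAt.comp_analyticAt (hZm _ h2) hg
    exact h3
  have hWm : MeromorphicOn (fun s => Z (s - 1) * Complex.exp (-LZ R₁ s))
      {s : ℂ | d + 1 - ε < s.re} := fun s hs => (hsh s hs).mul (hana s hs).meromorphicAt
  have hW : ∀ s : ℂ, d + 1 < s.re → Z (s - 1) * Complex.exp (-LZ R₁ s) =
      Complex.exp (LD (addTY P₁) (s + 2)) := by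
    intro s hs
    have hs1 : d < (s - 1).re := by
      simp only [Complex.sub_re, Complex.one_re]
      linarith
    have h2 := hasProd_LZ' (R := R₁) (s := s - 1) (by linarith) (hd _ hs1)
    rw [(hZ _ hs1).unique h2, LD_addTY hd P₁ (by
      simp only [Complex.add_re, Complex.re_ofNat]; linarith), ← Complex.exp_add]
    congr 1
    have e1 : s + 2 - 3 = s - 1 := by ring
    have e2 : s + 2 - 2 = s := by ring
    rw [e1, e2]
    ring
  obtain ⟨Φ, h1, h2, h3⟩ := rel_cont hM hd' hε hε1 hWm hW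
  refine ⟨Φ, h1, h2, ?_⟩
  have ed : ((d + 1 : ℝ) : ℂ) = (d : ℂ) + 1 := by push_cast; rfl
  rw [ed] at h3
  rw [h3]
  have h4 : meromorphicOrderAt (fun s => Z (s - 1) * Complex.exp (-LZ R₁ s)) ((d : ℂ) + 1)
      = meromorphicOrderAt Z (d : ℂ) := by
    have h5 := hana ((d : ℂ) + 1) (by
      rw [Complex.add_re, Complex.ofReal_re, Complex.one_re]; linarith)
    have h6 := meromorphicOrderAt_mul_of_ne_zero (f := fun s : ℂ => Z (s - 1)) h5
      (Complex.exp_ne_zero _)
    have h7 := meromorphicOrderAt_comp_sub_const_eq_meromorphicOrderAt (f := Z)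
      (c := (1 : ℂ)) (x := (d : ℂ) + 1)
    have e1 : (d : ℂ) + 1 - 1 = d := by ring
    rw [e1] at h7
    rw [← h7]
    have e3 : meromorphicOrderAt (Z ∘ (· - 1)) ((d : ℂ) + 1) =
        meromorphicOrderAt (fun s : ℂ => Z (s - 1)) ((d : ℂ) + 1) := rfl
    rw [e3, ← h6]
    congr 1
    ext s
    simp only [Pi.mul_apply]
    ring
  rw [h4]

end cont

end Pool.Agent.CAB
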