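import Pool.Agent.CAB.MomDefs
import Pool.Agent.Hhelper85.TowerSum

/-!
# CAB: points of the tower of a family of plane curves with values in a finite field

Homomorphisms from the coordinate ring `S.R[x, y] / (P)` to a field `K` are homomorphisms
`S.R → K` together with a point of the curve over `K`; homomorphisms from `R₀[u]_Δ` to `K` are
homomorphisms `φ : R₀ → K` together with `u ∈ K^k` such that `Δ^φ(u) ≠ 0`.
-/

namespace Pool.Agent.CAB

open Polynomial Finset

section ev

variable {R K : Type*} [CommRing R] [CommRing K]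

lemma ev_eq (f : R →+* K) (x y : K) (P : R[X][X]) :
    (P.map (mapRingHom f)).evalEval x y = P.eval₂ (eval₂RingHom f x) y := by
  rw [← eval₂_evalRingHom, eval₂_map]
  congr 1
  ext n
  · simp
  · simp

end ev

section adjoin

variable {R : Type*} [CommRing R] {K : Type*} [Field K]

/-- The structure map. -/
noncomputable def upR (P : R[X][X]) : R →+* AdjoinRoot P := (AdjoinRoot.of P).comp C

lemma up_eq (S : PolyRing) : S.up = upR S.P := rfl

lemma homR_aux (P : R[X][X]) (g : AdjoinRoot P →+* K) :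
    (P.map (mapRingHom (g.comp (upR P)))).evalEval (g (AdjoinRoot.of P X))
      (g (AdjoinRoot.root P)) = 0 := by
  rw [ev_eq]
  have h := congrArg g (AdjoinRoot.eval₂_root P)
  rw [map_zero, Polynomial.hom_eval₂] at h
  rw [← h]
  congr 1
  ext n
  · simp [upR]
  · simp

lemma homR_aux2 {P : R[X][X]} {f : R →+* K} {x y : K}
    (h : (P.map (mapRingHom f)).evalEval x y = 0) : P.eval₂ (eval₂RingHom f x) y = 0 := by
  rw [← ev_eq]; exact h

lemma homR_sig {P : R[X][X]} {f f' : R →+* K} {z z' : K × K} (hf : f = f') (hz : z = z')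
    (h : (P.map (mapRingHom f)).evalEval z.1 z.2 = 0)
    (h' : (P.map (mapRingHom f')).evalEval z'.1 z'.2 = 0) :
    (⟨f, ⟨z, h⟩⟩ : Σ f : R →+* K, {z : K × K // (P.map (mapRingHom f)).evalEval z.1 z.2 = 0})
      = ⟨f', ⟨z', h'⟩⟩ := by
  subst hf
  subst hz
  rfl

/-- Homomorphisms out of the coordinate ring of a plane curve. -/
noncomputable def homR (P : R[X][X]) (K : Type*) [Field K] : (AdjoinRoot P →+* K) ≃
    Σ f : R →+* K, {z : K × K // (P.map (mapRingHom f)).evalEval z.1 z.2 = 0} where
  toFun g := ⟨g.comp (upR P), ⟨(g (AdjoinRoot.of P X), g (AdjoinRoot.root P)), homR_aux P g⟩⟩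
  invFun z := AdjoinRoot.lift (eval₂RingHom z.1 z.2.1.1) z.2.1.2 (homR_aux2 z.2.2)
  left_inv g := by
    apply AdjoinRoot.ringHom_ext
    · apply Polynomial.ringHom_ext'
      · ext x
        simp [upR]
      · simp
    · simp
  right_inv := by
    rintro ⟨f, ⟨⟨x, y⟩, h⟩⟩
    apply homR_sig
    · ext z
      simp [upR]
    · simp

lemma homR_sum {A : Type*} [CommRing A] [Fintype K] (P : R[X][X]) [Fintype (R →+* K)]
    [Fintype (AdjoinRoot P →+* K)] (G : (R →+* K) → A) :
    ∑ ψ : AdjoinRoot P →+* K, G (ψ.comp (upR P)) =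
      ∑ f : R →+* K, (NF (P.map (mapRingHom f)) : A) * G f := by
  classical
  rw [Fintype.sum_equiv (homR P K) (fun ψ => G (ψ.comp (upR P))) (fun z => G z.1)
    (fun ψ => rfl), Fintype.sum_sigma]
  apply Finset.sum_congr rfl
  intro f _
  simp only [Finset.sum_const, Finset.card_univ, nsmul_eq_mul]
  rw [NF, Nat.card_eq_fintype_card]

lemma adjoin_sum {A : Type*} [CommRing A] [Fintype K] (S : PolyRing) [Fintype (S.R →+* K)]
    [Fintype (S.adjoin.R →+* K)] (g : K[X][X] → A) :
    ∑ ψ : S.adjoin.R →+* K, g (S.adjoin.P.map (mapRingHom ψ)) =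
      ∑ f : S.R →+* K, (NF (S.P.map (mapRingHom f)) : A) * g (S.P.map (mapRingHom f)) := by
  let h : Fintype (AdjoinRoot S.P →+* K) := ‹Fintype (S.adjoin.R →+* K)›
  rw [← homR_sum S.P (fun f => g (S.P.map (mapRingHom f)))]
  refine Fintype.sum_equiv (Equiv.refl (AdjoinRoot S.P →+* K)) _ _ (fun ψ => ?_)
  have e : (S.P.map (mapRingHom (upR S.P))).map (mapRingHom (ψ : AdjoinRoot S.P →+* K)) =
      S.P.map (mapRingHom ((ψ : AdjoinRoot S.P →+* K).comp (upR S.P))) := by
    rw [Polynomial.map_map, ← mapRingHom_comp]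
  show _ = g (S.P.map (mapRingHom ((ψ : AdjoinRoot S.P →+* K).comp (upR S.P))))
  rw [← e]
  rfl

lemma power_succ (S : PolyRing) (r : ℕ) : S.power (r + 1) = (S.power r).adjoin := by
  rw [PolyRing.power, Function.iterate_succ_apply']
  rfl

/-- A homomorphism from the top of the tower restricts to the bottom. -/
lemma power_hom (S : PolyRing) (r : ℕ) : ∃ _ : S.R →+* (S.power r).R, True := by
  induction r with
  | zero => exact ⟨RingHom.id _, trivial⟩
  | succ r ih =>
    obtain ⟨i, -⟩ := ih
    rw [power_succ]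
    exact ⟨((upR (S.power r).P).comp i : S.R →+* AdjoinRoot (S.power r).P), trivial⟩

lemma finite_homAdj (S : PolyRing) [Finite K] [Finite (S.R →+* K)] :
    Finite (S.adjoin.R →+* K) := by
  have : Finite (Σ f : S.R →+* K,
    {z : K × K // (S.P.map (mapRingHom f)).evalEval z.1 z.2 = 0}) := inferInstance
  exact Finite.of_equiv _ (homR S.P K).symm

lemma finite_power (S : PolyRing) [Finite K] [Finite (S.R →+* K)] (r : ℕ) :
    Finite ((S.power r).R →+* K) := by
  induction r with
  | zero => exact (inferInstance : Finite (S.R →+* K))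
  | succ r ih => rw [power_succ]; exact finite_homAdj _

lemma power_sum {A : Type*} [CommRing A] [Fintype K] (S : PolyRing) [Fintype (S.R →+* K)]
    (r : ℕ) : ∀ (_ : Fintype ((S.power r).R →+* K)) (g : K[X][X] → A),
    ∑ ψ : (S.power r).R →+* K, g ((S.power r).P.map (mapRingHom ψ)) =
      ∑ f : S.R →+* K, (NF (S.P.map (mapRingHom f)) : A) ^ r * g (S.P.map (mapRingHom f)) := by
  induction r with
  | zero =>
    intro inst g
    simp only [pow_zero, one_mul]
    exact @Fintype.sum_equiv (S.R →+* K) (S.R →+* K) A inst _ _ (Equiv.refl (S.R →+* K))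
      (fun ψ => g (S.P.map (mapRingHom ψ))) (fun ψ => g (S.P.map (mapRingHom ψ))) (fun ψ => rfl)
  | succ r ih =>
    intro inst g
    have h1 := finite_power (K := K) S r
    let i1 : Fintype ((S.power r).R →+* K) := Fintype.ofFinite _
    have key : ∀ (T : PolyRing) (_ : Fintype (T.R →+* K)), T = (S.power r).adjoin →
        ∑ ψ : T.R →+* K, g (T.P.map (mapRingHom ψ)) =
        ∑ f : (S.power r).R →+* K, (NF ((S.power r).P.map (mapRingHom f)) : A) *
          g ((S.power r).P.map (mapRingHom f)) := by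
      intro T _ hT
      subst hT
      exact adjoin_sum (S.power r) g
    rw [key (S.power (r + 1)) inst (power_succ S r), ih i1 (fun Q => (NF Q : A) * g Q)]
    apply Finset.sum_congr rfl
    intro f _
    ring

end adjoin

section base

variable {R₀ : Type} [CommRing R₀] {K : Type*} [Field K] {k : ℕ}

/-- The good parameters. -/
def Good (Δ : MvPolynomial (Fin k) R₀) (φ : R₀ →+* K) (u : Fin k → K) : Prop :=
  MvPolynomial.eval₂ φ u Δ ≠ 0

/-- The restriction to the constants. -/
noncomputable def rC (Δ : MvPolynomial (Fin k) R₀) (g : Localization.Away Δ →+* K) : R₀ →+* K :=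
  g.comp ((algebraMap (MvPolynomial (Fin k) R₀) (Localization.Away Δ)).comp MvPolynomial.C)

/-- The values of the variables. -/
noncomputable def rX (Δ : MvPolynomial (Fin k) R₀) (g : Localization.Away Δ →+* K) : Fin k → K :=
  fun i => g (algebraMap (MvPolynomial (Fin k) R₀) (Localization.Away Δ) (MvPolynomial.X i))

lemma rC_rX (Δ : MvPolynomial (Fin k) R₀) (g : Localization.Away Δ →+* K) :
    MvPolynomial.eval₂Hom (rC Δ g) (rX Δ g) =
      g.comp (algebraMap (MvPolynomial (Fin k) R₀) (Localization.Away Δ)) := by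
  apply MvPolynomial.ringHom_ext
  · intro r
    simp [rC]
  · intro i
    simp [rX]

lemma base_aux (Δ : MvPolynomial (Fin k) R₀) (g : Localization.Away Δ →+* K) :
    Good Δ (rC Δ g) (rX Δ g) := by
  rw [Good, ← MvPolynomial.coe_eval₂Hom, rC_rX]
  exact ((IsLocalization.Away.algebraMap_isUnit Δ).map g).ne_zero

/-- Homomorphisms out of the base of the family. -/
noncomputable def homBase (Δ : MvPolynomial (Fin k) R₀) (K : Type*) [Field K] :
    (Localization.Away Δ →+* K) ≃
      {z : (R₀ →+* K) × (Fin k → K) // Good Δ z.1 z.2} where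
  toFun g := ⟨(rC Δ g, rX Δ g), base_aux Δ g⟩
  invFun z := IsLocalization.Away.lift Δ (g := MvPolynomial.eval₂Hom z.1.1 z.1.2)
    (by have := z.2; rw [Good] at this; exact isUnit_iff_ne_zero.2 this)
  left_inv g := by
    apply IsLocalization.ringHom_ext (Submonoid.powers Δ)
    ext x
    · simp [rC]
    · simp [rX]
  right_inv := by
    rintro ⟨⟨φ, u⟩, h⟩
    apply Subtype.ext
    apply Prod.ext
    · ext x
      simp [rC]
    · ext i
      simp [rX]

lemma family_map (P₀ : R₀[X][X]) (Δ : MvPolynomial (Fin k) R₀) (g : Localization.Away Δ →+* K) :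
    ((famP P₀ k).map (mapRingHom (algebraMap (MvPolynomial (Fin k) R₀)
      (Localization.Away Δ)))).map (mapRingHom g) =
      fam (P₀.map (mapRingHom (rC Δ g))) (rX Δ g) := by
  rw [famP, fam]
  simp only [Polynomial.map_add, Polynomial.map_map, Polynomial.map_C]
  congr 2
  · rw [mapRingHom_comp, mapRingHom_comp]
    rfl
  · rw [coe_mapRingHom, coe_mapRingHom]
    simp [rX, Polynomial.map_sum]

open Classical in
lemma base_sum {A : Type*} [CommRing A] [Fintype K] [Fintype (R₀ →+* K)] (P₀ : R₀[X][X])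
    (Δ : MvPolynomial (Fin k) R₀) [inst : Fintype ((family P₀ k Δ).R →+* K)] (g : K[X][X] → A) :
    ∑ ψ : (family P₀ k Δ).R →+* K, g ((family P₀ k Δ).P.map (mapRingHom ψ)) =
      ∑ φ : R₀ →+* K, ∑ u : Fin k → K, if Good Δ φ u then
        g (fam (P₀.map (mapRingHom φ)) u) else 0 := by
  have h1 := @Fintype.sum_equiv (Localization.Away Δ →+* K)
    {z : (R₀ →+* K) × (Fin k → K) // Good Δ z.1 z.2} A inst _ _ (homBase Δ K)
    (fun ψ => g (((famP P₀ k).map (mapRingHom (algebraMap (MvPolynomial (Fin k) R₀)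
      (Localization.Away Δ)))).map (mapRingHom ψ)))
    (fun z => g (fam (P₀.map (mapRingHom z.1.1)) z.1.2)) (fun ψ => by
      rw [family_map]
      rfl)
  refine Eq.trans h1 ?_
  rw [← Finset.sum_subtype (Finset.univ.filter fun z : (R₀ →+* K) × (Fin k → K) =>
    Good Δ z.1 z.2) (by simp) (fun z => g (fam (P₀.map (mapRingHom z.1)) z.2)),
    Finset.sum_filter, Fintype.sum_prod_type]

open Classical in
/-- Sums over the points of the tower with values in a finite field. -/
theorem tower_sum {A : Type*} [CommRing A] [Fintype K] [Fintype (R₀ →+* K)] (P₀ : R₀[X][X])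
    (Δ : MvPolynomial (Fin k) R₀) (r : ℕ) (inst : Fintype (((family P₀ k Δ).power r).R →+* K))
    (g : K[X][X] → A) :
    ∑ ψ : ((family P₀ k Δ).power r).R →+* K,
        g (((family P₀ k Δ).power r).P.map (mapRingHom ψ)) =
      ∑ φ : R₀ →+* K, ∑ u : Fin k → K, if Good Δ φ u then
        (NF (fam (P₀.map (mapRingHom φ)) u) : A) ^ r * g (fam (P₀.map (mapRingHom φ)) u)
        else 0 := by
  have hf : Finite ((family P₀ k Δ).R →+* K) := by
    have : Finite {z : (R₀ →+* K) × (Fin k → K) // Good Δ z.1 z.2} := inferInstance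
    exact Finite.of_equiv _ (homBase Δ K).symm
  let _ : Fintype ((family P₀ k Δ).R →+* K) := Fintype.ofFinite _
  rw [power_sum (family P₀ k Δ) r inst g,
    base_sum P₀ Δ (fun Q => (NF Q : A) ^ r * g Q)]

end base

section ft

open Pool.Agent.Hhelper85

instance ft_power {R₀ : Type} [CommRing R₀] [Algebra.FiniteType ℤ R₀] (P₀ : R₀[X][X]) (k : ℕ)
    (Δ : MvPolynomial (Fin k) R₀) (r : ℕ) :
    Algebra.FiniteType ℤ ((family P₀ k Δ).power r).R := by
  induction r with
  | zero =>
    have h0 : @Algebra.FiniteType ℤ (MvPolynomial (Fin k) R₀) _ _ (Ring.toIntAlgebra _) :=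
      ft_trans (A := R₀) (B := MvPolynomial (Fin k) R₀) ‹_› inferInstance
    exact ft_trans (A := MvPolynomial (Fin k) R₀) (B := Localization.Away Δ) h0 inferInstance
  | succ r ih =>
    rw [power_succ]
    set S := (family P₀ k Δ).power r
    have h1 : @Algebra.FiniteType ℤ S.R[X] _ _ (Ring.toIntAlgebra _) :=
      ft_trans (A := S.R) (B := S.R[X]) ih inferInstance
    have h2 : @Algebra.FiniteType ℤ (AdjoinRoot S.P) _ _ (Ring.toIntAlgebra _) :=
      ft_trans (A := S.R[X]) (B := AdjoinRoot S.P) h1 inferInstance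
    exact h2

end ft

end Pool.Agent.CAB
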