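import Pool.Agent.CAB.Mlt
import Pool.Agent.CAB.Gcd
import Pool.Agent.CAB.Ded

/-!
# Integrality and specialisation of the derivative of an ideal class

`O` is a discrete valuation ring with fraction field `L` (`j : O → L`) and residue field `κ`
(`ρ : O → κ`), `D` a derivation of `L` with `D O ⊆ O` (given as `DO`), the curve is defined over
`O` with coefficients killed by `D`, with smooth base changes to `L` and `κ`.

Paper proof. Let `π` be a uniformiser. `R(O) = Aff CO.P` is a noetherian domain, `R(O) → R(κ)` is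
surjective with kernel `π R(O)` (`aff_surjective`, `aff_ker`), `R(L) = R(O)[1/π]` (`aff_loc`; every
nonzero element of `O` is a unit times a power of `π`): `SatData`. Let `I_O = I ∩ R(O)`, saturated.
By `invI_of_sat` (with `K = L((τ))`, `i = lmap j ∘ ev`) there are `u_s ∈ I_O`, `v_s ∈ L((τ))` with
`∑ u_s v_s = 1`, `v_s I_O ⊆ R(O)`. `F₁ = ∑ v_s D(u_s)` is a multiplier of `I` (every element of
`I` is an element of `I_O` divided by an element of `O`; computation: `z = ∑ u_s (v_s z)`,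
`D z - F₁ z = ∑ u_s D(v_s z)`, `v_s z ∈ R(L)`).
`gcd_step` gives `h, α_s, β_s ∈ O((τ))`, `u_s = h α_s`, `β_s = h v_s`. Put
`G = ∑ β_s D(α_s) ∈ O((τ))`. Then `F₁ - D h / h = ∑ v_s D(h α_s) - (D h / h) ∑ u_s v_s
= ∑ v_s h D(α_s) = G`, and `D h / h ∈ L[[τ]]` (`lder_div_mem`).
Over `κ`: bars denote reduction. `I_O ⊄ π R(O)` (`sp_ne_bot`), so not all `u_s` are in `π R(O)`
(every `z ∈ I_O` is `∑ u_s (v_s z)`), so some `ū_s ≠ 0` and `h̄ ≠ 0`. `∑ α_s β_s = 1` (in `L((τ))`
it is `∑ u_s v_s`). Put `v'_s = β̄_s / h̄`. `∑ ū_s v'_s = 1`; for `z ∈ I_O`: `v_s z = w ∈ R(O)`,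
`β_s z = h w`, so `v'_s z̄ = w̄ ∈ R(κ)`. As before `F' = ∑ v'_s δ(ū_s)` is a multiplier of the
ideal `sp I` of `R(κ)`, and `F' - δ h̄ / h̄ = ∑ β̄_s δ(ᾱ_s) = Ḡ`.
-/

namespace Pool.Agent.CAB

variable {O L κ : Type*} [CommRing O] [IsDomain O] [IsDiscreteValuationRing O] [Field L] [Field κ]
  {a b : ℕ}

omit [IsDomain O] [IsDiscreteValuationRing O] [Field κ] in
/-- The general form of a multiplier. -/
theorem int_mlt {D : Der L} {C : Crv a b L} (hc : Cst D C) {I : Ideal (Aff C.P)} {n : ℕ}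
    {U : Fin n → Aff C.P} {V : Fin n → LaurentSeries L} (hU : ∀ s, U s ∈ I)
    (hV : ∀ s, ∀ z ∈ I, ∃ w, C.ev w = V s * C.ev z) (hs : ∑ s, C.ev (U s) * V s = 1) :
    Mlt D C I (∑ s, V s * lder D (C.ev (U s))) := by
  intro z hz
  choose w hw using fun s => hV s z hz
  choose t ht using fun s => hc.lder_ev (w s)
  refine ⟨∑ s, U s * t s, I.sum_mem fun s _ => I.mul_mem_right _ (hU s), ?_⟩
  have e : C.ev z = ∑ s, C.ev (U s) * C.ev (w s) := by
    calc C.ev z = (∑ s, C.ev (U s) * V s) * C.ev z := by rw [hs, one_mul]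
      _ = ∑ s, C.ev (U s) * C.ev (w s) := by
        rw [Finset.sum_mul]
        refine Finset.sum_congr rfl fun s _ => ?_
        rw [hw]
        ring
  have e2 : lder D (C.ev z) = ∑ s, (C.ev (U s) * lder D (C.ev (w s)) +
      C.ev (w s) * lder D (C.ev (U s))) := by
    rw [e, map_sum]
    exact Finset.sum_congr rfl fun s _ => (lder D).leib _ _
  rw [e2, map_sum, Finset.sum_mul, ← Finset.sum_sub_distrib]
  refine Finset.sum_congr rfl fun s _ => ?_
  rw [map_mul, ht, hw]
  ring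

omit [IsDomain O] [IsDiscreteValuationRing O] [Field κ] in
/-- The comparison of a multiplier with the series defined over the ring. -/
theorem int_diff {n : ℕ} {D : Der L} {U A V B : Fin n → LaurentSeries L} {H : LaurentSeries L}
    (hH : H ≠ 0) (hU : ∀ s, U s = H * A s) (hB : ∀ s, B s = H * V s)
    (hs : ∑ s, U s * V s = 1) :
    (∑ s, V s * lder D (U s)) - ∑ s, B s * lder D (A s) ∈ nonneg L := by
  have e : (∑ s, V s * lder D (U s)) - ∑ s, B s * lder D (A s) = lder D H / H := by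
    have e1 : H * ∑ s, V s * A s = 1 := by
      rw [← hs, Finset.mul_sum]
      refine Finset.sum_congr rfl fun s _ => ?_
      rw [hU]
      ring
    have e2 : (∑ s, V s * lder D (U s)) - ∑ s, B s * lder D (A s) =
        (∑ s, V s * A s) * lder D H := by
      rw [← Finset.sum_sub_distrib, Finset.sum_mul]
      refine Finset.sum_congr rfl fun s _ => ?_
      rw [hU, hB, (lder D).leib]
      ring
    rw [e2, eq_div_iff hH, mul_right_comm, mul_comm _ H, e1, one_mul]
  rw [e]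
  exact lder_div_mem D H

/-- The reduction data for the affine rings over a discrete valuation ring. -/
theorem satData_aff (hn : Num a b) {j : O →+* L} (hj : Function.Injective j)
    (hfrac : ∀ z : L, ∃ p q : O, q ≠ 0 ∧ z * j q = j p) {ρ : O →+* κ}
    (hρ : Function.Surjective ρ) {π : O} (hπ : Irreducible π) {CO : Crv a b O} {CL : Crv a b L}
    {Cκ : Crv a b κ} (h1 : Rel CO CL j) (h2 : Rel CO Cκ ρ) :
    SatData (CO.cc π) h2.aff h1.aff := by
  have ha : 1 ≤ a := le_trans (by norm_num) hn.ha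
  have hj0 : ∀ q : O, q ≠ 0 → j q ≠ 0 := fun q hq h => hq (hj (by rw [h, map_zero]))
  have hker : RingHom.ker ρ = Ideal.span {π} := by
    have hmax : (RingHom.ker ρ).IsMaximal := RingHom.ker_isMaximal_of_surjective ρ hρ
    rw [IsLocalRing.eq_maximalIdeal hmax, hπ.maximalIdeal_eq]
  have hker' : ∀ s, ρ s = 0 → ∃ t, s = π * t := by
    intro s hs
    have : s ∈ Ideal.span {π} := by
      rw [← hker]
      exact hs
    exact Ideal.mem_span_singleton.1 this
  have hπ0 : ρ π = 0 := by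
    have : π ∈ RingHom.ker ρ := by
      rw [hker]
      exact Ideal.subset_span rfl
    exact this
  have hunit : ∀ q : O, q ≠ 0 → IsUnit (CL.cc (j q)) := fun q hq =>
    (isUnit_iff_ne_zero.2 (hj0 q hq)).map CL.cc
  refine ⟨h2.aff_surjective hρ, fun z hz => h2.aff_ker hn.co ha hker' hz, ?_,
    h1.aff_injective hn.co ha hj, ?_, ?_⟩
  · rw [Rel.aff_cc, hπ0, map_zero]
  · rw [Rel.aff_cc]
    exact hunit π hπ.ne_zero
  · intro z
    obtain ⟨r, w, hr, hw⟩ := h1.aff_loc (by
      intro t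
      obtain ⟨p, q, hq, h⟩ := hfrac t
      exact ⟨p, q, hj0 q hq, h⟩) z
    have hr0 : r ≠ 0 := by
      rintro rfl
      exact hr (map_zero _)
    obtain ⟨N, u, hu⟩ := IsDiscreteValuationRing.eq_unit_mul_pow_irreducible hr0 hπ
    refine ⟨N, w * CO.cc ((u⁻¹ : Oˣ) : O), ?_⟩
    rw [map_mul, ← hw, hu, Rel.aff_cc, Rel.aff_cc, map_mul, map_mul, map_pow, map_pow]
    have h3 : CL.cc (j (u : O)) * CL.cc (j ((u⁻¹ : Oˣ) : O)) = 1 := by
      rw [← map_mul, ← map_mul, Units.mul_inv, map_one, map_one]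
    calc CL.cc (j π) ^ N * z = CL.cc (j π) ^ N * z * (CL.cc (j (u : O)) *
          CL.cc (j ((u⁻¹ : Oˣ) : O))) := by rw [h3, mul_one]
      _ = _ := by ring

theorem int_main (hn : Num a b) {j : O →+* L} (hj : Function.Injective j)
    (hfrac : ∀ z : L, ∃ p q : O, q ≠ 0 ∧ z * j q = j p) {ρ : O →+* κ}
    (hρ : Function.Surjective ρ) {CO : Crv a b O} {CL : Crv a b L}
    {Cκ : Crv a b κ} (h1 : Rel CO CL j) (h2 : Rel CO Cκ ρ) (hsL : Smooth CL.P)
    (hsκ : Smooth Cκ.P) {D : Der L} {DO : Der O} (hD : Der.Ext DO D j) (hc : Cst DO CO)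
    {I : Ideal (Aff CL.P)} (hI : I ≠ ⊥) :
    sp h2.aff h1.aff I ≠ ⊥ ∧
    ∃ (G : LaurentSeries O) (F : LaurentSeries L), Mlt D CL I F ∧ F - lmap j G ∈ nonneg L ∧
      ∀ δ : Der κ, Der.Ext DO δ ρ → ∃ F' : LaurentSeries κ,
        Mlt δ Cκ (sp h2.aff h1.aff I) F' ∧ F' - lmap ρ G ∈ nonneg κ := by
  have ha : 1 ≤ a := le_trans (by norm_num) hn.ha
  obtain ⟨π, hπ⟩ := IsDiscreteValuationRing.exists_irreducible O
  have hSD := satData_aff hn hj hfrac hρ hπ h1 h2
  have hdom : IsDomain (Aff CO.P) := CO.isDomain hn.co ha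
  have hnoeth : IsNoetherianRing (Aff CO.P) :=
    isNoetherianRing_of_surjective _ _ (AdjoinRoot.mk CO.P) AdjoinRoot.mk_surjective
  have hdL : IsDedekindDomain (Aff CL.P) := isDedekind hn CL hsL
  have hdκ : IsDedekindDomain (Aff Cκ.P) := isDedekind hn Cκ hsκ
  have hcL : Cst D CL := Cst.map hD h1 hc
  have hevO : Function.Injective CO.ev := CO.ev_injective hn.co ha
  have hevκ : Function.Injective Cκ.ev := Cκ.ev_injective hn.co ha
  have hlj : Function.Injective (lmap j) := lmap_injective hj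
  have hspne := sp_ne_bot hSD hI
  refine ⟨hspne, ?_⟩
  obtain ⟨n, u, v, hu, hv, hsum⟩ := invI_of_sat hSD (i := (lmap j).comp CO.ev)
    (hlj.comp hevO) (comap_ne_bot hSD hI) (fun a ha => sat_comap hSD ha)
  simp only [RingHom.comp_apply] at hv hsum
  have hu' : ∀ s, h1.aff (u s) ∈ I := fun s => hu s
  obtain ⟨h, α, β, hh, hα, hβ⟩ := gcd_step hj (u := fun s => CO.ev (u s)) (v := v)
    (fun s t => by
      obtain ⟨w, hw⟩ := hv s (u t) (hu t)
      exact ⟨CO.ev w, hw⟩) hsum
  have hhL : lmap j h ≠ 0 := fun h0 => hh (hlj (by rw [h0, map_zero]))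
  refine ⟨∑ s, β s * lder DO (α s), ∑ s, v s * lder D (CL.ev (h1.aff (u s))), ?_, ?_, ?_⟩
  · -- the multiplier over `L`
    refine int_mlt hcL hu' ?_ ?_
    · intro s z hz
      obtain ⟨N, w0, hw0⟩ := hSD.loc z
      have hw0' : w0 ∈ I.comap h1.aff := by
        rw [Ideal.mem_comap, ← hw0]
        exact I.mul_mem_left _ hz
      obtain ⟨w, hw⟩ := hv s w0 hw0'
      obtain ⟨e, he⟩ := hSD.junit.pow N
      refine ⟨((e⁻¹ : (Aff CL.P)ˣ) : Aff CL.P) * h1.aff w, ?_⟩
      have h4 : CL.ev ((e⁻¹ : (Aff CL.P)ˣ) : Aff CL.P) * CL.ev (h1.aff (CO.cc π) ^ N) = 1 := by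
        rw [← map_mul, ← he, Units.inv_mul, map_one]
      rw [map_mul, Rel.ev_aff, hw, ← Rel.ev_aff h1, ← hw0, map_mul]
      calc CL.ev ((e⁻¹ : (Aff CL.P)ˣ) : Aff CL.P) *
            (v s * (CL.ev (h1.aff (CO.cc π) ^ N) * CL.ev z))
          = (CL.ev ((e⁻¹ : (Aff CL.P)ˣ) : Aff CL.P) * CL.ev (h1.aff (CO.cc π) ^ N)) *
            (v s * CL.ev z) := by ring
        _ = v s * CL.ev z := by rw [h4, one_mul]
    · simp only [Rel.ev_aff]
      exact hsum
  · -- comparison with `G`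
    have h5 : lmap j (∑ s, β s * lder DO (α s)) = ∑ s, lmap j (β s) * lder D (lmap j (α s)) := by
      rw [map_sum]
      refine Finset.sum_congr rfl fun s _ => ?_
      rw [map_mul, lder_lmap hD]
    rw [h5]
    refine int_diff (H := lmap j h) hhL ?_ hβ ?_
    · intro s
      rw [Rel.ev_aff, hα s, map_mul]
    · simp only [Rel.ev_aff]
      exact hsum
  · -- the residue field
    intro δ hδ
    have hcκ : Cst δ Cκ := Cst.map hδ h2 hc
    have hαβ : ∑ s, α s * β s = 1 := by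
      apply hlj
      rw [map_sum, map_one, ← hsum]
      refine Finset.sum_congr rfl fun s _ => ?_
      rw [map_mul, hβ, hα s, map_mul]
      ring
    have hstar : ∀ s, ∀ z ∈ I.comap h1.aff, ∃ w, β s * CO.ev z = h * CO.ev w := by
      intro s z hz
      obtain ⟨w, hw⟩ := hv s z hz
      refine ⟨w, hlj ?_⟩
      rw [map_mul, map_mul, hβ, hw]
      ring
    have hhκ : lmap ρ h ≠ 0 := by
      intro h0
      obtain ⟨y, hy, hy0⟩ := Submodule.exists_mem_ne_zero_of_ne_bot hspne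
      obtain ⟨z, hz, rfl⟩ := (mem_sp hSD).1 hy
      apply hy0
      apply hevκ
      rw [Rel.ev_aff, map_zero]
      have h6 : CO.ev z = ∑ s, α s * (β s * CO.ev z) := by
        calc CO.ev z = (∑ s, α s * β s) * CO.ev z := by rw [hαβ, one_mul]
          _ = _ := by
            rw [Finset.sum_mul]
            exact Finset.sum_congr rfl fun s _ => mul_assoc _ _ _
      rw [h6, map_sum]
      refine Finset.sum_eq_zero fun s _ => ?_
      obtain ⟨w, hw⟩ := hstar s z hz
      rw [hw, map_mul, map_mul, h0, zero_mul, mul_zero]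
    have hus : ∑ s, Cκ.ev (h2.aff (u s)) * (lmap ρ (β s) / lmap ρ h) = 1 := by
      rw [← map_one (lmap ρ), ← hαβ, map_sum]
      refine Finset.sum_congr rfl fun s _ => ?_
      rw [Rel.ev_aff, hα s, map_mul, map_mul]
      field_simp
    refine ⟨∑ s, (lmap ρ (β s) / lmap ρ h) * lder δ (Cκ.ev (h2.aff (u s))), ?_, ?_⟩
    · refine int_mlt hcκ ?_ ?_ hus
      · intro s
        exact (mem_sp hSD).2 ⟨u s, hu' s, rfl⟩
      · intro s y hy
        obtain ⟨z, hz, rfl⟩ := (mem_sp hSD).1 hy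
        obtain ⟨w, hw⟩ := hstar s z hz
        refine ⟨h2.aff w, ?_⟩
        have h7 := congrArg (lmap ρ) hw
        rw [map_mul, map_mul] at h7
        rw [Rel.ev_aff, Rel.ev_aff, div_mul_eq_mul_div, h7, mul_div_cancel_left₀ _ hhκ]
    · have h8 : lmap ρ (∑ s, β s * lder DO (α s)) =
          ∑ s, lmap ρ (β s) * lder δ (lmap ρ (α s)) := by
        rw [map_sum]
        refine Finset.sum_congr rfl fun s _ => ?_
        rw [map_mul, lder_lmap hδ]
      rw [h8]
      refine int_diff (H := lmap ρ h) hhκ ?_ ?_ hus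
      · intro s
        rw [Rel.ev_aff, hα s, map_mul]
      · intro s
        rw [mul_div_cancel₀ _ hhκ]

end Pool.Agent.CAB
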