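import Mathlib

/-!
# Invertible ideals inside a field; saturated ideals over a discrete valuation ring

Paper proofs.

`invI_of_dedekind`: a nonzero ideal `J` of a Dedekind domain `R` is invertible: `J * J⁻¹ = 1` as
fractional ideals of the fraction field `Q` of `R`, so `1 = ∑ u_s v_s` with `u_s ∈ J`,
`v_s ∈ J⁻¹ ⊆ Q`; `i : R → K` injective extends to `Q → K`. (Or: choose `0 ≠ x ∈ J` and an ideal
`J'` with `J J' = (x)`; then `x = ∑ u_s w_s`, `w_s ∈ J'`, and `v_s = i(w_s) / i(x)`.)

`invI_of_sat`: (`R` noetherian domain, `π ∈ R` with `R / π = Rk` and `R[1/π] = RL` Dedekind,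
`J` nonzero and saturated). Put `N = {v ∈ K : v i(J) ⊆ i(R)}` and
`A = {r ∈ R : i(r) ∈ i(J) N}`, an ideal of `R`; suppose that `A` is contained in a maximal ideal
`𝔪`.
(1) `π ∈ 𝔪`. The ideal `ρ(J)` of `Rk` is nonzero (if `J ⊆ π R` then by saturation `J = π J`,
hence `J = 0` by Krull's intersection theorem / Nakayama in the noetherian domain `R`; if `π` is a
unit then `Rk = 0`, excluded), so it is locally principal at `𝔪 / π`: there are `g ∈ J` and
`s ∉ 𝔪` with `ρ(s) ρ(J) ⊆ ρ(g) Rk`. So `s J ⊆ g R + π R`, and `s j = g a + π b` gives `π b ∈ J`,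
so `b ∈ J`: `s J ⊆ g R + π J`. By Nakayama (or Cayley-Hamilton: `J` is finitely generated) there is
`t ∉ 𝔪` with `t J ⊆ g R`. Then `i(t) / i(g) ∈ N` and `t ∈ A ⊆ 𝔪`, a contradiction.
(2) `π ∉ 𝔪`. `J RL` is invertible: `1 = ∑ a_s b_s` with `a_s ∈ J`, `b_s J ⊆ RL`; multiply by a
power of `π` (`J` is finitely generated): `π^n ∈ A ⊆ 𝔪`, a contradiction.
Hence `A = R`.
-/

namespace Pool.Agent.CAB

variable {K : Type*} [Field K]

/-- The ideal `J` is invertible, with inverse inside the field `K`. -/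
def InvI {R : Type*} [CommRing R] (i : R →+* K) (J : Ideal R) : Prop :=
  ∃ (n : ℕ) (u : Fin n → R) (v : Fin n → K), (∀ s, u s ∈ J) ∧
    (∀ s, ∀ z ∈ J, ∃ w, i w = v s * i z) ∧ ∑ s, i (u s) * v s = 1

namespace InvAux

/-- `c` is a sum of products of elements of `J` and of the inverse of `J`. -/
def Rep {R : Type*} [CommRing R] (i : R →+* K) (J : Ideal R) (c : K) : Prop :=
  ∃ (n : ℕ) (u : Fin n → R) (v : Fin n → K), (∀ s, u s ∈ J) ∧
    (∀ s, ∀ z ∈ J, ∃ w, i w = v s * i z) ∧ ∑ s, i (u s) * v s = c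

section
variable {R : Type*} [CommRing R] {i : R →+* K} {J : Ideal R}

theorem rep_zero : Rep i J 0 :=
  ⟨0, Fin.elim0, Fin.elim0, fun s => s.elim0, fun s => s.elim0, by simp⟩

theorem rep_add {c d : K} (hc : Rep i J c) (hd : Rep i J d) : Rep i J (c + d) := by
  obtain ⟨n, u, v, h1, h2, rfl⟩ := hc
  obtain ⟨m, u', v', h3, h4, rfl⟩ := hd
  refine ⟨n + m, Fin.append u u', Fin.append v v', ?_, ?_, ?_⟩
  · intro s
    refine Fin.addCases (fun k => ?_) (fun k => ?_) s
    · rw [Fin.append_left]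
      exact h1 k
    · rw [Fin.append_right]
      exact h3 k
  · intro s
    refine Fin.addCases (fun k => ?_) (fun k => ?_) s
    · rw [Fin.append_left]
      exact h2 k
    · rw [Fin.append_right]
      exact h4 k
  · rw [Fin.sum_univ_add]
    simp only [Fin.append_left, Fin.append_right]

theorem rep_smul (r : R) {c : K} (hc : Rep i J c) : Rep i J (i r * c) := by
  obtain ⟨n, u, v, h1, h2, rfl⟩ := hc
  refine ⟨n, fun s => r * u s, v, fun s => Ideal.mul_mem_left _ _ (h1 s), h2, ?_⟩
  rw [Finset.mul_sum]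
  refine Finset.sum_congr rfl fun s _ => ?_
  rw [map_mul, mul_assoc]

theorem rep_mul {g : R} (hg : g ∈ J) {v : K} (hv : ∀ z ∈ J, ∃ w, i w = v * i z) :
    Rep i J (i g * v) :=
  ⟨1, fun _ => g, fun _ => v, fun _ => hg, fun _ => hv, by simp⟩

/-- The colon ideal. -/
def colon (J : Ideal R) (x : R) : Ideal R where
  carrier := {w | ∀ z ∈ J, x ∣ w * z}
  add_mem' := by
    intro a b ha hb z hz
    rw [add_mul]
    exact dvd_add (ha z hz) (hb z hz)
  zero_mem' := by
    intro z _
    rw [zero_mul]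
    exact dvd_zero _
  smul_mem' := by
    intro c a ha z hz
    rw [smul_eq_mul, mul_assoc]
    exact Dvd.dvd.mul_left (ha z hz) _

theorem mem_colon {J : Ideal R} {x w : R} : w ∈ colon J x ↔ ∀ z ∈ J, x ∣ w * z := Iff.rfl

theorem rep_div (hi : Function.Injective i) {x : R} (hx : x ≠ 0) {y : R}
    (hy : y ∈ J * colon J x) : Rep i J (i y / i x) := by
  have hix : i x ≠ 0 := (map_ne_zero_iff i hi).2 hx
  refine Submodule.mul_induction_on hy ?_ ?_
  · intro u hu w hw
    have h1 := rep_mul (i := i) (J := J) hu (v := i w / i x) (by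
      intro z hz
      obtain ⟨c, hc⟩ := mem_colon.1 hw z hz
      refine ⟨c, ?_⟩
      have h2 : i w * i z = i x * i c := by rw [← map_mul, hc, map_mul]
      rw [div_mul_eq_mul_div, h2, mul_div_cancel_left₀ _ hix])
    rw [map_mul, mul_div_assoc]
    exact h1
  · intro a b ha hb
    rw [map_add, add_div]
    exact rep_add ha hb

/-- The ideal of the elements that are sums of such products. -/
def A (i : R →+* K) (J : Ideal R) : Ideal R where
  carrier := {r | Rep i J (i r)}
  add_mem' := by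
    intro a b ha hb
    have h1 := rep_add (i := i) (J := J) ha hb
    rw [← map_add] at h1
    exact h1
  zero_mem' := by
    show Rep i J (i 0)
    rw [map_zero]
    exact rep_zero
  smul_mem' := by
    intro c a ha
    have h1 := rep_smul (i := i) (J := J) c ha
    rw [← map_mul] at h1
    exact h1

theorem mem_A {r : R} : r ∈ A i J ↔ Rep i J (i r) := Iff.rfl

theorem inv_of_one_mem (h : (1 : R) ∈ A i J) : InvI i J := by
  have h1 := mem_A.1 h
  rw [map_one] at h1
  exact h1

end

end InvAux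

open InvAux

/-- Nonzero ideals of a Dedekind domain are invertible. -/
theorem invI_of_dedekind {R : Type*} [CommRing R] [IsDedekindDomain R] {i : R →+* K}
    (hi : Function.Injective i) {I : Ideal R} (hI : I ≠ ⊥) : InvI i I := by
  obtain ⟨x, hx, hx0⟩ := Submodule.exists_mem_ne_zero_of_ne_bot hI
  obtain ⟨J', hJ'⟩ := Ideal.dvd_iff_le.2 ((Ideal.span_singleton_le_iff_mem _).2 hx)
  have h1 : J' ≤ colon I x := by
    intro w hw z hz
    rw [← Ideal.mem_span_singleton, hJ', mul_comm w z]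
    exact Ideal.mul_mem_mul hz hw
  have h2 : x ∈ I * colon I x := by
    have h3 : x ∈ I * J' := by
      rw [← hJ']
      exact Ideal.mem_span_singleton_self x
    exact Ideal.mul_mono_right h1 h3
  have h3 := rep_div (i := i) hi hx0 h2
  rw [div_self ((map_ne_zero_iff i hi).2 hx0)] at h3
  exact h3

/-- The situation of a ring `R` over a discrete valuation ring with uniformiser `π`: `Rk` is the
reduction modulo `π` and `RL` is `R[1/π]`. -/
structure SatData {R Rk RL : Type*} [CommRing R] [CommRing Rk] [CommRing RL] (π : R)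
    (ρ : R →+* Rk) (j : R →+* RL) : Prop where
  surj : Function.Surjective ρ
  ker : ∀ a, ρ a = 0 → ∃ b, a = π * b
  pi0 : ρ π = 0
  jinj : Function.Injective j
  junit : IsUnit (j π)
  loc : ∀ z : RL, ∃ (N : ℕ) (w : R), j π ^ N * z = j w

variable {R Rk RL : Type*} [CommRing R] [CommRing Rk] [CommRing RL] [IsDomain R] {π : R}
  {ρ : R →+* Rk} {j : R →+* RL}

/-- A nonzero saturated ideal has a nonzero reduction. -/
theorem exists_red [IsNoetherianRing R] [Nontrivial Rk] (h : SatData π ρ j) {J : Ideal R}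
    (hJ : J ≠ ⊥) (hsat : ∀ a, π * a ∈ J → a ∈ J) : ∃ a ∈ J, ρ a ≠ 0 := by
  by_contra hcon
  push Not at hcon
  have h1 : J ≤ Ideal.span {π} • J := by
    intro a ha
    obtain ⟨b, hb⟩ := h.ker a (hcon a ha)
    have h3 : b ∈ J := hsat b (by rw [← hb]; exact ha)
    rw [hb]
    exact Submodule.smul_mem_smul (Ideal.mem_span_singleton_self π) h3
  obtain ⟨z, hz1, hz2⟩ := Submodule.exists_sub_one_mem_and_smul_eq_zero_of_fg_of_le_smul
    (Ideal.span {π}) J (IsNoetherian.noetherian J) h1
  obtain ⟨p, hp, hp0⟩ := Submodule.exists_mem_ne_zero_of_ne_bot hJ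
  have h4 := hz2 p hp
  rw [smul_eq_mul] at h4
  have h5 : z = 0 := (mul_eq_zero.1 h4).resolve_right hp0
  rw [h5, zero_sub, Ideal.mem_span_singleton] at hz1
  obtain ⟨c, hc⟩ := hz1
  have h6 := congrArg ρ hc
  rw [map_neg, map_one, map_mul, h.pi0, zero_mul, neg_eq_zero] at h6
  exact one_ne_zero h6

/-- Saturated nonzero ideals are invertible. -/
theorem invI_of_sat [IsNoetherianRing R] [IsDedekindDomain Rk] [IsDedekindDomain RL]
    (h : SatData π ρ j) {i : R →+* K} (hi : Function.Injective i) {J : Ideal R} (hJ : J ≠ ⊥)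
    (hsat : ∀ a, π * a ∈ J → a ∈ J) : InvI i J := by
  apply inv_of_one_mem
  by_contra hnot
  have hAtop : A i J ≠ ⊤ := by
    intro htop
    apply hnot
    rw [htop]
    exact Submodule.mem_top
  obtain ⟨M, hM, hAM⟩ := Ideal.exists_le_maximal (A i J) hAtop
  by_cases hπM : π ∈ M
  · -- the case `π ∈ M`
    have hex := exists_red h hJ hsat
    set Q : Ideal Rk := J.map ρ with hQ
    set Mb : Ideal Rk := M.map ρ with hMb
    have hQ0 : Q ≠ ⊥ := by
      obtain ⟨a, ha, hρa⟩ := hex
      intro h0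
      apply hρa
      have : ρ a ∈ Q := Ideal.mem_map_of_mem ρ ha
      rw [h0] at this
      exact this
    have hMbmax : Mb.IsMaximal := by
      rcases Ideal.map_eq_top_or_isMaximal_of_surjective ρ h.surj hM with h1 | h1
      · exfalso
        have h2 : (1 : Rk) ∈ Ideal.map ρ M := by rw [h1]; exact Submodule.mem_top
        obtain ⟨m, hm, hm1⟩ := (Ideal.mem_map_iff_of_surjective ρ h.surj).1 h2
        obtain ⟨t, ht⟩ := h.ker (m - 1) (by rw [map_sub, hm1, map_one, sub_self])
        apply hM.ne_top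
        rw [Ideal.eq_top_iff_one]
        have h4 : (1 : R) = m - π * t := by rw [← ht]; ring
        rw [h4]
        exact Ideal.sub_mem _ hm (Ideal.mul_mem_right _ _ hπM)
      · exact h1
    -- an element of `Q` not in `Q * Mb`
    have hlt : ∃ x ∈ Q, x ∉ Q * Mb := by
      by_contra hcon
      push Not at hcon
      have h1 : Q * Mb = Q * 1 := by
        rw [mul_one]
        exact le_antisymm Ideal.mul_le_left hcon
      have h2 : Mb = 1 := mul_left_cancel₀ hQ0 h1
      apply hMbmax.ne_top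
      rw [h2, Ideal.one_eq_top]
    obtain ⟨x, hxQ, hxM⟩ := hlt
    have hsup : Q ≤ Ideal.span {x} ⊔ Q * Mb := by
      have hKQ : Ideal.span {x} ⊔ Q * Mb ≤ Q :=
        sup_le ((Ideal.span_singleton_le_iff_mem _).2 hxQ) Ideal.mul_le_left
      obtain ⟨L, hL⟩ := Ideal.dvd_iff_le.2 hKQ
      have h1 : Q * Mb ≤ Q * L := by rw [← hL]; exact le_sup_right
      have h2 : L ∣ Mb := by
        have := Ideal.dvd_iff_le.2 h1
        exact (mul_dvd_mul_iff_left hQ0).1 this
      have h3 : Mb ≤ L := Ideal.dvd_iff_le.1 h2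
      by_cases h4 : L = ⊤
      · rw [hL, h4, ← Ideal.one_eq_top, mul_one]
      · exfalso
        apply hxM
        rw [hMbmax.eq_of_le h4 h3, ← hL]
        exact (le_sup_left : Ideal.span {x} ≤ _) (Ideal.mem_span_singleton_self x)
    obtain ⟨φ, hφP, hφx⟩ := (Ideal.mem_map_iff_of_surjective ρ h.surj).1 hxQ
    have hφ0 : φ ≠ 0 := by
      intro h0
      apply hxM
      rw [← hφx, h0, map_zero]
      exact Ideal.zero_mem _
    have hPle : J ≤ Ideal.span {φ} ⊔ M • J := by
      intro a ha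
      have h1 : ρ a ∈ Ideal.span {x} ⊔ Q * Mb := hsup (Ideal.mem_map_of_mem ρ ha)
      obtain ⟨y, hy, w, hw, hyw⟩ := Submodule.mem_sup.1 h1
      obtain ⟨c, hc⟩ := Ideal.mem_span_singleton.1 hy
      obtain ⟨r, hr⟩ := h.surj c
      have hw' : w ∈ Ideal.map ρ (M * J) := by
        rw [Ideal.map_mul, mul_comm]
        exact hw
      obtain ⟨m, hm, hmw⟩ := (Ideal.mem_map_iff_of_surjective ρ h.surj).1 hw'
      obtain ⟨t, ht⟩ := h.ker (a - φ * r - m) (by
        rw [map_sub, map_sub, map_mul, hφx, hr, hmw, ← hc, ← hyw]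
        ring)
      have hmP : m ∈ J := Ideal.mul_le_right hm
      have htP : t ∈ J := by
        apply hsat
        rw [← ht]
        exact Ideal.sub_mem _ (Ideal.sub_mem _ ha (Ideal.mul_mem_right _ _ hφP)) hmP
      have h3 : a = φ * r + (m + π * t) := by rw [← ht]; ring
      rw [h3]
      refine Submodule.add_mem_sup (Ideal.mul_mem_right _ _ (Ideal.mem_span_singleton_self φ)) ?_
      exact Submodule.add_mem _ hm (Submodule.smul_mem_smul hπM htP)
    obtain ⟨z, hzM, hzP⟩ := Submodule.exists_sub_one_mem_and_smul_le_of_fg_of_le_sup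
      (IsNoetherian.noetherian J) le_rfl hPle
    have hzP' : ∀ p ∈ J, ∃ s, z * p = φ * s := by
      intro p hp
      have : z • p ∈ Ideal.span {φ} := hzP (Submodule.smul_mem_pointwise_smul p z J hp)
      rw [smul_eq_mul, Ideal.mem_span_singleton] at this
      exact this
    have hiφ : i φ ≠ 0 := (map_ne_zero_iff i hi).2 hφ0
    have hzA : z ∈ A i J := by
      rw [mem_A]
      have h1 := rep_mul (i := i) (J := J) hφP (v := i z / i φ) (by
        intro p hp
        obtain ⟨s, hs⟩ := hzP' p hp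
        refine ⟨s, ?_⟩
        have h2 : i z * i p = i φ * i s := by rw [← map_mul, hs, map_mul]
        rw [div_mul_eq_mul_div, h2, mul_div_cancel_left₀ _ hiφ])
      rwa [mul_div_cancel₀ _ hiφ] at h1
    apply hM.ne_top
    rw [Ideal.eq_top_iff_one]
    have h1 : (1 : R) = z - (z - 1) := by ring
    rw [h1]
    exact Ideal.sub_mem _ (hAM hzA) hzM
  · -- the case `π ∉ M`
    obtain ⟨x, hx, hx0⟩ := Submodule.exists_mem_ne_zero_of_ne_bot hJ
    have hjx : j x ∈ J.map j := Ideal.mem_map_of_mem j hx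
    obtain ⟨J', hJ'⟩ := Ideal.dvd_iff_le.2 ((Ideal.span_singleton_le_iff_mem _).2 hjx)
    have hpu : ∀ N : ℕ, IsUnit (j π ^ N) := fun N => h.junit.pow N
    -- elements of the extension of `J`
    have hmap : ∀ u ∈ J.map j, ∃ (N : ℕ) (u0 : R), u0 ∈ J ∧ j π ^ N * u = j u0 := by
      intro u hu
      refine Submodule.span_induction ?_ ?_ ?_ ?_ hu
      · rintro _ ⟨a, ha, rfl⟩
        exact ⟨0, a, ha, by rw [pow_zero, one_mul]⟩
      · exact ⟨0, 0, J.zero_mem, by rw [map_zero, mul_zero]⟩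
      · rintro a b _ _ ⟨N, a0, ha0, ha⟩ ⟨N', b0, hb0, hb⟩
        refine ⟨N + N', π ^ N' * a0 + π ^ N * b0,
          J.add_mem (J.mul_mem_left _ ha0) (J.mul_mem_left _ hb0), ?_⟩
        rw [map_add, map_mul, map_mul, map_pow, map_pow, ← ha, ← hb]
        ring
      · rintro c a _ ⟨N, a0, ha0, ha⟩
        obtain ⟨N', c0, hc0⟩ := h.loc c
        refine ⟨N' + N, c0 * a0, J.mul_mem_left _ ha0, ?_⟩
        rw [map_mul, ← ha, ← hc0, smul_eq_mul]
        ring
    -- elements of the inverse
    have hcol : ∀ w ∈ J', ∃ (N : ℕ) (w0 : R), w0 ∈ colon J x ∧ j π ^ N * w = j w0 := by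
      intro w hw
      obtain ⟨N, w0, hw0⟩ := h.loc w
      -- a uniform power
      have hdiv : ∀ z ∈ J, ∃ M : ℕ, x ∣ π ^ M * (w0 * z) := by
        intro z hz
        have h1 : j z * w ∈ Ideal.span {j x} := by
          rw [hJ']
          exact Ideal.mul_mem_mul (Ideal.mem_map_of_mem j hz) hw
        obtain ⟨c, hc⟩ := Ideal.mem_span_singleton.1 h1
        obtain ⟨M, c0, hc0⟩ := h.loc c
        refine ⟨M, π ^ N * c0, h.jinj ?_⟩
        simp only [map_mul, map_pow]
        rw [← hw0, ← hc0]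
        linear_combination (j π ^ M * j π ^ N) * hc
      obtain ⟨S, hS⟩ := (IsNoetherian.noetherian J : J.FG)
      have hunif : ∃ M : ℕ, ∀ z ∈ S, x ∣ π ^ M * (w0 * z) := by
        classical
        have hSJ : ∀ z ∈ S, z ∈ J := fun z hz => by
          rw [← hS]
          exact Submodule.subset_span hz
        choose! f hf using fun z hz => hdiv z (hSJ z hz)
        refine ⟨S.sup f, fun z hz => ?_⟩
        obtain ⟨k, hk⟩ := Nat.exists_eq_add_of_le (Finset.le_sup (f := f) hz)
        rw [hk, add_comm, pow_add, mul_assoc]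
        exact Dvd.dvd.mul_left (hf z hz) _
      obtain ⟨M, hM'⟩ := hunif
      refine ⟨M + N, π ^ M * w0, ?_, ?_⟩
      · rw [mem_colon]
        intro z hz
        rw [← hS] at hz
        refine Submodule.span_induction ?_ ?_ ?_ ?_ hz
        · intro a ha
          rw [mul_assoc]
          exact hM' a ha
        · rw [mul_zero]
          exact dvd_zero _
        · intro a b _ _ ha hb
          rw [mul_add]
          exact dvd_add ha hb
        · intro c a _ ha
          rw [smul_eq_mul, mul_left_comm]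
          exact Dvd.dvd.mul_left ha _
      · rw [map_mul, map_pow, ← hw0]
        ring
    have hprod : ∀ y ∈ J.map j * J', ∃ (N : ℕ) (y0 : R), y0 ∈ J * colon J x ∧
        j π ^ N * y = j y0 := by
      intro y hy
      refine Submodule.mul_induction_on hy ?_ ?_
      · intro u hu w hw
        obtain ⟨N, u0, hu0, hu1⟩ := hmap u hu
        obtain ⟨N', w0, hw0, hw1⟩ := hcol w hw
        refine ⟨N + N', u0 * w0, Ideal.mul_mem_mul hu0 hw0, ?_⟩
        rw [map_mul, ← hu1, ← hw1]
        ring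
      · rintro a b ⟨N, a0, ha0, ha⟩ ⟨N', b0, hb0, hb⟩
        refine ⟨N + N', π ^ N' * a0 + π ^ N * b0,
          Ideal.add_mem _ (Ideal.mul_mem_left _ _ ha0) (Ideal.mul_mem_left _ _ hb0), ?_⟩
        rw [map_add, map_mul, map_mul, map_pow, map_pow, ← ha, ← hb]
        ring
    obtain ⟨N, y0, hy0, hy1⟩ := hprod (j x) (by
      rw [← hJ']
      exact Ideal.mem_span_singleton_self _)
    have hy2 : π ^ N * x = y0 := h.jinj (by rw [map_mul, map_pow, hy1])
    have h5 := rep_div (i := i) hi hx0 hy0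
    have hix : i x ≠ 0 := (map_ne_zero_iff i hi).2 hx0
    rw [← hy2, map_mul, mul_div_cancel_right₀ _ hix] at h5
    exact hπM (hM.isPrime.mem_of_pow_mem N (hAM (mem_A.2 h5)))

/-- The specialisation of an ideal of `RL`. -/
def sp (ρ : R →+* Rk) (j : R →+* RL) (I : Ideal RL) : Ideal Rk := (I.comap j).map ρ

theorem mem_sp (h : SatData π ρ j) {I : Ideal RL} {b : Rk} :
    b ∈ sp ρ j I ↔ ∃ a, j a ∈ I ∧ ρ a = b :=
  Ideal.mem_map_iff_of_surjective ρ h.surj

theorem sat_comap (h : SatData π ρ j) {I : Ideal RL} {a : R} (ha : π * a ∈ I.comap j) :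
    a ∈ I.comap j := by
  rw [Ideal.mem_comap, map_mul] at ha
  rw [Ideal.mem_comap]
  exact (Ideal.unit_mul_mem_iff_mem I h.junit).1 ha

theorem comap_ne_bot (h : SatData π ρ j) {I : Ideal RL} (hI : I ≠ ⊥) : I.comap j ≠ ⊥ := by
  obtain ⟨z, hz, hz0⟩ := Submodule.exists_mem_ne_zero_of_ne_bot hI
  obtain ⟨N, w, hw⟩ := h.loc z
  intro h0
  have h1 : w ∈ I.comap j := by
    rw [Ideal.mem_comap, ← hw]
    exact Ideal.mul_mem_left _ _ hz
  rw [h0, Ideal.mem_bot] at h1
  rw [h1, map_zero] at hw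
  exact hz0 ((h.junit.pow N).mul_right_eq_zero.1 hw)

/-- A nonzero saturated ideal has a nonzero reduction (see (1) above). -/
theorem sp_ne_bot [IsNoetherianRing R] [Nontrivial Rk] (h : SatData π ρ j) {I : Ideal RL}
    (hI : I ≠ ⊥) : sp ρ j I ≠ ⊥ := by
  obtain ⟨a, ha, ha0⟩ := exists_red h (comap_ne_bot h hI) (fun a ha => sat_comap h ha)
  intro h0
  apply ha0
  have h1 : ρ a ∈ sp ρ j I := Ideal.mem_map_of_mem ρ ha
  rw [h0] at h1
  exact h1

end Pool.Agent.CAB
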