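import Pool.Agent.CAB.Der

/-!
# Laurent series: base change, coefficientwise derivations, integral part
-/

namespace Pool.Agent.CAB

open HahnSeries

variable {S T U : Type*} [CommRing S] [CommRing T] [CommRing U]

/-- Coefficientwise map of Laurent series. -/
noncomputable def lmap (φ : S →+* T) : LaurentSeries S →+* LaurentSeries T where
  toFun f := f.map φ
  map_one' := by
    ext n
    show φ ((1 : LaurentSeries S).coeff n) = _
    rw [HahnSeries.coeff_one, HahnSeries.coeff_one]
    split_ifs <;> simp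
  map_zero' := by ext n; simp
  map_add' f g := by ext n; simp
  map_mul' f g := HahnSeries.map_mul (φ : S →ₙ+* T)

@[simp] lemma coeff_lmap (φ : S →+* T) (f : LaurentSeries S) (n : ℤ) :
    (lmap φ f).coeff n = φ (f.coeff n) := rfl

lemma lmap_lmap (φ : S →+* T) (ψ : T →+* U) (f : LaurentSeries S) :
    lmap ψ (lmap φ f) = lmap (ψ.comp φ) f := rfl

lemma lmap_injective {φ : S →+* T} (h : Function.Injective φ) : Function.Injective (lmap φ) := by
  intro f g hfg
  ext n
  exact h (by rw [← coeff_lmap, ← coeff_lmap, hfg])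

@[simp] lemma lmap_C (φ : S →+* T) (s : S) : lmap φ (HahnSeries.C s) = HahnSeries.C (φ s) := by
  ext n
  rw [coeff_lmap, HahnSeries.C_apply, HahnSeries.C_apply, HahnSeries.coeff_single,
    HahnSeries.coeff_single]
  split_ifs <;> simp

@[simp] lemma lmap_single (φ : S →+* T) (n : ℤ) (s : S) :
    lmap φ (HahnSeries.single n s) = HahnSeries.single n (φ s) := by
  ext m
  rw [coeff_lmap, HahnSeries.coeff_single, HahnSeries.coeff_single]
  split_ifs <;> simp

/-- Coefficientwise derivation of Laurent series. -/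
noncomputable def lder (D : Der S) : Der (LaurentSeries S) where
  toFun f := f.map (D : S →+ S)
  map_zero' := by ext n; simp
  map_add' f g := by ext n; simp
  leib' f g := by
    have hf : (f.map (D : S →+ S) : LaurentSeries S).support ⊆ f.support := support_map_subset _ _
    have hg : (g.map (D : S →+ S) : LaurentSeries S).support ⊆ g.support := support_map_subset _ _
    ext n
    change D ((f * g).coeff n) = (f * g.map (D : S →+ S) + g * f.map (D : S →+ S)).coeff n
    rw [HahnSeries.coeff_add, mul_comm g, HahnSeries.coeff_mul,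
      HahnSeries.coeff_mul_right' g.isPWO_support hg, HahnSeries.coeff_mul_left' f.isPWO_support hf,
      map_sum, ← Finset.sum_add_distrib]
    refine Finset.sum_congr rfl fun ij _ => ?_
    rw [D.leib]
    change _ = f.coeff ij.1 * D (g.coeff ij.2) + D (f.coeff ij.1) * g.coeff ij.2
    ring

@[simp] lemma coeff_lder (D : Der S) (f : LaurentSeries S) (n : ℤ) :
    (lder D f).coeff n = D (f.coeff n) := rfl

lemma coeff_mul_eq_zero {n m : ℤ} {f g : LaurentSeries S} (hf : ∀ k < n, f.coeff k = 0)
    (hg : ∀ k < m, g.coeff k = 0) {k : ℤ} (hk : k < n + m) : (f * g).coeff k = 0 := by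
  rw [HahnSeries.coeff_mul]
  refine Finset.sum_eq_zero fun ij hij => ?_
  have h1 := (Finset.mem_antidiagonal.1 hij).2.2
  by_cases h2 : ij.1 < n
  · rw [hf _ h2, zero_mul]
  · rw [hg _ (by omega), mul_zero]

/-- Laurent series without terms of negative degree. -/
def nonneg (S : Type*) [CommRing S] : Subring (LaurentSeries S) where
  carrier := {f | ∀ n < 0, f.coeff n = 0}
  mul_mem' := by
    intro f g hf hg n hn
    exact coeff_mul_eq_zero (n := 0) (m := 0) hf hg (by simpa using hn)
  one_mem' := by
    intro n hn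
    rw [HahnSeries.coeff_one, if_neg hn.ne]
  add_mem' := by
    intro f g hf hg n hn
    rw [HahnSeries.coeff_add, hf n hn, hg n hn, add_zero]
  zero_mem' := by
    intro n _
    rfl
  neg_mem' := by
    intro f hf n hn
    rw [HahnSeries.coeff_neg, hf n hn, neg_zero]

lemma mem_nonneg {f : LaurentSeries S} : f ∈ nonneg S ↔ ∀ n < 0, f.coeff n = 0 := Iff.rfl

/-- `f` starts with `τ ^ n`. -/
def LeadOne (n : ℤ) (f : LaurentSeries S) : Prop := f.coeff n = 1 ∧ ∀ m < n, f.coeff m = 0

lemma LeadOne.lmap {n : ℤ} {f : LaurentSeries S} (h : LeadOne n f) (φ : S →+* T) :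
    LeadOne n (lmap φ f) :=
  ⟨by rw [coeff_lmap, h.1, map_one], fun m hm => by rw [coeff_lmap, h.2 m hm, map_zero]⟩

/-- the lowest coefficient of a product -/
lemma coeff_mul_lead_aux {n m : ℤ} {f g : LaurentSeries S} (hf : ∀ k < n, f.coeff k = 0)
    (hg : ∀ k < m, g.coeff k = 0) : (f * g).coeff (n + m) = f.coeff n * g.coeff m := by
  classical
  rw [HahnSeries.coeff_mul]
  rw [Finset.sum_eq_single (n, m)]
  · intro ij hij hne
    have h1 := (Finset.mem_antidiagonal.1 hij).2.2
    by_cases h2 : ij.1 < n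
    · rw [hf _ h2, zero_mul]
    · by_cases h3 : ij.2 < m
      · rw [hg _ h3, mul_zero]
      · exfalso
        apply hne
        ext <;> simp only <;> omega
  · intro hnm
    rw [Finset.mem_antidiagonal] at hnm
    simp only [HahnSeries.mem_support, and_true, not_and_or, not_not] at hnm
    rcases hnm with h | h
    · rw [h, zero_mul]
    · rw [h, mul_zero]

lemma LeadOne.mul {n m : ℤ} {f g : LaurentSeries S} (hf : LeadOne n f) (hg : LeadOne m g) :
    LeadOne (n + m) (f * g) :=
  ⟨by rw [coeff_mul_lead_aux hf.2 hg.2, hf.1, hg.1, one_mul],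
    fun _ hk => coeff_mul_eq_zero hf.2 hg.2 hk⟩

lemma leadOne_one : LeadOne 0 (1 : LaurentSeries S) :=
  ⟨by rw [HahnSeries.coeff_one, if_pos rfl], fun m hm => by
    rw [HahnSeries.coeff_one, if_neg hm.ne]⟩

lemma LeadOne.pow {n : ℤ} {f : LaurentSeries S} (hf : LeadOne n f) (k : ℕ) :
    LeadOne (k * n) (f ^ k) := by
  induction k with
  | zero => simpa using leadOne_one
  | succ k ih =>
    rw [pow_succ]
    have := ih.mul hf
    have h2 : ((k + 1 : ℕ) : ℤ) * n = k * n + n := by push_cast; ring
    rwa [h2]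

/-- Every coefficient of `f` in degree `< n` vanishes. -/
def OrdGe (n : ℤ) (f : LaurentSeries S) : Prop := ∀ m < n, f.coeff m = 0

lemma OrdGe.mul {n m : ℤ} {f g : LaurentSeries S} (hf : OrdGe n f) (hg : OrdGe m g) :
    OrdGe (n + m) (f * g) := fun _ hk => coeff_mul_eq_zero hf hg hk

/-- the leading coefficient of a product -/
lemma coeff_mul_lead {n m : ℤ} {f g : LaurentSeries S} (hf : OrdGe n f) (hg : OrdGe m g) :
    (f * g).coeff (n + m) = f.coeff n * g.coeff m := coeff_mul_lead_aux hf hg

lemma exists_ordGe (f : LaurentSeries S) : ∃ n : ℤ, OrdGe n f :=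
  ⟨f.order, fun _ hm => HahnSeries.coeff_eq_zero_of_lt_order hm⟩

/-- a nonzero Laurent series has a first coefficient -/
lemma exists_lead {f : LaurentSeries S} (hf : f ≠ 0) : ∃ n : ℤ, OrdGe n f ∧ f.coeff n ≠ 0 :=
  ⟨f.order, fun _ hm => HahnSeries.coeff_eq_zero_of_lt_order hm, fun h => hf (HahnSeries.coeff_order_eq_zero.1 h)⟩

/-- In characteristic zero constants of `d/dτ` are the constant series; stated through the
derivative of Mathlib. -/
lemma nonneg_iff_ordGe {f : LaurentSeries S} : f ∈ nonneg S ↔ OrdGe 0 f := Iff.rfl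

/-- Over a field `D h / h` has no pole: `h = τ ^ n * u`. -/
theorem lder_div_mem {L : Type*} [Field L] (D : Der L) (h : LaurentSeries L) :
    lder D h / h ∈ nonneg L := by
  by_cases hh : h = 0
  · rw [hh, div_zero]
    exact (nonneg L).zero_mem
  obtain ⟨n, hn, hn0⟩ := exists_lead hh
  obtain ⟨m, hm, hm0⟩ := exists_lead (inv_ne_zero hh)
  have h1 : (h * h⁻¹).coeff (n + m) = h.coeff n * h⁻¹.coeff m := coeff_mul_lead hn hm
  have h2 : n + m = 0 := by
    by_contra hne
    rw [mul_inv_cancel₀ hh, HahnSeries.coeff_one, if_neg hne] at h1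
    exact mul_ne_zero hn0 hm0 h1.symm
  have h3 : OrdGe n (lder D h) := by
    intro k hk
    rw [coeff_lder, hn k hk, map_zero]
  rw [nonneg_iff_ordGe, div_eq_mul_inv, ← h2]
  exact h3.mul hm

end Pool.Agent.CAB
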