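import Pool.Agent.CAB.MomDefs

/-!
# CAB module MOM: moments of the traces in the family `P₀ + u_0 + u_1 x + ... + u_{k-1} x^{k-1}`

`K` a finite field with `q` elements, `n(x, c) = #{y : P₀(x, y) + c = 0}`, `b(x, c) = 1 - n(x, c)`,
`L_x(u) = ∑ u_i x^i`. Then `a_u := af (fam P₀ u) = ∑_x b(x, L_x(u))` and `∑_c b(x, c) = 0`.
If `x₁ ∉ {x₂, ..., x_t}`, `t ≤ k`, there is `w ∈ K^k` with `L_{x_j}(w) = 0` (`j ≥ 2`), `L_{x₁}(w) = 1`
(coefficients of the normalised polynomial `∏_{j≥2} (X - x_j)`), so substituting `u + s w` and averaging over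
`s ∈ K` gives `∑_u b(x₁, L_{x₁}(u)) ∏_{j ≥ 2} b(x_j, L_{x_j}(u)) = 0`.
Hence `∑_u a_u = 0`, `∑_u a_u² = q^(k-1) ∑_{x, c} b(x, c)² = q^(k-1) (#Z - q²)`
(`∑_{x,c} n = q²`, `∑_{x,c} n² = #Z`; `∑_u g(L_x(u)) = q^(k-1) ∑_c g(c)`).
If `P₀` is monic in `y` of degree `a ≥ 1`, `|b| ≤ a`. Fourth moment: only the tuples `(x₁, ..., x₄)` in which
every entry is repeated contribute; then `x₁ = x₂, x₃ = x₄` or `x₁ = x₃, x₂ = x₄` or `x₁ = x₄, x₂ = x₃`: at most
`3 q²` tuples, each contributes at most `a⁴ q^k`.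
-/

namespace Pool.Agent.CAB

open Polynomial Finset

variable {K : Type*} [Field K] [Fintype K] [DecidableEq K]

/-- `b(x, c) = 1 - #{y : P₀(x, y) + c = 0}`. -/
noncomputable def momB (P₀ : K[X][X]) (x c : K) : ℤ :=
  1 - ∑ y : K, if P₀.evalEval x y + c = 0 then 1 else 0

/-- `L_x(u)`. -/
def momL {k : ℕ} (u : Fin k → K) (x : K) : K := ∑ i : Fin k, u i * x ^ (i : ℕ)

omit [Fintype K] [DecidableEq K] in
theorem momL_add {k : ℕ} (u w : Fin k → K) (s x : K) :
    momL (u + s • w) x = momL u x + s * momL w x := by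
  unfold momL
  rw [Finset.mul_sum, ← Finset.sum_add_distrib]
  refine Finset.sum_congr rfl fun i _ => ?_
  simp only [Pi.add_apply, Pi.smul_apply, smul_eq_mul]
  ring

omit [Fintype K] [DecidableEq K] in
theorem mom_eval_fam (P₀ : K[X][X]) {k : ℕ} (u : Fin k → K) (x y : K) :
    (fam P₀ u).evalEval x y = P₀.evalEval x y + momL u x := by
  unfold fam momL
  rw [Polynomial.evalEval_add, Polynomial.evalEval_C, Polynomial.eval_finsetSum]
  congr 1
  refine Finset.sum_congr rfl fun i _ => ?_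
  simp

theorem mom_NF (P : K[X][X]) :
    (NF P : ℤ) = ∑ x : K, ∑ y : K, if P.evalEval x y = 0 then 1 else 0 := by
  unfold NF
  rw [Nat.card_eq_fintype_card, Fintype.card_subtype, Finset.card_filter, Fintype.sum_prod_type]
  push_cast
  rfl

theorem mom_NZ (P : K[X][X]) :
    (NZ P : ℤ) = ∑ x : K, ∑ y : K, ∑ y' : K,
      if P.evalEval x y = P.evalEval x y' then 1 else 0 := by
  unfold NZ
  rw [Nat.card_eq_fintype_card, Fintype.card_subtype, Finset.card_filter, Fintype.sum_prod_type]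
  push_cast
  refine Finset.sum_congr rfl fun x _ => ?_
  rw [Fintype.sum_prod_type]

theorem mom_af (P₀ : K[X][X]) {k : ℕ} (u : Fin k → K) :
    af (fam P₀ u) = ∑ x : K, momB P₀ x (momL u x) := by
  unfold af momB
  rw [mom_NF, Finset.sum_sub_distrib]
  simp only [mom_eval_fam]
  congr 1
  rw [Finset.sum_const, Nat.card_eq_fintype_card, Finset.card_univ]
  simp

theorem mom_sum_B (P₀ : K[X][X]) (x : K) : ∑ c : K, momB P₀ x c = 0 := by
  unfold momB
  rw [Finset.sum_sub_distrib, Finset.sum_comm]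
  have h : ∀ y : K, ∑ c : K, (if P₀.evalEval x y + c = 0 then (1 : ℤ) else 0) = 1 := by
    intro y
    have h1 : ∀ c : K, (P₀.evalEval x y + c = 0) ↔ (c = -P₀.evalEval x y) := by
      intro c
      constructor
      · intro h
        linear_combination h
      · intro h
        rw [h]
        ring
    simp only [h1]
    rw [Finset.sum_ite_eq' Finset.univ (-P₀.evalEval x y)]
    simp
  simp only [h]
  simp

theorem mom_sum_B' (P₀ : K[X][X]) (x d : K) : ∑ s : K, momB P₀ x (d + s) = 0 := by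
  rw [← mom_sum_B P₀ x]
  exact Fintype.sum_equiv (Equiv.addLeft d) _ _ (fun s => rfl)

omit [DecidableEq K] in
theorem mom_shift {k : ℕ} (F : (Fin k → K) → ℤ) (w : Fin k → K) :
    (Fintype.card K : ℤ) * ∑ u, F u = ∑ u, ∑ s : K, F (u + s • w) := by
  rw [Finset.sum_comm]
  have h : ∀ s : K, ∑ u, F (u + s • w) = ∑ u, F u := fun s =>
    Fintype.sum_equiv (Equiv.addRight (s • w)) _ _ (fun u => rfl)
  simp only [h]
  rw [Finset.sum_const, Finset.card_univ, nsmul_eq_mul]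

omit [Fintype K] in
theorem mom_exists_w {k : ℕ} (T : Finset K) (x₁ : K) (hx : x₁ ∉ T) (hT : T.card < k) :
    ∃ w : Fin k → K, momL w x₁ = 1 ∧ ∀ x ∈ T, momL w x = 0 := by
  set p : K[X] := ∏ t ∈ T, (X - C t) with hp
  have hc : p.eval x₁ ≠ 0 := by
    rw [hp, Polynomial.eval_prod, Finset.prod_ne_zero_iff]
    intro t ht
    simp only [eval_sub, eval_X, eval_C]
    intro h
    have : x₁ = t := by linear_combination h
    exact hx (this ▸ ht)
  have hdeg : p.natDegree < k := by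
    rw [hp, Polynomial.natDegree_finsetProd_X_sub_C_eq_card]
    exact hT
  have hL : ∀ x, momL (fun i : Fin k => (p.eval x₁)⁻¹ * p.coeff i) x =
      (p.eval x₁)⁻¹ * p.eval x := by
    intro x
    have e := Polynomial.eval_eq_sum_range' hdeg x
    generalize (p.eval x₁)⁻¹ = d
    unfold momL
    rw [e, Finset.mul_sum, ← Fin.sum_univ_eq_sum_range (fun i => d * (p.coeff i * x ^ i)) k]
    refine Finset.sum_congr rfl fun i _ => ?_
    ring
  refine ⟨fun i => (p.eval x₁)⁻¹ * p.coeff i, ?_, ?_⟩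
  · rw [hL, inv_mul_cancel₀ hc]
  · intro x hx
    have e : p.eval x = 0 := by
      rw [hp, Polynomial.eval_prod]
      exact Finset.prod_eq_zero hx (by simp)
    rw [hL, e, mul_zero]

theorem mom_vanish (P₀ : K[X][X]) {k : ℕ} (T : Finset K) (x₁ : K) (hx : x₁ ∉ T)
    (hT : T.card < k) (G : (Fin k → K) → ℤ)
    (hG : ∀ u u' : Fin k → K, (∀ x ∈ T, momL u x = momL u' x) → G u = G u') :
    ∑ u, momB P₀ x₁ (momL u x₁) * G u = 0 := by
  obtain ⟨w, hw1, hw0⟩ := mom_exists_w T x₁ hx hT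
  have h := mom_shift (fun u => momB P₀ x₁ (momL u x₁) * G u) w
  have h1 : ∀ u : Fin k → K, ∑ s : K, momB P₀ x₁ (momL (u + s • w) x₁) * G (u + s • w) = 0 := by
    intro u
    have h2 : ∀ s : K, momB P₀ x₁ (momL (u + s • w) x₁) * G (u + s • w) =
        momB P₀ x₁ (momL u x₁ + s) * G u := by
      intro s
      have e1 : G (u + s • w) = G u := by
        apply hG
        intro x hx
        rw [momL_add, hw0 x hx, mul_zero, add_zero]
      rw [e1, momL_add, hw1, mul_one]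
    simp only [h2]
    rw [← Finset.sum_mul, mom_sum_B', zero_mul]
  simp only [h1] at h
  rw [Finset.sum_const_zero] at h
  have hq : (Fintype.card K : ℤ) ≠ 0 := by
    exact_mod_cast Fintype.card_ne_zero
  exact (mul_eq_zero.1 h).resolve_left hq

theorem mom_equi {k : ℕ} (hk : 1 ≤ k) (x : K) (g : K → ℤ) :
    ∑ u : Fin k → K, g (momL u x) = (Fintype.card K : ℤ) ^ (k - 1) * ∑ c, g c := by
  obtain ⟨w, hw1, -⟩ := mom_exists_w (k := k) (∅ : Finset K) x (by simp) (by rw [Finset.card_empty]; omega)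
  have h := mom_shift (fun u : Fin k → K => g (momL u x)) w
  have h1 : ∀ u : Fin k → K, ∑ s : K, g (momL (u + s • w) x) = ∑ c, g c := by
    intro u
    have h2 : ∀ s : K, g (momL (u + s • w) x) = g (momL u x + s) := by
      intro s
      rw [momL_add, hw1, mul_one]
    simp only [h2]
    exact Fintype.sum_equiv (Equiv.addLeft (momL u x)) _ _ (fun s => rfl)
  simp only [h1] at h
  rw [Finset.sum_const, Finset.card_univ, nsmul_eq_mul, Fintype.card_fun, Fintype.card_fin] at h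
  have hq : (Fintype.card K : ℤ) ≠ 0 := by
    exact_mod_cast Fintype.card_ne_zero
  obtain ⟨j, rfl⟩ : ∃ j, k = j + 1 := ⟨k - 1, by omega⟩
  have h3 : (Fintype.card K : ℤ) * ∑ u : Fin (j + 1) → K, g (momL u x) =
      (Fintype.card K : ℤ) * ((Fintype.card K : ℤ) ^ (j + 1 - 1) * ∑ c, g c) := by
    rw [h, Nat.add_sub_cancel]
    push_cast
    ring
  exact mul_left_cancel₀ hq h3

theorem sum_af (P₀ : K[X][X]) {k : ℕ} (hk : 1 ≤ k) :
    ∑ u : Fin k → K, af (fam P₀ u) = 0 := by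
  simp only [mom_af]
  rw [Finset.sum_comm]
  apply Finset.sum_eq_zero
  intro x _
  have h := mom_vanish P₀ (k := k) (∅ : Finset K) x (by simp) (by rw [Finset.card_empty]; omega) (fun _ => 1)
    (fun _ _ _ => rfl)
  simpa using h

theorem mom_sum_sq (P₀ : K[X][X]) :
    ∑ x : K, ∑ c : K, momB P₀ x c ^ 2 = (NZ P₀ : ℤ) - (Fintype.card K : ℤ) ^ 2 := by
  have h1 : ∀ x c : K, momB P₀ x c ^ 2 = 2 * momB P₀ x c - 1 +
      (∑ y : K, if P₀.evalEval x y + c = 0 then (1 : ℤ) else 0) *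
        ∑ y : K, if P₀.evalEval x y + c = 0 then (1 : ℤ) else 0 := by
    intro x c
    unfold momB
    ring
  have h2 : ∀ x : K, ∑ c : K, (∑ y : K, if P₀.evalEval x y + c = 0 then (1 : ℤ) else 0) *
      (∑ y : K, if P₀.evalEval x y + c = 0 then (1 : ℤ) else 0) =
      ∑ y : K, ∑ y' : K, if P₀.evalEval x y = P₀.evalEval x y' then 1 else 0 := by
    intro x
    simp only [Finset.sum_mul_sum]
    rw [Finset.sum_comm]
    refine Finset.sum_congr rfl fun y _ => ?_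
    rw [Finset.sum_comm]
    refine Finset.sum_congr rfl fun y' _ => ?_
    have h3 : ∀ c : K, (if P₀.evalEval x y + c = 0 then (1 : ℤ) else 0) *
        (if P₀.evalEval x y' + c = 0 then (1 : ℤ) else 0) =
        if c = -P₀.evalEval x y then
          (if P₀.evalEval x y = P₀.evalEval x y' then 1 else 0) else 0 := by
      intro c
      by_cases hc : c = -P₀.evalEval x y
      · subst hc
        rw [if_pos (by ring), if_pos rfl, one_mul]
        by_cases he : P₀.evalEval x y = P₀.evalEval x y'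
        · rw [if_pos he, if_pos (by rw [he]; ring)]
        · rw [if_neg he, if_neg]
          intro h
          apply he
          linear_combination -h
      · rw [if_neg hc, if_neg, zero_mul]
        intro h
        apply hc
        linear_combination h
    simp only [h3]
    rw [Finset.sum_ite_eq' Finset.univ (-P₀.evalEval x y)]
    simp
  simp only [h1, Finset.sum_add_distrib, Finset.sum_sub_distrib, ← Finset.mul_sum, mom_sum_B, h2]
  rw [mom_NZ]
  simp only [Finset.sum_const, Finset.card_univ, mul_zero, nsmul_eq_mul, mul_one]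
  ring

theorem sum_af_sq (P₀ : K[X][X]) {k : ℕ} (hk : 2 ≤ k) :
    ∑ u : Fin k → K, af (fam P₀ u) ^ 2 =
      (Fintype.card K : ℤ) ^ (k - 1) * ((NZ P₀ : ℤ) - (Fintype.card K : ℤ) ^ 2) := by
  rw [← mom_sum_sq, Finset.mul_sum]
  have h1 : ∀ u : Fin k → K, af (fam P₀ u) ^ 2 =
      ∑ x : K, ∑ x' : K, momB P₀ x (momL u x) * momB P₀ x' (momL u x') := by
    intro u
    rw [mom_af, sq, Finset.sum_mul_sum]
  simp only [h1]
  rw [Finset.sum_comm]
  refine Finset.sum_congr rfl fun x _ => ?_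
  rw [Finset.sum_comm, Finset.sum_eq_single x]
  · rw [← mom_equi (by omega) x (fun c => momB P₀ x c ^ 2)]
    refine Finset.sum_congr rfl fun u _ => ?_
    ring
  · intro x' _ hx'
    exact mom_vanish P₀ {x'} x (by simpa using hx'.symm) (by simpa using by omega)
      (fun u => momB P₀ x' (momL u x'))
      (fun u u' h => by
        have := h x' (by simp)
        simp only [this])
  · intro h
    exact absurd (Finset.mem_univ x) h

theorem mom_card_le {P₀ : K[X][X]} {a : ℕ} (hmon : P₀.Monic) (hdeg : P₀.natDegree = a)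
    (ha : 1 ≤ a) (x c : K) :
    (univ.filter fun y : K => P₀.evalEval x y + c = 0).card ≤ a := by
  set p : K[X] := P₀.map (evalRingHom x) + C c with hp
  have hm : (P₀.map (evalRingHom x)).Monic := hmon.map _
  have hd : (P₀.map (evalRingHom x)).natDegree = a := by
    rw [hmon.natDegree_map, hdeg]
  have hpd : p.natDegree = a := by
    rw [hp, Polynomial.natDegree_add_C, hd]
  have hp0 : p ≠ 0 := by
    intro h
    rw [h, natDegree_zero] at hpd
    omega
  have hsub : (univ.filter fun y : K => P₀.evalEval x y + c = 0) ⊆ p.roots.toFinset := by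
    intro y hy
    simp only [Finset.mem_filter, Finset.mem_univ, true_and] at hy
    rw [Multiset.mem_toFinset, Polynomial.mem_roots hp0, Polynomial.IsRoot.def, hp, eval_add,
      eval_C, Polynomial.map_evalRingHom_eval]
    exact hy
  calc _ ≤ p.roots.toFinset.card := Finset.card_le_card hsub
    _ ≤ p.roots.card := Multiset.toFinset_card_le _
    _ ≤ p.natDegree := Polynomial.card_roots' p
    _ = a := hpd

theorem mom_abs_B {P₀ : K[X][X]} {a : ℕ} (hmon : P₀.Monic) (hdeg : P₀.natDegree = a)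
    (ha : 1 ≤ a) (x c : K) : |momB P₀ x c| ≤ a := by
  have h1 : (∑ y : K, if P₀.evalEval x y + c = 0 then (1 : ℤ) else 0) =
      ((univ.filter fun y : K => P₀.evalEval x y + c = 0).card : ℤ) := by
    rw [Finset.card_filter]
    push_cast
    rfl
  have h2 := mom_card_le hmon hdeg ha x c
  have h3 : (((univ.filter fun y : K => P₀.evalEval x y + c = 0).card : ℕ) : ℤ) ≤ a := by
    exact_mod_cast h2
  have h4 : (1 : ℤ) ≤ a := by exact_mod_cast ha
  unfold momB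
  rw [h1, abs_le]
  constructor
  · linarith
  · have : (0 : ℤ) ≤ ((univ.filter fun y : K => P₀.evalEval x y + c = 0).card : ℤ) := by positivity
    linarith

theorem mom_four_zero (P₀ : K[X][X]) {k : ℕ} (hk : 4 ≤ k) (x₁ x₂ x₃ x₄ : K)
    (h2 : x₁ ≠ x₂) (h3 : x₁ ≠ x₃) (h4 : x₁ ≠ x₄) :
    ∑ u : Fin k → K, momB P₀ x₁ (momL u x₁) * (momB P₀ x₂ (momL u x₂) *
      (momB P₀ x₃ (momL u x₃) * momB P₀ x₄ (momL u x₄))) = 0 := by
  apply mom_vanish P₀ {x₂, x₃, x₄} x₁ (by simp [h2, h3, h4])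
    (lt_of_le_of_lt Finset.card_le_three (by omega))
    (fun u => momB P₀ x₂ (momL u x₂) * (momB P₀ x₃ (momL u x₃) * momB P₀ x₄ (momL u x₄)))
  intro u u' h
  have e2 := h x₂ (by simp)
  have e3 := h x₃ (by simp)
  have e4 := h x₄ (by simp)
  simp only [e2, e3, e4]

theorem mom_four_le {P₀ : K[X][X]} {a : ℕ} (hmon : P₀.Monic) (hdeg : P₀.natDegree = a)
    (ha : 1 ≤ a) {k : ℕ} (hk : 4 ≤ k) (x₁ x₂ x₃ x₄ : K) :
    ∑ u : Fin k → K, momB P₀ x₁ (momL u x₁) * (momB P₀ x₂ (momL u x₂) *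
      (momB P₀ x₃ (momL u x₃) * momB P₀ x₄ (momL u x₄))) ≤
      ((a : ℤ) ^ 4 * (Fintype.card K : ℤ) ^ k) *
        ((if x₁ = x₂ ∧ x₃ = x₄ then 1 else 0) + (if x₁ = x₃ ∧ x₂ = x₄ then 1 else 0) +
          (if x₁ = x₄ ∧ x₂ = x₃ then 1 else 0)) := by
  have hnn : (0 : ℤ) ≤ (a : ℤ) ^ 4 * (Fintype.card K : ℤ) ^ k := by positivity
  have hI : ∀ (p : Prop) [Decidable p], (0 : ℤ) ≤ if p then 1 else 0 := by
    intro p _
    split_ifs <;> norm_num
  have hrhs : 0 ≤ ((a : ℤ) ^ 4 * (Fintype.card K : ℤ) ^ k) *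
      ((if x₁ = x₂ ∧ x₃ = x₄ then 1 else 0) + (if x₁ = x₃ ∧ x₂ = x₄ then 1 else 0) +
        (if x₁ = x₄ ∧ x₂ = x₃ then 1 else 0)) :=
    mul_nonneg hnn (add_nonneg (add_nonneg (hI _) (hI _)) (hI _))
  by_cases c1 : x₁ ≠ x₂ ∧ x₁ ≠ x₃ ∧ x₁ ≠ x₄
  · rw [mom_four_zero P₀ hk x₁ x₂ x₃ x₄ c1.1 c1.2.1 c1.2.2]
    exact hrhs
  by_cases c2 : x₂ ≠ x₁ ∧ x₂ ≠ x₃ ∧ x₂ ≠ x₄
  · have := mom_four_zero P₀ hk x₂ x₁ x₃ x₄ c2.1 c2.2.1 c2.2.2
    refine le_trans (le_of_eq ?_) hrhs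
    rw [← this]
    refine Finset.sum_congr rfl fun u _ => ?_
    ring
  by_cases c3 : x₃ ≠ x₁ ∧ x₃ ≠ x₂ ∧ x₃ ≠ x₄
  · have := mom_four_zero P₀ hk x₃ x₁ x₂ x₄ c3.1 c3.2.1 c3.2.2
    refine le_trans (le_of_eq ?_) hrhs
    rw [← this]
    refine Finset.sum_congr rfl fun u _ => ?_
    ring
  by_cases c4 : x₄ ≠ x₁ ∧ x₄ ≠ x₂ ∧ x₄ ≠ x₃
  · have := mom_four_zero P₀ hk x₄ x₁ x₂ x₃ c4.1 c4.2.1 c4.2.2
    refine le_trans (le_of_eq ?_) hrhs
    rw [← this]
    refine Finset.sum_congr rfl fun u _ => ?_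
    ring
  have hpair : (x₁ = x₂ ∧ x₃ = x₄) ∨ (x₁ = x₃ ∧ x₂ = x₄) ∨ (x₁ = x₄ ∧ x₂ = x₃) := by
    by_contra hcon
    grind
  have hone : (1 : ℤ) ≤ (if x₁ = x₂ ∧ x₃ = x₄ then 1 else 0) +
      (if x₁ = x₃ ∧ x₂ = x₄ then 1 else 0) + (if x₁ = x₄ ∧ x₂ = x₃ then 1 else 0) := by
    rcases hpair with h | h | h
    · rw [if_pos h]
      have := hI (x₁ = x₃ ∧ x₂ = x₄)
      have := hI (x₁ = x₄ ∧ x₂ = x₃)
      linarith
    · rw [if_pos h]
      have := hI (x₁ = x₂ ∧ x₃ = x₄)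
      have := hI (x₁ = x₄ ∧ x₂ = x₃)
      linarith
    · rw [if_pos h]
      have := hI (x₁ = x₂ ∧ x₃ = x₄)
      have := hI (x₁ = x₃ ∧ x₂ = x₄)
      linarith
  have hterm : ∀ u : Fin k → K, momB P₀ x₁ (momL u x₁) * (momB P₀ x₂ (momL u x₂) *
      (momB P₀ x₃ (momL u x₃) * momB P₀ x₄ (momL u x₄))) ≤ (a : ℤ) ^ 4 := by
    intro u
    refine (le_abs_self _).trans ?_
    rw [abs_mul, abs_mul, abs_mul]
    have b1 := mom_abs_B hmon hdeg ha x₁ (momL u x₁)
    have b2 := mom_abs_B hmon hdeg ha x₂ (momL u x₂)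
    have b3 := mom_abs_B hmon hdeg ha x₃ (momL u x₃)
    have b4 := mom_abs_B hmon hdeg ha x₄ (momL u x₄)
    calc _ ≤ (a : ℤ) * (a * (a * a)) := by gcongr
      _ = (a : ℤ) ^ 4 := by ring
  calc _ ≤ ∑ u : Fin k → K, (a : ℤ) ^ 4 := Finset.sum_le_sum fun u _ => hterm u
    _ = (a : ℤ) ^ 4 * (Fintype.card K : ℤ) ^ k * 1 := by
        rw [Finset.sum_const, Finset.card_univ, nsmul_eq_mul, Fintype.card_fun, Fintype.card_fin]
        push_cast
        ring
    _ ≤ _ := mul_le_mul_of_nonneg_left hone hnn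

theorem sum_af_four {P₀ : K[X][X]} {a : ℕ} (hmon : P₀.Monic) (hdeg : P₀.natDegree = a)
    (ha : 1 ≤ a) {k : ℕ} (hk : 4 ≤ k) :
    ∑ u : Fin k → K, af (fam P₀ u) ^ 4 ≤ 3 * (a : ℤ) ^ 4 * (Fintype.card K : ℤ) ^ (k + 2) := by
  have h1 : ∀ u : Fin k → K, af (fam P₀ u) ^ 4 =
      ∑ x₁ : K, ∑ x₂ : K, ∑ x₃ : K, ∑ x₄ : K, momB P₀ x₁ (momL u x₁) * (momB P₀ x₂ (momL u x₂) *
      (momB P₀ x₃ (momL u x₃) * momB P₀ x₄ (momL u x₄))) := by
    intro u
    simp only [← Finset.mul_sum, ← Finset.sum_mul]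
    rw [mom_af]
    ring
  simp only [h1]
  rw [Finset.sum_comm]
  have h2 : ∀ x₁ : K, ∑ u : Fin k → K, ∑ x₂ : K, ∑ x₃ : K, ∑ x₄ : K,
      momB P₀ x₁ (momL u x₁) * (momB P₀ x₂ (momL u x₂) *
      (momB P₀ x₃ (momL u x₃) * momB P₀ x₄ (momL u x₄))) =
      ∑ x₂ : K, ∑ x₃ : K, ∑ x₄ : K, ∑ u : Fin k → K, momB P₀ x₁ (momL u x₁) *
      (momB P₀ x₂ (momL u x₂) * (momB P₀ x₃ (momL u x₃) * momB P₀ x₄ (momL u x₄))) := by
    intro x₁
    rw [Finset.sum_comm]
    refine Finset.sum_congr rfl fun x₂ _ => ?_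
    rw [Finset.sum_comm]
    refine Finset.sum_congr rfl fun x₃ _ => ?_
    rw [Finset.sum_comm]
  simp only [h2]
  have h3 : ∑ x₁ : K, ∑ x₂ : K, ∑ x₃ : K, ∑ x₄ : K, ∑ u : Fin k → K, momB P₀ x₁ (momL u x₁) *
      (momB P₀ x₂ (momL u x₂) * (momB P₀ x₃ (momL u x₃) * momB P₀ x₄ (momL u x₄))) ≤
      ∑ x₁ : K, ∑ x₂ : K, ∑ x₃ : K, ∑ x₄ : K, ((a : ℤ) ^ 4 * (Fintype.card K : ℤ) ^ k) *
        ((if x₁ = x₂ ∧ x₃ = x₄ then 1 else 0) + (if x₁ = x₃ ∧ x₂ = x₄ then 1 else 0) +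
          (if x₁ = x₄ ∧ x₂ = x₃ then 1 else 0)) := by
    gcongr with x₁ _ x₂ _ x₃ _ x₄ _
    exact mom_four_le hmon hdeg ha hk x₁ x₂ x₃ x₄
  refine h3.trans (le_of_eq ?_)
  simp only [← Finset.mul_sum, Finset.sum_add_distrib]
  have e1 : ∑ x₁ : K, ∑ x₂ : K, ∑ x₃ : K, ∑ x₄ : K,
      (if x₁ = x₂ ∧ x₃ = x₄ then (1 : ℤ) else 0) = (Fintype.card K : ℤ) ^ 2 := by
    simp only [ite_and, Finset.sum_ite_irrel, Finset.sum_const_zero, Finset.sum_ite_eq,
      Finset.mem_univ, if_true, Finset.sum_const, Finset.card_univ, nsmul_eq_mul, mul_one]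
    ring
  have e2 : ∑ x₁ : K, ∑ x₂ : K, ∑ x₃ : K, ∑ x₄ : K,
      (if x₁ = x₃ ∧ x₂ = x₄ then (1 : ℤ) else 0) = (Fintype.card K : ℤ) ^ 2 := by
    simp only [ite_and, Finset.sum_ite_irrel, Finset.sum_const_zero, Finset.sum_ite_eq,
      Finset.mem_univ, if_true, Finset.sum_const, Finset.card_univ, nsmul_eq_mul, mul_one]
    ring
  have e3 : ∑ x₁ : K, ∑ x₂ : K, ∑ x₃ : K, ∑ x₄ : K,
      (if x₁ = x₄ ∧ x₂ = x₃ then (1 : ℤ) else 0) = (Fintype.card K : ℤ) ^ 2 := by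
    simp only [ite_and, Finset.sum_ite_irrel, Finset.sum_const_zero, Finset.sum_ite_eq,
      Finset.mem_univ, if_true, Finset.sum_const, Finset.card_univ, nsmul_eq_mul, mul_one]
    ring
  rw [e1, e2, e3, pow_add]
  ring

/-- The trivial bound. -/
theorem abs_af_le {P₀ : K[X][X]} {a : ℕ} (hmon : P₀.Monic) (hdeg : P₀.natDegree = a)
    (ha : 1 ≤ a) {k : ℕ} (u : Fin k → K) :
    |af (fam P₀ u)| ≤ a * (Fintype.card K : ℤ) := by
  rw [mom_af]
  refine (Finset.abs_sum_le_sum_abs _ _).trans ?_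
  calc _ ≤ ∑ _x : K, (a : ℤ) := Finset.sum_le_sum fun x _ => mom_abs_B hmon hdeg ha x _
    _ = a * (Fintype.card K : ℤ) := by
        rw [Finset.sum_const, Finset.card_univ, nsmul_eq_mul, mul_comm]

theorem NZ_le {P₀ : K[X][X]} {a : ℕ} (hmon : P₀.Monic) (hdeg : P₀.natDegree = a)
    (ha : 1 ≤ a) : NZ P₀ ≤ a * Fintype.card K ^ 2 := by
  have h : (NZ P₀ : ℤ) ≤ a * (Fintype.card K : ℤ) ^ 2 := by
    rw [mom_NZ]
    have h1 : ∀ x y : K, (∑ y' : K, if P₀.evalEval x y = P₀.evalEval x y' then (1 : ℤ) else 0) ≤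
        a := by
      intro x y
      have h2 := mom_card_le hmon hdeg ha x (-P₀.evalEval x y)
      have h3 : (∑ y' : K, if P₀.evalEval x y = P₀.evalEval x y' then (1 : ℤ) else 0) =
          ((univ.filter fun y' : K => P₀.evalEval x y' + -P₀.evalEval x y = 0).card : ℤ) := by
        rw [Finset.card_filter]
        push_cast
        refine Finset.sum_congr rfl fun y' _ => ?_
        congr 1
        rw [eq_iff_iff]
        constructor
        · intro h
          rw [h]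
          ring
        · intro h
          linear_combination -h
      rw [h3]
      exact_mod_cast h2
    calc _ ≤ ∑ _x : K, ∑ _y : K, (a : ℤ) :=
          Finset.sum_le_sum fun x _ => Finset.sum_le_sum fun y _ => h1 x y
      _ = a * (Fintype.card K : ℤ) ^ 2 := by
          rw [Finset.sum_const, Finset.sum_const, Finset.card_univ, nsmul_eq_mul, nsmul_eq_mul]
          ring
  exact_mod_cast h

end Pool.Agent.CAB
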