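import Mathlib

/-!
# CAB module MOMR: from the moments to the weighted first moment (pure real analysis)

`a : U → ℝ` (`U` finite), `q ≥ 1`, `|a_u| ≤ c q`, `∑ a_u = 0`, `∑ a_u² = S2`, `∑ a_u⁴ ≤ C4 q^(k+2)`,
`S2 ≤ C2 q^(k+1)`, a set `B` (bad) with `|B| ≤ Cb q^(k-1)` (written `q |B| ≤ Cb q^k`), `|U| = q^k`.

PROOF. (see `expand_pow` in `Pool/Agent/HJ66/Mom.lean`, adapt) `q²(q - a)^r = q^(r+2) - r a q^(r+1) + e`,
`|e| ≤ B_r a² q^r` (induction, uses `|a| ≤ c q`). So `q² ∑_u a (q-a)^r = - r q^(r+1) S2 + ∑ a e` and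
`|∑ a e| ≤ B_r q^r ∑ |a|³`, `|a|³ ≤ √q a² + a⁴/√q`. Hence
`|∑_u a_u (q - a_u)^r · q + r q^r S2| ≤ C q^(r+k+1/2)`.
Bad `u`: `|a| ≤ q^(3/4) + a⁴ / q^(9/4)` (AM-GM: if `|a| > λ` then `|a| ≤ a⁴/λ³`), `|q - a| ≤ (1 + c) q`, so
`∑_B |a (q-a)^r| ≤ (1+c)^r q^r (|B| q^(3/4) + C4 q^(k+2-9/4)) ≤ C q^(r+k-1/4)`.
`q^(3/4) = √q · √√q`.
-/

namespace Pool.Agent.CAB

open Finset

/-- second order expansion of `(q - a)^r` -/
theorem expand_pow_real (c : ℝ) (hc : 0 ≤ c) (r : ℕ) : ∃ Br : ℝ, 0 ≤ Br ∧ ∀ q a : ℝ, 1 ≤ q →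
    |a| ≤ c * q → |q ^ 2 * (q - a) ^ r - q ^ (r + 2) + r * a * q ^ (r + 1)| ≤ Br * a ^ 2 * q ^ r := by
  induction r with
  | zero =>
    refine ⟨0, le_refl _, ?_⟩
    intro q a _ _
    simp
  | succ r ih =>
    obtain ⟨Br, hBr, h⟩ := ih
    refine ⟨(1 + c) * Br + r, by positivity, ?_⟩
    intro q a hq ha
    have h1 := h q a hq ha
    set e := q ^ 2 * (q - a) ^ r - q ^ (r + 2) + r * a * q ^ (r + 1) with he
    have hq0 : 0 ≤ q := by linarith
    have h2 : q ^ 2 * (q - a) ^ (r + 1) - q ^ (r + 1 + 2) + ((r + 1 : ℕ) : ℝ) * a * q ^ (r + 1 + 1)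
        = (q - a) * e + r * a ^ 2 * q ^ (r + 1) := by
      rw [he]; push_cast; ring
    rw [h2]
    have h3 : |q - a| ≤ (1 + c) * q := by
      calc |q - a| ≤ |q| + |a| := abs_sub _ _
        _ ≤ q + c * q := by rw [abs_of_nonneg hq0]; linarith
        _ = (1 + c) * q := by ring
    calc |(q - a) * e + r * a ^ 2 * q ^ (r + 1)|
        ≤ |(q - a) * e| + |(r : ℝ) * a ^ 2 * q ^ (r + 1)| := abs_add_le _ _
      _ = |q - a| * |e| + (r : ℝ) * a ^ 2 * q ^ (r + 1) := by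
          rw [abs_mul, abs_of_nonneg (by positivity : 0 ≤ (r : ℝ) * a ^ 2 * q ^ (r + 1))]
      _ ≤ (1 + c) * q * (Br * a ^ 2 * q ^ r) + (r : ℝ) * a ^ 2 * q ^ (r + 1) := by
          have := mul_le_mul h3 h1 (abs_nonneg _) (by positivity)
          linarith
      _ = ((1 + c) * Br + r) * a ^ 2 * q ^ (r + 1) := by ring

theorem abs_pow_le (c q a : ℝ) (hc : 0 ≤ c) (hq : 1 ≤ q) (ha : |a| ≤ c * q) (r : ℕ) :
    |q - a| ^ r ≤ (1 + c) ^ r * q ^ r := by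
  have hq0 : 0 ≤ q := by linarith
  have h3 : |q - a| ≤ (1 + c) * q := by
    calc |q - a| ≤ |q| + |a| := abs_sub _ _
      _ ≤ q + c * q := by rw [abs_of_nonneg hq0]; linarith
      _ = (1 + c) * q := by ring
  rw [← mul_pow]
  exact pow_le_pow_left₀ (abs_nonneg _) h3 r

/-- the fourth root -/
theorem fourth_root (q : ℝ) (hq : 1 ≤ q) : ∃ s : ℝ, 1 ≤ s ∧ s ^ 4 = q ∧ Real.sqrt q = s ^ 2 ∧
    Real.sqrt (Real.sqrt q) = s := by
  refine ⟨Real.sqrt (Real.sqrt q), ?_, ?_, ?_, rfl⟩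
  · rw [Real.one_le_sqrt, Real.one_le_sqrt]; exact hq
  · have h1 : Real.sqrt (Real.sqrt q) ^ 2 = Real.sqrt q := Real.sq_sqrt (Real.sqrt_nonneg _)
    have h2 : Real.sqrt q ^ 2 = q := Real.sq_sqrt (by linarith)
    calc Real.sqrt (Real.sqrt q) ^ 4 = (Real.sqrt (Real.sqrt q) ^ 2) ^ 2 := by ring
      _ = q := by rw [h1, h2]
  · exact (Real.sq_sqrt (Real.sqrt_nonneg _)).symm

/-- the constants (any choice depending only on `c C2 C4 Cb r` is fine) -/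
theorem moment_real (c C2 C4 Cb : ℝ) (hc : 0 ≤ c) (hC2 : 0 ≤ C2) (hC4 : 0 ≤ C4) (hCb : 0 ≤ Cb)
    (r : ℕ) : ∃ M : ℝ, 0 ≤ M ∧ ∀ (U : Type) [Fintype U] (a : U → ℝ) (B : Finset U) (q S2 : ℝ)
      (k : ℕ), 1 ≤ q → (∀ u, |a u| ≤ c * q) → ∑ u, a u = 0 → ∑ u, a u ^ 2 = S2 →
      S2 ≤ C2 * q ^ (k + 1) → ∑ u, a u ^ 4 ≤ C4 * q ^ (k + 2) → (B.card : ℝ) * q ≤ Cb * q ^ k →
      |q * (∑ u, a u * (q - a u) ^ r - ∑ u ∈ B, a u * (q - a u) ^ r) + r * q ^ r * S2| ≤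
        M * (q ^ (r + k) * (Real.sqrt q * Real.sqrt (Real.sqrt q))) := by
  obtain ⟨Br, hBr, hexp⟩ := expand_pow_real c hc r
  refine ⟨Br * (C2 + C4) + (1 + c) ^ r * (Cb + C4), by positivity, ?_⟩
  intro U _ a B q S2 k hq ha h1 h2 hS2 h4 hB
  obtain ⟨s, hs1, hs4, hs2, hs⟩ := fourth_root q hq
  have hq0 : 0 < q := by linarith
  have hs0 : 0 < s := by linarith
  rw [hs, hs2]
  -- main term
  set X := q * (∑ u, a u * (q - a u) ^ r) + r * q ^ r * S2 with hX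
  set Y := q * ∑ u ∈ B, a u * (q - a u) ^ r with hY
  have hXY : q * (∑ u, a u * (q - a u) ^ r - ∑ u ∈ B, a u * (q - a u) ^ r) + r * q ^ r * S2
      = X - Y := by rw [hX, hY]; ring
  rw [hXY]
  have hqX : q * X = ∑ u, a u * (q ^ 2 * (q - a u) ^ r - q ^ (r + 2) + r * a u * q ^ (r + 1)) := by
    have e1 : ∑ u, a u * (q ^ 2 * (q - a u) ^ r - q ^ (r + 2) + r * a u * q ^ (r + 1))
        = q ^ 2 * ∑ u, a u * (q - a u) ^ r - q ^ (r + 2) * ∑ u, a u
          + r * q ^ (r + 1) * ∑ u, a u ^ 2 := by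
      rw [Finset.mul_sum, Finset.mul_sum, Finset.mul_sum, ← Finset.sum_sub_distrib,
        ← Finset.sum_add_distrib]
      apply Finset.sum_congr rfl
      intro u _
      ring
    rw [e1, h1, h2, hX]
    ring
  have habs : |q * X| ≤ Br * q ^ r * ∑ u, |a u| ^ 3 := by
    rw [hqX]
    calc |∑ u, a u * (q ^ 2 * (q - a u) ^ r - q ^ (r + 2) + r * a u * q ^ (r + 1))|
        ≤ ∑ u, |a u * (q ^ 2 * (q - a u) ^ r - q ^ (r + 2) + r * a u * q ^ (r + 1))| :=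
          Finset.abs_sum_le_sum_abs _ _
      _ ≤ ∑ u, |a u| * (Br * a u ^ 2 * q ^ r) := by
          apply Finset.sum_le_sum
          intro u _
          rw [abs_mul]
          exact mul_le_mul_of_nonneg_left (hexp q (a u) hq (ha u)) (abs_nonneg _)
      _ = Br * q ^ r * ∑ u, |a u| ^ 3 := by
          rw [Finset.mul_sum]
          apply Finset.sum_congr rfl
          intro u _
          rw [← sq_abs (a u)]
          ring
  have hcube : s ^ 2 * ∑ u, |a u| ^ 3 ≤ (C2 + C4) * q ^ (k + 2) := by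
    calc s ^ 2 * ∑ u, |a u| ^ 3 = ∑ u, s ^ 2 * |a u| ^ 3 := by rw [Finset.mul_sum]
      _ ≤ ∑ u, (q * a u ^ 2 + a u ^ 4) := by
          apply Finset.sum_le_sum
          intro u _
          have e1 : a u ^ 2 = |a u| ^ 2 := (sq_abs _).symm
          have e2 : a u ^ 4 = |a u| ^ 4 := by
            rw [show (4 : ℕ) = 2 * 2 by norm_num, pow_mul, pow_mul, sq_abs]
          rw [e1, e2, ← hs4]
          have hn := abs_nonneg (a u)
          nlinarith [sq_nonneg (s ^ 2 * |a u| - |a u| ^ 2), mul_nonneg (sq_nonneg s) (pow_nonneg hn 3),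
            sq_nonneg (s ^ 2 * |a u|), sq_nonneg (|a u| ^ 2)]
      _ = q * S2 + ∑ u, a u ^ 4 := by
          rw [Finset.sum_add_distrib, ← Finset.mul_sum, h2]
      _ ≤ q * (C2 * q ^ (k + 1)) + C4 * q ^ (k + 2) := by
          have := mul_le_mul_of_nonneg_left hS2 hq0.le
          linarith
      _ = (C2 + C4) * q ^ (k + 2) := by ring
  have hXb : |X| ≤ Br * (C2 + C4) * (q ^ (r + k) * s ^ 2) := by
    have e1 : (s ^ 2 * q) * |X| ≤ (s ^ 2 * q) * (Br * (C2 + C4) * (q ^ (r + k) * s ^ 2)) := by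
      have e2 : (s ^ 2 * q) * |X| = s ^ 2 * |q * X| := by
        rw [abs_mul, abs_of_pos hq0]; ring
      rw [e2]
      calc s ^ 2 * |q * X| ≤ s ^ 2 * (Br * q ^ r * ∑ u, |a u| ^ 3) :=
            mul_le_mul_of_nonneg_left habs (by positivity)
        _ = Br * q ^ r * (s ^ 2 * ∑ u, |a u| ^ 3) := by ring
        _ ≤ Br * q ^ r * ((C2 + C4) * q ^ (k + 2)) :=
            mul_le_mul_of_nonneg_left hcube (by positivity)
        _ = Br * (C2 + C4) * (q ^ (r + k) * q * s ^ 4) := by rw [hs4]; ring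
        _ = (s ^ 2 * q) * (Br * (C2 + C4) * (q ^ (r + k) * s ^ 2)) := by ring
    exact le_of_mul_le_mul_left e1 (by positivity)
  -- bad set
  have hbad : s ^ 9 * ∑ u ∈ B, |a u| ≤ (B.card : ℝ) * s ^ 12 + C4 * q ^ (k + 2) := by
    calc s ^ 9 * ∑ u ∈ B, |a u| = ∑ u ∈ B, s ^ 9 * |a u| := by rw [Finset.mul_sum]
      _ ≤ ∑ u ∈ B, (s ^ 12 + a u ^ 4) := by
          apply Finset.sum_le_sum
          intro u _
          have e2 : a u ^ 4 = |a u| ^ 4 := by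
            rw [show (4 : ℕ) = 2 * 2 by norm_num, pow_mul, pow_mul, sq_abs]
          rw [e2]
          have hn := abs_nonneg (a u)
          rcases le_total (|a u|) (s ^ 3) with h | h
          · have : s ^ 9 * |a u| ≤ s ^ 9 * s ^ 3 := mul_le_mul_of_nonneg_left h (by positivity)
            have e3 : s ^ 9 * s ^ 3 = s ^ 12 := by ring
            have e4 : 0 ≤ |a u| ^ 4 := by positivity
            linarith
          · have e5 : (s ^ 3) ^ 3 ≤ |a u| ^ 3 := pow_le_pow_left₀ (by positivity) h 3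
            have : (s ^ 3) ^ 3 * |a u| ≤ |a u| ^ 3 * |a u| := mul_le_mul_of_nonneg_right e5 hn
            have e3 : (s ^ 3) ^ 3 * |a u| = s ^ 9 * |a u| := by ring
            have e6 : |a u| ^ 3 * |a u| = |a u| ^ 4 := by ring
            have e4 : 0 ≤ s ^ 12 := by positivity
            linarith
      _ = (B.card : ℝ) * s ^ 12 + ∑ u ∈ B, a u ^ 4 := by
          rw [Finset.sum_add_distrib, Finset.sum_const, nsmul_eq_mul]
      _ ≤ (B.card : ℝ) * s ^ 12 + ∑ u, a u ^ 4 := by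
          have : ∑ u ∈ B, a u ^ 4 ≤ ∑ u, a u ^ 4 :=
            Finset.sum_le_univ_sum_of_nonneg (fun u => by positivity)
          linarith
      _ ≤ (B.card : ℝ) * s ^ 12 + C4 * q ^ (k + 2) := by linarith
  have hYabs : |Y| ≤ q * ((1 + c) ^ r * q ^ r * ∑ u ∈ B, |a u|) := by
    rw [hY, abs_mul, abs_of_pos hq0]
    apply mul_le_mul_of_nonneg_left _ hq0.le
    calc |∑ u ∈ B, a u * (q - a u) ^ r| ≤ ∑ u ∈ B, |a u * (q - a u) ^ r| :=
          Finset.abs_sum_le_sum_abs _ _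
      _ ≤ ∑ u ∈ B, (1 + c) ^ r * q ^ r * |a u| := by
          apply Finset.sum_le_sum
          intro u _
          rw [abs_mul, abs_pow, mul_comm]
          exact mul_le_mul_of_nonneg_right (abs_pow_le c q (a u) hc hq (ha u) r) (abs_nonneg _)
      _ = (1 + c) ^ r * q ^ r * ∑ u ∈ B, |a u| := by rw [Finset.mul_sum]
  have hYb : |Y| ≤ (1 + c) ^ r * (Cb + C4) * (q ^ (r + k) * s ^ 3) := by
    have e1 : s ^ 9 * |Y| ≤ s ^ 9 * ((1 + c) ^ r * (Cb + C4) * (q ^ (r + k) * s ^ 3)) := by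
      calc s ^ 9 * |Y| ≤ s ^ 9 * (q * ((1 + c) ^ r * q ^ r * ∑ u ∈ B, |a u|)) :=
            mul_le_mul_of_nonneg_left hYabs (by positivity)
        _ = q * ((1 + c) ^ r * q ^ r) * (s ^ 9 * ∑ u ∈ B, |a u|) := by ring
        _ ≤ q * ((1 + c) ^ r * q ^ r) * ((B.card : ℝ) * s ^ 12 + C4 * q ^ (k + 2)) :=
            mul_le_mul_of_nonneg_left hbad (by positivity)
        _ = ((1 + c) ^ r * q ^ r) * (((B.card : ℝ) * q) * s ^ 12 + C4 * q ^ k * q ^ 3) := by ring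
        _ ≤ ((1 + c) ^ r * q ^ r) * ((Cb * q ^ k) * s ^ 12 + C4 * q ^ k * q ^ 3) := by
            apply mul_le_mul_of_nonneg_left _ (by positivity)
            have := mul_le_mul_of_nonneg_right hB (by positivity : (0 : ℝ) ≤ s ^ 12)
            linarith
        _ = ((1 + c) ^ r * q ^ r) * ((Cb * q ^ k) * s ^ 12 + C4 * q ^ k * s ^ 12) := by
            have : q ^ 3 = s ^ 12 := by rw [← hs4]; ring
            rw [this]
        _ = s ^ 9 * ((1 + c) ^ r * (Cb + C4) * (q ^ (r + k) * s ^ 3)) := by ring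
    exact le_of_mul_le_mul_left e1 (by positivity)
  have hs23 : q ^ (r + k) * s ^ 2 ≤ q ^ (r + k) * s ^ 3 := by
    apply mul_le_mul_of_nonneg_left _ (by positivity)
    exact pow_le_pow_right₀ hs1 (by norm_num)
  calc |X - Y| ≤ |X| + |Y| := abs_sub _ _
    _ ≤ Br * (C2 + C4) * (q ^ (r + k) * s ^ 2) + (1 + c) ^ r * (Cb + C4) * (q ^ (r + k) * s ^ 3) :=
        add_le_add hXb hYb
    _ ≤ Br * (C2 + C4) * (q ^ (r + k) * s ^ 3) + (1 + c) ^ r * (Cb + C4) * (q ^ (r + k) * s ^ 3) := by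
        have := mul_le_mul_of_nonneg_left hs23 (by positivity : 0 ≤ Br * (C2 + C4))
        linarith
    _ = (Br * (C2 + C4) + (1 + c) ^ r * (Cb + C4)) * (q ^ (r + k) * (s ^ 2 * s)) := by ring

/-- absolute first moment -/
theorem abs_moment_real (c C2 : ℝ) (hc : 0 ≤ c) (hC2 : 0 ≤ C2)
    (r : ℕ) : ∃ M : ℝ, 0 ≤ M ∧ ∀ (U : Type) [Fintype U] (a : U → ℝ) (q S2 : ℝ)
      (k : ℕ), 1 ≤ q → (∀ u, |a u| ≤ c * q) → ∑ u, a u ^ 2 = S2 →
      S2 ≤ C2 * q ^ (k + 1) → (Fintype.card U : ℝ) = q ^ k →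
      ∑ u, |a u| * |q - a u| ^ r ≤ M * (q ^ (r + k) * Real.sqrt q) := by
  refine ⟨(1 + c) ^ r * (1 + C2), by positivity, ?_⟩
  intro U _ a q S2 k hq ha h2 hS2 hU
  obtain ⟨s, hs1, hs4, hs2, -⟩ := fourth_root q hq
  have hq0 : 0 < q := by linarith
  have hs0 : 0 < s := by linarith
  rw [hs2]
  have h1 : s ^ 2 * ∑ u, |a u| ≤ (1 + C2) * q ^ (k + 1) := by
    calc s ^ 2 * ∑ u, |a u| = ∑ u, s ^ 2 * |a u| := by rw [Finset.mul_sum]
      _ ≤ ∑ u, (q + a u ^ 2) := by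
          apply Finset.sum_le_sum
          intro u _
          rw [← sq_abs (a u), ← hs4]
          nlinarith [sq_nonneg (s ^ 2 - |a u|), abs_nonneg (a u), sq_nonneg (s ^ 2),
            sq_nonneg (|a u|)]
      _ = q ^ k * q + S2 := by
          rw [Finset.sum_add_distrib, Finset.sum_const, nsmul_eq_mul, Finset.card_univ, hU, h2]
      _ ≤ q ^ k * q + C2 * q ^ (k + 1) := by linarith
      _ = (1 + C2) * q ^ (k + 1) := by ring
  have h3 : ∑ u, |a u| ≤ (1 + C2) * (q ^ k * s ^ 2) := by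
    have e1 : s ^ 2 * ∑ u, |a u| ≤ s ^ 2 * ((1 + C2) * (q ^ k * s ^ 2)) := by
      calc s ^ 2 * ∑ u, |a u| ≤ (1 + C2) * q ^ (k + 1) := h1
        _ = (1 + C2) * (q ^ k * s ^ 4) := by rw [hs4]; ring
        _ = s ^ 2 * ((1 + C2) * (q ^ k * s ^ 2)) := by ring
    exact le_of_mul_le_mul_left e1 (by positivity)
  calc ∑ u, |a u| * |q - a u| ^ r ≤ ∑ u, (1 + c) ^ r * q ^ r * |a u| := by
        apply Finset.sum_le_sum
        intro u _
        rw [mul_comm]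
        exact mul_le_mul_of_nonneg_right (abs_pow_le c q (a u) hc hq (ha u) r) (abs_nonneg _)
    _ = (1 + c) ^ r * q ^ r * ∑ u, |a u| := by rw [Finset.mul_sum]
    _ ≤ (1 + c) ^ r * q ^ r * ((1 + C2) * (q ^ k * s ^ 2)) :=
        mul_le_mul_of_nonneg_left h3 (by positivity)
    _ = (1 + c) ^ r * (1 + C2) * (q ^ (r + k) * s ^ 2) := by ring

end Pool.Agent.CAB
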