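import Pool.Agent.CAB.Analytic
import Pool.Agent.CAB.Mom
import Pool.Agent.CAB.MomReal
import Pool.Agent.HJ66.StepanovM

/-!
# CAB: the moment hypotheses for the two families

* `momHyp_of`: a bound for the fourth moments over all finite fields is enough.
* `momHyp_four`: `k ≥ 4` free parameters, `P₀` monic in `y` (elementary fourth moment).
* `momHyp_cyc`: `P₀ = y ^ a - f₀(x)`, `gcd(a, deg f₀) = 1` (Weil bound by Stepanov's method).
-/

namespace Pool.Agent.CAB

open Polynomial Finset Pool.Agent.Hhelper85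

section bad

/-- Schwartz-Zippel. -/
lemma card_bad {K : Type*} [Field K] [Fintype K] [DecidableEq K] {k : ℕ}
    {p : MvPolynomial (Fin k) K} (hp : p ≠ 0) :
    (univ.filter fun u : Fin k → K => MvPolynomial.eval u p = 0).card * Fintype.card K ≤
      p.totalDegree * Fintype.card K ^ k := by
  have h := MvPolynomial.schwartz_zippel_totalDegree hp (univ : Finset K)
  rw [Finset.card_univ] at h
  have hq : 0 < Fintype.card K := Fintype.card_pos
  rw [div_le_div_iff₀ (by positivity) (by positivity)] at h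
  have h2 : (Fintype.piFinset fun _ : Fin k => (univ : Finset K)) = univ := by
    ext; simp
  rw [h2] at h
  exact_mod_cast h

end bad

section real

variable {R₀ : Type} [CommRing R₀] {P₀ : R₀[X][X]} {k : ℕ} {Δ : MvPolynomial (Fin k) R₀}

lemma NF_eq {K : Type*} [Field K] (P : K[X][X]) : (NF P : ℝ) = (Nat.card K : ℝ) - (af P : ℝ) := by
  rw [af]; push_cast; ring

lemma NF_eq' {K : Type*} [Field K] (P : K[X][X]) : (NF P : ℤ) = (Nat.card K : ℤ) - af P := by
  rw [af]; ring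

theorem momHyp_of {a : ℕ} (hmon : P₀.Monic) (hdeg : P₀.natDegree = a) (ha : 1 ≤ a) (hk : 2 ≤ k)
    (hΔ : ∀ x : Nat.Primes × ℕ, x.2 ≠ 0 → ∀ φ : R₀ →+* GF x.1 x.2, Δ.map φ ≠ 0)
    {C4 : ℝ} (hC4 : 0 ≤ C4)
    (h4 : ∀ x : Nat.Primes × ℕ, x.2 ≠ 0 → ∀ φ : R₀ →+* GF x.1 x.2,
      ∑ᶠ u : Fin k → GF x.1 x.2, (af (fam (P₀.map (mapRingHom φ)) u) : ℝ) ^ 4 ≤
        C4 * ((x.1 : ℝ) ^ x.2) ^ (k + 2))
    (r : ℕ) : ∃ M : ℝ, MomHyp P₀ Δ r M := by
  obtain ⟨M1, hM1, H1⟩ := moment_real a a C4 Δ.totalDegree (by positivity) (by positivity) hC4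
    (by positivity) r
  obtain ⟨M2, hM2, H2⟩ := abs_moment_real a a (by positivity) (by positivity) r
  have common : ∀ x : Nat.Primes × ℕ, x.2 ≠ 0 → ∀ φ : R₀ →+* GF x.1 x.2,
      ∀ (i1 : Fintype (GF x.1 x.2)), (Fintype.card (GF x.1 x.2) : ℝ) = (x.1 : ℝ) ^ x.2 ∧
      (∀ u : Fin k → GF x.1 x.2, |(af (fam (P₀.map (mapRingHom φ)) u) : ℝ)| ≤
        a * ((x.1 : ℝ) ^ x.2)) ∧
      ∑ u : Fin k → GF x.1 x.2, (af (fam (P₀.map (mapRingHom φ)) u) : ℝ) = 0 ∧
      ∑ u : Fin k → GF x.1 x.2, (af (fam (P₀.map (mapRingHom φ)) u) : ℝ) ^ 2 =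
        ((x.1 : ℝ) ^ x.2) ^ (k - 1) * ((NZ (P₀.map (mapRingHom φ)) : ℝ) -
          ((x.1 : ℝ) ^ x.2) ^ 2) ∧
      ((x.1 : ℝ) ^ x.2) ^ (k - 1) * ((NZ (P₀.map (mapRingHom φ)) : ℝ) -
          ((x.1 : ℝ) ^ x.2) ^ 2) ≤ a * ((x.1 : ℝ) ^ x.2) ^ (k + 1) ∧
      (NZ (P₀.map (mapRingHom φ)) : ℝ) ≤ a * ((x.1 : ℝ) ^ x.2) ^ 2 := by
    intro x hx φ i1
    classical
    have hm : (P₀.map (mapRingHom φ)).Monic := hmon.map _
    have hd : (P₀.map (mapRingHom φ)).natDegree = a := by rw [hmon.natDegree_map, hdeg]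
    have hc : (Fintype.card (GF x.1 x.2) : ℝ) = (x.1 : ℝ) ^ x.2 := by
      have := card_GF hx
      rw [Nat.card_eq_fintype_card] at this
      rw [this]; push_cast; rfl
    have hnz : (NZ (P₀.map (mapRingHom φ)) : ℝ) ≤ a * ((x.1 : ℝ) ^ x.2) ^ 2 := by
      rw [← hc]
      exact_mod_cast NZ_le hm hd ha
    refine ⟨hc, fun u => ?_, ?_, ?_, ?_, hnz⟩
    · rw [← hc]
      exact_mod_cast abs_af_le hm hd ha u
    · exact_mod_cast sum_af (P₀.map (mapRingHom φ)) (by omega : 1 ≤ k)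
    · have h := sum_af_sq (P₀.map (mapRingHom φ)) hk
      rw [← hc]
      exact_mod_cast h
    · have hq : (0 : ℝ) ≤ ((x.1 : ℝ) ^ x.2) ^ (k - 1) := by positivity
      have e : ((x.1 : ℝ) ^ x.2) ^ (k + 1) =
          ((x.1 : ℝ) ^ x.2) ^ (k - 1) * ((x.1 : ℝ) ^ x.2) ^ 2 := by
        rw [← pow_add]
        congr 1
        omega
      rw [e]
      nlinarith [sq_nonneg ((x.1 : ℝ) ^ x.2)]
  refine ⟨M1 + M2 + (a + 1), ?_, hk, ?_, ?_, ?_⟩
  · positivity
  · intro x hx φ
    classical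
    let i1 : Fintype (GF x.1 x.2) := Fintype.ofFinite _
    obtain ⟨hc, hb, h1, h2, h3, hnz⟩ := common x hx φ i1
    set q : ℝ := (x.1 : ℝ) ^ x.2 with hq
    have hq1 : 1 ≤ q := by
      rw [← hc]
      exact_mod_cast Fintype.card_pos
    have hbad : (((univ : Finset (Fin k → GF x.1 x.2)).filter
        fun u => ¬ Good Δ φ u).card : ℝ) * q ≤ Δ.totalDegree * q ^ k := by
      have hB := card_bad (hΔ x hx φ)
      have e : (univ.filter fun u : Fin k → GF x.1 x.2 => MvPolynomial.eval u (Δ.map φ) = 0) =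
          univ.filter fun u => ¬ Good Δ φ u := by
        ext u
        simp [Good, MvPolynomial.eval_map]
      rw [e] at hB
      have hB' : (((univ : Finset (Fin k → GF x.1 x.2)).filter
        fun u => ¬ Good Δ φ u).card : ℝ) * q ≤ (Δ.map φ).totalDegree * q ^ k := by
        rw [← hc]
        exact_mod_cast hB
      refine hB'.trans ?_
      gcongr
      exact Finset.sup_mono (MvPolynomial.support_map_subset _ _)
    have h4' := h4 x hx φ
    rw [finsum_eq_sum_of_fintype] at h4'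
    have hmain := H1 (Fin k → GF x.1 x.2)
      (fun u => (af (fam (P₀.map (mapRingHom φ)) u) : ℝ)) (univ.filter fun u => ¬ Good Δ φ u) q
      (q ^ (k - 1) * ((NZ (P₀.map (mapRingHom φ)) : ℝ) - q ^ 2)) k hq1 hb h1 h2 h3 h4' hbad
    have e1 : (RP P₀ Δ r x φ : ℝ) * q = q * ((∑ u : Fin k → GF x.1 x.2,
        (af (fam (P₀.map (mapRingHom φ)) u) : ℝ) *
          (q - (af (fam (P₀.map (mapRingHom φ)) u) : ℝ)) ^ r) -
        ∑ u ∈ (univ.filter fun u : Fin k → GF x.1 x.2 => ¬ Good Δ φ u),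
          (af (fam (P₀.map (mapRingHom φ)) u) : ℝ) *
          (q - (af (fam (P₀.map (mapRingHom φ)) u) : ℝ)) ^ r) +
        r * q ^ r * (q ^ (k - 1) * ((NZ (P₀.map (mapRingHom φ)) : ℝ) - q ^ 2)) := by
      have e2 : (SP P₀ Δ r x φ : ℝ) = (∑ u : Fin k → GF x.1 x.2,
        (af (fam (P₀.map (mapRingHom φ)) u) : ℝ) *
          (q - (af (fam (P₀.map (mapRingHom φ)) u) : ℝ)) ^ r) -
        ∑ u ∈ (univ.filter fun u : Fin k → GF x.1 x.2 => ¬ Good Δ φ u),
          (af (fam (P₀.map (mapRingHom φ)) u) : ℝ) *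
          (q - (af (fam (P₀.map (mapRingHom φ)) u) : ℝ)) ^ r := by
        rw [SP, finsum_eq_sum_of_fintype, Finset.sum_filter, ← Finset.sum_sub_distrib]
        push_cast
        apply Finset.sum_congr rfl
        intro u _
        have hc' : (Nat.card (GF x.1 x.2) : ℝ) = q := by
          rw [Nat.card_eq_fintype_card, hc]
        by_cases hg : Good Δ φ u
        · rw [if_pos hg, if_neg (not_not.2 hg), NF_eq, hc']
          ring
        · rw [if_neg hg, if_pos hg, sub_self]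
      have e3 : q ^ (r + k - 2) * q = q ^ r * q ^ (k - 1) := by
        rw [← pow_succ, ← pow_add]
        congr 1
        omega
      rw [RP]
      push_cast
      rw [e2, ← hq]
      linear_combination (r : ℝ) * ((NZ (P₀.map (mapRingHom φ)) : ℝ) - q ^ 2) * e3
    rw [← e1, abs_mul, abs_of_pos (by linarith : 0 < q)] at hmain
    have e4 : q ^ (r + k) = q ^ (r + k - 1) * q := by
      rw [← pow_succ]
      congr 1
      omega
    rw [e4] at hmain
    have h5 : |(RP P₀ Δ r x φ : ℝ)| ≤ M1 * (q ^ (r + k - 1) *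
        (Real.sqrt q * Real.sqrt (Real.sqrt q))) := by
      have hq0 : 0 < q := by linarith
      refine le_of_mul_le_mul_right (hmain.trans (le_of_eq ?_)) hq0
      ring
    refine h5.trans ?_
    apply mul_le_mul_of_nonneg_right _ (by positivity)
    have : (0 : ℝ) ≤ (a : ℝ) := by positivity
    linarith
  · intro x hx φ
    classical
    let i1 : Fintype (GF x.1 x.2) := Fintype.ofFinite _
    obtain ⟨hc, hb, h1, h2, h3, hnz⟩ := common x hx φ i1
    set q : ℝ := (x.1 : ℝ) ^ x.2 with hq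
    have hq1 : 1 ≤ q := by
      rw [← hc]
      exact_mod_cast Fintype.card_pos
    have hmain := H2 (Fin k → GF x.1 x.2)
      (fun u => (af (fam (P₀.map (mapRingHom φ)) u) : ℝ)) q
      (q ^ (k - 1) * ((NZ (P₀.map (mapRingHom φ)) : ℝ) - q ^ 2)) k hq1 hb h2 h3
      (by rw [Fintype.card_fun, Fintype.card_fin, Nat.cast_pow, hc])
    have hc' : (Nat.card (GF x.1 x.2) : ℝ) = q := by
      rw [Nat.card_eq_fintype_card, hc]
    have e2 : SA P₀ Δ r x φ ≤ ∑ u : Fin k → GF x.1 x.2,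
        |(af (fam (P₀.map (mapRingHom φ)) u) : ℝ)| *
          |q - (af (fam (P₀.map (mapRingHom φ)) u) : ℝ)| ^ r := by
      rw [SA, finsum_eq_sum_of_fintype]
      apply Finset.sum_le_sum
      intro u _
      by_cases hg : Good Δ φ u
      · rw [if_pos hg, ← hc', ← NF_eq, mul_comm, abs_of_nonneg (Nat.cast_nonneg
          (NF (fam (P₀.map (mapRingHom φ)) u)) :
            (0 : ℝ) ≤ (NF (fam (P₀.map (mapRingHom φ)) u) : ℝ))]
      · rw [if_neg hg]
        positivity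
    refine e2.trans (hmain.trans ?_)
    apply mul_le_mul_of_nonneg_right _ (by positivity)
    have : (0 : ℝ) ≤ (a : ℝ) := by positivity
    linarith
  · intro x hx φ
    classical
    let i1 : Fintype (GF x.1 x.2) := Fintype.ofFinite _
    obtain ⟨hc, hb, h1, h2, h3, hnz⟩ := common x hx φ i1
    have h0 : (0 : ℝ) ≤ (NZ (P₀.map (mapRingHom φ)) : ℝ) := by positivity
    have hqq : (0 : ℝ) ≤ ((x.1 : ℝ) ^ x.2) ^ 2 := by positivity
    have hM : (0 : ℝ) ≤ (M1 + M2) * ((x.1 : ℝ) ^ x.2) ^ 2 := by positivity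
    rw [abs_le]
    constructor
    · nlinarith
    · nlinarith

lemma low_degree {K : Type*} [CommRing K] {k b : ℕ} (hkb : k ≤ b) (u : Fin k → K) :
    (∑ i : Fin k, C (u i) * X ^ (i : ℕ) : K[X]).degree < b := by
  rw [← mem_degreeLT]
  apply Submodule.sum_mem
  intro i _
  rw [mem_degreeLT]
  refine lt_of_le_of_lt (degree_C_mul_X_pow_le _ _) ?_
  have : (i : ℕ) < b := lt_of_lt_of_le i.2 hkb
  exact_mod_cast this

/-- At least four free parameters. -/
theorem momHyp_four {a : ℕ} (hmon : P₀.Monic) (hdeg : P₀.natDegree = a) (ha : 1 ≤ a) (hk : 4 ≤ k)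
    (hΔ : ∀ x : Nat.Primes × ℕ, x.2 ≠ 0 → ∀ φ : R₀ →+* GF x.1 x.2, Δ.map φ ≠ 0) (r : ℕ) :
    ∃ M : ℝ, MomHyp P₀ Δ r M := by
  refine momHyp_of hmon hdeg ha (by omega) hΔ (C4 := 3 * (a : ℝ) ^ 4) (by positivity) ?_ r
  intro x hx φ
  classical
  let i1 : Fintype (GF x.1 x.2) := Fintype.ofFinite _
  have hc : (Fintype.card (GF x.1 x.2) : ℝ) = (x.1 : ℝ) ^ x.2 := by
    have := card_GF hx
    rw [Nat.card_eq_fintype_card] at this
    rw [this]; push_cast; rfl
  have hd : (P₀.map (mapRingHom φ)).natDegree = a := by rw [hmon.natDegree_map, hdeg]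
  have h := sum_af_four (hmon.map (mapRingHom φ)) hd ha hk
  rw [finsum_eq_sum_of_fintype, ← hc]
  exact_mod_cast h

/-- `P₀ = y ^ a - f₀(x)`. -/
theorem momHyp_cyc {a b : ℕ} (ha : 1 ≤ a) {f₀ : R₀[X]} (hf : f₀.Monic) (hdeg : f₀.natDegree = b)
    (hcop : Nat.Coprime a b) (hk : 2 ≤ k) (hkb : k ≤ b)
    (hΔ : ∀ x : Nat.Primes × ℕ, x.2 ≠ 0 → ∀ φ : R₀ →+* GF x.1 x.2, Δ.map φ ≠ 0) (r : ℕ) :
    ∃ M : ℝ, MomHyp (X ^ a - C f₀) Δ r M := by
  have hmon : (X ^ a - C f₀ : R₀[X][X]).Monic := monic_X_pow_sub_C f₀ (by omega)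
  by_cases hR : Nontrivial R₀
  swap
  · rw [not_nontrivial_iff_subsingleton] at hR
    refine ⟨0, ⟨le_rfl, hk, ?_, ?_, ?_⟩⟩ <;>
    · intro x hx φ
      exact absurd (by rw [← map_one φ, ← map_zero φ, Subsingleton.elim (1 : R₀) 0] :
        (1 : GF x.1 x.2) = 0) one_ne_zero
  have hd0 : (X ^ a - C f₀ : R₀[X][X]).natDegree = a := natDegree_X_pow_sub_C
  refine momHyp_of hmon hd0 ha hk hΔ (C4 := (HJ66.WCM a b : ℝ) ^ 4) (by positivity) ?_ r
  intro x hx φ
  classical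
  let i1 : Fintype (GF x.1 x.2) := Fintype.ofFinite _
  have hc : (Fintype.card (GF x.1 x.2) : ℝ) = (x.1 : ℝ) ^ x.2 := by
    have := card_GF hx
    rw [Nat.card_eq_fintype_card] at this
    rw [this]; push_cast; rfl
  rw [finsum_eq_sum_of_fintype, ← hc]
  have key : ∀ u : Fin k → GF x.1 x.2, (af (fam ((X ^ a - C f₀ : R₀[X][X]).map
      (mapRingHom φ)) u) : ℝ) ^ 4 ≤ (HJ66.WCM a b : ℝ) ^ 4 *
        (Fintype.card (GF x.1 x.2) : ℝ) ^ 2 := by
    intro u
    set g : (GF x.1 x.2)[X] := f₀.map φ - ∑ i : Fin k, C (u i) * X ^ (i : ℕ) with hg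
    have hlow : (∑ i : Fin k, C (u i) * X ^ (i : ℕ) : (GF x.1 x.2)[X]).degree <
        (f₀.map φ).degree := by
      rw [hf.degree_map, degree_eq_natDegree hf.ne_zero, hdeg]
      exact low_degree hkb u
    have hgdeg : g.natDegree = b := by
      have h1 : g.degree = (f₀.map φ).degree := degree_sub_eq_left_of_degree_lt hlow
      rw [natDegree_eq_of_degree_eq h1, hf.natDegree_map, hdeg]
    have hNF : NF (fam ((X ^ a - C f₀ : R₀[X][X]).map (mapRingHom φ)) u) = HJ66.affM a g := by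
      rw [NF, HJ66.affM, Nat.card_eq_fintype_card, Fintype.card_subtype]
      congr 1
      ext z
      simp only [Finset.mem_filter, Finset.mem_univ, true_and]
      have e : (fam ((X ^ a - C f₀ : R₀[X][X]).map (mapRingHom φ)) u).evalEval z.1 z.2 =
          z.2 ^ a - g.eval z.1 := by
        rw [fam, hg]
        simp [evalEval, Polynomial.eval_finsetSum]
        ring
      rw [e, sub_eq_zero]
    have hW := HJ66.weilM (m := a) (by omega) g (by rw [hgdeg]; omega)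
      (by rw [hgdeg]; exact hcop.symm)
    rw [hgdeg] at hW
    have hab : |(af (fam ((X ^ a - C f₀ : R₀[X][X]).map (mapRingHom φ)) u) : ℝ)| ≤
        HJ66.WCM a b * Real.sqrt (Fintype.card (GF x.1 x.2)) := by
      rw [af, hNF, Nat.card_eq_fintype_card]
      push_cast
      rw [abs_sub_comm]
      exact hW
    have h2 := pow_le_pow_left₀ (abs_nonneg _) hab 4
    rw [← abs_pow, abs_of_nonneg (by positivity)] at h2
    refine h2.trans (le_of_eq ?_)
    have hs : Real.sqrt (Fintype.card (GF x.1 x.2)) ^ 2 = Fintype.card (GF x.1 x.2) :=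
      Real.sq_sqrt (by positivity)
    rw [mul_pow]
    congr 1
    calc Real.sqrt (Fintype.card (GF x.1 x.2)) ^ 4
        = (Real.sqrt (Fintype.card (GF x.1 x.2)) ^ 2) ^ 2 := by ring
      _ = _ := by rw [hs]
  refine (Finset.sum_le_sum (fun u _ => key u)).trans (le_of_eq ?_)
  rw [Finset.sum_const, Finset.card_univ, Fintype.card_fun, Fintype.card_fin, nsmul_eq_mul]
  push_cast
  ring

end real

end Pool.Agent.CAB
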