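import Pool.Agent.CAB.Coord
import Pool.Agent.CAB.Inv
import Pool.Agent.CAB.CG

/-!
# Multipliers of ideals and the derivative of an ideal class

`D` is a derivation of the field `L` killing the coefficients of the curve (in the form: the
coefficients of the expansions). For an ideal `I` of the affine ring a multiplier is a Laurent
series `F` with `(D - F) I ⊆ I`. It exists (`F = ∑ v_s D(u_s)` if `∑ u_s v_s = 1`,
`v_s I ⊆ R`), it is unique modulo `R`, additive in `I`, and `D g / g` for `I = (g)`.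
-/

namespace Pool.Agent.CAB

open Polynomial

variable {S T : Type*} [CommRing S] [CommRing T] {a b : ℕ}

/-- The derivation kills the coefficients of the expansions. -/
structure Cst (D : Der S) (C : Crv a b S) : Prop where
  x : lder D C.x = 0
  y : lder D C.y = 0

lemma lder_C (D : Der S) (s : S) : lder D (HahnSeries.C s) = HahnSeries.C (D s) := by
  ext n
  rw [coeff_lder, HahnSeries.C_apply, HahnSeries.C_apply, HahnSeries.coeff_single,
    HahnSeries.coeff_single]
  split_ifs <;> simp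

/-- The affine ring is stable under coefficientwise derivations. -/
theorem Cst.lder_ev {D : Der S} {C : Crv a b S} (hc : Cst D C) (z : Aff C.P) :
    ∃ w, C.ev w = lder D (C.ev z) := by
  have hadd : ∀ z z' : Aff C.P, (∃ w, C.ev w = lder D (C.ev z)) →
      (∃ w, C.ev w = lder D (C.ev z')) → ∃ w, C.ev w = lder D (C.ev (z + z')) := by
    rintro z z' ⟨w, hw⟩ ⟨w', hw'⟩
    exact ⟨w + w', by rw [map_add, map_add, map_add, hw, hw']⟩
  have hmul : ∀ z z' : Aff C.P, (∃ w, C.ev w = lder D (C.ev z)) →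
      (∃ w, C.ev w = lder D (C.ev z')) → ∃ w, C.ev w = lder D (C.ev (z * z')) := by
    rintro z z' ⟨w, hw⟩ ⟨w', hw'⟩
    exact ⟨z * w' + z' * w, by
      rw [map_add, map_mul, map_mul, map_mul, hw, hw', Der.leib]⟩
  have hcc : ∀ s : S, ∃ w, C.ev w = lder D (C.ev (C.cc s)) := fun s =>
    ⟨C.cc (D s), by rw [C.ev_cc, C.ev_cc, lder_C]⟩
  have hx : ∃ w, C.ev w = lder D (C.ev C.gx) := ⟨0, by rw [C.ev_gx, hc.x, map_zero]⟩
  have hy : ∃ w, C.ev w = lder D (C.ev C.gy) := ⟨0, by rw [C.ev_gy, hc.y, map_zero]⟩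
  have hone : ∃ w, C.ev w = lder D (C.ev 1) := ⟨0, by rw [map_one, Der.map_one, map_zero]⟩
  have hpow : ∀ (z : Aff C.P), (∃ w, C.ev w = lder D (C.ev z)) → ∀ n : ℕ,
      ∃ w, C.ev w = lder D (C.ev (z ^ n)) := by
    intro z hz n
    induction n with
    | zero => rw [pow_zero]; exact hone
    | succ n ih => rw [pow_succ]; exact hmul _ _ ih hz
  have hof : ∀ q : S[X], ∃ w, C.ev w = lder D (C.ev (AdjoinRoot.of C.P q)) := by
    intro q
    induction q using Polynomial.induction_on' with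
    | add p q hp hq => rw [map_add]; exact hadd _ _ hp hq
    | monomial n c =>
      rw [← C_mul_X_pow_eq_monomial, map_mul, map_pow]
      exact hmul _ _ (hcc c) (hpow _ hx n)
  obtain ⟨q, rfl⟩ := AdjoinRoot.mk_surjective z
  induction q using Polynomial.induction_on' with
  | add p q hp hq => rw [map_add]; exact hadd _ _ hp hq
  | monomial n c =>
    rw [← C_mul_X_pow_eq_monomial, map_mul, map_pow, AdjoinRoot.mk_C, AdjoinRoot.mk_X]
    exact hmul _ _ (hof c) (hpow _ hy n)

theorem lder_lmap {DS : Der S} {DT : Der T} {φ : S →+* T} (hφ : Der.Ext DS DT φ)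
    (f : LaurentSeries S) : lder DT (lmap φ f) = lmap φ (lder DS f) := by
  ext n
  simp only [coeff_lder, coeff_lmap]
  exact hφ _

theorem Cst.map {DS : Der S} {DT : Der T} {φ : S →+* T} (hφ : Der.Ext DS DT φ) {C : Crv a b S}
    {C' : Crv a b T} (h : Rel C C' φ) (hc : Cst DS C) : Cst DT C' where
  x := by rw [h.x, lder_lmap hφ, hc.x, map_zero]
  y := by rw [h.y, lder_lmap hφ, hc.y, map_zero]

variable {L L' : Type*} [Field L] [Field L']

/-- `F` is a multiplier of `I`. -/
def Mlt (D : Der L) (C : Crv a b L) (I : Ideal (Aff C.P)) (F : LaurentSeries L) : Prop :=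
  ∀ z ∈ I, ∃ w ∈ I, lder D (C.ev z) - F * C.ev z = C.ev w

variable {D : Der L} {C : Crv a b L}

theorem exists_mlt (hn : Num a b) [IsDedekindDomain (Aff C.P)] (hc : Cst D C)
    {I : Ideal (Aff C.P)} (hI : I ≠ ⊥) : ∃ F, Mlt D C I F := by
  have hinj : Function.Injective C.ev := C.ev_injective hn.co (le_trans one_le_two hn.ha)
  obtain ⟨n, u, v, hu, hv, hsum⟩ := invI_of_dedekind (K := LaurentSeries L) hinj hI
  refine ⟨∑ s, v s * lder D (C.ev (u s)), fun z hz => ?_⟩
  choose w hw using fun s => hv s z hz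
  choose dw hdw using fun s => hc.lder_ev (w s)
  refine ⟨∑ s, u s * dw s, Ideal.sum_mem _ fun s _ => Ideal.mul_mem_right _ _ (hu s), ?_⟩
  have h1 : C.ev z = ∑ s, C.ev (u s) * C.ev (w s) := by
    rw [← one_mul (C.ev z), ← hsum, Finset.sum_mul]
    refine Finset.sum_congr rfl fun s _ => ?_
    rw [hw s, mul_assoc]
  have h2 : lder D (C.ev z) = ∑ s, lder D (C.ev (u s) * C.ev (w s)) := by
    conv_lhs => rw [h1]
    rw [map_sum]
  rw [h2, Finset.sum_mul, ← Finset.sum_sub_distrib, map_sum]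
  refine Finset.sum_congr rfl fun s _ => ?_
  rw [Der.leib, map_mul, hdw s]
  rw [show v s * lder D (C.ev (u s)) * C.ev z = C.ev (w s) * lder D (C.ev (u s)) by
    rw [hw s]; ring]
  ring

theorem Mlt.sub_mem (hn : Num a b) [IsDedekindDomain (Aff C.P)] {I : Ideal (Aff C.P)}
    (hI : I ≠ ⊥) {F F' : LaurentSeries L} (h : Mlt D C I F) (h' : Mlt D C I F') :
    F - F' ∈ C.rg := by
  have hinj : Function.Injective C.ev := C.ev_injective hn.co (le_trans one_le_two hn.ha)
  obtain ⟨n, u, v, hu, hv, hsum⟩ := invI_of_dedekind (K := LaurentSeries L) hinj hI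
  choose w hwI hw using fun s => h (u s) (hu s)
  choose w' hwI' hw' using fun s => h' (u s) (hu s)
  choose t ht using fun s => hv s (w' s - w s) (I.sub_mem (hwI' s) (hwI s))
  refine (C.mem_rg).2 ⟨∑ s, t s, ?_⟩
  rw [map_sum, ← mul_one (F - F'), ← hsum, Finset.mul_sum]
  refine Finset.sum_congr rfl fun s _ => ?_
  rw [ht s, map_sub, ← hw s, ← hw' s]
  ring

theorem Mlt.sub_rg {I : Ideal (Aff C.P)} {F r : LaurentSeries L} (h : Mlt D C I F)
    (hr : r ∈ C.rg) : Mlt D C I (F - r) := by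
  obtain ⟨t, rfl⟩ := C.mem_rg.1 hr
  intro z hz
  obtain ⟨w, hw, he⟩ := h z hz
  refine ⟨w + t * z, I.add_mem hw (I.mul_mem_left _ hz), ?_⟩
  rw [map_add, map_mul, ← he]
  ring

theorem Mlt.mul {I J : Ideal (Aff C.P)} {F G : LaurentSeries L} (h : Mlt D C I F)
    (h' : Mlt D C J G) : Mlt D C (I * J) (F + G) := by
  intro z hz
  induction hz using Submodule.mul_induction_on' with
  | mem_mul_mem x hx y hy =>
    obtain ⟨w, hw, he⟩ := h x hx
    obtain ⟨w', hw', he'⟩ := h' y hy
    refine ⟨x * w' + w * y, Ideal.add_mem _ (Ideal.mul_mem_mul hx hw')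
      (Ideal.mul_mem_mul hw hy), ?_⟩
    rw [map_add, map_mul C.ev x y, map_mul C.ev x w', map_mul C.ev w y, ← he, ← he', Der.leib]
    ring
  | add x _ y _ hx hy =>
    obtain ⟨w, hw, he⟩ := hx
    obtain ⟨w', hw', he'⟩ := hy
    refine ⟨w + w', Ideal.add_mem _ hw hw', ?_⟩
    rw [map_add, map_add, map_add, ← he, ← he']
    ring

theorem mlt_span (hn : Num a b) (hc : Cst D C) {g : Aff C.P} (hg : g ≠ 0) :
    Mlt D C (Ideal.span {g}) (lder D (C.ev g) / C.ev g) := by
  have hinj : Function.Injective C.ev := C.ev_injective hn.co (le_trans one_le_two hn.ha)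
  have hg' : C.ev g ≠ 0 := fun h => hg (hinj (by rw [h, map_zero]))
  intro z hz
  obtain ⟨c, rfl⟩ := Ideal.mem_span_singleton'.1 hz
  obtain ⟨w, hw⟩ := hc.lder_ev c
  refine ⟨w * g, Ideal.mem_span_singleton'.2 ⟨w, rfl⟩, ?_⟩
  rw [map_mul C.ev c g, map_mul C.ev w g, hw, Der.leib]
  field_simp
  ring

/-- Multipliers and base change. -/
theorem Mlt.map {D' : Der L'} {C' : Crv a b L'} {φ : L →+* L'} (hφ : Der.Ext D D' φ)
    (hrel : Rel C C' φ) (hc : Cst D C) {I : Ideal (Aff C.P)} {F : LaurentSeries L}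
    (h : Mlt D C I F) : Mlt D' C' (I.map hrel.aff) (lmap φ F) := by
  intro z hz
  have hz' : z ∈ Submodule.span (Aff C'.P) (hrel.aff '' (I : Set (Aff C.P))) := hz
  clear hz
  induction hz' using Submodule.span_induction with
  | mem x hx =>
    obtain ⟨y, hy, rfl⟩ := hx
    obtain ⟨w, hw, he⟩ := h y hy
    refine ⟨hrel.aff w, Ideal.mem_map_of_mem _ hw, ?_⟩
    rw [hrel.ev_aff, hrel.ev_aff, lder_lmap hφ, ← he, map_sub, map_mul]
  | zero => exact ⟨0, Ideal.zero_mem _, by simp⟩
  | add x y _ _ hx hy =>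
    obtain ⟨w, hw, he⟩ := hx
    obtain ⟨w', hw', he'⟩ := hy
    refine ⟨w + w', Ideal.add_mem _ hw hw', ?_⟩
    rw [map_add, map_add, map_add, ← he, ← he']
    ring
  | smul c x hx' hx =>
    obtain ⟨w, hw, he⟩ := hx
    obtain ⟨d, hd⟩ := (hc.map hφ hrel).lder_ev c
    refine ⟨c * w + d * x, Ideal.add_mem _ (Ideal.mul_mem_left _ _ hw)
      (Ideal.mul_mem_left _ _ hx'), ?_⟩
    rw [smul_eq_mul, map_mul C'.ev c x, map_add, map_mul C'.ev c w, map_mul C'.ev d x, hd, ← he,
      Der.leib]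
    ring

section theta

variable (hn : Num a b) [IsDedekindDomain (Aff C.P)] (hc : Cst D C)

omit [IsDedekindDomain (Aff C.P)] in
theorem crd_congr {F F' : LaurentSeries L} (h : F - F' ∈ C.rg) :
    C.crd hn F = C.crd hn F' := by
  have h1 := C.crd_rg hn h
  rw [map_sub] at h1
  exact sub_eq_zero.1 h1

open Classical in
/-- The derivative of the class of an ideal along `D`, as a function of the ideal. -/
noncomputable def thetaI (I : Ideal (Aff C.P)) : Multiplicative (ℕ → L) :=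
  if h : I ≠ ⊥ then Multiplicative.ofAdd (C.crd hn (exists_mlt hn hc h).choose) else 1

theorem thetaI_eq {I : Ideal (Aff C.P)} (hI : I ≠ ⊥) {F : LaurentSeries L} (hF : Mlt D C I F) :
    thetaI hn hc I = Multiplicative.ofAdd (C.crd hn F) := by
  rw [thetaI, dif_pos hI]
  congr 1
  exact crd_congr hn (Mlt.sub_mem hn hI (exists_mlt hn hc hI).choose_spec hF)

theorem thetaI_mul (I J : Ideal (Aff C.P)) (hI : I ≠ ⊥) (hJ : J ≠ ⊥) :
    thetaI hn hc (I * J) = thetaI hn hc I * thetaI hn hc J := by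
  obtain ⟨F, hF⟩ := exists_mlt hn hc hI
  obtain ⟨G, hG⟩ := exists_mlt hn hc hJ
  rw [thetaI_eq hn hc hI hF, thetaI_eq hn hc hJ hG,
    thetaI_eq hn hc (mul_ne_zero hI hJ : I * J ≠ ⊥) (hF.mul hG), map_add, ofAdd_add]

theorem thetaI_span (x : Aff C.P) (hx : x ≠ 0) : thetaI hn hc (Ideal.span {x}) = 1 := by
  rw [thetaI_eq hn hc (fun h => hx (Ideal.span_singleton_eq_bot.1 h)) (mlt_span hn hc hx),
    C.crd_nonneg hn (lder_div_mem D _), ofAdd_zero]

/-- The derivative of an ideal class along `D`. -/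
noncomputable def theta : ClassGroup (Aff C.P) →* Multiplicative (ℕ → L) :=
  (exists_hom (thetaI hn hc) (thetaI_mul hn hc) (thetaI_span hn hc)).choose

theorem theta_cl {I : Ideal (Aff C.P)} (hI : I ≠ ⊥) {F : LaurentSeries L} (hF : Mlt D C I F) :
    theta hn hc (cl I hI) = Multiplicative.ofAdd (C.crd hn F) :=
  ((exists_hom (thetaI hn hc) (thetaI_mul hn hc) (thetaI_span hn hc)).choose_spec I hI).trans
    (thetaI_eq hn hc hI hF)

/-- The derivative of an extended class. -/
theorem theta_ext {D' : Der L'} {C' : Crv a b L'} [IsDedekindDomain (Aff C'.P)] {φ : L →+* L'}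
    (hφ : Der.Ext D D' φ) (hrel : Rel C C' φ) (hc' : Cst D' C')
    (hinj : Function.Injective hrel.aff) (c : ClassGroup (Aff C.P)) (l : ℕ) :
    Multiplicative.toAdd (theta hn hc' (extCl hrel.aff hinj c)) l =
      φ (Multiplicative.toAdd (theta hn hc c) l) := by
  obtain ⟨I, hI, rfl⟩ := exists_cl c
  obtain ⟨F, hF⟩ := exists_mlt hn hc hI
  rw [extCl_cl hinj hI, theta_cl hn hc hI hF,
    theta_cl hn hc' (map_ne_bot hinj hI) (hF.map hφ hrel hc), toAdd_ofAdd, toAdd_ofAdd]
  exact hrel.crd_lmap hn F l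

end theta

end Pool.Agent.CAB
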