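import Pool.Agent.CAB.Defs

/-!
# CAB: counting functions over finite fields
-/

namespace Pool.Agent.CAB

open Polynomial

section

variable {K : Type*} [Field K]

/-- The number of points of `P = 0` with coordinates in `K`. -/
noncomputable def NF (P : K[X][X]) : ℕ := Nat.card {z : K × K // P.evalEval z.1 z.2 = 0}

/-- The trace. -/
noncomputable def af (P : K[X][X]) : ℤ := (Nat.card K : ℤ) - NF P

/-- The member `P₀(x, y) + u_0 + u_1 x + ... + u_{k-1} x^{k-1}`. -/
noncomputable def fam (P₀ : K[X][X]) {k : ℕ} (u : Fin k → K) : K[X][X] :=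
  P₀ + C (∑ i : Fin k, C (u i) * X ^ (i : ℕ))

/-- The number of solutions of `P₀(x, y) = P₀(x, y')`. -/
noncomputable def NZ (P₀ : K[X][X]) : ℕ :=
  Nat.card {z : K × K × K // P₀.evalEval z.1 z.2.1 = P₀.evalEval z.1 z.2.2}

end

end Pool.Agent.CAB
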