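import Pool.Agent.CAB.MH

/-!
# CAB: pointwise estimates of the weighted first moment

* `moment_real'`: without a fourth moment the error is `O(q^(r+k+1))` (after multiplication by `q`).
* `pointwise`: all the estimates at one finite field; the good one needs the fourth moment there.
-/

namespace Pool.Agent.CAB

open Polynomial Finset Pool.Agent.Hhelper85

/-- the trivial estimate of the error term -/
theorem moment_real' (c C2 Cb : ℝ) (hc : 0 ≤ c) (hC2 : 0 ≤ C2) (hCb : 0 ≤ Cb)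
    (r : ℕ) : ∃ M : ℝ, 0 ≤ M ∧ ∀ (U : Type) [Fintype U] (a : U → ℝ) (B : Finset U) (q S2 : ℝ)
      (k : ℕ), 1 ≤ q → (∀ u, |a u| ≤ c * q) → ∑ u, a u = 0 → ∑ u, a u ^ 2 = S2 →
      S2 ≤ C2 * q ^ (k + 1) → (B.card : ℝ) * q ≤ Cb * q ^ k →
      |q * (∑ u, a u * (q - a u) ^ r - ∑ u ∈ B, a u * (q - a u) ^ r) + r * q ^ r * S2| ≤
        M * q ^ (r + k + 1) := by
  obtain ⟨Br, hBr, hexp⟩ := expand_pow_real c hc r
  refine ⟨Br * c * C2 + (1 + c) ^ r * c * Cb, by positivity, ?_⟩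
  intro U _ a B q S2 k hq ha h1 h2 hS2 hB
  have hq0 : 0 < q := by linarith
  set X := q * (∑ u, a u * (q - a u) ^ r) + r * q ^ r * S2 with hX
  set Y := q * ∑ u ∈ B, a u * (q - a u) ^ r with hY
  have hXY : q * (∑ u, a u * (q - a u) ^ r - ∑ u ∈ B, a u * (q - a u) ^ r) + r * q ^ r * S2
      = X - Y := by rw [hX, hY]; ring
  rw [hXY]
  have hqX : q * X = ∑ u, a u * (q ^ 2 * (q - a u) ^ r - q ^ (r + 2) + r * a u * q ^ (r + 1)) := by
    have e1 : ∑ u, a u * (q ^ 2 * (q - a u) ^ r - q ^ (r + 2) + r * a u * q ^ (r + 1))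
        = q ^ 2 * ∑ u, a u * (q - a u) ^ r - q ^ (r + 2) * ∑ u, a u
          + r * q ^ (r + 1) * ∑ u, a u ^ 2 := by
      rw [Finset.mul_sum, Finset.mul_sum, Finset.mul_sum, ← Finset.sum_sub_distrib,
        ← Finset.sum_add_distrib]
      apply Finset.sum_congr rfl
      intro u _
      ring
    rw [e1, h1, h2, hX]
    ring
  have habs : |q * X| ≤ Br * q ^ r * (c * q * S2) := by
    rw [hqX]
    calc |∑ u, a u * (q ^ 2 * (q - a u) ^ r - q ^ (r + 2) + r * a u * q ^ (r + 1))|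
        ≤ ∑ u, |a u * (q ^ 2 * (q - a u) ^ r - q ^ (r + 2) + r * a u * q ^ (r + 1))| :=
          Finset.abs_sum_le_sum_abs _ _
      _ ≤ ∑ u, (c * q) * (Br * a u ^ 2 * q ^ r) := by
          apply Finset.sum_le_sum
          intro u _
          rw [abs_mul]
          exact mul_le_mul (ha u) (hexp q (a u) hq (ha u)) (abs_nonneg _) (by positivity)
      _ = Br * q ^ r * (c * q * S2) := by
          rw [← h2, Finset.mul_sum, Finset.mul_sum]
          apply Finset.sum_congr rfl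
          intro u _
          ring
  have hXb : |X| ≤ Br * c * C2 * q ^ (r + k + 1) := by
    have e1 : q * |X| ≤ q * (Br * c * C2 * q ^ (r + k + 1)) := by
      have e2 : q * |X| = |q * X| := by rw [abs_mul, abs_of_pos hq0]
      rw [e2]
      refine habs.trans ?_
      calc Br * q ^ r * (c * q * S2) ≤ Br * q ^ r * (c * q * (C2 * q ^ (k + 1))) := by
            apply mul_le_mul_of_nonneg_left _ (by positivity)
            exact mul_le_mul_of_nonneg_left hS2 (by positivity)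
        _ = q * (Br * c * C2 * q ^ (r + k + 1)) := by ring
    exact le_of_mul_le_mul_left e1 hq0
  have hYb : |Y| ≤ (1 + c) ^ r * c * Cb * q ^ (r + k + 1) := by
    rw [hY, abs_mul, abs_of_pos hq0]
    have h3 : |∑ u ∈ B, a u * (q - a u) ^ r| ≤ ∑ u ∈ B, (c * q) * ((1 + c) ^ r * q ^ r) := by
      refine (Finset.abs_sum_le_sum_abs _ _).trans ?_
      apply Finset.sum_le_sum
      intro u _
      rw [abs_mul, abs_pow]
      exact mul_le_mul (ha u) (abs_pow_le c q (a u) hc hq (ha u) r) (by positivity) (by positivity)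
    rw [Finset.sum_const, nsmul_eq_mul] at h3
    calc q * |∑ u ∈ B, a u * (q - a u) ^ r|
        ≤ q * (B.card * ((c * q) * ((1 + c) ^ r * q ^ r))) :=
          mul_le_mul_of_nonneg_left h3 hq0.le
      _ = (B.card * q) * (c * (1 + c) ^ r * q ^ (r + 1)) := by ring
      _ ≤ (Cb * q ^ k) * (c * (1 + c) ^ r * q ^ (r + 1)) :=
          mul_le_mul_of_nonneg_right hB (by positivity)
      _ = (1 + c) ^ r * c * Cb * q ^ (r + k + 1) := by ring
  calc |X - Y| ≤ |X| + |Y| := abs_sub _ _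
    _ ≤ Br * c * C2 * q ^ (r + k + 1) + (1 + c) ^ r * c * Cb * q ^ (r + k + 1) :=
        add_le_add hXb hYb
    _ = (Br * c * C2 + (1 + c) ^ r * c * Cb) * q ^ (r + k + 1) := by ring

section real

variable {R₀ : Type} [CommRing R₀] {P₀ : R₀[X][X]} {k : ℕ} {Δ : MvPolynomial (Fin k) R₀}

/-- All the estimates at one finite field. -/
theorem pointwise {a : ℕ} (hmon : P₀.Monic) (hdeg : P₀.natDegree = a) (ha : 1 ≤ a) (hk : 2 ≤ k)
    (hΔ : ∀ x : Nat.Primes × ℕ, x.2 ≠ 0 → ∀ φ : R₀ →+* GF x.1 x.2, Δ.map φ ≠ 0)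
    {C4 : ℝ} (hC4 : 0 ≤ C4) (r : ℕ) :
    ∃ M : ℝ, 0 ≤ M ∧ ∀ x : Nat.Primes × ℕ, x.2 ≠ 0 → ∀ φ : R₀ →+* GF x.1 x.2,
      (∑ᶠ u : Fin k → GF x.1 x.2, (af (fam (P₀.map (mapRingHom φ)) u) : ℝ) ^ 4 ≤
        C4 * ((x.1 : ℝ) ^ x.2) ^ (k + 2) →
        |(RP P₀ Δ r x φ : ℝ)| ≤ M * (((x.1 : ℝ) ^ x.2) ^ (r + k - 1) *
          (Real.sqrt ((x.1 : ℝ) ^ x.2) * Real.sqrt (Real.sqrt ((x.1 : ℝ) ^ x.2))))) ∧
      |(RP P₀ Δ r x φ : ℝ)| ≤ M * ((x.1 : ℝ) ^ x.2) ^ (r + k) ∧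
      SA P₀ Δ r x φ ≤ M * (((x.1 : ℝ) ^ x.2) ^ (r + k) * Real.sqrt ((x.1 : ℝ) ^ x.2)) ∧
      |(NZ (P₀.map (mapRingHom φ)) : ℝ) - ((x.1 : ℝ) ^ x.2) ^ 2| ≤ M * ((x.1 : ℝ) ^ x.2) ^ 2 := by
  obtain ⟨M1, hM1, H1⟩ := moment_real a a C4 Δ.totalDegree (by positivity) (by positivity) hC4
    (by positivity) r
  obtain ⟨M2, hM2, H2⟩ := abs_moment_real a a (by positivity) (by positivity) r
  obtain ⟨M3, hM3, H3⟩ := moment_real' a a Δ.totalDegree (by positivity) (by positivity)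
    (by positivity) r
  have common : ∀ x : Nat.Primes × ℕ, x.2 ≠ 0 → ∀ φ : R₀ →+* GF x.1 x.2,
      ∀ (i1 : Fintype (GF x.1 x.2)), (Fintype.card (GF x.1 x.2) : ℝ) = (x.1 : ℝ) ^ x.2 ∧
      (∀ u : Fin k → GF x.1 x.2, |(af (fam (P₀.map (mapRingHom φ)) u) : ℝ)| ≤
        a * ((x.1 : ℝ) ^ x.2)) ∧
      ∑ u : Fin k → GF x.1 x.2, (af (fam (P₀.map (mapRingHom φ)) u) : ℝ) = 0 ∧
      ∑ u : Fin k → GF x.1 x.2, (af (fam (P₀.map (mapRingHom φ)) u) : ℝ) ^ 2 =
        ((x.1 : ℝ) ^ x.2) ^ (k - 1) * ((NZ (P₀.map (mapRingHom φ)) : ℝ) -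
          ((x.1 : ℝ) ^ x.2) ^ 2) ∧
      ((x.1 : ℝ) ^ x.2) ^ (k - 1) * ((NZ (P₀.map (mapRingHom φ)) : ℝ) -
          ((x.1 : ℝ) ^ x.2) ^ 2) ≤ a * ((x.1 : ℝ) ^ x.2) ^ (k + 1) ∧
      (NZ (P₀.map (mapRingHom φ)) : ℝ) ≤ a * ((x.1 : ℝ) ^ x.2) ^ 2 := by
    intro x hx φ i1
    classical
    have hm : (P₀.map (mapRingHom φ)).Monic := hmon.map _
    have hd : (P₀.map (mapRingHom φ)).natDegree = a := by rw [hmon.natDegree_map, hdeg]
    have hc : (Fintype.card (GF x.1 x.2) : ℝ) = (x.1 : ℝ) ^ x.2 := by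
      have := card_GF hx
      rw [Nat.card_eq_fintype_card] at this
      rw [this]; push_cast; rfl
    have hnz : (NZ (P₀.map (mapRingHom φ)) : ℝ) ≤ a * ((x.1 : ℝ) ^ x.2) ^ 2 := by
      rw [← hc]
      exact_mod_cast NZ_le hm hd ha
    refine ⟨hc, fun u => ?_, ?_, ?_, ?_, hnz⟩
    · rw [← hc]
      exact_mod_cast abs_af_le hm hd ha u
    · exact_mod_cast sum_af (P₀.map (mapRingHom φ)) (by omega : 1 ≤ k)
    · have h := sum_af_sq (P₀.map (mapRingHom φ)) hk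
      rw [← hc]
      exact_mod_cast h
    · have hq : (0 : ℝ) ≤ ((x.1 : ℝ) ^ x.2) ^ (k - 1) := by positivity
      have e : ((x.1 : ℝ) ^ x.2) ^ (k + 1) =
          ((x.1 : ℝ) ^ x.2) ^ (k - 1) * ((x.1 : ℝ) ^ x.2) ^ 2 := by
        rw [← pow_add]
        congr 1
        omega
      rw [e]
      nlinarith [sq_nonneg ((x.1 : ℝ) ^ x.2)]
  have ha0 : (0 : ℝ) ≤ (a : ℝ) := by positivity
  refine ⟨M1 + M2 + M3 + (a + 1), by positivity, fun x hx φ => ?_⟩
  classical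
  let i1 : Fintype (GF x.1 x.2) := Fintype.ofFinite _
  obtain ⟨hc, hb, h1, h2, h3, hnz⟩ := common x hx φ i1
  set q : ℝ := (x.1 : ℝ) ^ x.2 with hq
  have hq1 : 1 ≤ q := by
    rw [← hc]
    exact_mod_cast Fintype.card_pos
  have hq0 : 0 < q := by linarith
  have hc' : (Nat.card (GF x.1 x.2) : ℝ) = q := by
    rw [Nat.card_eq_fintype_card, hc]
  have hbad : (((univ : Finset (Fin k → GF x.1 x.2)).filter
      fun u => ¬ Good Δ φ u).card : ℝ) * q ≤ Δ.totalDegree * q ^ k := by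
    have hB := card_bad (hΔ x hx φ)
    have e : (univ.filter fun u : Fin k → GF x.1 x.2 => MvPolynomial.eval u (Δ.map φ) = 0) =
        univ.filter fun u => ¬ Good Δ φ u := by
      ext u
      simp [Good, MvPolynomial.eval_map]
    rw [e] at hB
    have hB' : (((univ : Finset (Fin k → GF x.1 x.2)).filter
      fun u => ¬ Good Δ φ u).card : ℝ) * q ≤ (Δ.map φ).totalDegree * q ^ k := by
      rw [← hc]
      exact_mod_cast hB
    refine hB'.trans ?_
    gcongr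
    exact Finset.sup_mono (MvPolynomial.support_map_subset _ _)
  have e1 : (RP P₀ Δ r x φ : ℝ) * q = q * ((∑ u : Fin k → GF x.1 x.2,
      (af (fam (P₀.map (mapRingHom φ)) u) : ℝ) *
        (q - (af (fam (P₀.map (mapRingHom φ)) u) : ℝ)) ^ r) -
      ∑ u ∈ (univ.filter fun u : Fin k → GF x.1 x.2 => ¬ Good Δ φ u),
        (af (fam (P₀.map (mapRingHom φ)) u) : ℝ) *
        (q - (af (fam (P₀.map (mapRingHom φ)) u) : ℝ)) ^ r) +
      r * q ^ r * (q ^ (k - 1) * ((NZ (P₀.map (mapRingHom φ)) : ℝ) - q ^ 2)) := by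
    have e2 : (SP P₀ Δ r x φ : ℝ) = (∑ u : Fin k → GF x.1 x.2,
      (af (fam (P₀.map (mapRingHom φ)) u) : ℝ) *
        (q - (af (fam (P₀.map (mapRingHom φ)) u) : ℝ)) ^ r) -
      ∑ u ∈ (univ.filter fun u : Fin k → GF x.1 x.2 => ¬ Good Δ φ u),
        (af (fam (P₀.map (mapRingHom φ)) u) : ℝ) *
        (q - (af (fam (P₀.map (mapRingHom φ)) u) : ℝ)) ^ r := by
      rw [SP, finsum_eq_sum_of_fintype, Finset.sum_filter, ← Finset.sum_sub_distrib]
      push_cast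
      apply Finset.sum_congr rfl
      intro u _
      by_cases hg : Good Δ φ u
      · rw [if_pos hg, if_neg (not_not.2 hg), NF_eq, hc']
        ring
      · rw [if_neg hg, if_pos hg, sub_self]
    have e3 : q ^ (r + k - 2) * q = q ^ r * q ^ (k - 1) := by
      rw [← pow_succ, ← pow_add]
      congr 1
      omega
    rw [RP]
    push_cast
    rw [e2, ← hq]
    linear_combination (r : ℝ) * ((NZ (P₀.map (mapRingHom φ)) : ℝ) - q ^ 2) * e3
  refine ⟨?_, ?_, ?_, ?_⟩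
  · intro h4'
    rw [finsum_eq_sum_of_fintype] at h4'
    have hmain := H1 (Fin k → GF x.1 x.2)
      (fun u => (af (fam (P₀.map (mapRingHom φ)) u) : ℝ)) (univ.filter fun u => ¬ Good Δ φ u) q
      (q ^ (k - 1) * ((NZ (P₀.map (mapRingHom φ)) : ℝ) - q ^ 2)) k hq1 hb h1 h2 h3 h4' hbad
    rw [← e1, abs_mul, abs_of_pos hq0] at hmain
    have e4 : q ^ (r + k) = q ^ (r + k - 1) * q := by
      rw [← pow_succ]
      congr 1
      omega
    rw [e4] at hmain
    have h5 : |(RP P₀ Δ r x φ : ℝ)| ≤ M1 * (q ^ (r + k - 1) *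
        (Real.sqrt q * Real.sqrt (Real.sqrt q))) := by
      refine le_of_mul_le_mul_right (hmain.trans (le_of_eq ?_)) hq0
      ring
    refine h5.trans ?_
    apply mul_le_mul_of_nonneg_right _ (by positivity)
    linarith
  · have hmain := H3 (Fin k → GF x.1 x.2)
      (fun u => (af (fam (P₀.map (mapRingHom φ)) u) : ℝ)) (univ.filter fun u => ¬ Good Δ φ u) q
      (q ^ (k - 1) * ((NZ (P₀.map (mapRingHom φ)) : ℝ) - q ^ 2)) k hq1 hb h1 h2 h3 hbad
    rw [← e1, abs_mul, abs_of_pos hq0] at hmain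
    have h5 : |(RP P₀ Δ r x φ : ℝ)| ≤ M3 * q ^ (r + k) := by
      refine le_of_mul_le_mul_right (hmain.trans (le_of_eq ?_)) hq0
      ring
    refine h5.trans ?_
    apply mul_le_mul_of_nonneg_right _ (by positivity)
    linarith
  · have hmain := H2 (Fin k → GF x.1 x.2)
      (fun u => (af (fam (P₀.map (mapRingHom φ)) u) : ℝ)) q
      (q ^ (k - 1) * ((NZ (P₀.map (mapRingHom φ)) : ℝ) - q ^ 2)) k hq1 hb h2 h3
      (by rw [Fintype.card_fun, Fintype.card_fin, Nat.cast_pow, hc])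
    have e2 : SA P₀ Δ r x φ ≤ ∑ u : Fin k → GF x.1 x.2,
        |(af (fam (P₀.map (mapRingHom φ)) u) : ℝ)| *
          |q - (af (fam (P₀.map (mapRingHom φ)) u) : ℝ)| ^ r := by
      rw [SA, finsum_eq_sum_of_fintype]
      apply Finset.sum_le_sum
      intro u _
      by_cases hg : Good Δ φ u
      · rw [if_pos hg, ← hc', ← NF_eq, mul_comm, abs_of_nonneg (Nat.cast_nonneg
          (NF (fam (P₀.map (mapRingHom φ)) u)) :
            (0 : ℝ) ≤ (NF (fam (P₀.map (mapRingHom φ)) u) : ℝ))]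
      · rw [if_neg hg]
        positivity
    refine e2.trans (hmain.trans ?_)
    apply mul_le_mul_of_nonneg_right _ (by positivity)
    linarith
  · have h0 : (0 : ℝ) ≤ (NZ (P₀.map (mapRingHom φ)) : ℝ) := by positivity
    have hqq : (0 : ℝ) ≤ q ^ 2 := by positivity
    have hM : (0 : ℝ) ≤ (M1 + M2 + M3) * q ^ 2 := by positivity
    rw [abs_le]
    constructor
    · nlinarith
    · nlinarith

end real

end Pool.Agent.CAB
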