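import Pool.Agent.CAB.ZetaCyc
import Pool.Agent.CAB.MH
import Pool.Agent.Hhelper85.ZN
import Pool.Agent.HypJac.HZN

/-!
# CAB: the zeta function of `ℤ[1/N][t_1, ..., t_l][T] / (1 + T + ... + T ^ (a - 1))`, `a ∣ N`

It is the product of the Dirichlet `L`-functions of all characters modulo `d`, `1 ≠ d ∣ a`
(considered modulo `N`), at `s - l`.
-/

namespace Pool.Agent.CAB

open Polynomial Finset Pool.Agent.Hhelper85 Pool.Agent.TateBSD Pool.Agent.HypTate DirichletCharacter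

local instance zc_primeFact (p : Nat.Primes) : Fact (p : ℕ).Prime := ⟨p.2⟩

section count

lemma eA_gcd {K : Type*} [Field K] [Fintype K] [DecidableEq K] {a : ℕ} (ha : a ≠ 0) :
    eA K a = Nat.gcd (Fintype.card K - 1) a := by
  have hq := Fintype.one_lt_card (α := K)
  obtain ⟨h, hh⟩ := Nat.gcd_dvd_left (Fintype.card K - 1) a
  have h1 := Pool.Agent.HJ66.card_roots_pow (F := K) (m := a) ha rfl
    (by rw [← hh]; omega : Fintype.card K = Nat.gcd (Fintype.card K - 1) a * h + 1)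
    (one_ne_zero : (1 : K) ≠ 0)
  rw [one_pow, if_pos rfl] at h1
  exact h1

variable (N : ℕ) [NeZero N]

/-- The sum of all characters modulo `d`, considered modulo `N`. -/
noncomputable def Sc (d q : ℕ) : ℂ :=
  if h : d ∣ N then
    haveI : NeZero d := ⟨ne_zero_of_dvd_ne_zero (NeZero.ne N) h⟩
    ∑ χ : DirichletCharacter ℂ d, changeLevel h χ (q : ZMod N) else 0

lemma Sc_eq {d q : ℕ} (h : d ∣ N) (hq : Nat.Coprime q N) (hq1 : 1 ≤ q) :
    Sc N d q = if d ∣ q - 1 then (d.totient : ℂ) else 0 := by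
  rw [Sc, dif_pos h]
  have : NeZero d := ⟨ne_zero_of_dvd_ne_zero (NeZero.ne N) h⟩
  have h1 : ∀ χ : DirichletCharacter ℂ d, changeLevel h χ (q : ZMod N) = χ (q : ZMod d) := by
    intro χ
    have h2 := changeLevel_eq_cast_of_dvd' χ h (a := (q : ℤ))
      (by rw [Nat.isCoprime_iff_coprime]; exact hq)
    simpa using h2
  rw [Finset.sum_congr rfl (fun χ _ => h1 χ), sum_characters_eq]
  have h3 : ((q : ZMod d) = 1) ↔ d ∣ q - 1 := by
    rw [← ZMod.natCast_eq_zero_iff, Nat.cast_sub hq1, Nat.cast_one, sub_eq_zero]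
  simp only [h3]

lemma sum_Sc {a q : ℕ} (ha : a ≠ 0) (haN : a ∣ N) (hq : Nat.Coprime q N) (hq1 : 1 ≤ q) :
    ∑ d ∈ a.divisors.erase 1, Sc N d q = (Nat.gcd (q - 1) a : ℂ) - 1 := by
  have h1 : Nat.gcd (q - 1) a = ∑ d ∈ a.divisors, if d ∣ q - 1 then d.totient else 0 := by
    rw [← Finset.sum_filter, ← Nat.sum_totient (Nat.gcd (q - 1) a)]
    apply Finset.sum_congr _ (fun _ _ => rfl)
    ext d
    simp only [Nat.mem_divisors, Finset.mem_filter, Nat.dvd_gcd_iff, ne_eq, Nat.gcd_eq_zero_iff,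
      not_and]
    tauto
  have h2 : ∑ d ∈ a.divisors, Sc N d q = (Nat.gcd (q - 1) a : ℂ) := by
    rw [h1]
    push_cast
    apply Finset.sum_congr rfl
    intro d hd
    rw [Sc_eq N ((Nat.dvd_of_mem_divisors hd).trans haN) hq hq1]
  have h3 : (1 : ℕ) ∈ a.divisors := Nat.one_mem_divisors.2 ha
  rw [← Finset.add_sum_erase _ _ h3, Sc_eq N (one_dvd N) hq hq1] at h2
  rw [← h2]
  simp

lemma Sc_pow {d p n : ℕ} (h : d ∣ N) :
    haveI : NeZero d := ⟨ne_zero_of_dvd_ne_zero (NeZero.ne N) h⟩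
    Sc N d (p ^ n) = ∑ χ : DirichletCharacter ℂ d, (changeLevel h χ (p : ZMod N)) ^ n := by
  rw [Sc, dif_pos h]
  apply Finset.sum_congr rfl
  intro χ _
  rw [Nat.cast_pow, map_pow]

/-- The number of points of `ℤ[1/N][T] / (1 + T + ... + T ^ (a - 1))`. -/
lemma hN_CC_ZN {a : ℕ} (ha : a ≠ 0) (haN : a ∣ N) {x : Nat.Primes × ℕ} (hx : x.2 ≠ 0) :
    (hN (CC (ZN N) a) x : ℂ) = ∑ d ∈ a.divisors.erase 1, Sc N d ((x.1 : ℕ) ^ x.2) := by
  classical
  have := finite_hom (R := ZN N) (GF x.1 x.2)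
  let _ := Fintype.ofFinite (ZN N →+* GF x.1 x.2)
  let _ := Fintype.ofFinite (GF x.1 x.2)
  have hc : Fintype.card (GF x.1 x.2) = (x.1 : ℕ) ^ x.2 := by
    have := card_GF hx
    rwa [Nat.card_eq_fintype_card] at this
  have h0 := hN_ZN N x
  rw [hN_CC, Finset.sum_const, Finset.card_univ, ← Nat.card_eq_fintype_card, smul_eq_mul]
  change ((hN (ZN N) x * _ : ℕ) : ℂ) = _
  rw [h0]
  by_cases hp : (x.1 : ℕ) ∣ N
  · rw [if_pos hp, zero_mul, Nat.cast_zero]
    symm
    apply Finset.sum_eq_zero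
    intro d hd
    have hdN : d ∣ N := (Nat.dvd_of_mem_divisors (Finset.mem_of_mem_erase hd)).trans haN
    rw [Sc_pow N hdN]
    apply Finset.sum_eq_zero
    intro χ _
    have : ¬ IsUnit ((x.1 : ℕ) : ZMod N) := by
      rw [ZMod.isUnit_iff_coprime]
      intro h
      have h1 := Nat.Coprime.eq_one_of_dvd h hp
      exact x.1.2.one_lt.ne' h1
    rw [MulChar.map_nonunit _ this, zero_pow hx]
  · rw [if_neg hp, one_mul]
    have hcop : Nat.Coprime ((x.1 : ℕ) ^ x.2) N :=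
      Nat.Coprime.pow_left _ ((Nat.Prime.coprime_iff_not_dvd x.1.2).2 hp)
    have hq1 : 1 ≤ (x.1 : ℕ) ^ x.2 := Nat.one_le_pow _ _ x.1.2.pos
    rw [sum_Sc N ha haN hcop hq1]
    have haK : ((a : ℕ) : GF x.1 x.2) ≠ 0 := by
      intro h
      rw [CharP.cast_eq_zero_iff (GF x.1 x.2) (x.1 : ℕ)] at h
      exact hp (h.trans haN)
    have h1 := eA_eq (K := GF x.1 x.2) haK
    rw [eA_gcd ha, hc] at h1
    rw [h1]
    push_cast
    ring

end count

section LF

variable {N : ℕ} [NeZero N]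

lemma hasSum_char (ψ : DirichletCharacter ℂ N) {s : ℂ} (hs : 1 < s.re) :
    Summable (fun x : Nat.Primes × ℕ => (ψ ((x.1 : ℕ) : ZMod N)) ^ x.2 * pw s x) ∧
    Complex.exp (∑' x : Nat.Primes × ℕ, (ψ ((x.1 : ℕ) : ZMod N)) ^ x.2 * pw s x) =
      LFunction ψ s := by
  have hsum : Summable (fun x : Nat.Primes × ℕ => (ψ ((x.1 : ℕ) : ZMod N)) ^ x.2 * pw s x) := by
    rw [← summable_norm_iff]
    refine Summable.of_nonneg_of_le (fun _ => norm_nonneg _) (fun x => ?_) (summable_pr hs)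
    rw [norm_mul, norm_pw, norm_pow]
    apply mul_le_of_le_one_left (pr_nonneg _ _)
    exact pow_le_one₀ (norm_nonneg _) (DirichletCharacter.norm_le_one ψ _)
  refine ⟨hsum, ?_⟩
  have hL : ∀ p : Nat.Primes, HasSum (fun n : ℕ => (ψ ((p : ℕ) : ZMod N)) ^ n * pw s (p, n))
      (-Complex.log (1 - ψ ((p : ℕ) : ZMod N) * (p : ℂ) ^ (-s))) := by
    intro p
    have hz : ‖ψ ((p : ℕ) : ZMod N) * (p : ℂ) ^ (-s)‖ < 1 := by
      rw [norm_mul]
      calc _ ≤ 1 * ‖(p : ℂ) ^ (-s)‖ :=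
            mul_le_mul_of_nonneg_right (DirichletCharacter.norm_le_one ψ _) (norm_nonneg _)
        _ < 1 := by rw [one_mul]; exact norm_cpow_lt p.2.one_lt (by linarith)
    have h := Complex.hasSum_taylorSeries_neg_log hz
    convert h using 1
    ext n
    rw [pw, mul_pow]
    ring
  have h1 := hsum.hasSum.prod_fiberwise hL
  rw [← h1.tsum_eq, LSeries_eulerProduct_exp_log ψ hs, LFunction_eq_LSeries ψ hs]

/-- The product of the `L`-functions of the characters modulo `d`, considered modulo `N`. -/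
noncomputable def Lc (N : ℕ) [NeZero N] (d : ℕ) (s : ℂ) : ℂ :=
  if h : d ∣ N then
    haveI : NeZero d := ⟨ne_zero_of_dvd_ne_zero (NeZero.ne N) h⟩
    ∏ χ : DirichletCharacter ℂ d, LFunction (changeLevel h χ) s else 1

lemma exp_LZ_CC {a : ℕ} (ha : a ≠ 0) (haN : a ∣ N) {s : ℂ} (hs : 1 < s.re) :
    Complex.exp (LZ (CC (ZN N) a) s) = ∏ d ∈ a.divisors.erase 1, Lc N d s := by
  have h1 : ∀ d ∈ a.divisors.erase 1,
      Summable (fun x : Nat.Primes × ℕ => Sc N d ((x.1 : ℕ) ^ x.2) * pw s x) ∧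
      Complex.exp (∑' x : Nat.Primes × ℕ, Sc N d ((x.1 : ℕ) ^ x.2) * pw s x) = Lc N d s := by
    intro d hd
    have hdN : d ∣ N := (Nat.dvd_of_mem_divisors (Finset.mem_of_mem_erase hd)).trans haN
    have : NeZero d := ⟨ne_zero_of_dvd_ne_zero (NeZero.ne N) hdN⟩
    have e : (fun x : Nat.Primes × ℕ => Sc N d ((x.1 : ℕ) ^ x.2) * pw s x) =
        fun x => ∑ χ : DirichletCharacter ℂ d,
          (changeLevel hdN χ ((x.1 : ℕ) : ZMod N)) ^ x.2 * pw s x := by
      ext x
      rw [Sc_pow N hdN, Finset.sum_mul]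
    rw [e]
    refine ⟨summable_sum fun χ _ => (hasSum_char (changeLevel hdN χ) hs).1, ?_⟩
    rw [Summable.tsum_finsetSum (fun χ _ => (hasSum_char (changeLevel hdN χ) hs).1),
      Complex.exp_sum, Lc, dif_pos hdN]
    apply Finset.prod_congr rfl
    intro χ _
    exact (hasSum_char (changeLevel hdN χ) hs).2
  have h2 : LZ (CC (ZN N) a) s =
      ∑ d ∈ a.divisors.erase 1, ∑' x : Nat.Primes × ℕ, Sc N d ((x.1 : ℕ) ^ x.2) * pw s x := by
    rw [← Summable.tsum_finsetSum (fun d hd => (h1 d hd).1), LZ]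
    apply tsum_congr
    intro x
    by_cases hx : x.2 = 0
    · obtain ⟨p, n⟩ := x
      simp only at hx
      subst hx
      simp [pw]
    · rw [hN_CC_ZN N ha haN hx, Finset.sum_mul]
  rw [h2, Complex.exp_sum]
  exact Finset.prod_congr rfl (fun d hd => (h1 d hd).2)

lemma meromorphicAt_LFunction (ψ : DirichletCharacter ℂ N) (s : ℂ) :
    MeromorphicAt (LFunction ψ) s := by
  by_cases h : s ≠ 1 ∨ ψ ≠ 1
  · by_cases hψ : ψ = 1
    · have hs : s ≠ 1 := h.resolve_right (fun h' => h' hψ)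
      have h1 : DifferentiableOn ℂ (LFunction ψ) {z : ℂ | z ≠ 1} :=
        fun z hz => (differentiableAt_LFunction ψ z (Or.inl hz)).differentiableWithinAt
      exact (h1.analyticAt (isOpen_ne.mem_nhds hs)).meromorphicAt
    · exact ((differentiable_LFunction hψ).analyticAt s).meromorphicAt
  · push Not at h
    obtain ⟨rfl, rfl⟩ := h
    have h1 : MeromorphicAt (fun s => (∏ p ∈ N.primeFactors, (1 - (p : ℂ) ^ (-s))) *
        riemannZeta s) 1 := by
      apply MeromorphicAt.mul _ (meromorphicAt_zeta 1)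
      apply AnalyticAt.meromorphicAt
      exact PN_differentiable.analyticAt 1
    refine h1.congr ?_
    filter_upwards [self_mem_nhdsWithin] with s hs
    exact (LFunctionTrivChar_eq_mul_riemannZeta hs).symm

lemma order_LFunction_one : meromorphicOrderAt (LFunction (1 : DirichletCharacter ℂ N)) 1 =
    (-1 : ℤ) := by
  have h1 : meromorphicOrderAt (LFunction (1 : DirichletCharacter ℂ N)) 1 =
      meromorphicOrderAt (fun s => PN N s * riemannZeta s) 1 := by
    apply meromorphicOrderAt_congr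
    filter_upwards [self_mem_nhdsWithin] with s hs
    exact LFunctionTrivChar_eq_mul_riemannZeta hs
  rw [h1]
  have h2 := meromorphicOrderAt_mul_of_ne_zero (f := riemannZeta)
    (PN_differentiable.analyticAt (1 : ℂ)) (PN_one_ne (N := N))
  rw [← order_zeta, ← h2]
  rfl

lemma order_LFunction_ne {ψ : DirichletCharacter ℂ N} (h : ψ ≠ 1) :
    meromorphicOrderAt (LFunction ψ) 1 = 0 := by
  have h1 := (differentiable_LFunction h).analyticAt (1 : ℂ)
  rw [h1.meromorphicOrderAt_eq]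
  have h2 := h1.analyticOrderAt_eq_zero.2 (LFunction_apply_one_ne_zero h)
  rw [h2]
  rfl

lemma meromorphicAt_finset_prod {ι : Type*} (S : Finset ι) (f : ι → ℂ → ℂ) {x : ℂ}
    (h : ∀ i ∈ S, MeromorphicAt (f i) x) : MeromorphicAt (fun s => ∏ i ∈ S, f i s) x := by
  classical
  induction S using Finset.induction_on with
  | empty => simp only [Finset.prod_empty]; exact MeromorphicAt.const 1 x
  | insert i S hi ih =>
    simp only [Finset.prod_insert hi]
    exact (h i (Finset.mem_insert_self i S)).mul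
      (ih (fun j hj => h j (Finset.mem_insert_of_mem hj)))

lemma order_finset_prod {ι : Type*} (S : Finset ι) (f : ι → ℂ → ℂ) {x : ℂ}
    (h : ∀ i ∈ S, MeromorphicAt (f i) x) :
    meromorphicOrderAt (fun s => ∏ i ∈ S, f i s) x = ∑ i ∈ S, meromorphicOrderAt (f i) x := by
  classical
  induction S using Finset.induction_on with
  | empty =>
    simp only [Finset.prod_empty, Finset.sum_empty]
    have h1 : AnalyticAt ℂ (fun _ : ℂ => (1 : ℂ)) x := analyticAt_const
    rw [h1.meromorphicOrderAt_eq, h1.analyticOrderAt_eq_zero.2 one_ne_zero]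
    rfl
  | insert i S hi ih =>
    rw [Finset.sum_insert hi, ← ih (fun j hj => h j (Finset.mem_insert_of_mem hj)),
      ← meromorphicOrderAt_mul (h i (Finset.mem_insert_self i S))
        (meromorphicAt_finset_prod S f (fun j hj => h j (Finset.mem_insert_of_mem hj)))]
    congr 1
    ext s
    simp only [Finset.prod_insert hi, Pi.mul_apply]

lemma meromorphicAt_Lc (d : ℕ) (s : ℂ) : MeromorphicAt (Lc N d) s := by
  unfold Lc
  by_cases h : d ∣ N
  · simp only [dif_pos h]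
    exact meromorphicAt_finset_prod _ _ (fun χ _ => meromorphicAt_LFunction _ s)
  · simp only [dif_neg h]
    exact MeromorphicAt.const 1 s

lemma order_Lc {d : ℕ} (h : d ∣ N) : meromorphicOrderAt (Lc N d) 1 = (-1 : ℤ) := by
  classical
  have : NeZero d := ⟨ne_zero_of_dvd_ne_zero (NeZero.ne N) h⟩
  have e : Lc N d = fun s => ∏ χ : DirichletCharacter ℂ d, LFunction (changeLevel h χ) s := by
    ext s
    rw [Lc, dif_pos h]
  rw [e, order_finset_prod _ _ (fun χ _ => meromorphicAt_LFunction _ 1),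
    ← Finset.add_sum_erase _ _ (Finset.mem_univ (1 : DirichletCharacter ℂ d)),
    changeLevel_one, order_LFunction_one,
    Finset.sum_eq_zero, add_zero]
  intro χ hχ
  apply order_LFunction_ne
  intro h1
  rw [changeLevel_eq_one_iff] at h1
  exact (Finset.ne_of_mem_erase hχ) h1

/-- The zeta function of `ℤ[1/N][t_1, ..., t_l][T] / (1 + ... + T ^ (a - 1))`. -/
noncomputable def ZCN (N : ℕ) [NeZero N] (a l : ℕ) (s : ℂ) : ℂ :=
  ∏ d ∈ a.divisors.erase 1, Lc N d (s - l)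

lemma meromorphicAt_Lc_sub (d l : ℕ) (s : ℂ) :
    MeromorphicAt (fun s : ℂ => Lc N d (s - l)) s := by
  have hg : AnalyticAt ℂ (fun s : ℂ => s - l) s := analyticAt_id.sub analyticAt_const
  have h : MeromorphicAt (Lc N d ∘ fun s : ℂ => s - l) s :=
    MeromorphicAt.comp_analyticAt (meromorphicAt_Lc d (s - l)) hg
  exact h

lemma meromorphicAt_ZCN (a l : ℕ) (s : ℂ) : MeromorphicAt (ZCN N a l) s := by
  apply meromorphicAt_finset_prod
  intro d _
  exact meromorphicAt_Lc_sub d l s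

lemma order_ZCN {a : ℕ} (haN : a ∣ N) (l : ℕ) :
    meromorphicOrderAt (ZCN N a l) ((l : ℂ) + 1) =
      ((-(((a.divisors.erase 1).card : ℕ) : ℤ) : ℤ) : WithTop ℤ) := by
  have e : ZCN N a l = fun s => ∏ d ∈ a.divisors.erase 1, (fun s => Lc N d (s - l)) s := rfl
  rw [e, order_finset_prod]
  · have h1 : ∀ d ∈ a.divisors.erase 1,
        meromorphicOrderAt (fun s : ℂ => Lc N d (s - l)) ((l : ℂ) + 1) = ((-1 : ℤ) : WithTop ℤ) := by
      intro d hd
      have hdN : d ∣ N := (Nat.dvd_of_mem_divisors (Finset.mem_of_mem_erase hd)).trans haN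
      have := meromorphicOrderAt_comp_sub_const_eq_meromorphicOrderAt (f := Lc N d)
        (c := (l : ℂ)) (x := (l : ℂ) + 1)
      have e1 : (l : ℂ) + 1 - l = 1 := by ring
      rw [e1] at this
      rw [← order_Lc hdN, ← this]
      rfl
    rw [Finset.sum_congr rfl h1, Finset.sum_const, ← WithTop.coe_nsmul]
    congr 1
    simp
  · intro d _
    exact meromorphicAt_Lc_sub d l _

end LF

section final

variable {N : ℕ} [NeZero N]

lemma hN_CC_mv {a l : ℕ} {x : Nat.Primes × ℕ} (hx : x.2 ≠ 0) :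
    hN (CC (PolyZN N l) a) x = hN (CC (ZN N) a) x * ((x.1 : ℕ) ^ x.2) ^ l := by
  classical
  have := finite_hom (R := ZN N) (GF x.1 x.2)
  have := finite_hom (R := PolyZN N l) (GF x.1 x.2)
  let _ := Fintype.ofFinite (ZN N →+* GF x.1 x.2)
  let _ := Fintype.ofFinite (PolyZN N l →+* GF x.1 x.2)
  let _ := Fintype.ofFinite (GF x.1 x.2)
  rw [hN_CC, hN_CC, Finset.sum_const, Finset.sum_const, Finset.card_univ, Finset.card_univ,
    ← Nat.card_eq_fintype_card, ← Nat.card_eq_fintype_card, smul_eq_mul, smul_eq_mul]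
  have h := Pool.Agent.HypJac.hzn_hN N l hx
  change hN (PolyZN N l) x * _ = hN (ZN N) x * _ * _
  rw [h]
  ring

lemma LZ_CC_mv {a l : ℕ} (s : ℂ) : LZ (CC (PolyZN N l) a) s = LZ (CC (ZN N) a) (s - l) := by
  unfold LZ
  refine tsum_congr fun x => ?_
  by_cases hx : x.2 = 0
  · simp [pw, hx]
  · rw [hN_CC_mv hx, ← pow_mul_pw]
    push_cast
    ring

lemma isUnit_of_dvd {a : ℕ} (haN : a ∣ N) (l : ℕ) : IsUnit ((a : ℕ) : PolyZN N l) := by
  obtain ⟨m, hm⟩ := haN
  have h1 : IsUnit (algebraMap ℤ (ZN N) ((N : ℕ) : ℤ)) :=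
    IsLocalization.Away.algebraMap_isUnit _
  have h0 : ((N : ℕ) : ℤ) = (a : ℤ) * (m : ℤ) := by exact_mod_cast hm
  have h2 : algebraMap ℤ (ZN N) ((N : ℕ) : ℤ) = algebraMap ℤ (ZN N) ((a : ℤ) * (m : ℤ)) :=
    congrArg _ h0
  have h2' : algebraMap ℤ (ZN N) ((a : ℤ) * (m : ℤ)) = (a : ZN N) * (m : ZN N) := by
    simp
  have h4 : IsUnit ((a : ZN N) * (m : ZN N)) := by
    rw [← h2', ← h2]
    exact h1
  have h3 := isUnit_of_mul_isUnit_left h4
  have h := h3.map (MvPolynomial.C (σ := Fin l) (R := ZN N))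
  rwa [map_natCast] at h

/-- The superelliptic families over `ℤ[1/N][t_1, ..., t_l]`, `a ∣ N`, unconditionally. -/
theorem cyc_ZN {a : ℕ} (ha : 1 ≤ a) (haN : a ∣ N) {l : ℕ} {f₀ : (PolyZN N l)[X]} {k : ℕ}
    {Δ : MvPolynomial (Fin k) (PolyZN N l)} {r : ℕ} {M : ℝ}
    (hM : MomHyp (X ^ a - C f₀) Δ r M) :
    ∃ Φ : ℂ → ℂ, MeromorphicOn Φ {s : ℂ | (l : ℝ) + 1 + r + k - 1 / 4 < s.re} ∧
      (∀ s : ℂ, (l : ℝ) + 1 + r + k + 1 / 2 < s.re →
        HasProd (fun m : MaximalSpectrum ((family (X ^ a - C f₀) k Δ).power r).R =>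
          localFactor ((family (X ^ a - C f₀) k Δ).power r).P m s) (Φ s)) ∧
      meromorphicOrderAt Φ ((l : ℂ) + 1 + r + k) =
        ((r * (a.divisors.erase 1).card : ℕ) : ℤ) := by
  have hd : ∀ σ : ℝ, (l : ℝ) + 1 < σ →
      Summable fun x : Nat.Primes × ℕ => (hN (PolyZN N l) x : ℝ) * pr σ x :=
    fun σ hσ => Pool.Agent.HypJac.hzn_summable N l hσ
  have hZ : ∀ s : ℂ, (l : ℝ) + 1 < s.re →
      HasProd (fun m : MaximalSpectrum (CC (PolyZN N l) a) => (1 - (qy m : ℂ) ^ (-s))⁻¹)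
        (ZCN N a l s) := by
    intro s hs
    have h1 := hasProd_LZ' (R := CC (PolyZN N l) a) (s := s)
      (by have : (0 : ℝ) ≤ l := Nat.cast_nonneg l
          linarith)
      (summable_CC ha (isUnit_of_dvd haN l) hM hd hs)
    have h2 : Complex.exp (LZ (CC (PolyZN N l) a) s) = ZCN N a l s := by
      rw [LZ_CC_mv, exp_LZ_CC (by omega) haN (by
        simp only [Complex.sub_re, Complex.natCast_re]; linarith)]
      rfl
    rw [h2] at h1
    exact h1
  obtain ⟨Φ, h1, h2, h3⟩ := cyc_cont ha (isUnit_of_dvd haN l) hM hd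
    (by positivity : (0 : ℝ) ≤ (l : ℝ) + 1) (ε := 1 / 4) (by norm_num) le_rfl
    (fun s _ => meromorphicAt_ZCN (N := N) a l s) hZ
  refine ⟨Φ, h1, h2, ?_⟩
  have e : (((l : ℝ) + 1 : ℝ) : ℂ) = (l : ℂ) + 1 := by push_cast; ring
  rw [e] at h3
  rw [h3, order_ZCN haN]
  norm_cast
  push_cast
  ring_nf

end final

end Pool.Agent.CAB
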