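import Pool.Agent.CAB.DerExt
import Pool.Agent.CAB.Ded

/-!
# The places of the function field of a smooth curve
-/

namespace Pool.Agent.CAB

open Polynomial

variable {k L : Type} [Field k] [Field L] {a b : ℕ}

/-- The local ring at a closed point of the affine curve: `O` is the localisation at `𝔪`,
`κ` its residue field. -/
theorem fin_place (hn : Num a b) {C : Crv a b k} (hs : Smooth C.P) {i : Aff C.P →+* L}
    (hi : Frc i) (𝔪 : Ideal (Aff C.P)) [𝔪.IsMaximal] :
    ∃ (O : Type) (_ : CommRing O) (_ : IsDomain O) (_ : IsDiscreteValuationRing O) (κ : Type)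
      (_ : Field κ) (t : Aff C.P →+* O) (j : O →+* L) (ρ : O →+* κ),
      (∀ z, j (t z) = i z) ∧ Function.Injective j ∧ (∀ z : L, ∃ p q : O, q ≠ 0 ∧ z * j q = j p) ∧
      Function.Surjective ρ ∧ (∀ o : O, ∃ p q, q ∉ 𝔪 ∧ IsUnit (t q) ∧ o * t q = t p) := by
  have hded : IsDedekindDomain (Aff C.P) := isDedekind hn C hs
  have hdom : IsDomain (Aff C.P) := hded.toIsDomain
  have hbot : 𝔪 ≠ ⊥ := Ring.ne_bot_of_isMaximal_of_not_isField inferInstance (not_isField hn C)
  have hdvr : IsDiscreteValuationRing (Localization.AtPrime 𝔪) :=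
    IsLocalization.AtPrime.isDiscreteValuationRing_of_dedekind_domain (Aff C.P) hbot
      (Localization.AtPrime 𝔪)
  have hunit : ∀ q : 𝔪.primeCompl, IsUnit (i q) := by
    intro q
    rw [isUnit_iff_ne_zero]
    intro h0
    have h1 : (q : Aff C.P) = 0 := hi.inj (by rw [h0, map_zero])
    exact q.2 (by rw [h1]; exact 𝔪.zero_mem)
  have hunit2 : ∀ q : 𝔪.primeCompl, IsUnit (Ideal.Quotient.mk 𝔪 (q : Aff C.P)) := by
    intro q
    let := Ideal.Quotient.field 𝔪
    rw [isUnit_iff_ne_zero]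
    intro h0
    exact q.2 (Ideal.Quotient.eq_zero_iff_mem.1 h0)
  have hlt : ∀ z, IsLocalization.lift (M := 𝔪.primeCompl) (S := Localization.AtPrime 𝔪) hunit
      (algebraMap (Aff C.P) (Localization.AtPrime 𝔪) z) = i z := fun z =>
    IsLocalization.lift_eq hunit z
  have hsurj : ∀ o : Localization.AtPrime 𝔪, ∃ p q, q ∉ 𝔪 ∧
      IsUnit (algebraMap (Aff C.P) (Localization.AtPrime 𝔪) q) ∧
      o * algebraMap (Aff C.P) (Localization.AtPrime 𝔪) q =
        algebraMap (Aff C.P) (Localization.AtPrime 𝔪) p := by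
    intro o
    obtain ⟨⟨p, q⟩, hpq⟩ := IsLocalization.surj 𝔪.primeCompl o
    exact ⟨p, q, q.2, IsLocalization.map_units _ q, hpq⟩
  refine ⟨Localization.AtPrime 𝔪, inferInstance, inferInstance, hdvr, Aff C.P ⧸ 𝔪,
    Ideal.Quotient.field 𝔪, algebraMap _ _,
    IsLocalization.lift (M := 𝔪.primeCompl) hunit,
    IsLocalization.lift (M := 𝔪.primeCompl) hunit2, hlt, ?_, ?_, ?_, hsurj⟩
  · rw [injective_iff_map_eq_zero]
    intro o ho
    obtain ⟨p, q, -, hq, hpq⟩ := hsurj o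
    have h1 : i p = 0 := by
      rw [← hlt p, ← hpq, map_mul, ho, zero_mul]
    have h2 : p = 0 := hi.inj (by rw [h1, map_zero])
    rw [h2, map_zero] at hpq
    exact (hq.mul_left_eq_zero).1 hpq
  · intro z
    obtain ⟨p, q, hq, hpq⟩ := hi.frac z
    refine ⟨algebraMap _ _ p, algebraMap _ _ q, ?_, ?_⟩
    · intro h0
      apply hq
      apply hi.inj
      rw [← hlt q, h0, map_zero, map_zero]
    · rw [hlt, hlt]
      exact hpq
  · intro z
    obtain ⟨p, rfl⟩ := Ideal.Quotient.mk_surjective z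
    exact ⟨algebraMap _ _ p, IsLocalization.lift_eq hunit2 p⟩

/-- An element of the function field regular at all closed points of the affine curve belongs to
the affine ring: `{q : z * i q ∈ i R}` is an ideal contained in no maximal ideal. -/
theorem inter_places {R : Type*} [CommRing R] {i : R →+* L} {z : L}
    (h : ∀ 𝔪 : Ideal R, 𝔪.IsMaximal → ∃ p q, q ∉ 𝔪 ∧ z * i q = i p) : ∃ w, i w = z := by
  let J : Ideal R :=
    { carrier := {q | ∃ p, z * i q = i p}
      add_mem' := by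
        rintro q q' ⟨p, hp⟩ ⟨p', hp'⟩
        exact ⟨p + p', by rw [map_add, map_add, mul_add, hp, hp']⟩
      zero_mem' := ⟨0, by rw [map_zero, mul_zero]⟩
      smul_mem' := by
        rintro c q ⟨p, hp⟩
        refine ⟨c * p, ?_⟩
        rw [smul_eq_mul, map_mul, map_mul, ← hp]
        ring }
  have hJ : J = ⊤ := by
    by_contra hne
    obtain ⟨𝔪, hm, hle⟩ := Ideal.exists_le_maximal J hne
    obtain ⟨p, q, hq, hpq⟩ := h 𝔪 hm
    exact hq (hle ⟨p, hpq⟩)
  have h1 : (1 : R) ∈ J := by rw [hJ]; trivial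
  obtain ⟨w, hw⟩ := h1
  exact ⟨w, by rw [← hw, map_one, mul_one]⟩

/-- The local ring at infinity. -/
noncomputable def Oinf (ε : L →+* LaurentSeries k) : Subring L := (nonneg k).comap ε

/-- Reduction at infinity. -/
noncomputable def rhoInf (ε : L →+* LaurentSeries k) : Oinf ε →+* k where
  toFun f := (ε f.1).coeff 0
  map_one' := by simp
  map_zero' := by simp
  map_add' f g := by simp
  map_mul' f g := by
    have h := coeff_mul_lead (n := 0) (m := 0) (f := ε f.1) (g := ε g.1)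
      (nonneg_iff_ordGe.1 f.2) (nonneg_iff_ordGe.1 g.2)
    rw [add_zero] at h
    change (ε (f.1 * g.1)).coeff 0 = _
    rw [map_mul]
    exact h

private lemma pl_mem {ε : L →+* LaurentSeries k} {f : L} (hf : f ≠ 0) :
    f ∈ Oinf ε ↔ 0 ≤ (ε f).order := by
  have hne : ε f ≠ 0 := (map_ne_zero ε).2 hf
  constructor
  · intro h
    by_contra hlt
    have h1 : ε f ∈ nonneg k := h
    exact hne (HahnSeries.coeff_order_eq_zero.1 (h1 _ (not_le.1 hlt)))
  · intro h
    change ε f ∈ nonneg k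
    intro n hn
    exact HahnSeries.coeff_eq_zero_of_lt_order (lt_of_lt_of_le hn h)

private lemma pl_mul {ε : L →+* LaurentSeries k} {f g : L} (hf : f ≠ 0) (hg : g ≠ 0) :
    (ε (f * g)).order = (ε f).order + (ε g).order := by
  rw [map_mul]
  exact HahnSeries.order_mul ((map_ne_zero ε).2 hf) ((map_ne_zero ε).2 hg)

private lemma pl_inv {ε : L →+* LaurentSeries k} {f : L} (hf : f ≠ 0) :
    (ε f⁻¹).order = -(ε f).order := by
  have h := pl_mul (ε := ε) hf (inv_ne_zero hf)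
  rw [mul_inv_cancel₀ hf, map_one, HahnSeries.order_one] at h
  linarith

private lemma pl_pow {ε : L →+* LaurentSeries k} {f : L} (hf : f ≠ 0) (n : ℕ) :
    (ε (f ^ n)).order = n * (ε f).order := by
  induction n with
  | zero => simp
  | succ n ih =>
    rw [pow_succ, pl_mul (pow_ne_zero n hf) hf, ih]
    push_cast
    ring

private lemma pl_unit {ε : L →+* LaurentSeries k} {f : L} (hf : f ≠ 0)
    (h : (ε f).order = 0) (hm : f ∈ Oinf ε) : IsUnit (⟨f, hm⟩ : Oinf ε) := by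
  have h1 : f⁻¹ ∈ Oinf ε := (pl_mem (inv_ne_zero hf)).2 (by rw [pl_inv hf, h, neg_zero])
  exact IsUnit.of_mul_eq_one ⟨f⁻¹, h1⟩ (Subtype.ext (mul_inv_cancel₀ hf))

private lemma pl_lead {n : ℤ} {f : LaurentSeries k} (h : LeadOne n f) : f ≠ 0 ∧ f.order = n := by
  have hne : f ≠ 0 := by
    rintro rfl
    have := h.1
    rw [HahnSeries.coeff_zero] at this
    exact zero_ne_one this
  refine ⟨hne, le_antisymm ?_ ?_⟩
  · apply HahnSeries.order_le_of_coeff_ne_zero
    rw [h.1]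
    exact one_ne_zero
  · by_contra hlt
    exact hne (HahnSeries.coeff_order_eq_zero.1 (h.2 _ (not_le.1 hlt)))

/-- The local ring at infinity is a discrete valuation ring. A uniformiser: with
`a I = b J + 1`, the quotient `gy ^ J / gx ^ I` has order one. Every nonzero element of `L` is a
power of the uniformiser times a unit of `Oinf`. -/
theorem dvr_inf (hn : Num a b) {C : Crv a b k} {i : Aff C.P →+* L} (hi : Frc i)
    {ε : L →+* LaurentSeries k} (hε : ∀ z, ε (i z) = C.ev z) :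
    IsDiscreteValuationRing (Oinf ε) := by
  obtain ⟨I, -, hI⟩ := Nat.exists_mul_mod_eq_one_of_coprime hn.co (by have := hn.hb; omega)
  have hIJ : a * I = b * (a * I / b) + 1 := by
    have := Nat.div_add_mod (a * I) b
    omega
  set J := a * I / b with hJ
  have hx : i C.gx ≠ 0 ∧ (ε (i C.gx)).order = -(a : ℤ) := by
    have h1 := pl_lead C.x_lead
    rw [hε, Crv.ev_gx]
    refine ⟨?_, h1.2⟩
    intro h0
    apply h1.1
    rw [← Crv.ev_gx, ← hε, h0, map_zero]
  have hy : i C.gy ≠ 0 ∧ (ε (i C.gy)).order = -(b : ℤ) := by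
    have h1 := pl_lead C.y_lead
    rw [hε, Crv.ev_gy]
    refine ⟨?_, h1.2⟩
    intro h0
    apply h1.1
    rw [← Crv.ev_gy, ← hε, h0, map_zero]
  set ϖ : L := i C.gy ^ J * (i C.gx ^ I)⁻¹ with hϖ
  have hϖ0 : ϖ ≠ 0 := mul_ne_zero (pow_ne_zero _ hy.1) (inv_ne_zero (pow_ne_zero _ hx.1))
  have hϖ1 : (ε ϖ).order = 1 := by
    rw [hϖ, pl_mul (pow_ne_zero _ hy.1) (inv_ne_zero (pow_ne_zero _ hx.1)),
      pl_inv (pow_ne_zero _ hx.1), pl_pow hy.1, pl_pow hx.1, hx.2, hy.2]
    have h2 : (a : ℤ) * I = b * J + 1 := by exact_mod_cast hIJ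
    linarith
  have hϖm : ϖ ∈ Oinf ε := (pl_mem hϖ0).2 (by rw [hϖ1]; norm_num)
  have hord : ∀ u : Oinf ε, u ≠ 0 → u.1 ≠ 0 ∧ 0 ≤ (ε u.1).order := by
    intro u hu
    have h1 : u.1 ≠ 0 := fun h => hu (Subtype.ext h)
    exact ⟨h1, (pl_mem h1).1 u.2⟩
  apply IsDiscreteValuationRing.ofHasUnitMulPowIrreducibleFactorization
  refine ⟨⟨ϖ, hϖm⟩, ⟨?_, ?_⟩, ?_⟩
  · intro hu
    obtain ⟨v, hv⟩ := hu.exists_right_inv
    have hv2 : ϖ * v.1 = 1 := congrArg Subtype.val hv
    have hv0 : v ≠ 0 := by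
      rintro rfl
      rw [mul_zero] at hv
      exact zero_ne_one hv
    obtain ⟨h1, h2⟩ := hord v hv0
    have h3 := pl_mul (ε := ε) hϖ0 h1
    rw [hv2, map_one, HahnSeries.order_one, hϖ1] at h3
    omega
  · intro u v huv
    have huv2 : ϖ = u.1 * v.1 := congrArg Subtype.val huv
    have hu0 : u ≠ 0 := by
      rintro rfl
      apply hϖ0
      rw [huv2]
      exact zero_mul _
    have hv0 : v ≠ 0 := by
      rintro rfl
      apply hϖ0
      rw [huv2]
      exact mul_zero _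
    obtain ⟨h1, h2⟩ := hord u hu0
    obtain ⟨h3, h4⟩ := hord v hv0
    have h5 := pl_mul (ε := ε) h1 h3
    rw [← huv2, hϖ1] at h5
    rcases lt_or_ge 0 (ε u.1).order with h6 | h6
    · right
      exact pl_unit h3 (by omega) v.2
    · left
      exact pl_unit h1 (by omega) u.2
  · intro u hu
    obtain ⟨h1, h2⟩ := hord u hu
    set n := (ε u.1).order.toNat with hnn
    have hn2 : (n : ℤ) = (ε u.1).order := Int.toNat_of_nonneg h2
    refine ⟨n, ?_⟩
    have h3 : u.1 * (ϖ ^ n)⁻¹ ≠ 0 := mul_ne_zero h1 (inv_ne_zero (pow_ne_zero _ hϖ0))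
    have h4 : (ε (u.1 * (ϖ ^ n)⁻¹)).order = 0 := by
      rw [pl_mul h1 (inv_ne_zero (pow_ne_zero _ hϖ0)), pl_inv (pow_ne_zero _ hϖ0), pl_pow hϖ0,
        hϖ1]
      omega
    have h5 : u.1 * (ϖ ^ n)⁻¹ ∈ Oinf ε := (pl_mem h3).2 h4.ge
    obtain ⟨w, hw⟩ := pl_unit h3 h4 h5
    refine ⟨w, Subtype.ext ?_⟩
    rw [hw]
    change ϖ ^ n * (u.1 * (ϖ ^ n)⁻¹) = u.1
    have h6 : ϖ ^ n ≠ 0 := pow_ne_zero _ hϖ0
    field_simp

theorem frac_inf (hn : Num a b) {C : Crv a b k} {i : Aff C.P →+* L} (hi : Frc i)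
    {ε : L →+* LaurentSeries k} (hε : ∀ z, ε (i z) = C.ev z) :
    Frc (Oinf ε).subtype := by
  refine ⟨Subtype.val_injective, fun z => ?_⟩
  by_cases hz : z = 0
  · exact ⟨0, 1, one_ne_zero, by rw [hz, zero_mul, map_zero]⟩
  rcases le_or_gt 0 (ε z).order with h | h
  · exact ⟨⟨z, (pl_mem hz).2 h⟩, 1, one_ne_zero, by rw [map_one, mul_one]; rfl⟩
  · have h1 : z⁻¹ ∈ Oinf ε := (pl_mem (inv_ne_zero hz)).2 (by rw [pl_inv hz]; omega)
    refine ⟨1, ⟨z⁻¹, h1⟩, ?_, ?_⟩
    · intro h0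
      exact inv_ne_zero hz (congrArg Subtype.val h0)
    · rw [map_one]
      exact mul_inv_cancel₀ hz

theorem cc_mem_inf {C : Crv a b k} {i : Aff C.P →+* L}
    {ε : L →+* LaurentSeries k} (hε : ∀ z, ε (i z) = C.ev z) (c : k) :
    i (C.cc c) ∈ Oinf ε := by
  show ε (i (C.cc c)) ∈ nonneg k
  rw [hε, Crv.ev_cc]
  intro n hn
  rw [HahnSeries.C_apply, HahnSeries.coeff_single, if_neg hn.ne]

/-- An element regular everywhere is constant, with value its reduction at infinity. -/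
theorem const_of_regular (hn : Num a b) {C : Crv a b k} {i : Aff C.P →+* L}
    {ε : L →+* LaurentSeries k} (hε : ∀ z, ε (i z) = C.ev z) {f : L} (h1 : ∃ w, i w = f)
    (h2 : f ∈ Oinf ε) : f = i (C.cc (rhoInf ε ⟨f, h2⟩)) := by
  obtain ⟨w, rfl⟩ := h1
  have h3 : C.ev w ∈ nonneg k := by
    rw [← hε]
    exact h2
  obtain ⟨s, rfl⟩ := C.exists_cc_of_nonneg hn.co (by have := hn.ha; omega) h3
  have h4 : rhoInf ε ⟨i (C.cc s), h2⟩ = s := by
    change (ε (i (C.cc s))).coeff 0 = s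
    rw [hε, Crv.ev_cc, HahnSeries.C_apply, HahnSeries.coeff_single, if_pos rfl]
  rw [h4]

end Pool.Agent.CAB
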