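import Pool.Agent.CAB.DerExt
import Pool.Agent.CAB.Ded

/-!
# The fibre over a point: the ideals `T = (x - x₁, h(y))` and their multipliers

`K` is a field, `C` a curve over `K`, `x₁, y₁ ∈ K` with `P(x₁, y₁) = 0`, `Q(Y) = P(x₁, Y)`, a monic
polynomial of degree `a`.
-/

namespace Pool.Agent.CAB

open Polynomial

variable {K : Type*} [Field K] {a b : ℕ}

/-- The polynomial `P(x₁, Y)`. -/
noncomputable def fib (P : K[X][X]) (x₁ : K) : K[X] := P.map (evalRingHom x₁)

/-- The ideal `(x - x₁, h(y))`. -/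
noncomputable def idT (C : Crv a b K) (x₁ : K) (h : K[X]) : Ideal (Aff C.P) :=
  Ideal.span {C.gx - C.cc x₁, h.eval₂ C.cc C.gy}

theorem fib_monic (C : Crv a b K) (x₁ : K) : (fib C.P x₁).Monic :=
  C.cab.monic.map _

theorem fib_natDegree (C : Crv a b K) (x₁ : K) : (fib C.P x₁).natDegree = a := by
  unfold fib
  rw [C.cab.monic.natDegree_map, C.cab.deg]

/-- A homomorphism with `x ↦ x₁`. -/
theorem pts_comp (C : Crv a b K) (x₁ : K) {R : Type*} [CommRing R] (π : Aff C.P →+* R)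
    (hπ : π C.gx = π (C.cc x₁)) :
    π.comp (AdjoinRoot.of C.P) = (π.comp C.cc).comp (evalRingHom x₁) := by
  apply Polynomial.ringHom_ext
  · intro c
    simp [Crv.cc]
  · simpa [Crv.gx, Crv.cc] using hπ

theorem pts_eval (C : Crv a b K) (x₁ : K) {R : Type*} [CommRing R] (π : Aff C.P →+* R)
    (hπ : π C.gx = π (C.cc x₁)) (Q : K[X][X]) :
    π (AdjoinRoot.mk C.P Q) = π ((fib Q x₁).eval₂ C.cc C.gy) := by
  have h1 : AdjoinRoot.mk C.P Q = Q.eval₂ (AdjoinRoot.of C.P) (AdjoinRoot.root C.P) := by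
    have := AdjoinRoot.aeval_eq (f := C.P) Q
    rw [Polynomial.aeval_def, AdjoinRoot.algebraMap_eq] at this
    exact this.symm
  rw [h1, Polynomial.hom_eval₂, pts_comp C x₁ π hπ, Polynomial.hom_eval₂, fib,
    Polynomial.eval₂_map]
  rfl

theorem pts_mk (C : Crv a b K) (x₁ : K) (Q : K[X][X]) :
    AdjoinRoot.mk C.P Q - (fib Q x₁).eval₂ C.cc C.gy ∈ Ideal.span {C.gx - C.cc x₁} := by
  rw [← Ideal.Quotient.eq]
  apply pts_eval C x₁ (Ideal.Quotient.mk (Ideal.span {C.gx - C.cc x₁}))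
  rw [Ideal.Quotient.eq]
  exact Ideal.mem_span_singleton_self _

/-- `P(x₁, y) ∈ (x - x₁)` in the affine ring: `P(x₁, y) = P(x₁, y) - P(x, y)`. -/
theorem fib_mem (C : Crv a b K) (x₁ : K) :
    (fib C.P x₁).eval₂ C.cc C.gy ∈ Ideal.span {C.gx - C.cc x₁} := by
  have h := pts_mk C x₁ C.P
  rw [AdjoinRoot.mk_self, zero_sub] at h
  simpa using neg_mem h

/-- The homomorphism to `K[Y] / h`. -/
noncomputable def toH (C : Crv a b K) (x₁ : K) {h : K[X]} (hh : h ∣ fib C.P x₁) :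
    Aff C.P →+* AdjoinRoot h :=
  AdjoinRoot.lift ((AdjoinRoot.of h).comp (evalRingHom x₁)) (AdjoinRoot.root h) (by
    rw [← Polynomial.eval₂_map]
    have h1 : (C.P.map (evalRingHom x₁)).eval₂ (AdjoinRoot.of h) (AdjoinRoot.root h) =
        AdjoinRoot.mk h (C.P.map (evalRingHom x₁)) := by
      have := AdjoinRoot.aeval_eq (f := h) (C.P.map (evalRingHom x₁))
      rw [Polynomial.aeval_def, AdjoinRoot.algebraMap_eq] at this
      exact this
    rw [h1, AdjoinRoot.mk_eq_zero]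
    exact hh)

theorem toH_cc (C : Crv a b K) (x₁ : K) {h : K[X]} (hh : h ∣ fib C.P x₁) (c : K) :
    toH C x₁ hh (C.cc c) = AdjoinRoot.of h c := by
  simp [toH, Crv.cc]

theorem toH_gx (C : Crv a b K) (x₁ : K) {h : K[X]} (hh : h ∣ fib C.P x₁) :
    toH C x₁ hh C.gx = AdjoinRoot.of h x₁ := by
  simp [toH, Crv.gx]

theorem toH_gy (C : Crv a b K) (x₁ : K) {h : K[X]} (hh : h ∣ fib C.P x₁) :
    toH C x₁ hh C.gy = AdjoinRoot.root h := by
  simp [toH, Crv.gy]

theorem toH_sub (C : Crv a b K) (x₁ : K) {h : K[X]} (hh : h ∣ fib C.P x₁) :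
    toH C x₁ hh (C.gx - C.cc x₁) = 0 := by
  rw [map_sub, toH_gx, toH_cc, sub_self]

theorem toH_eval (C : Crv a b K) (x₁ : K) {h : K[X]} (hh : h ∣ fib C.P x₁) (q : K[X]) :
    toH C x₁ hh (q.eval₂ C.cc C.gy) = AdjoinRoot.mk h q := by
  rw [Polynomial.hom_eval₂, toH_gy]
  have h1 : (toH C x₁ hh).comp C.cc = AdjoinRoot.of h := by
    ext c
    exact toH_cc C x₁ hh c
  rw [h1]
  have := AdjoinRoot.aeval_eq (f := h) q
  rw [Polynomial.aeval_def, AdjoinRoot.algebraMap_eq] at this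
  exact this

theorem toH_span (C : Crv a b K) (x₁ : K) {h : K[X]} (hh : h ∣ fib C.P x₁) {z : Aff C.P}
    (hz : z ∈ Ideal.span {C.gx - C.cc x₁}) : toH C x₁ hh z = 0 := by
  rw [Ideal.mem_span_singleton'] at hz
  obtain ⟨w, rfl⟩ := hz
  rw [map_mul, toH_sub, mul_zero]

theorem pts_dvd_mem (C : Crv a b K) {I : Ideal (Aff C.P)} {h q : K[X]} (hq : h ∣ q)
    (hI : h.eval₂ C.cc C.gy ∈ I) : q.eval₂ C.cc C.gy ∈ I := by
  obtain ⟨s, rfl⟩ := hq
  rw [Polynomial.eval₂_mul]
  exact Ideal.mul_mem_right _ _ hI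

/-- The affine ring modulo `x - x₁` is `K[Y] / P(x₁, Y)`. -/
theorem mem_span_iff (C : Crv a b K) (x₁ : K) (q : K[X]) :
    q.eval₂ C.cc C.gy ∈ Ideal.span {C.gx - C.cc x₁} ↔ fib C.P x₁ ∣ q := by
  constructor
  · intro hq
    have h1 := toH_span C x₁ (dvd_refl (fib C.P x₁)) hq
    rw [toH_eval, AdjoinRoot.mk_eq_zero] at h1
    exact h1
  · intro hq
    exact pts_dvd_mem C hq (fib_mem C x₁)

/-- Every element of the affine ring is congruent to a polynomial in `y` modulo `x - x₁`. -/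
theorem exists_poly_mod (C : Crv a b K) (x₁ : K) (z : Aff C.P) :
    ∃ q : K[X], z - q.eval₂ C.cc C.gy ∈ Ideal.span {C.gx - C.cc x₁} := by
  obtain ⟨Q, rfl⟩ := AdjoinRoot.mk_surjective z
  exact ⟨fib Q x₁, pts_mk C x₁ Q⟩

theorem idT_ne_bot (hn : Num a b) (C : Crv a b K) (x₁ : K) (h : K[X]) : idT C x₁ h ≠ ⊥ := by
  intro hbot
  have h1 : C.gx - C.cc x₁ ∈ idT C x₁ h := Ideal.subset_span (by simp)
  rw [hbot, Ideal.mem_bot] at h1
  have h2 := congrArg C.ev h1
  rw [map_sub, map_zero, Crv.ev_gx, Crv.ev_cc, sub_eq_zero] at h2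
  have h3 := C.x_lead.1
  have ha := hn.ha
  rw [h2, HahnSeries.C_apply, HahnSeries.coeff_single_of_ne] at h3
  · exact zero_ne_one h3
  · intro h4
    have : (a : ℤ) = 0 := by linarith
    omega

theorem span_le_idT (C : Crv a b K) (x₁ : K) (h : K[X]) :
    Ideal.span {C.gx - C.cc x₁} ≤ idT C x₁ h := by
  unfold idT
  exact Ideal.span_mono (by simp)

theorem mem_idT_self (C : Crv a b K) (x₁ : K) (h : K[X]) :
    h.eval₂ C.cc C.gy ∈ idT C x₁ h := Ideal.subset_span (by simp)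

theorem idT_eq_ker (C : Crv a b K) (x₁ : K) {h : K[X]} (hh : h ∣ fib C.P x₁) :
    idT C x₁ h = RingHom.ker (toH C x₁ hh) := by
  apply le_antisymm
  · unfold idT
    rw [Ideal.span_le]
    rintro z (rfl | rfl)
    · exact toH_sub C x₁ hh
    · change toH C x₁ hh _ = 0
      rw [toH_eval, AdjoinRoot.mk_self]
  · intro z hz
    rw [RingHom.mem_ker] at hz
    obtain ⟨q, hq⟩ := exists_poly_mod C x₁ z
    have h1 := toH_span C x₁ hh hq
    rw [map_sub, hz, toH_eval, zero_sub, neg_eq_zero, AdjoinRoot.mk_eq_zero] at h1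
    have h2 := pts_dvd_mem C h1 (mem_idT_self C x₁ h)
    have h3 := add_mem (span_le_idT C x₁ h hq) h2
    rwa [sub_add_cancel] at h3

/-- Membership in `T` for polynomials in `y`, for `h ∣ P(x₁, Y)`. -/
theorem mem_idT_iff (C : Crv a b K) (x₁ : K) {h : K[X]} (hh : h ∣ fib C.P x₁) (q : K[X]) :
    q.eval₂ C.cc C.gy ∈ idT C x₁ h ↔ h ∣ q := by
  rw [idT_eq_ker C x₁ hh, RingHom.mem_ker, toH_eval, AdjoinRoot.mk_eq_zero]

theorem toH_surjective (C : Crv a b K) (x₁ : K) {h : K[X]} (hh : h ∣ fib C.P x₁) :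
    Function.Surjective (toH C x₁ hh) := by
  intro z
  obtain ⟨q, rfl⟩ := AdjoinRoot.mk_surjective z
  exact ⟨q.eval₂ C.cc C.gy, toH_eval C x₁ hh q⟩

theorem idT_isMaximal (C : Crv a b K) (x₁ : K) {h : K[X]} (hh : h ∣ fib C.P x₁)
    (hirr : Irreducible h) : (idT C x₁ h).IsMaximal := by
  have : Fact (Irreducible h) := ⟨hirr⟩
  rw [idT_eq_ker C x₁ hh]
  exact RingHom.ker_isMaximal_of_surjective _ (toH_surjective C x₁ hh)

theorem idT_isPrime (C : Crv a b K) (x₁ : K) {h : K[X]} (hh : h ∣ fib C.P x₁)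
    (hirr : Irreducible h) : (idT C x₁ h).IsPrime :=
  (idT_isMaximal C x₁ hh hirr).isPrime

theorem eval₂_prod_pts (C : Crv a b K) {ι : Type*} (S : Finset ι) (h : ι → K[X]) :
    (∏ s ∈ S, h s).eval₂ C.cc C.gy = ∏ s ∈ S, (h s).eval₂ C.cc C.gy :=
  map_prod (eval₂RingHom C.cc C.gy) h S

/-- The primes containing `x - x₁`. -/
theorem prime_eq_idT (C : Crv a b K) (x₁ : K) {ι : Type*} [Fintype ι] {h : ι → K[X]}
    (hirr : ∀ s, Irreducible (h s)) (hprod : ∏ s, h s = fib C.P x₁) (p : Ideal (Aff C.P))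
    [p.IsPrime] (hp : C.gx - C.cc x₁ ∈ p) : ∃ s, p = idT C x₁ (h s) := by
  have h1 : Ideal.span {C.gx - C.cc x₁} ≤ p := by
    rw [Ideal.span_singleton_le_iff_mem]
    exact hp
  have h2 := h1 (fib_mem C x₁)
  rw [← hprod, eval₂_prod_pts, Ideal.IsPrime.prod_mem_iff] at h2
  obtain ⟨s, -, hs⟩ := h2
  have hdvd : h s ∣ fib C.P x₁ := by
    rw [← hprod]
    exact Finset.dvd_prod_of_mem h (Finset.mem_univ s)
  refine ⟨s, ?_⟩
  have hmax := idT_isMaximal C x₁ hdvd (hirr s)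
  refine (hmax.eq_of_le (Ideal.IsPrime.ne_top ‹_›) ?_).symm
  unfold idT
  rw [Ideal.span_le]
  rintro z (rfl | rfl)
  · exact hp
  · exact hs

theorem idT_mul (C : Crv a b K) (x₁ : K) {h h' : K[X]} (hco : IsCoprime h h') :
    idT C x₁ h * idT C x₁ h' = idT C x₁ (h * h') := by
  obtain ⟨u, v, huv⟩ := hco
  set g := C.gx - C.cc x₁ with hg
  have huv' : u.eval₂ C.cc C.gy * h.eval₂ C.cc C.gy +
      v.eval₂ C.cc C.gy * h'.eval₂ C.cc C.gy = 1 := by
    rw [← Polynomial.eval₂_mul, ← Polynomial.eval₂_mul, ← Polynomial.eval₂_add, huv,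
      Polynomial.eval₂_one]
  apply le_antisymm
  · unfold idT
    rw [Ideal.span_mul_span', Ideal.span_le]
    rintro z ⟨z1, h1, z2, h2, rfl⟩
    have hgm : g ∈ Ideal.span {g, (h * h').eval₂ C.cc C.gy} := Ideal.subset_span (by simp)
    have hhm : (h * h').eval₂ C.cc C.gy ∈ Ideal.span {g, (h * h').eval₂ C.cc C.gy} :=
      Ideal.subset_span (by simp)
    rcases h1 with rfl | rfl <;> rcases h2 with rfl | rfl
    · exact Ideal.mul_mem_left _ _ hgm
    · exact Ideal.mul_mem_right _ _ hgm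
    · exact Ideal.mul_mem_left _ _ hgm
    · change h.eval₂ C.cc C.gy * h'.eval₂ C.cc C.gy ∈ _
      rw [← Polynomial.eval₂_mul]
      exact hhm
  · conv_lhs => unfold idT
    rw [Ideal.span_le]
    have hg1 : g ∈ idT C x₁ h := Ideal.subset_span (by simp [hg])
    have hg2 : g ∈ idT C x₁ h' := Ideal.subset_span (by simp [hg])
    rintro z (rfl | rfl)
    · change g ∈ _
      have e : g = u.eval₂ C.cc C.gy * (h.eval₂ C.cc C.gy * g) +
          v.eval₂ C.cc C.gy * (g * h'.eval₂ C.cc C.gy) := by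
        linear_combination (-g) * huv'
      rw [e]
      exact add_mem
        (Ideal.mul_mem_left _ _ (Ideal.mul_mem_mul (mem_idT_self C x₁ h) hg2))
        (Ideal.mul_mem_left _ _ (Ideal.mul_mem_mul hg1 (mem_idT_self C x₁ h')))
    · change (h * h').eval₂ C.cc C.gy ∈ _
      rw [Polynomial.eval₂_mul]
      exact Ideal.mul_mem_mul (mem_idT_self C x₁ h) (mem_idT_self C x₁ h')

theorem idT_one (C : Crv a b K) (x₁ : K) : idT C x₁ 1 = ⊤ := by
  rw [Ideal.eq_top_iff_one]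
  have := mem_idT_self C x₁ 1
  rwa [Polynomial.eval₂_one] at this

theorem idT_prod (C : Crv a b K) (x₁ : K) {ι : Type*} {h : ι → K[X]}
    (hco : ∀ s t, s ≠ t → IsCoprime (h s) (h t)) (S : Finset ι) :
    ∏ s ∈ S, idT C x₁ (h s) = idT C x₁ (∏ s ∈ S, h s) := by
  classical
  induction S using Finset.induction_on with
  | empty => rw [Finset.prod_empty, Finset.prod_empty, idT_one, Ideal.one_eq_top]
  | insert s S hs ih =>
    rw [Finset.prod_insert hs, Finset.prod_insert hs, ih, idT_mul]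
    apply IsCoprime.prod_right
    intro t ht
    apply hco
    rintro rfl
    exact hs ht

/-- The product of the `T_s` over all factors (pairwise coprime) is `(x - x₁)`. -/
theorem prod_idT (C : Crv a b K) (x₁ : K) {ι : Type*} [Fintype ι] {h : ι → K[X]}
    (hco : ∀ s t, s ≠ t → IsCoprime (h s) (h t)) (hprod : ∏ s, h s = fib C.P x₁) :
    ∏ s, idT C x₁ (h s) = Ideal.span {C.gx - C.cc x₁} := by
  rw [idT_prod C x₁ hco, hprod]
  apply le_antisymm
  · unfold idT
    rw [Ideal.span_le]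
    rintro z (rfl | rfl)
    · exact Ideal.mem_span_singleton_self _
    · exact fib_mem C x₁
  · exact span_le_idT C x₁ _

/-- Base change of `T`. -/
theorem map_idT {K' : Type*} [Field K'] {φ : K →+* K'} {C : Crv a b K} {C' : Crv a b K'}
    (hrel : Rel C C' φ) (x₁ : K) (h : K[X]) :
    (idT C x₁ h).map hrel.aff = idT C' (φ x₁) (h.map φ) := by
  unfold idT
  rw [Ideal.map_span, Set.image_pair]
  have h1 : hrel.aff (C.gx - C.cc x₁) = C'.gx - C'.cc (φ x₁) := by
    rw [map_sub, Rel.aff_gx, Rel.aff_cc]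
  have h2 : hrel.aff (h.eval₂ C.cc C.gy) = (h.map φ).eval₂ C'.cc C'.gy := by
    rw [Polynomial.hom_eval₂, Rel.aff_gy, Polynomial.eval₂_map]
    congr 1
    ext c
    exact Rel.aff_cc hrel c
  rw [h1, h2]

/-- Evaluation of polynomials at `y`. -/
noncomputable def evY (C : Crv a b K) : K[X] →+* Aff C.P := eval₂RingHom C.cc C.gy

lemma evY_apply (C : Crv a b K) (q : K[X]) : evY C q = q.eval₂ C.cc C.gy := rfl

lemma ev_sub_ne_zero (hn : Num a b) (C : Crv a b K) (x₁ : K) :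
    C.ev (C.gx - C.cc x₁) ≠ 0 := by
  intro h
  have h1 := congrArg (fun f => HahnSeries.coeff f (-(a : ℤ))) h
  simp only [map_sub, Crv.ev_gx, Crv.ev_cc, HahnSeries.coeff_sub, HahnSeries.coeff_zero] at h1
  have ha := hn.ha
  rw [C.x_lead.1, HahnSeries.C_apply, HahnSeries.coeff_single, if_neg (by omega), sub_zero] at h1
  exact one_ne_zero h1

lemma lder_sub (C : Crv a b K) {D : Der K} (hc : Cst D C) (x₁ : K) :
    lder D (C.ev (C.gx - C.cc x₁)) = -HahnSeries.C (D x₁) := by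
  rw [map_sub, map_sub, Crv.ev_gx, Crv.ev_cc, hc.x, zero_sub]
  congr 1
  ext n
  rw [coeff_lder, HahnSeries.C_apply, HahnSeries.C_apply, HahnSeries.coeff_single,
    HahnSeries.coeff_single]
  split_ifs with h
  · rfl
  · exact map_zero D

/-- **The multiplier of `T`.** `P(x₁, Y) = h h'`, `e ≡ 1 mod h`, `e ≡ 0 mod h'`, then
`F = - D(x₁) e(y) / (x - x₁)` is a multiplier of `T = (x - x₁, h(y))`.
Proof. It suffices to check `D z - F z ∈ T` for the two generators, because for `r` in the affine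
ring `D(r z) - F r z = r (D z - F z) + D(r) z`.
`D(x - x₁) - F (x - x₁) = D(x₁) (e(y) - 1) ∈ T`.
`e = h' w`; `D(h(y)) = h^D(y)`, `F h(y) = - D(x₁) w(y) Q(y) / (x - x₁)` with
`Q(Y) = P(x₁, Y)`, `Q(y) = P(x₁, y) - P(x, y) = - (x - x₁) P¹`, where
`P¹ ≡ P_x(x₁, y) mod (x - x₁)`. So the second expression is
`h^D(y) - D(x₁) w(y) P¹ ≡ h^D(y) - D(x₁) w(y) P_x(x₁, y)`
modulo `x - x₁`. The coefficients of `P` are killed by `D` (`Cst.coeff`), so
`Q^D(Y) = D(x₁) P_x(x₁, Y)`, and `Q^D = h^D h' + h h'^D`, so modulo `h`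
`h^D - D(x₁) w P_x(x₁, Y) = h^D - w Q^D ≡ h^D - w h' h^D = h^D (1 - e) ≡ 0`. -/
theorem mlt_idT (hn : Num a b) {D : Der K} {C : Crv a b K} (hc : Cst D C) {x₁ : K} {h h' e : K[X]}
    (hQ : h * h' = fib C.P x₁) (h1 : h ∣ e - 1) (h2 : h' ∣ e) :
    Mlt D C (idT C x₁ h)
      (-(HahnSeries.C (D x₁) * C.ev (e.eval₂ C.cc C.gy)) / C.ev (C.gx - C.cc x₁)) := by
  set t : Aff C.P := C.gx - C.cc x₁ with ht
  set F : LaurentSeries K := -(HahnSeries.C (D x₁) * C.ev (e.eval₂ C.cc C.gy)) / C.ev t with hF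
  have ht0 : C.ev t ≠ 0 := ev_sub_ne_zero hn C x₁
  have hDt : lder D (C.ev t) = -HahnSeries.C (D x₁) := lder_sub C hc x₁
  have htT : t ∈ idT C x₁ h := Ideal.subset_span (by simp [ht])
  have hhT : evY C h ∈ idT C x₁ h := Ideal.subset_span (by simp [evY_apply])
  -- `1 - e(y)` is in `T`
  have h1T : evY C (e - 1) ∈ idT C x₁ h := by
    obtain ⟨q, hq⟩ := h1
    rw [hq, map_mul]
    exact Ideal.mul_mem_right _ _ hhT
  have heF : F * C.ev t = -(HahnSeries.C (D x₁) * C.ev (evY C e)) := by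
    rw [hF, div_mul_cancel₀ _ ht0]
    rfl
  -- the generators
  have hgen : ∀ z ∈ ({t, h.eval₂ C.cc C.gy} : Set (Aff C.P)),
      ∃ w ∈ idT C x₁ h, lder D (C.ev z) - F * C.ev z = C.ev w := by
    intro z hz
    rcases hz with rfl | hz
    · refine ⟨C.cc (D x₁) * evY C (e - 1), Ideal.mul_mem_left _ _ h1T, ?_⟩
      rw [hDt, heF, map_sub, map_mul, map_sub, Crv.ev_cc, map_one, map_one]
      ring
    · have hz' : z = evY C h := hz
      rw [hz']
      obtain ⟨w, hw⟩ := h2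
      have hmem := fib_mem C x₁
      rw [← hQ] at hmem
      obtain ⟨M, hM⟩ := Ideal.mem_span_singleton'.1 hmem
      have hM' : evY C h * evY C h' = M * t := by
        rw [← map_mul, evY_apply, ← hM]
      obtain ⟨hD, hhD⟩ := hc.lder_ev (evY C h)
      obtain ⟨hD', hhD'⟩ := hc.lder_ev (evY C h')
      obtain ⟨M', hMM'⟩ := hc.lder_ev M
      -- the derivative of `P(x₁, y) = M (x - x₁)`
      have hder : C.ev (evY C h) * C.ev hD' + C.ev (evY C h') * C.ev hD =
          C.ev M * (-HahnSeries.C (D x₁)) + C.ev t * C.ev M' := by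
        have h3 := congrArg (fun z => lder D (C.ev z)) hM'
        simp only [map_mul, Der.leib] at h3
        rw [← hhD, ← hhD', ← hMM', hDt] at h3
        exact h3
      refine ⟨-(hD * evY C (e - 1)) + evY C w * M' * t - evY C w * hD' * evY C h, ?_, ?_⟩
      · exact sub_mem (add_mem (neg_mem (Ideal.mul_mem_left _ _ h1T))
          (Ideal.mul_mem_left _ _ htT)) (Ideal.mul_mem_left _ _ hhT)
      · have hFh : F * C.ev (evY C h) = -(HahnSeries.C (D x₁) * C.ev (evY C w) * C.ev M) := by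
          have h4 : C.ev (evY C h) * C.ev (evY C h') = C.ev M * C.ev t := by
            have h6 := congrArg C.ev hM'
            rwa [map_mul, map_mul] at h6
          have h5 : C.ev (evY C e) = C.ev (evY C h') * C.ev (evY C w) := by
            rw [hw, map_mul, map_mul]
          apply mul_right_cancel₀ ht0
          calc F * C.ev (evY C h) * C.ev t = (F * C.ev t) * C.ev (evY C h) := by ring
            _ = -(HahnSeries.C (D x₁) * C.ev (evY C w)) *
                (C.ev (evY C h) * C.ev (evY C h')) := by rw [heF, h5]; ring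
            _ = _ := by rw [h4]; ring
        have h5 : C.ev (evY C (e - 1)) = C.ev (evY C h') * C.ev (evY C w) - 1 := by
          rw [map_sub, map_sub, hw, map_mul, map_mul, map_one, map_one]
        rw [hFh, ← hhD]
        simp only [map_add, map_sub, map_neg, map_mul]
        rw [← map_sub, ← map_sub, h5]
        linear_combination (C.ev (evY C w)) * hder
  -- all elements
  intro z hz
  have hz' : z ∈ Ideal.span ({t, h.eval₂ C.cc C.gy} : Set (Aff C.P)) := hz
  refine Submodule.span_induction (p := fun z _ => ∃ w ∈ idT C x₁ h,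
    lder D (C.ev z) - F * C.ev z = C.ev w) ?_ ?_ ?_ ?_ hz'
  · exact fun z hz => hgen z hz
  · exact ⟨0, zero_mem _, by simp⟩
  · rintro z₁ z₂ - - ⟨w₁, hw₁, e₁⟩ ⟨w₂, hw₂, e₂⟩
    refine ⟨w₁ + w₂, add_mem hw₁ hw₂, ?_⟩
    rw [map_add, map_add, map_add, ← e₁, ← e₂]
    ring
  · rintro r z₁ hz₁ ⟨w₁, hw₁, e₁⟩
    obtain ⟨r', hr'⟩ := hc.lder_ev r
    refine ⟨r * w₁ + r' * z₁, add_mem (Ideal.mul_mem_left _ _ hw₁) (Ideal.mul_mem_left _ _ hz₁),
      ?_⟩
    rw [smul_eq_mul, map_mul, Der.leib, map_add, map_mul, map_mul, ← e₁, hr']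
    ring

/-- **Detection.** If the coordinates of `g(y) / (x - x₁)` vanish and `deg g < a` then
`b * deg g ≤ a`. Proof: `g(y) / (x - x₁) = r + s`, `r` in the affine ring, `s` without poles; so
`q = g(y) - (x - x₁) r = (x - x₁) s` has order `≥ -a` and by `exists_of_ordGe`
`q = α x + q₀(y)`, `b * deg q₀ ≤ a`. Modulo `x - x₁`: `g(y) ≡ α x₁ + q₀(y)`, both of degree `< a`,
so `g = α x₁ + q₀` (`mem_span_iff`). -/
theorem deg_of_crd_eq_zero (hn : Num a b) (C : Crv a b K) {x₁ c : K} (hc : c ≠ 0) {g : K[X]}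
    (hg : g.natDegree < a)
    (h : C.crd hn ((HahnSeries.C c * C.ev (g.eval₂ C.cc C.gy)) / C.ev (C.gx - C.cc x₁)) = 0) :
    b * g.natDegree ≤ a := by
  obtain ⟨r, hr, s, hs, hrs⟩ := (C.crd_eq_zero_iff hn).1 h
  obtain ⟨r₀, rfl⟩ := C.mem_rg.1 hr
  have ht0 := ev_sub_ne_zero hn C x₁
  have ha := hn.ha
  have hb := hn.hb
  have h1 : C.ev (C.cc c * evY C g - (C.gx - C.cc x₁) * r₀) = C.ev (C.gx - C.cc x₁) * s := by
    have h2 : HahnSeries.C c * C.ev (evY C g) = (C.ev r₀ + s) * C.ev (C.gx - C.cc x₁) := by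
      rw [← hrs, div_mul_cancel₀ _ ht0]
      rfl
    rw [map_sub, map_mul, map_mul, Crv.ev_cc, h2]
    ring
  have h3 : OrdGe (-(a : ℤ)) (C.ev (C.cc c * evY C g - (C.gx - C.cc x₁) * r₀)) := by
    rw [h1]
    have h4 : OrdGe (-(a : ℤ)) (C.ev (C.gx - C.cc x₁)) := by
      intro m hm
      rw [map_sub, Crv.ev_gx, Crv.ev_cc, HahnSeries.coeff_sub, C.x_lead.2 m hm,
        HahnSeries.C_apply, HahnSeries.coeff_single, if_neg (by omega), sub_zero]
    have h5 := h4.mul (nonneg_iff_ordGe.1 hs)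
    rwa [add_zero] at h5
  obtain ⟨α, q, hq, hz⟩ := C.exists_of_ordGe hn.co ha hb h3
  rw [← eval₂_eq_sum] at hz
  -- reduce modulo `x - x₁`
  have h6 : (Polynomial.C c * g - Polynomial.C (α * x₁) - q).eval₂ C.cc C.gy ∈
      Ideal.span {C.gx - C.cc x₁} := by
    rw [← evY_apply, map_sub, map_sub, map_mul, evY_apply C (Polynomial.C c),
      evY_apply C (Polynomial.C (α * x₁)), eval₂_C, eval₂_C, evY_apply C q, map_mul,
      Ideal.mem_span_singleton']
    refine ⟨r₀ + C.cc α, ?_⟩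
    linear_combination -hz
  rw [mem_span_iff] at h6
  have hqlt : q.natDegree < a := by
    have : 2 * q.natDegree ≤ b * q.natDegree := Nat.mul_le_mul_right _ hb
    omega
  have hdeg : (Polynomial.C c * g - Polynomial.C (α * x₁) - q).natDegree < a := by
    refine lt_of_le_of_lt (natDegree_sub_le _ _) (max_lt ?_ hqlt)
    refine lt_of_le_of_lt (natDegree_sub_le _ _) (max_lt ?_ ?_)
    · exact lt_of_le_of_lt (natDegree_C_mul_le _ _) hg
    · rw [natDegree_C]; omega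
  have h7 : Polynomial.C c * g - Polynomial.C (α * x₁) - q = 0 := by
    by_contra hne
    have := natDegree_le_of_dvd h6 hne
    rw [fib_natDegree] at this
    omega
  have h8 : Polynomial.C c * g = Polynomial.C (α * x₁) + q := by linear_combination h7
  have h9 : g.natDegree ≤ q.natDegree := by
    rw [← natDegree_C_mul hc, h8]
    refine (natDegree_add_le _ _).trans (max_le ?_ le_rfl)
    rw [natDegree_C]
    exact Nat.zero_le _
  exact (Nat.mul_le_mul_left b h9).trans hq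

end Pool.Agent.CAB
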