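import Pool.Agent.CAB.Spec
import Pool.Agent.CAB.Consts

/-!
# Rigidity: `Cl(C_L) = Cl(C_k) · Cl(C_E)`

`K₀ → k` (`φ`) are fields, `K₀` the field of constants of the set `Δ` of derivations of `k`;
`C₀` is a smooth curve over `K₀`, `C` its base change to `k`, `E` and `L` the function fields of
`C₀` and `C`, `CE` and `CL` the base changes of `C₀` to `E` and of `C` to `L`,
`m : E → L` the natural map.

Paper proof. Let `c ∈ Cl(CL)` and `c'` as in `spec_main`. For every `δ ∈ Δ` with lift `D` the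
class `c * (ext c')⁻¹` has trivial derivative (`spec_main` and `theta_ext`; the extension map has
the same formula). Take an ideal `I` in this class and apply `ker_main` with the set
`Δ' = {D : D is a lift of some δ ∈ Δ}`, with constants `E` (`consts_frac`, `lift_const`).
-/

namespace Pool.Agent.CAB

variable {K₀ k E L : Type} [Field K₀] [Field k] [Field E] [Field L] {a b : ℕ}

theorem rigid (hn : Num a b) {φ : K₀ →+* k} {Δ : Set (Der k)}
    (hcst : ∀ c : k, (∀ δ ∈ Δ, δ c = 0) → ∃ e, φ e = c) (hφ : ∀ δ ∈ Δ, ∀ e, δ (φ e) = 0)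
    {C₀ : Crv a b K₀} (hs : Smooth C₀.P) {C : Crv a b k} (h : Rel C₀ C φ) {i₀ : Aff C₀.P →+* E}
    (hi₀ : Frc i₀) {i : Aff C.P →+* L} (hi : Frc i) {m : E →+* L}
    (hm : ∀ z, m (i₀ z) = i (h.aff z)) {CE : Crv a b E} (_hE : Rel C₀ CE (i₀.comp C₀.cc))
    {CL : Crv a b L} (hL : Rel C CL (i.comp C.cc)) (hEL : Rel CE CL m)
    [IsDedekindDomain (Aff C.P)] [IsDedekindDomain (Aff CE.P)] [IsDedekindDomain (Aff CL.P)]
    (hinj : Function.Injective hL.aff) (hinjE : Function.Injective hEL.aff)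
    (c : ClassGroup (Aff CL.P)) :
    ∃ (c₁ : ClassGroup (Aff C.P)) (c₂ : ClassGroup (Aff CE.P)),
      c = extCl hL.aff hinj c₁ * extCl hEL.aff hinjE c₂ := by
  have hsC : Smooth C.P := by
    rw [h.P]
    exact hs.map φ
  obtain ⟨c', hc'⟩ := spec_main hn hsC hi hL c
  obtain ⟨I, hI, hIc⟩ := exists_cl (c * (extCl hL.aff hinj c')⁻¹)
  obtain ⟨c₂, hc₂⟩ := ker_main hn (φ := m) (Δ := {D : Der L | ∃ δ ∈ Δ, Lift δ D C i})
    (fun f hf => consts_frac hn hcst hφ h hi₀ hi hm fun δ hδ D hD => hf D ⟨δ, hδ, hD⟩)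
    (by
      rintro D ⟨δ, hδ, hD⟩ e
      exact lift_const hn (hφ δ hδ) h hi₀ hm hD e)
    hEL hinjE hI (by
      rintro D ⟨δ, hδ, hD⟩
      have hc : Cst δ C := by
        constructor
        · rw [h.x]
          ext n
          simp [hφ δ hδ]
        · rw [h.y]
          ext n
          simp [hφ δ hδ]
      have hext : Der.Ext δ D (i.comp C.cc) := hD.cc
      have hCL : Cst D CL := Cst.map hext hL hc
      obtain ⟨F, hF⟩ := exists_mlt hn hCL hI
      refine ⟨F, hF, ?_⟩
      have h1 := theta_cl hn hCL hI hF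
      rw [hIc, map_mul, map_inv] at h1
      have h2 : theta hn hCL c = theta hn hCL (extCl hL.aff hinj c') := by
        apply Multiplicative.toAdd.injective
        funext l
        rw [hc' δ hc D hD hCL l, theta_ext hn hc hext hL hCL hinj c' l]
        rfl
      rw [h2, mul_inv_cancel] at h1
      exact (Multiplicative.ofAdd.injective h1).symm)
  refine ⟨c', c₂, ?_⟩
  rw [← hc₂, hIc, mul_comm c, mul_inv_cancel_left]

end Pool.Agent.CAB
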