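import Pool.Agent.CAB.Places
import Pool.Agent.CAB.Int

/-!
# The derivative of an ideal class over the function field of a constant curve

Paper proof. `L` is the function field of `C` over `k` (through `i`), `CL` the base change of `C`
to `L` along `k → L`. For `δ ∈ Der(k)` with `Cst δ C` and its lift `D` the coordinates `γ_l` of a
multiplier of an ideal `I` of `Aff CL.P` lie in `L`.
(1) At a closed point `𝔪` of the affine curve use `fin_place` and `int_main` with the curve
`CO = C.map (t ∘ cc)` over `O` (the derivation `DO` from `exists_loc_der`, using `Lift.stable`);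
the coordinates are `j(coordinates of G)` (`Rel.crd_lmap`, `crd_nonneg`), so they
lie in `j(O)`. So by `inter_places` `γ_l ∈ i(Aff C.P)`.
(2) At infinity use `int_main` with `O = Oinf ε`, `κ = k`, `ρ = rhoInf ε`, `CO = C.map (k → Oinf)`;
the derivation `D` preserves `Oinf` and is compatible with `δ` through `ρ` (`Lift.eps`). The
specialised ideal `J = sp I` of `Aff C.P` is nonzero and independent of `δ`, and the coordinates of
its `δ`-multiplier are the reductions of the `γ_l`.
(3) `const_of_regular`: `γ_l = i(cc(ρ γ_l))`.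
So `c' = cl J` works. (All ideals in the class `c` may be replaced by one representative `I`.)
-/

namespace Pool.Agent.CAB

variable {k L : Type} [Field k] [Field L] {a b : ℕ}

namespace SpecAux

/-- A curve is the base change of itself along the identity. -/
theorem rel_id {C : Crv a b k} {φ : k →+* k} (hφ : ∀ s, φ s = s) : Rel C C φ where
  P := by
    have h1 : φ = RingHom.id k := RingHom.ext hφ
    rw [h1]
    ext m n
    simp [mapP]
  x := by
    ext n
    rw [coeff_lmap, hφ]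
  y := by
    ext n
    rw [coeff_lmap, hφ]

/-- Constants in the local ring at infinity. -/
noncomputable def cinf {C : Crv a b k} {i : Aff C.P →+* L} {ε : L →+* LaurentSeries k}
    (hε : ∀ z, ε (i z) = C.ev z) : k →+* Oinf ε :=
  (i.comp C.cc).codRestrict (Oinf ε) (fun c => cc_mem_inf hε c)

theorem cinf_val {C : Crv a b k} {i : Aff C.P →+* L} {ε : L →+* LaurentSeries k}
    (hε : ∀ z, ε (i z) = C.ev z) (c : k) : ((cinf hε c : Oinf ε) : L) = i (C.cc c) := rfl

theorem rhoInf_cinf {C : Crv a b k} {i : Aff C.P →+* L} {ε : L →+* LaurentSeries k}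
    (hε : ∀ z, ε (i z) = C.ev z) (c : k) : rhoInf ε (cinf hε c) = c := by
  change (ε (i (C.cc c))).coeff 0 = c
  rw [hε, Crv.ev_cc, HahnSeries.C_apply, HahnSeries.coeff_single_same]

/-- The derivation of the local ring at infinity. -/
theorem exists_der_inf (hn : Num a b) {C : Crv a b k} {i : Aff C.P →+* L} (hi : Frc i)
    {ε : L →+* LaurentSeries k} (hε : ∀ z, ε (i z) = C.ev z) {δ : Der k} (hδ : Cst δ C)
    {D : Der L} (hl : Lift δ D C i) :
    ∃ DO : Der (Oinf ε), Der.Ext DO D (Oinf ε).subtype ∧ Der.Ext DO δ (rhoInf ε) ∧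
      Der.Ext δ DO (cinf hε) := by
  have hst : ∀ f : Oinf ε, D (f : L) ∈ Oinf ε := by
    intro f
    change ε (D f) ∈ nonneg k
    rw [hl.eps hn hi hδ hε]
    intro n hn'
    have h1 : ε (f : L) ∈ nonneg k := f.2
    rw [coeff_lder, h1 n hn', map_zero]
  refine ⟨{ toFun := fun f => ⟨D f, hst f⟩
            map_zero' := ?_
            map_add' := ?_
            leib' := ?_ }, ?_, ?_, ?_⟩
  · apply Subtype.ext
    change D (0 : L) = 0
    rw [map_zero]
  · intro f g
    apply Subtype.ext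
    change D ((f : L) + g) = D f + D g
    rw [map_add]
  · intro f g
    apply Subtype.ext
    change D ((f : L) * g) = f * D g + g * D f
    rw [D.leib]
  · intro f
    rfl
  · intro f
    change δ ((ε f).coeff 0) = (ε (D f)).coeff 0
    rw [hl.eps hn hi hδ hε, coeff_lder]
  · intro s
    apply Subtype.ext
    change D (i (C.cc s)) = i (C.cc (δ s))
    exact hl.cc s

/-- Coordinates of the multiplier in terms of the integral series. -/
theorem crd_eq_of_sub {S T : Type*} [CommRing S] [CommRing T] {CS : Crv a b S} {CT : Crv a b T}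
    {φ : S →+* T} (h : Rel CS CT φ) (hn : Num a b) {F : LaurentSeries T} {G : LaurentSeries S}
    (hFG : F - lmap φ G ∈ nonneg T) (l : ℕ) : CT.crd hn F l = φ (CS.crd hn G l) := by
  have h1 : CT.crd hn F = CT.crd hn (F - lmap φ G) + CT.crd hn (lmap φ G) := by
    rw [← map_add, sub_add_cancel]
  rw [h1, CT.crd_nonneg hn hFG, zero_add, h.crd_lmap]

/-- The coordinates of the multiplier at a closed point. -/
theorem fin_regular (hn : Num a b) {C : Crv a b k} (hs : Smooth C.P)
    {i : Aff C.P →+* L} (hi : Frc i) {CL : Crv a b L} (h : Rel C CL (i.comp C.cc))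
    [IsDedekindDomain (Aff CL.P)] (hsL : Smooth CL.P) {I : Ideal (Aff CL.P)} (hI : I ≠ ⊥)
    {δ : Der k} (hδ : Cst δ C) {D : Der L} (hl : Lift δ D C i) (hD : Cst D CL) (l : ℕ)
    (𝔪 : Ideal (Aff C.P)) (h𝔪 : 𝔪.IsMaximal) :
    ∃ p q, q ∉ 𝔪 ∧ Multiplicative.toAdd (theta hn hD (cl I hI)) l * i q = i p := by
  obtain ⟨O, iO, iOd, iOv, κ, iκ, t, j, ρ, hjt, hj, hfrac, hρ, hloc⟩ := fin_place hn hs hi 𝔪
  let CO : Crv a b O := C.map (t.comp C.cc)
  have hcomp : j.comp (t.comp C.cc) = i.comp C.cc := by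
    ext s
    change j (t (C.cc s)) = i (C.cc s)
    rw [hjt]
  have h1 : Rel CO CL j := Rel.of_comp (C.rel_map (t.comp C.cc)) (by rw [hcomp]; exact h)
  have h2 : Rel CO (CO.map ρ) ρ := CO.rel_map ρ
  have hsκ : Smooth (CO.map ρ).P := (hs.map (t.comp C.cc)).map ρ
  obtain ⟨DO, hDO⟩ := exists_loc_der (t := t) hj (D := D) (by
    intro r
    obtain ⟨w, hw, -⟩ := hl.stable hn hδ r
    exact ⟨w, by rw [hjt, hjt, hw]⟩) (by
    intro o
    obtain ⟨p, q, -, hu, he⟩ := hloc o
    exact ⟨p, q, hu, he⟩)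
  have hext : Der.Ext δ DO (t.comp C.cc) := by
    intro s
    apply hj
    rw [← hDO]
    change D (j (t (C.cc s))) = j (t (C.cc (δ s)))
    rw [hjt, hjt, hl.cc]
  have hcO : Cst DO CO := Cst.map hext (C.rel_map (t.comp C.cc)) hδ
  obtain ⟨-, G, F, hF, hFG, -⟩ := int_main hn hj hfrac hρ h1 h2 hsL hsκ hDO hcO hI
  obtain ⟨p, q, hq, -, he⟩ := hloc (CO.crd hn G l)
  refine ⟨p, q, hq, ?_⟩
  rw [theta_cl hn hD hI hF, toAdd_ofAdd, crd_eq_of_sub h1 hn hFG, ← hjt, ← hjt, ← map_mul, he]

end SpecAux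

open SpecAux

theorem spec_main (hn : Num a b) {C : Crv a b k} (hs : Smooth C.P) [IsDedekindDomain (Aff C.P)]
    {i : Aff C.P →+* L} (hi : Frc i) {CL : Crv a b L} (h : Rel C CL (i.comp C.cc))
    [IsDedekindDomain (Aff CL.P)] (c : ClassGroup (Aff CL.P)) :
    ∃ c' : ClassGroup (Aff C.P), ∀ (δ : Der k) (hδ : Cst δ C) (D : Der L) (_ : Lift δ D C i)
      (hD : Cst D CL) (l : ℕ),
      Multiplicative.toAdd (theta hn hD c) l =
        i (C.cc (Multiplicative.toAdd (theta hn hδ c') l)) := by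
  have hsL : Smooth CL.P := by
    rw [h.P]
    exact hs.map _
  obtain ⟨I, hI, rfl⟩ := exists_cl c
  obtain ⟨ε, hε⟩ := exists_eps hn C hi
  have hdvr : IsDiscreteValuationRing (Oinf ε) := dvr_inf hn hi hε
  have hfr : Frc (Oinf ε).subtype := frac_inf hn hi hε
  have hρ : Function.Surjective (rhoInf ε) := fun s => ⟨cinf hε s, rhoInf_cinf hε s⟩
  let CO : Crv a b (Oinf ε) := C.map (cinf hε)
  have h1 : Rel CO CL (Oinf ε).subtype := Rel.of_comp (C.rel_map (cinf hε)) h
  have h2 : Rel CO C (rhoInf ε) :=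
    Rel.of_comp (C.rel_map (cinf hε)) (rel_id fun s => rhoInf_cinf hε s)
  have key : ∀ (δ : Der k) (hδ : Cst δ C) (D : Der L) (_ : Lift δ D C i) (hD : Cst D CL),
      ∃ hsp : sp h2.aff h1.aff I ≠ ⊥, ∀ l : ℕ,
      Multiplicative.toAdd (theta hn hD (cl I hI)) l =
        i (C.cc (Multiplicative.toAdd (theta hn hδ (cl (sp h2.aff h1.aff I) hsp)) l)) := by
    intro δ hδ D hl hD
    obtain ⟨DO, hDO1, hDO2, hDO3⟩ := exists_der_inf hn hi hε hδ hl
    have hcO : Cst DO CO := Cst.map hDO3 (C.rel_map (cinf hε)) hδ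
    obtain ⟨hsp, G, F, hF, hFG, hred⟩ := int_main hn hfr.inj hfr.frac hρ h1 h2 hsL hs hDO1 hcO hI
    obtain ⟨F', hF', hFG'⟩ := hred δ hDO2
    refine ⟨hsp, fun l => ?_⟩
    have hreg : ∃ w, i w = Multiplicative.toAdd (theta hn hD (cl I hI)) l :=
      inter_places fun 𝔪 h𝔪 => fin_regular hn hs hi h hsL hI hδ hl hD l 𝔪 h𝔪
    rw [theta_cl hn hδ hsp hF', toAdd_ofAdd, crd_eq_of_sub h2 hn hFG']
    rw [theta_cl hn hD hI hF, toAdd_ofAdd, crd_eq_of_sub h1 hn hFG] at hreg ⊢
    exact const_of_regular hn hε hreg (CO.crd hn G l).2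
  by_cases hsp : sp h2.aff h1.aff I = ⊥
  · refine ⟨1, fun δ hδ D hl hD l => ?_⟩
    obtain ⟨hsp', -⟩ := key δ hδ D hl hD
    exact absurd hsp hsp'
  · refine ⟨cl (sp h2.aff h1.aff I) hsp, fun δ hδ D hl hD l => ?_⟩
    obtain ⟨_, hk⟩ := key δ hδ D hl hD
    exact hk l

end Pool.Agent.CAB
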