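import Pool.Agent.CAB.Zeta

/-!
# CAB: `Z : P₀(x, y) = P₀(x, y')` for `P₀ = y ^ a - f₀(x)`
-/

namespace Pool.Agent.CAB

open Polynomial Finset Pool.Agent.Hhelper85

section count

variable {K : Type*} [Field K] [Fintype K] [DecidableEq K]

/-- The number of `a`-th roots of unity. -/
def eA (K : Type*) [Field K] [Fintype K] [DecidableEq K] (a : ℕ) : ℕ :=
  (univ.filter fun t : K => t ^ a = 1).card

lemma card_pow_eq {a : ℕ} (ha : 1 ≤ a) (y : K) :
    (univ.filter fun z : K => y ^ a = z ^ a).card = if y = 0 then 1 else eA K a := by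
  by_cases hy : y = 0
  · rw [if_pos hy, hy, zero_pow (by omega)]
    have : (univ.filter fun z : K => (0 : K) = z ^ a) = {0} := by
      ext z
      simp only [Finset.mem_filter, Finset.mem_univ, true_and, Finset.mem_singleton]
      constructor
      · intro h
        exact eq_zero_of_pow_eq_zero h.symm
      · rintro rfl
        rw [zero_pow (by omega)]
    rw [this, Finset.card_singleton]
  · rw [if_neg hy, eA]
    refine Finset.card_bij' (fun z _ => z / y) (fun t _ => t * y) ?_ ?_ ?_ ?_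
    · intro z hz
      simp only [Finset.mem_filter, Finset.mem_univ, true_and] at hz ⊢
      rw [div_pow, ← hz, div_self (pow_ne_zero _ hy)]
    · intro t ht
      simp only [Finset.mem_filter, Finset.mem_univ, true_and] at ht ⊢
      rw [mul_pow, ht, one_mul]
    · intro z _
      exact div_mul_cancel₀ z hy
    · intro t _
      exact mul_div_cancel_right₀ t hy

lemma NZ_cyc {a : ℕ} (ha : 1 ≤ a) (f : K[X]) :
    (NZ (X ^ a - C f) : ℤ) - (Fintype.card K : ℤ) ^ 2 =
      Fintype.card K * (Fintype.card K - 1) * ((eA K a : ℤ) - 1) := by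
  have e : ∀ z : K × K × K, ((X ^ a - C f : K[X][X]).evalEval z.1 z.2.1 =
      (X ^ a - C f : K[X][X]).evalEval z.1 z.2.2) ↔ z.2.1 ^ a = z.2.2 ^ a := by
    intro z
    simp [evalEval]
  have h1 : NZ (X ^ a - C f) = Fintype.card K * (1 + (Fintype.card K - 1) * eA K a) := by
    rw [NZ, Nat.card_eq_fintype_card, Fintype.card_subtype]
    simp only [e]
    have h2 : ∀ x : K, (∑ y : K, ∑ z : K, if y ^ a = z ^ a then 1 else 0) =
        ∑ y : K, if y = 0 then 1 else eA K a := by
      intro _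
      apply Finset.sum_congr rfl
      intro y _
      rw [← Finset.card_filter, card_pow_eq ha]
    rw [Finset.card_filter, Fintype.sum_prod_type]
    simp only [Fintype.sum_prod_type]
    rw [Finset.sum_congr rfl (fun x _ => h2 x), Finset.sum_const, Finset.card_univ, smul_eq_mul]
    congr 1
    rw [← Finset.add_sum_erase _ _ (Finset.mem_univ (0 : K)), if_pos rfl]
    congr 1
    rw [Finset.sum_congr rfl (g := fun _ => eA K a) (fun y hy => if_neg (Finset.ne_of_mem_erase hy)),
      Finset.sum_const, smul_eq_mul, Finset.card_erase_of_mem (Finset.mem_univ _),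
      Finset.card_univ]
  have hq : 1 ≤ Fintype.card K := Fintype.card_pos
  rw [h1]
  push_cast [Nat.cast_sub hq]
  ring

lemma eA_eq {a : ℕ} (ha : (a : K) ≠ 0) :
    eA K a = 1 + (univ.filter fun t : K => ∑ i ∈ range a, t ^ i = 0).card := by
  have h : (univ.filter fun t : K => t ^ a = 1) =
      insert 1 (univ.filter fun t : K => ∑ i ∈ range a, t ^ i = 0) := by
    ext t
    simp only [Finset.mem_filter, Finset.mem_univ, true_and, Finset.mem_insert]
    have h1 := mul_geom_sum t a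
    constructor
    · intro ht
      by_cases h2 : t = 1
      · exact Or.inl h2
      · right
        rw [ht, sub_self] at h1
        exact (mul_eq_zero.1 h1).resolve_left (sub_ne_zero.2 h2)
    · rintro (rfl | ht)
      · simp
      · rw [ht, mul_zero] at h1
        exact (sub_eq_zero.1 h1.symm)
  have h1 : (1 : K) ∉ (univ.filter fun t : K => ∑ i ∈ range a, t ^ i = 0) := by
    simp [ha]
  rw [eA, h, Finset.card_insert_of_notMem h1, add_comm]

end count

section ring

variable {R₀ : Type} [CommRing R₀]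

/-- `R₀[T] / (1 + T + ... + T ^ (a - 1))`. -/
abbrev CC (R₀ : Type) [CommRing R₀] (a : ℕ) : Type :=
  AdjoinRoot (∑ i ∈ range a, X ^ i : R₀[X])

instance ft_CC [Algebra.FiniteType ℤ R₀] (a : ℕ) :
    @Algebra.FiniteType ℤ (CC R₀ a) _ _ (Ring.toIntAlgebra _) := by
  have h3 : @Algebra.FiniteType ℤ (CC R₀ a) _ _ (Ring.toIntAlgebra _) :=
    ft_trans (A := R₀) (B := CC R₀ a) ‹_› inferInstance
  exact h3

lemma hN_CC (a : ℕ) (x : Nat.Primes × ℕ) [Fintype (R₀ →+* GF x.1 x.2)] [Fintype (GF x.1 x.2)]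
    [DecidableEq (GF x.1 x.2)] :
    hN (CC R₀ a) x = ∑ _φ : R₀ →+* GF x.1 x.2,
      (univ.filter fun t : GF x.1 x.2 => ∑ i ∈ range a, t ^ i = 0).card := by
  rw [hN, Nat.card_congr (adjEquiv (∑ i ∈ range a, X ^ i : R₀[X]) (GF x.1 x.2)),
    Nat.card_congr (Equiv.subtypeProdEquivSigmaSubtype
      (fun (φ : R₀ →+* GF x.1 x.2) (z : GF x.1 x.2) =>
        (∑ i ∈ range a, X ^ i : R₀[X]).eval₂ φ z = 0)), Nat.card_sigma]
  apply Finset.sum_congr rfl
  intro φ _
  rw [Nat.card_eq_fintype_card, Fintype.card_subtype]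
  congr 1
  ext t
  simp [eval₂_finsetSum]

variable [Algebra.FiniteType ℤ R₀]

lemma DZ_cyc {a : ℕ} (ha : 1 ≤ a) (hu : IsUnit (a : R₀)) (f₀ : R₀[X]) {x : Nat.Primes × ℕ}
    (hx : x.2 ≠ 0) :
    DZ (X ^ a - C f₀) x = ((x.1 : ℤ) ^ x.2) * ((x.1 : ℤ) ^ x.2 - 1) * hN (CC R₀ a) x := by
  classical
  have := finite_hom (R := R₀) (GF x.1 x.2)
  let _ := Fintype.ofFinite (R₀ →+* GF x.1 x.2)
  let _ := Fintype.ofFinite (GF x.1 x.2)
  have hc : (Fintype.card (GF x.1 x.2) : ℤ) = (x.1 : ℤ) ^ x.2 := by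
    have := card_GF hx
    rw [Nat.card_eq_fintype_card] at this
    rw [this]; push_cast; rfl
  rw [DZ, finsum_eq_sum_of_fintype, hN_CC]
  push_cast
  rw [Finset.mul_sum]
  apply Finset.sum_congr rfl
  intro φ _
  have haK : (a : GF x.1 x.2) ≠ 0 := by
    have h := (hu.map φ).ne_zero
    rwa [map_natCast] at h
  have e : (X ^ a - C f₀ : R₀[X][X]).map (mapRingHom φ) = X ^ a - C (f₀.map φ) := by
    simp
  have h1 := NZ_cyc ha (f₀.map φ)
  rw [hc] at h1
  rw [e, h1, eA_eq haK]
  push_cast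
  ring

end ring

section LZ

variable {R : Type} [CommRing R] {d : ℝ}
  (hd : ∀ σ : ℝ, d < σ → Summable fun x : Nat.Primes × ℕ => (hN R x : ℝ) * pr σ x)
include hd

lemma differentiableOn_LZ : DifferentiableOn ℂ (LZ R) {s : ℂ | d < s.re} := by
  intro s hs
  have hs' : d < s.re := hs
  obtain ⟨τ, h4, h5⟩ := exists_between hs'
  have hopen : IsOpen {s : ℂ | τ < s.re} := isOpen_lt continuous_const Complex.continuous_re
  have key : DifferentiableOn ℂ (LZ R) {s : ℂ | τ < s.re} := by
    apply Complex.differentiableOn_tsum_of_summable_norm (u := fun x => hN R x * pr τ x)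
    · exact hd τ h4
    · intro x
      exact ((differentiable_pw x).const_mul _).differentiableOn
    · exact hopen
    · intro x w hw
      have hw' : τ ≤ w.re := le_of_lt hw
      rw [norm_mul, Complex.norm_natCast, norm_pw]
      apply mul_le_mul_of_nonneg_left _ (by positivity)
      exact pr_anti hw' x
  exact ((key s h5).differentiableAt (hopen.mem_nhds h5)).differentiableWithinAt

lemma analyticAt_LZ {s : ℂ} (hs : d < s.re) : AnalyticAt ℂ (LZ R) s :=
  (differentiableOn_LZ hd).analyticAt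
    ((isOpen_lt continuous_const Complex.continuous_re).mem_nhds hs)

end LZ

section cont

variable {R₀ : Type} [CommRing R₀] [Algebra.FiniteType ℤ R₀] {a : ℕ} {f₀ : R₀[X]} {k : ℕ}
  {Δ : MvPolynomial (Fin k) R₀} {r : ℕ} {M : ℝ} (ha : 1 ≤ a) (hu : IsUnit (a : R₀))
  (hM : MomHyp (X ^ a - C f₀) Δ r M) {d : ℝ} (hd0 : 0 ≤ d)
  (hd : ∀ σ : ℝ, d < σ → Summable fun x : Nat.Primes × ℕ => (hN R₀ x : ℝ) * pr σ x)
include ha hu hM hd

lemma summable_CC {σ : ℝ} (hσ : d < σ) :
    Summable fun x : Nat.Primes × ℕ => (hN (CC R₀ a) x : ℝ) * pr σ x := by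
  have h1 := (summable_DZ hM hd (s := ((σ + 2 : ℝ) : ℂ)) (by
    rw [Complex.ofReal_re]; linarith)).norm
  refine Summable.of_nonneg_of_le (fun x => mul_nonneg (Nat.cast_nonneg _) (pr_nonneg _ _))
    (fun x => ?_) (h1.mul_left 2)
  by_cases hx : x.2 = 0
  · obtain ⟨p, n⟩ := x
    simp only at hx
    subst hx
    simp [pr, pw]
  · rw [norm_mul, norm_pw, Complex.norm_intCast, Complex.ofReal_re, DZ_cyc ha hu f₀ hx]
    have h3 := pow_mul_pr 2 (σ + 2) x
    have e3 : σ + 2 - ((2 : ℕ) : ℝ) = σ := by push_cast; ring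
    rw [e3] at h3
    rw [← h3]
    have hq2 : (2 : ℝ) ≤ (x.1 : ℝ) ^ x.2 := by
      have h2 : (2 : ℝ) ≤ (x.1 : ℝ) := by exact_mod_cast x.1.2.two_le
      calc (2 : ℝ) ≤ x.1 := h2
        _ = (x.1 : ℝ) ^ 1 := (pow_one _).symm
        _ ≤ (x.1 : ℝ) ^ x.2 := by
            apply pow_le_pow_right₀ (by linarith)
            omega
    push_cast
    set q : ℝ := (x.1 : ℝ) ^ x.2
    have hN0 : (0 : ℝ) ≤ hN (CC R₀ a) x := by positivity
    rw [abs_of_nonneg (mul_nonneg (mul_nonneg (by linarith) (by linarith)) hN0)]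
    have hp := pr_nonneg (σ + 2) x
    have h5 : q ^ 2 ≤ 2 * (q * (q - 1)) := by nlinarith
    calc (hN (CC R₀ a) x : ℝ) * (q ^ 2 * pr (σ + 2) x)
        = q ^ 2 * (hN (CC R₀ a) x * pr (σ + 2) x) := by ring
      _ ≤ 2 * (q * (q - 1)) * (hN (CC R₀ a) x * pr (σ + 2) x) :=
          mul_le_mul_of_nonneg_right h5 (by positivity)
      _ = 2 * (q * (q - 1) * hN (CC R₀ a) x * pr (σ + 2) x) := by ring

lemma LD_cyc {s : ℂ} (hs : d + 2 < s.re) :
    LD (X ^ a - C f₀) s = LZ (CC R₀ a) (s - 2) - LZ (CC R₀ a) (s - 1) := by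
  have h1 : Summable fun x : Nat.Primes × ℕ => (hN (CC R₀ a) x : ℂ) * pw (s - 2) x := by
    rw [← summable_norm_iff]
    simp only [norm_mul, Complex.norm_natCast, norm_pw]
    apply summable_CC ha hu hM hd
    simp only [Complex.sub_re, Complex.re_ofNat]
    linarith
  have h2 : Summable fun x : Nat.Primes × ℕ => (hN (CC R₀ a) x : ℂ) * pw (s - 1) x := by
    rw [← summable_norm_iff]
    simp only [norm_mul, Complex.norm_natCast, norm_pw]
    apply summable_CC ha hu hM hd
    simp only [Complex.sub_re, Complex.one_re]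
    linarith
  rw [LZ, LZ, ← h1.tsum_sub h2, LD]
  apply tsum_congr
  intro x
  by_cases hx : x.2 = 0
  · obtain ⟨p, n⟩ := x
    simp only at hx
    subst hx
    simp [pw]
  · rw [DZ_cyc ha hu f₀ hx]
    have h3 := pow_mul_pw 2 s x
    have h4 := pow_mul_pw 1 s x
    push_cast at h3 h4
    rw [← h3, ← h4]
    push_cast
    ring

/-- The factorisation of the Euler product. -/
theorem cyc_factor (hd0 : 0 ≤ d) :
    ∃ H : ℂ → ℂ, DifferentiableOn ℂ H {s : ℂ | d + r + k - 1 / 4 < s.re} ∧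
      ∀ s : ℂ, d + r + k + 1 / 2 < s.re →
        HasProd (fun m : MaximalSpectrum ((family (X ^ a - C f₀) k Δ).power r).R =>
          localFactor ((family (X ^ a - C f₀) k Δ).power r).P m s)
          (Complex.exp (H s) * ((∏' m : MaximalSpectrum (CC R₀ a),
            (1 - (qy m : ℂ) ^ (-(s - (r + k))))⁻¹) ^ r)⁻¹) := by
  refine ⟨fun s => HP (X ^ a - C f₀) Δ r s + r * LZ (CC R₀ a) (s - (r + k) + 1), ?_, ?_⟩
  · apply DifferentiableOn.add (differentiableOn_HP hM hd)
    apply DifferentiableOn.const_mul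
    intro s hs
    have hs' : d + r + k - 1 / 4 < s.re := hs
    have h1 : d < (s - ((r : ℂ) + k) + 1).re := by
      simp only [Complex.sub_re, Complex.add_re, Complex.natCast_re, Complex.one_re]
      linarith
    have h2 := (analyticAt_LZ (fun σ hσ => summable_CC ha hu hM hd hσ) h1).differentiableAt
    have h3 : DifferentiableAt ℂ (fun s : ℂ => LZ (CC R₀ a) (s - ((r : ℂ) + k) + 1)) s := by
      have h4 : DifferentiableAt ℂ (fun s : ℂ => s - ((r : ℂ) + k) + 1) s := by fun_prop
      exact DifferentiableAt.comp (f := fun s : ℂ => s - ((r : ℂ) + k) + 1) s h2 h4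
    exact h3.differentiableWithinAt
  · intro s hs
    have h := hasProd_factor hM hd hs rfl
    have hr : 0 < (s - ((r : ℂ) + k)).re := by
      simp only [Complex.sub_re, Complex.add_re, Complex.natCast_re]
      linarith
    have hr' : d < (s - ((r : ℂ) + k)).re := by
      simp only [Complex.sub_re, Complex.add_re, Complex.natCast_re]
      linarith
    have h2 := hasProd_LZ' hr (summable_CC ha hu hM hd hr')
    have e1 : LD (X ^ a - C f₀) (s - (r + k) + 2) = LZ (CC R₀ a) (s - (r + k)) -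
        LZ (CC R₀ a) (s - (r + k) + 1) := by
      rw [LD_cyc ha hu hM hd (by
        simp only [Complex.sub_re, Complex.add_re, Complex.natCast_re, Complex.re_ofNat]
        linarith)]
      congr 2
      · ring
      · ring
    rw [e1] at h
    have e2 : (∏' m : MaximalSpectrum (CC R₀ a), (1 - (qy m : ℂ) ^ (-(s - ((r : ℂ) + k))))⁻¹) =
        Complex.exp (LZ (CC R₀ a) (s - (r + k))) := h2.tprod_eq
    rw [e2]
    convert h using 1
    rw [← Complex.exp_nat_mul, ← Complex.exp_nat_mul, ← Complex.exp_neg, ← Complex.exp_neg,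
      ← Complex.exp_add, ← Complex.exp_add]
    congr 1
    ring

/-- The continuation of the Euler product. -/
theorem cyc_cont (hd0 : 0 ≤ d) {ε : ℝ} (hε : 0 < ε) (hε1 : ε ≤ 1 / 4) {Z : ℂ → ℂ}
    (hZm : MeromorphicOn Z {s : ℂ | d - ε < s.re})
    (hZ : ∀ s : ℂ, d < s.re →
      HasProd (fun m : MaximalSpectrum (CC R₀ a) => (1 - (qy m : ℂ) ^ (-s))⁻¹) (Z s)) :
    ∃ Φ : ℂ → ℂ, MeromorphicOn Φ {s : ℂ | d + r + k - ε < s.re} ∧
      (∀ s : ℂ, d + r + k + 1 / 2 < s.re →
        HasProd (fun m : MaximalSpectrum ((family (X ^ a - C f₀) k Δ).power r).R =>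
          localFactor ((family (X ^ a - C f₀) k Δ).power r).P m s) (Φ s)) ∧
      meromorphicOrderAt Φ ((d : ℂ) + r + k) = -(r * meromorphicOrderAt Z (d : ℂ)) := by
  have hana : ∀ s : ℂ, d - ε < s.re →
      AnalyticAt ℂ (fun s : ℂ => Complex.exp (-LZ (CC R₀ a) (s + 1))) s := by
    intro s hs
    have h1 : d < (s + 1).re := by
      simp only [Complex.add_re, Complex.one_re]
      linarith
    have h2 := analyticAt_LZ (fun σ hσ => summable_CC ha hu hM hd hσ) h1
    have h3 : AnalyticAt ℂ (fun s : ℂ => LZ (CC R₀ a) (s + 1)) s := by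
      have h4 : AnalyticAt ℂ (fun s : ℂ => s + 1) s := analyticAt_id.add analyticAt_const
      exact AnalyticAt.comp (f := fun s : ℂ => s + 1) h2 h4
    exact h3.neg.cexp
  have hWm : MeromorphicOn (fun s => Z s * Complex.exp (-LZ (CC R₀ a) (s + 1)))
      {s : ℂ | d - ε < s.re} := fun s hs => (hZm s hs).mul (hana s hs).meromorphicAt
  have hW : ∀ s : ℂ, d < s.re → Z s * Complex.exp (-LZ (CC R₀ a) (s + 1)) =
      Complex.exp (LD (X ^ a - C f₀) (s + 2)) := by
    intro s hs
    have h2 := hasProd_LZ' (R := CC R₀ a) (s := s) (by linarith)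
      (summable_CC ha hu hM hd hs)
    rw [(hZ s hs).unique h2, LD_cyc ha hu hM hd (by
      simp only [Complex.add_re, Complex.re_ofNat]; linarith), ← Complex.exp_add]
    congr 1
    have e1 : s + 2 - 2 = s := by ring
    have e2 : s + 2 - 1 = s + 1 := by ring
    rw [e1, e2]
    ring
  obtain ⟨Φ, h1, h2, h3⟩ := rel_cont hM hd hε hε1 hWm hW
  refine ⟨Φ, h1, h2, ?_⟩
  rw [h3]
  have h4 : meromorphicOrderAt (fun s => Z s * Complex.exp (-LZ (CC R₀ a) (s + 1))) (d : ℂ)
      = meromorphicOrderAt Z (d : ℂ) := by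
    have h5 := hana (d : ℂ) (by rw [Complex.ofReal_re]; linarith)
    have h6 := meromorphicOrderAt_mul_of_ne_zero (f := Z) h5 (Complex.exp_ne_zero _)
    rw [← h6]
    congr 1
    ext s
    simp only [Pi.mul_apply]
    ring
  rw [h4]

end cont

end Pool.Agent.CAB
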